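import Pool.Agent.MP_f3836a_nt.GQ.SpecH
import Pool.Agent.MP_f3836a_nt.PK.SSch
import Pool.Agent.MP_f3836a_nt.VE.WSc
import Pool.Agent.MP_f3836a_nt.VE.ZSb

/-! Part GQ: the charts of a projective scheme. -/

set_option autoImplicit false

namespace Pool.Agent.MP_f3836a_nt.GQ.E

open IsLocalRing AlgebraicGeometry CategoryTheory PK VE.W VE.Z GP R Order MvPolynomial

theorem hCh : ChS := by
  classical
  intro Y N P fr H
  refine ⟨rSchA Y, H.cl, fun y z z' h h' => ?_, fun y => ?_, fun y W hW => ?_⟩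
  · obtain ⟨i, hi⟩ := H.good y
    obtain ⟨E, c⟩ := sc_ex H y i hi
    exact c.le H hi h h'
  · obtain ⟨i₀, h₀⟩ := H.good y
    obtain ⟨E₀, -⟩ := sc_ex H y i₀ h₀
    have : ∀ i, ∃ E, X i ∉ P y → Ch P fr y i E := fun i => by
      by_cases h : X i ∈ P y
      · exact ⟨E₀, fun k => absurd h k⟩
      · exact (sc_ex H y i h).imp fun _ k _ => k
    choose E c using this
    refine ⟨(fun i => (E i).range) '' {i | X i ∉ P y}, (Set.toFinite _).image _, ?_,
      fun z h => ?_⟩
    · rintro _ ⟨i, hi, rfl⟩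
      refine ⟨zd_ft (E i), fun z => ?_, fun q _ => (c i hi).of H hi q⟩
      obtain ⟨a, rfl⟩ := (SComp.range_refl (specializes_refl y)).ge (Subring.mem_top z)
      obtain ⟨n, A, B, hA, hB, k, rfl⟩ := H.surj y a
      exact ⟨⟨_, A, rfl⟩, ⟨_, B, rfl⟩, fun e => k (((c i hi).zero H hi hB).1 e),
        (c i hi).val y _ n A B hA hB k⟩
    · obtain ⟨i, hi⟩ := H.good z
      have k : X i ∉ P y := fun k => hi ((H.le _ _).1 h k)
      obtain ⟨q, hq, m⟩ := (c i k).to H h hi
      exact ⟨_, ⟨i, k, rfl⟩, q, hq, (c i k).loc H _ q m⟩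
  · obtain ⟨i₀, h₀⟩ := H.good y
    obtain ⟨E₀, c₀⟩ := sc_ex H y i₀ h₀
    let A : ValuationSubring (Y.residueField y) := ⟨W, hW⟩
    have : IsLocalRing W := inferInstanceAs (IsLocalRing A)
    obtain ⟨i, hi⟩ := Finite.exists_max fun i => A.valuation (E₀ (X i))
    have p : 0 < A.valuation (E₀ (X i)) := by
      refine lt_of_lt_of_le ?_ (hi i₀)
      rw [c₀.one, map_one]
      exact zero_lt_one
    have n0 : E₀ (X i) ≠ 0 := fun e => by
      rw [e, map_zero] at p
      exact p.false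
    have k : X i ∉ P y := fun k => n0 ((c₀.zero H h₀ (isHomogeneous_X _ _)).2 k)
    obtain ⟨E, c⟩ := sc_ex H y i k
    have hle : E.range ≤ W := (zd_le E W).2 fun j => by
      have e : E (X j) = E₀ (X j) / E₀ (X i) := by
        rw [← c₀.val y (specializes_refl y) 1 _ _ (isHomogeneous_X _ j) (isHomogeneous_X _ _) k,
          ← c.val y (specializes_refl y) 1 _ _ (isHomogeneous_X _ j) (isHomogeneous_X _ _) k,
          c.one, mul_one, mul_div_cancel_right₀ _ n0]
      rw [e]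
      refine (A.valuation_le_one_iff _).1 ?_
      rw [map_div₀]
      exact (div_le_one₀ p).2 (hi j)
    obtain ⟨q, hq, d⟩ := zb_cen hle
    obtain ⟨z, h, e⟩ := c.of H k q
    exact ⟨z, h, (show (PT.ev h).range = lc _ q from e) ▸ d⟩

end Pool.Agent.MP_f3836a_nt.GQ.E
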