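import Pool.Agent.MP_f3836a_nt.GQ.SpecH
import Pool.Agent.MP_f3836a_nt.GP.GVal

/-! Part GQ: the field of constants. -/

set_option autoImplicit false

namespace Pool.Agent.MP_f3836a_nt.GQ.E

open IsLocalRing AlgebraicGeometry CategoryTheory PK VE.W VE.Z GP R Order

namespace HCs

theorem intR {A L : Type} [CommRing A] [IsRegularLocalRing A] [Field L] (f : A →+* L)
    (hf : Function.Injective f) (fr : Fr f.range) {c : L} (h : IsIntegral ℤ c) : c ∈ f.range := by
  let _ := f.toAlgebra
  have := hf.isDomain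
  have := rNorm A
  have : FaithfulSMul A L := (faithfulSMul_iff_algebraMap_injective A L).2 hf
  have : IsFractionRing A L := .of_field A L fun z => by
    obtain ⟨⟨_, a, rfl⟩, ⟨_, b, rfl⟩, b0, e⟩ := fr z
    exact ⟨a, b, eq_div_of_mul_eq b0 e⟩
  exact IsIntegrallyClosed.isIntegral_iff.1 (h.tower_top (A := A))

variable {X : Scheme.{0}} {η : X}

theorem int (hX : Chx X) (hG : Gnx X η) {z : X} (h : η ⤳ z) {c : X.residueField η}
    (hc : IsIntegral ℤ c) : c ∈ (PT.ev h).range := by
  obtain ⟨s, -, h1, h2⟩ := hX.ex η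
  obtain ⟨B, hB, q, _, e⟩ := h2 z h
  have := hG.reg z
  exact intR _ (hG.inj z h) (zb_fr (h1 B hB).2.1 (e ▸ le_lc B q)) hc

theorem alg (hX : Chx X) (hG : Gnx X η) {z : X} (h : η ⤳ z) (hz : CharZero (X.residueField z))
    {c : X.residueField η} (hc : IsAlgebraic ℤ c) : c ∈ (PT.ev h).range := by
  obtain ⟨n, n0, hn⟩ := hc.exists_integral_multiple
  obtain ⟨a, ha⟩ := int hX hG h hn
  obtain ⟨u, hu⟩ : IsUnit (n : X.presheaf.stalk z) := by_contra fun k => n0 (by
    have := (SComp.res_eq_zero z _).2 k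
    rwa [map_intCast (X.residue z).hom, Int.cast_eq_zero] at this)
  refine ⟨u⁻¹.1 * a, ?_⟩
  rw [map_mul, ha, zsmul_eq_mul, ← map_intCast (PT.ev h), ← hu, ← mul_assoc, ← map_mul,
    u.inv_mul, map_one, one_mul]

end HCs

theorem hCs : CstS := by
  intro X η C₀ hX hG hC
  have := hG.zero
  have hK : ∀ c : X.residueField η, c ∈ algebraicClosure ℚ (X.residueField η) ↔ IsAlgebraic ℤ c :=
    fun c => mem_algebraicClosure_iff.trans (IsFractionRing.isAlgebraic_iff ℤ ℚ _).symm
  choose r hr using fun z : X => SComp.exists_rs (hG.gen z) (PT.ev (hG.gen z)).range rfl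
  let e : ∀ z : X, CharZero (X.residueField z) →
      (algebraicClosure ℚ (X.residueField η) →+* X.residueField z) := fun z hz =>
    (r z).comp ((algebraicClosure ℚ (X.residueField η)).val.toRingHom.codRestrict _ fun c =>
      HCs.alg hX hG (hG.gen z) hz ((hK c).1 c.2))
  have he : ∀ z hz (c : algebraicClosure ℚ (X.residueField η)) (a : X.presheaf.stalk z),
      PT.ev (hG.gen z) a = c → e z hz c = X.residue z a := fun z hz c a h =>
    (congrArg (r z) (Subtype.ext h.symm)).trans (hr z a ⟨a, rfl⟩)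
  have h0 : ∀ hη c, e η hη c = c := fun hη c => by
    obtain ⟨a, ha⟩ := SComp.res_surj η c
    rw [he η hη c a ((congrArg (X.residue η) (sp_refl _ a)).trans ha), ha]
  refine ⟨algebraicClosure ℚ (X.residueField η), inferInstance, e, ?_, fun y z h hy hz c => ?_,
    fun hη c hc => ⟨⟨c, (hK c).2 hc⟩, h0 hη _⟩, fun hη c hc z h => ?_, fun c hc => ?_⟩
  · have k := e C₀ inferInstance
    exact @NumberField.mk _ _ _ (Module.Finite.of_injective k.toRatAlgHom.toLinearMap k.injective)
  · obtain ⟨a, ha⟩ := HCs.alg hX hG (hG.gen z) hz ((hK c).1 c.2)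
    exact ⟨a, (he y hy c (sp h a) ((ev_trans (hG.gen y) h a).symm.trans ha)).symm,
      (he z hz c a ha).symm⟩
  · exact HCs.int hX hG h (hc.map (e η hη).toIntAlgHom)
  · refine GVal.int_of c fun V _ => ?_
    obtain ⟨z, h, k⟩ := hX.cen η V.toSubring V.mem_or_inv_mem
    exact k.1 (hc z h)

end Pool.Agent.MP_f3836a_nt.GQ.E
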