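import Pool.Agent.MP_f3836a_nt.GQ.SpecH
import Pool.Agent.MP_f3836a_nt.PK.SFib
import Pool.Agent.MP_f3836a_nt.PK.Main3

/-! Part GQ: the components of the good fibres and vertical cycles. -/

set_option autoImplicit false

namespace Pool.Agent.MP_f3836a_nt.GQ.E

open IsLocalRing AlgebraicGeometry CategoryTheory PK VE.W VE.Z GP R Order

namespace HCx

open PK.SFib

variable {X : Scheme.{0}} {M e p : ℕ}

theorem prime (hG : GdX X M e) (hp : p.Prime) (hd : ¬p ∣ M) {x : X} (hx : IsClosed ({x} : Set X))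
    (h0 : (p : X.residueField x) = 0) : (Ideal.span {(p : X.presheaf.stalk x)}).IsPrime := by
  have := (hG x p hx hp hd h0).1
  exact (Ideal.Quotient.isDomain_iff_prime _).1 (rDom _)

theorem gen_of (hS : SchA X) (hG : GdX X M e) (hp : p.Prime) (hd : ¬p ∣ M) {y x : X} (h : y ⤳ x)
    (e : RingHom.ker (PS.ev h) = Ideal.span {(p : X.presheaf.stalk x)}) : IsGen p y := by
  intro x' h' hx'
  have h0 : (p : X.residueField y) = 0 := (memk h).1 e.ge
  obtain ⟨y', h₁, e₁⟩ := hS.ex x' _ (prime hG hp hd hx' (down hS h' h0))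
  have h₂ : y' ⤳ y := (hS.le y' y x' h₁ h').1 (e₁.le.trans ((memk h').2 h0))
  have h₃ : y ⤳ y' := (hS.le y y' x h (h₂.trans h)).1
    (e.le.trans ((memk _).2 ((memk h₁).1 e₁.ge)))
  exact le_antisymm (((hS.le y y' x' h' h₁).2 h₃).trans e₁.le) ((memk h').2 h0)

theorem eq_of {K : Type} [Field K] {p q : ℕ} (hp : p.Prime) (hq : q.Prime) (h : (p : K) = 0)
    (h' : (q : K) = 0) : p = q := by
  have := (CharP.charP_iff_prime_eq_zero hp).2 h
  exact (Nat.prime_dvd_prime_iff_eq hp hq).1 ((CharP.cast_eq_zero_iff K p q).1 h')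

end HCx

open HCx PK.SFib in
theorem hCx : CxS := by
  intro X M e hC hH hG
  have hS := hC.sch
  refine ⟨{y | ∃ p : ℕ, p.Prime ∧ ¬p ∣ M ∧ (p : X.residueField y) = 0 ∧ IsGen p y}, ?_, ?_, ?_⟩
  · rintro y ⟨p, hp, hd, h0, hy⟩
    have k : ∀ (x : X) (h : y ⤳ x), height x = 0 →
        IsRegularLocalRing (PT.ev h).range ∧ ringKrullDim (PT.ev h).range = e := fun x h hx => by
      have hx' := (hH.zero x).1 hx
      obtain ⟨h1, h2⟩ := hG x p hx' hp hd (down hS h h0)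
      let u := (Ideal.quotEquivOfEq (hy x h hx').symm).trans
        (RingHom.quotientKerEquivRange (PS.ev h))
      exact ⟨IsRegularLocalRing.of_ringEquiv u, (ringKrullDim_eq_of_ringEquiv u).symm.trans h2⟩
    refine ⟨fun h => hp.ne_zero (Nat.eq_zero_of_zero_dvd (h ▸ (ringChar.spec _ p).1 h0)),
      fun x h hx => ⟨(k x h hx).1, ?_⟩⟩
    have h1 := hH.le y e fun x h hx => (k x h hx).2.le
    obtain ⟨n, hn⟩ := ENat.ne_top_iff_exists.1 (ne_top_of_le_ne_top (ENat.coe_ne_top e) h1)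
    have h2 := hH.ge y x h n hn.ge
    rw [(k x h hx).2] at h2 ⊢
    rw [← hn] at h1 ⊢
    have h3 : n ≤ e := by exact_mod_cast h1
    have h4 : e ≤ n := by exact_mod_cast h2
    rw [le_antisymm h3 h4]; rfl
  · rintro z ⟨p, hp, hd, hz⟩
    obtain ⟨x, h, hx⟩ := hC.cl z
    obtain ⟨y, h₁, e₁⟩ := hS.ex x _ (HCx.prime hG hp hd hx (down hS h hz))
    exact ⟨y, ⟨p, hp, hd, (memk h₁).1 e₁.ge, HCx.gen_of hS hG hp hd h₁ e₁⟩,
      (hS.le y z x h₁ h).1 (e₁.le.trans ((memk h).2 hz))⟩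
  · rintro y ⟨p, hp, -, h0, hy⟩ y' ⟨q, hq, -, h0', hy'⟩ z h h'
    obtain rfl := eq_of hp hq (down hS h h0) (down hS h' h0')
    obtain ⟨x, h₁, hx⟩ := hC.cl z
    have e := (hy x (h.trans h₁) hx).trans (hy' x (h'.trans h₁) hx).symm
    exact (Specializes.antisymm ((hS.le y y' x _ _).1 e.le) ((hS.le y' y x _ _).1 e.ge)).eq

theorem hFx : FxS := by
  classical
  intro N X ι _ M Y hY φ hφ hg
  obtain ⟨n, hn, l, h1, h2⟩ := pFinal3 N X ι Y hY.reg φ
    ⟨hφ.ne, hφ.fin, fun C h => ⟨hφ.cv C h, hY.ex C (hg C h)⟩, hφ.div⟩ fun c hc => Or.inl (by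
      choose a ha using hc
      have k : ∀ y (hy : y ∈ Y) (z : X), y ⤳ z → (if h : ∃ y ∈ Y, y ⤳ z then
          a h.choose h.choose_spec.1 z else 0) = a y hy z := fun y hy z h => by
        have h' : ∃ y ∈ Y, y ⤳ z := ⟨y, hy, h⟩
        rw [dif_pos h']
        congr 1
        exact hY.uniq _ h'.choose_spec.1 y hy z h'.choose_spec.2 h
      refine ⟨fun z => if h : ∃ y ∈ Y, y ⤳ z then a h.choose h.choose_spec.1 z else 0,
        fun y hy C x h h' e e' => ?_⟩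
      simp only [k y hy C h, k y hy x (h.trans h')]
      exact ha y hy y rfl C x h h' e e')
  exact ⟨n, hn, l, fun a ha => ⟨(h1 a ha).1, (h1 a ha).2.2⟩, h2⟩

end Pool.Agent.MP_f3836a_nt.GQ.E
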