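import Pool.Agent.MP_f3836a_nt.GQ.SpecH

/-! Row HGx: almost all fibres are regular. -/

set_option autoImplicit false

namespace Pool.Agent.MP_f3836a_nt.GQ.E

open IsLocalRing AlgebraicGeometry CategoryTheory PK VE.W VE.Z GP R Order

namespace HGx

theorem iso {X : Scheme.{0}} {η z : X} (h : η ⤳ z) (inj : Function.Injective (PT.ev h))
    {B : Subring (X.residueField η)} (q : Ideal B) [q.IsPrime] (e : (PT.ev h).range = lc B q) :
    Nonempty (X.presheaf.stalk z ≃+* Localization.AtPrime q) :=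
  ⟨((RingEquiv.ofBijective (PT.ev h).rangeRestrict ⟨fun _ _ k => inj (congrArg Subtype.val k),
    RingHom.rangeRestrict_surjective _⟩).trans (RingEquiv.subringCongr e)).trans
      (IsLocalization.algEquiv q.primeCompl (lc B q) (Localization.AtPrime q)).toRingEquiv⟩

end HGx

open HGx in
theorem hGx : OfGx := by
  intro hD hG X η hX hH hη
  classical
  obtain ⟨s, fin, h1, h2⟩ := hX.ex η
  have := hη.zero
  have fr : ∀ B ∈ s, ∀ k, Dp B k ↔ Dp (X.residueField η) k := fun B hB =>
    (hD B).frac _ B.subtype Subtype.val_injective (h1 B hB).2.1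
  have ex : ∃ k, Dp (X.residueField η) k := by
    obtain ⟨B, hB, -⟩ := h2 η (specializes_refl η)
    exact ((hD B).ft (h1 B hB).1).imp fun k => (fr B hB k).1
  choose M M0 hM using fun B : s => @hG B.1 _ _ _ (h1 B B.2).1 (Nat.find ex)
    ((fr _ B.2 _).2 (Nat.find_spec ex)) (fun k hk => Nat.find_min' ex ((fr _ B.2 k).1 hk))
    fun q _ => by
      obtain ⟨z, h, e⟩ := (h1 B B.2).2.2 q
      obtain ⟨i⟩ := iso h (hη.inj z h) q e
      exact (hη.reg z).of_ringEquiv i
  have := fin.fintype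
  refine ⟨∏ B, M B, Nat.find ex, Finset.prod_ne_zero_iff.2 fun B _ => M0 B,
    fun x p hx hp hd h0 => ?_⟩
  obtain ⟨B, hB, q, hq, e⟩ := h2 x (hη.gen x)
  obtain ⟨i⟩ := iso _ (hη.inj x _) q e
  have : q.IsMaximal := by
    obtain ⟨m, hm, le⟩ := q.exists_le_maximal hq.ne_top
    obtain ⟨z, h, e'⟩ := (h1 B hB).2.2 m
    have h3 := specializes_iff_mem_closure.1 ((hX.le η z x h (hη.gen x)).2 (by
      rw [e, e']; exact ((wLc _ B).le m q).2 le))
    rw [hx.closure_eq] at h3
    obtain rfl : z = x := h3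
    rwa [le_antisymm le (((wLc _ B).le q m).1 (e.symm.trans e').le)]
  obtain ⟨a1, a2⟩ := hM ⟨B, hB⟩ q p hp
    (fun k => hd (k.trans (Finset.dvd_prod_of_mem _ (Finset.mem_univ _))))
    (((hH.dp η x _ B q e).2.1 p).2 h0)
  have := hη.reg x
  have a3 := rRegQ (X.presheaf.stalk x) (Nat.find ex) ((ringKrullDim_eq_of_ringEquiv i).trans a1) p
    ((residue_eq_zero_iff _).1 ((map_natCast _ p).trans h0)) fun k => a2 (by
      have k' := Ideal.mem_map_of_mem i.toRingHom k
      rwa [Ideal.map_pow, map_maximalIdeal_of_surjective _ i.surjective, map_natCast] at k')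
  exact ⟨a3.1, a3.2.1⟩

end Pool.Agent.MP_f3836a_nt.GQ.E
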