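import Pool.Agent.MP_f3836a_nt.GQ.SpecH

/-! Row HHd: heights and dimensions of local rings. -/

set_option autoImplicit false

namespace Pool.Agent.MP_f3836a_nt.GQ.E

open IsLocalRing AlgebraicGeometry CategoryTheory PK VE.W VE.Z GP R Order

namespace HHd

variable {X : Scheme.{0}} {y z : X}

theorem dim (h : y ⤳ z) : ringKrullDim (PS.ev h).range = krullDim
    (PrimeSpectrum.zeroLocus (R := X.presheaf.stalk z) (RingHom.ker (PS.ev h)))ᵒᵈ := by
  rw [krullDim_orderDual, ← ringKrullDim_quotient]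
  exact (ringKrullDim_eq_of_ringEquiv (RingHom.quotientKerEquivRange (PS.ev h))).symm

theorem eq_of (hx : IsClosed ({y} : Set X)) (h : y ⤳ z) : z = y := by
  have h1 := specializes_iff_mem_closure.1 h
  rwa [hx.closure_eq] at h1

theorem ge (hS : SchA X) (h : y ⤳ z) : ringKrullDim (PS.ev h).range ≤ height y := by
  choose w hw ew using hS.ex z
  let g : (PrimeSpectrum.zeroLocus (R := X.presheaf.stalk z) (RingHom.ker (PS.ev h)))ᵒᵈ →
      Set.Iic y := fun q =>
    ⟨w (OrderDual.ofDual q).1.asIdeal (OrderDual.ofDual q).1.isPrime,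
      (hS.le y _ z h (hw _ _)).1 (by
        rw [ew]
        exact (PrimeSpectrum.mem_zeroLocus _ _).1 (OrderDual.ofDual q).2)⟩
  rw [dim, height_eq_krullDim_Iic]
  refine krullDim_le_of_strictMono g fun q q' hq =>
    ⟨(hS.le _ _ z (hw _ _) (hw _ _)).1 ?_, fun h5 => hq.2 ?_⟩
  · rw [ew, ew]
    exact hq.1
  · have h6 := (hS.le _ _ z (hw _ _) (hw _ _)).2 h5
    rwa [ew, ew] at h6

theorem rz {h : y ⤳ z} {O : Subring (X.residueField y)} {r : O →+* X.residueField z}
    (e : O = (PS.ev h).range) (hr : SComp.Rs h O r) :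
    Function.Surjective r ∧ ∀ a, r a = 0 ↔ ¬IsUnit a := by
  subst e
  refine ⟨fun t => ?_, fun a => ⟨fun h0 hu => (hu.map r).ne_zero h0, ?_⟩⟩
  · obtain ⟨a, rfl⟩ := SComp.res_surj z t
    exact ⟨_, hr a ⟨_, rfl⟩⟩
  · obtain ⟨_, b, rfl⟩ := a
    intro hu
    rw [hr b, SComp.res_eq_zero]
    exact fun hb => hu (hb.map (PS.ev h).rangeRestrict)

end HHd

open HHd in
theorem hHd : OfHd := by
  intro hD X hX
  have hS := hX.sch
  have zero : ∀ x : X, height x = 0 ↔ IsClosed ({x} : Set X) := fun x =>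
    ⟨fun h0 => by
      obtain ⟨w, h, hw⟩ := hX.cl x
      rwa [(Specializes.antisymm h (height_eq_zero.1 h0 (show w ≤ x from h))).eq],
    Scheme.height_of_isClosed⟩
  refine ⟨zero, fun y z h n hn => (ge hS h).trans (WithBot.coe_le_coe.2 hn),
    fun y n H => height_le fun l hl => ?_, fun y z h B q _ e => ?_, fun x h0 => ?_,
    fun y z n h hy => ?_⟩
  · obtain ⟨x, hx, hx'⟩ := hX.cl l.head
    have h1 : ∀ i, l i ⤳ x := fun i => Specializes.trans (show l i ⤳ l.head from l.head_le i) hx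
    have h2 : ∀ i, y ⤳ l i := fun i => by
      have : l i ≤ l.last := l.monotone (Fin.le_last i)
      rwa [hl] at this
    have h0 := (h2 0).trans (h1 0)
    let l' : LTSeries (PrimeSpectrum.zeroLocus (R := X.presheaf.stalk x)
        (RingHom.ker (PS.ev h0)))ᵒᵈ :=
      ⟨l.length, fun i => OrderDual.toDual ⟨⟨RingHom.ker (PS.ev (h1 i)), RingHom.ker_isPrime _⟩,
        (PrimeSpectrum.mem_zeroLocus _ _).2 ((hS.le _ _ x h0 (h1 i)).2 (h2 i))⟩, fun i => by
        have h4 : l i.castSucc < l i.succ := l.step i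
        exact ⟨(hS.le _ _ x (h1 i.succ) (h1 i.castSucc)).2 h4.1,
          fun h5 => h4.2 ((hS.le _ _ x (h1 i.castSucc) (h1 i.succ)).1 h5)⟩⟩
    exact WithBot.coe_le_coe.1 ((LTSeries.length_le_krullDim l').trans
      ((dim h0).ge.trans (H x h0 ((zero x).2 hx'))))
  · obtain ⟨r, hr⟩ := SComp.exists_rs h _ e.symm
    obtain ⟨r1, r2⟩ := rz e.symm hr
    have k : ∀ a : B, a ∈ q ↔ r.comp (Subring.inclusion (le_lc B q)) a = 0 := fun a => by
      rw [RingHom.comp_apply, r2, (wLc _ B).unit, not_not]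
    refine ⟨by rw [e]; exact IsLocalization.AtPrime.ringKrullDim_eq_height q _,
      fun n => by rw [k, map_natCast], (hD (B ⧸ q)).frac _
        (Ideal.Quotient.lift q _ fun a => (k a).1)
        (RingHom.lift_injective_of_ker_le_ideal _ _ fun a => (k a).2) fun c => ?_⟩
    obtain ⟨⟨c, hc⟩, rfl⟩ := r1 c
    obtain ⟨a, b, hb, u⟩ := mem_lc.1 hc
    exact ⟨Ideal.Quotient.mk q a, Ideal.Quotient.mk q b, fun v => hb ((k b).2 v),
      (map_mul r _ _).symm.trans (congrArg r (Subtype.ext u))⟩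
  · obtain ⟨s, -, h1, h2⟩ := hX.ex x
    obtain ⟨B, hB, -⟩ := h2 x (specializes_refl x)
    obtain ⟨ft, fr, h3⟩ := h1 B hB
    obtain ⟨m, hm⟩ := Ideal.exists_maximal B
    obtain ⟨z, h, e⟩ := h3 m
    obtain rfl := eq_of ((zero x).1 h0) h
    have := za_fin m
    have : Finite B := Finite.of_injective (Ideal.Quotient.mk m) (by
      rw [RingHom.injective_iff_ker_eq_bot, Ideal.mk_ker]
      exact ((wLc _ B).top m fr).1 (e.symm.trans (SComp.range_refl h)))
    refine Finite.of_surjective (fun p : B × B => (p.1 / p.2 : X.residueField z)) fun c => ?_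
    obtain ⟨a, b, b0, u⟩ := fr c
    exact ⟨(a, b), (eq_div_of_mul_eq b0 u).symm⟩
  · rw [← map_natCast (X.residue z).hom]
    exact (SComp.res_eq_zero z n).2 fun hu =>
      (hu.map (PS.ev h)).ne_zero ((map_natCast _ n).trans hy)

end Pool.Agent.MP_f3836a_nt.GQ.E
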