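import Pool.Agent.MP_f3836a_nt.GQ.SpecH

/-! Part GQ: heights and transcendence degrees. -/

set_option autoImplicit false

namespace Pool.Agent.MP_f3836a_nt.GQ.E

open IsLocalRing AlgebraicGeometry CategoryTheory PK VE.W VE.Z GP R Order

namespace HHt

theorem ht_le (dp : DpS) (up : R.UpS) {B : Type} [CommRing B] [IsDomain B] (q : Ideal B)
    [hq : q.IsPrime] {k : ℕ} (h : Dp B k) :
    q.height ≤ (k + 1 : ℕ) ∧ ((∀ n : ℕ, (n : B) ∈ q → (n : B) = 0) → q.height ≤ k) := by
  have h0 : Dp (B ⧸ (⊥ : Ideal B)) k := ((dp B).ext _ (Ideal.Quotient.mk ⊥)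
    ((RingHom.injective_iff_ker_eq_bot _).2 Ideal.mk_ker) (fun c => isAlgebraic_algebraMap
      (⟨c, Ideal.Quotient.mk_surjective c⟩ : (Ideal.Quotient.mk (⊥ : Ideal B)).range)) k).1 h
  have key : ∀ p : LTSeries (PrimeSpectrum B), p.last = ⟨q, hq⟩ →
      ∃ p' : LTSeries (PrimeSpectrum B), p'.head.asIdeal = ⊥ ∧ p'.last.asIdeal = q ∧
        p.length ≤ p'.length := fun p e => by
    by_cases c : p.head = ⊥
    · exact ⟨p, congrArg _ c, congrArg _ e, le_rfl⟩
    · exact ⟨p.cons ⊥ (bot_lt_iff_ne_bot.2 c), by simp, by simp [e], by simp⟩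
  rw [PrimeSpectrum.height_eq_orderHeight ⟨q, hq⟩]
  refine ⟨Order.height_le fun p e => ?_, fun hn => Order.height_le fun p e => ?_⟩
  · obtain ⟨p', a, -, c⟩ := key p e
    exact_mod_cast c.trans (up B p' k (a ▸ h0)).1
  · obtain ⟨p', a, b, c⟩ := key p e
    exact_mod_cast c.trans ((up B p' k (a ▸ h0)).2 fun n u => a ▸ hn n (b ▸ u))

theorem chart (dp : DpS) {X : Scheme.{0}} (ch : Chx X) {y z : X} (h : y ⤳ z) :
    ∃ (B : Subring (X.residueField y)) (q : Ideal B) (_ : q.IsPrime), Algebra.FiniteType ℤ B ∧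
      Fr B ∧ (PT.ev h).range = lc B q ∧ ∀ k, Dp B k ↔ Dp (X.residueField y) k := by
  obtain ⟨s, -, a, b⟩ := ch.ex y
  obtain ⟨B, c, q, hq, e⟩ := b z h
  exact ⟨B, q, hq, (a B c).1, (a B c).2.1, e,
    (dp B).frac _ B.subtype Subtype.val_injective (a B c).2.1⟩

theorem fg {K : Type} [Field K] (B : Subring K) (h : Algebra.FiniteType ℤ B) (f : Fr B) :
    ∃ s : Finset K, Subfield.closure (s : Set K) = ⊤ := by
  classical
  obtain ⟨s, hs⟩ := h.out
  refine ⟨s.image Subtype.val, eq_top_iff.2 fun z _ => ?_⟩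
  generalize hT : Subfield.closure ((s.image Subtype.val : Finset K) : Set K) = T
  have k : ∀ b : B, (b : K) ∈ T := fun b => by
    have : Algebra.adjoin ℤ (s : Set B) ≤ subalgebraOfSubring (T.toSubring.comap B.subtype) :=
      Algebra.adjoin_le fun x hx => by
        subst hT
        exact Subfield.subset_closure (Finset.mem_coe.2 (Finset.mem_image_of_mem _ hx))
    rw [hs] at this
    exact this Algebra.mem_top
  obtain ⟨a, b, c, e⟩ := f z
  rw [eq_div_of_mul_eq c e]
  exact div_mem (k a) (k b)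

theorem nf {K : Type} [Field K] [CharZero K] {s : Finset K} (h : Subfield.closure (s : Set K) = ⊤)
    (a : ∀ c : K, IsAlgebraic ℤ c) : NumberField K := by
  have e : IntermediateField.adjoin ℚ (s : Set K) = ⊤ := eq_top_iff.2 fun z _ =>
    (h.ge.trans (Subfield.closure_le (t := (IntermediateField.adjoin ℚ (s : Set K)).toSubfield).2
      (IntermediateField.subset_adjoin ℚ _))) (Subfield.mem_top z)
  have := IntermediateField.finiteDimensional_adjoin (K := ℚ) (S := (s : Set K)) fun x _ =>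
    ((a x).extendScalars (R := ℤ) (S := ℚ) (RingHom.injective_int _)).isIntegral
  rw [e] at this
  exact { to_finiteDimensional := IntermediateField.topEquiv.toLinearEquiv.finiteDimensional }

theorem ncz (K : Type) [Field K] [Finite K] : ¬CharZero K := fun _ =>
  (Infinite.of_injective _ (Nat.cast_injective (R := K))).not_finite ‹_›

end HHt

open HHt in
theorem hHt : OfHt := by
  intro dp us ls X ch hd
  have up : ∀ (y : X) (k : ℕ), Dp (X.residueField y) k → height y ≤ (k + 1 : ℕ) :=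
    fun y k hk => hd.le y _ fun x h _ => by
      obtain ⟨B, q, _, -, -, e, f⟩ := chart dp ch h
      rw [(hd.dp y x h B q e).1]
      exact_mod_cast (ht_le dp us q ((f k).2 hk)).1
  have rel : ∀ (y z : X) (h : y ⤳ z) (a j : ℕ), CharZero (X.residueField y) →
      ¬CharZero (X.residueField z) → ringKrullDim (PT.ev h).range ≤ (a + 1 : ℕ) →
      Dp (X.residueField z) j → Dp (X.residueField y) (a + j) := fun y z h a j c c' u v => by
    obtain ⟨B, q, _, _, -, e, f⟩ := chart dp ch h
    obtain ⟨d1, d2, d3⟩ := hd.dp y z h B q e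
    obtain ⟨n, n1, n2⟩ : ∃ n : ℕ, (n : X.residueField z) = 0 ∧ n ≠ 0 := by
      by_contra k
      exact c' (charZero_of_inj_zero fun n t => by_contra fun t' => k ⟨n, t, t'⟩)
    rw [d1] at u
    exact (f _).1 ((ls B q a j ((d3 j).2 v)).2 n (Nat.cast_ne_zero.2 n2) ((d2 n).2 n1)
      (by exact_mod_cast u))
  have low' : ∀ (y : X) (k : ℕ), CharZero (X.residueField y) → height y ≤ (k + 1 : ℕ) →
      Dp (X.residueField y) k := fun y k c u => by
    obtain ⟨x, h, t⟩ := ch.cl y
    have := hd.fin x ((hd.zero x).2 t)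
    exact rel y x h k 0 c (ncz _) (hd.ge y x h _ u) ((dp _).fin this)
  have gen : ∀ y : X, ∃ s : Finset (X.residueField y),
      Subfield.closure (s : Set (X.residueField y)) = ⊤ := fun y => by
    obtain ⟨B, q, _, a, b, -⟩ := chart dp ch (specializes_refl y)
    exact fg B a b
  refine ⟨up, fun y k c hk => hd.le y _ fun x h _ => ?_, fun y k u => ?_, low', rel,
    fun C c => ⟨fun e => ?_, fun e => le_antisymm (up C 0 (((dp _).zero c).2 fun t => ?_))
      (Order.one_le_iff_ne_zero.2 fun z => ?_)⟩,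
    fun y c => ⟨fun e => ⟨gen y, ((dp _).one c).1 (low' y 1 c e.le), ?_⟩,
      fun ⟨_, a, t, b⟩ => le_antisymm (up y 1 (((dp _).one c).2 a))
        (Order.add_one_le_of_lt (not_le.1 fun u => b (((dp _).zero c).1 (low' y 0 c u) t)))⟩⟩
  · obtain ⟨B, q, hq, -, -, e, f⟩ := chart dp ch h
    rw [(hd.dp y x h B q e).1]
    obtain ⟨p, hp⟩ := CharP.exists (X.residueField y)
    have pp : p.Prime := (CharP.char_is_prime_or_zero (X.residueField y) p).resolve_right fun z =>
      c (by subst z; exact CharP.charP_to_charZero _)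
    exact_mod_cast (ht_le dp us q ((f k).2 hk)).2 fun n t => (CharP.cast_eq_zero_iff B p n).2
      (by_contra fun w => hq.ne_top (q.eq_top_of_isUnit_mem t ((CharP.isUnit_natCast_iff pp).2 w)))
  · obtain ⟨x, h, t⟩ := ch.cl y
    obtain ⟨B, q, _, _, -, e, f⟩ := chart dp ch h
    obtain ⟨d1, -, d3⟩ := hd.dp y x h B q e
    have v := hd.ge y x h _ u
    rw [d1] at v
    exact (f _).1 ((ls B q k 0 ((d3 0).2 ((dp _).fin (hd.fin x ((hd.zero x).2 t))))).1
      (by exact_mod_cast v))
  · obtain ⟨s, hs⟩ := gen C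
    exact nf hs (((dp _).zero c).1 (low' C 0 c e.le))
  · exact (IsFractionRing.isAlgebraic_iff ℤ ℚ _).2 (Algebra.IsAlgebraic.isAlgebraic t)
  · have := hd.fin C z
    exact ncz _ c
  · by_contra k
    have := e.ge.trans (up y 0 (((dp _).zero c).2 fun t => by_contra fun w => k ⟨t, w⟩))
    exact absurd this (by decide)

end Pool.Agent.MP_f3836a_nt.GQ.E
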