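import Pool.Agent.MP_f3836a_nt.GQ.SpecL

/-! Part GQ: the larger model. -/

set_option autoImplicit false

namespace Pool.Agent.MP_f3836a_nt.GQ

open Polynomial IsLocalRing PK VE.W VE.Z GP

namespace LBl

variable {L ι : Type} [Field L] {ξ : ι → L} {τ : L}

theorem cht (hτ : τ ≠ 0) {S : Subring L} (p : ι ⊕ ι) (hp : bl ξ τ p ≠ 0)
    (h : ∀ j, bl ξ τ j / bl ξ τ p ∈ S) :
    ∃ i, ξ i ≠ 0 ∧ (∀ j, ξ j / ξ i ∈ S) ∧ (τ ∈ S ∨ τ⁻¹ ∈ S) := by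
  rcases p with i | i
  · have h0 : ξ i ≠ 0 := left_ne_zero_of_mul hp
    refine ⟨i, h0, fun j => ?_, .inr ?_⟩
    · rw [← mul_div_mul_right _ _ hτ]; exact h (.inl j)
    · rw [← div_mul_cancel_left₀ h0]; exact h (.inr i)
  · refine ⟨i, hp, fun j => h (.inr j), .inl ?_⟩
    rw [← mul_div_cancel_left₀ τ hp]; exact h (.inl i)

theorem ch_le {S : Subring L} {i : ι} (h : ∀ j, ξ j / ξ i ∈ S) : Ch ξ i ≤ S :=
  Subring.closure_le.2 (Set.range_subset_iff.2 h)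

theorem mem_ch (i j : ι) : ξ j / ξ i ∈ Ch ξ i := Subring.subset_closure ⟨j, rfl⟩

theorem frac {B B' : Subring L} (m : Ideal B) [m.IsPrime] (h : B ≤ B') (ht : τ ∈ B') {x : L}
    (hx : x ∈ Bl (lc B m) τ) : ∃ s ∈ B', Ut (lc B m) s ∧ x * s ∈ B' := by
  induction hx using Subring.closure_induction with
  | mem x hx =>
    rcases hx with rfl | hx
    · exact ⟨1, B'.one_mem, ut_one, by simpa using ht⟩
    · obtain ⟨a, b, hb, e⟩ := mem_lc.1 hx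
      have h0 : (b : L) ≠ 0 := fun z =>
        hb (by rw [show b = 0 from Subtype.ext z]; exact m.zero_mem)
      exact ⟨b, h b.2, ⟨h0, le_lc B m b.2, mem_lc.2 ⟨1, b, hb, inv_mul_cancel₀ h0⟩⟩, e ▸ h a.2⟩
  | zero => exact ⟨1, B'.one_mem, ut_one, by simp⟩
  | one => exact ⟨1, B'.one_mem, ut_one, by simp⟩
  | add x y _ _ a b =>
    obtain ⟨s, s1, s2, s3⟩ := a
    obtain ⟨t, t1, t2, t3⟩ := b
    refine ⟨s * t, B'.mul_mem s1 t1, s2.mul t2, ?_⟩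
    convert B'.add_mem (B'.mul_mem s3 t1) (B'.mul_mem t3 s1) using 1
    ring
  | neg x _ a => exact a.imp fun s k => ⟨k.1, k.2.1, neg_mul x s ▸ B'.neg_mem k.2.2⟩
  | mul x y _ _ a b =>
    obtain ⟨s, s1, s2, s3⟩ := a
    obtain ⟨t, t1, t2, t3⟩ := b
    exact ⟨s * t, B'.mul_mem s1 t1, s2.mul t2, mul_mul_mul_comm x s y t ▸ B'.mul_mem s3 t3⟩

theorem lc_eq {B C : Subring L} (h : B ≤ C) (q : Ideal C) [q.IsPrime]
    (hx : ∀ x ∈ C, ∃ s ∈ B, Ut C s ∧ x * s ∈ B) :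
    lc C q = lc B (q.comap (Subring.inclusion h)) := by
  ext z
  rw [mem_lc, mem_lc]
  refine ⟨fun ⟨a, b, hb, e⟩ => ?_, fun ⟨a, b, hb, e⟩ => ⟨⟨a, h a.2⟩, ⟨b, h b.2⟩, hb, e⟩⟩
  obtain ⟨s, s1, s2, s3⟩ := hx a a.2
  obtain ⟨t, t1, t2, t3⟩ := hx b b.2
  refine ⟨⟨_, B.mul_mem s3 t1⟩, ⟨_, B.mul_mem t3 s1⟩, fun k => hb ?_, by
    simp only [← e]; ring⟩
  have u := (ut_iff ⟨t * s, C.mul_mem t2.2.1 s2.2.1⟩).1 (t2.mul s2)
  refine (q.mul_unit_mem_iff_mem u).1 ?_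
  convert Ideal.mem_comap.1 k using 1
  exact Subtype.ext (mul_assoc _ _ _).symm

end LBl

open LBl

theorem lBl : OfBl := by
  intro _ L ι _ _ ξ hm τ hτ
  refine ⟨⟨hm.1.elim fun i h => ⟨.inr i, h⟩, fun p hp z => ?_⟩, fun S ⟨p, hp, h⟩ => ?_,
    fun A q _ ⟨i, hi, m, _, e⟩ => ?_, fun d F h => ⟨?_, ?_⟩⟩
  · obtain ⟨i, h0, h1, -⟩ := cht hτ p hp (mem_ch p)
    obtain ⟨a, b, hb, e⟩ := hm.2 i h0 z
    exact ⟨⟨a, ch_le h1 a.2⟩, ⟨b, ch_le h1 b.2⟩, hb, e⟩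
  · obtain ⟨i, h0, h1, h2⟩ := cht hτ p hp h
    exact ⟨⟨i, h0, h1⟩, h2⟩
  · subst e
    have t0 : τ ∈ Bl (lc _ m) τ := Subring.subset_closure (Set.mem_insert _ _)
    have a0 : lc _ m ≤ Bl (lc _ m) τ := fun _ k => Subring.subset_closure (Set.mem_insert_of_mem _ k)
    have h1 : Ch (bl ξ τ) (.inr i) ≤ Bl (lc _ m) τ := ch_le fun j => by
      rcases j with j | j
      · exact mul_div_right_comm (ξ j) τ (ξ i) ▸ Subring.mul_mem _ (a0 (le_lc _ m (mem_ch i j))) t0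
      · exact a0 (le_lc _ m (mem_ch i j))
    have h2 : τ ∈ Ch (bl ξ τ) (.inr i) := by
      have := mem_ch (ξ := bl ξ τ) (.inr i) (.inl i)
      rwa [show bl ξ τ (.inl i) / bl ξ τ (.inr i) = τ from mul_div_cancel_left₀ τ hi] at this
    refine ⟨.inr i, hi, _, inferInstance, lc_eq h1 q fun x hx => ?_⟩
    exact (frac m (ch_le fun j => mem_ch (ξ := bl ξ τ) (.inr i) (.inr j)) h2 hx).imp
      fun s k => ⟨k.1, k.2.1.mono a0, k.2.2⟩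
  · exact pow_le_pow_left' (Submodule.span_mono (by rintro _ ⟨j, rfl⟩; exact ⟨.inr j, rfl⟩)) d h
  · have h1 := Submodule.mul_mem_mul h
      (Submodule.pow_mem_pow _ (Submodule.mem_span_singleton_self (R := ℤ) τ) d)
    rw [← mul_pow, Submodule.span_mul_span] at h1
    refine pow_le_pow_left' (Submodule.span_mono ?_) d h1
    rintro _ ⟨_, ⟨j, rfl⟩, _, rfl, rfl⟩
    exact ⟨.inl j, rfl⟩

end Pool.Agent.MP_f3836a_nt.GQ
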