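import Pool.Agent.MP_f3836a_nt.GQ.SpecL

/-! Part GQ: a curve through a regular point given by a map to a field. -/

set_option autoImplicit false

namespace Pool.Agent.MP_f3836a_nt.GQ

open Polynomial IsLocalRing PK VE.W VE.Z GP

namespace LCv

variable {L κ : Type} [Field L] [Field κ]

/-- the residue map of the localization at the kernel -/
theorem exists_res (B : Subring L) (f : B →+* κ) [(RingHom.ker f).IsPrime] :
    ∃ r : lc B (RingHom.ker f) →+* κ,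
      ∀ (z : lc B (RingHom.ker f)) (a b : B), (z : L) * b = a → r z * f b = f a := by
  have hu : ∀ y : (RingHom.ker f).primeCompl, IsUnit (f y) := fun y =>
    isUnit_iff_ne_zero.2 fun h => y.2 h
  refine ⟨IsLocalization.lift (S := lc B (RingHom.ker f)) hu, fun z a b e => ?_⟩
  have e' : z * algebraMap B (lc B (RingHom.ker f)) b = algebraMap B _ a := Subtype.ext e
  rw [← IsLocalization.lift_eq (S := lc B (RingHom.ker f)) hu a, ← e', map_mul,
    IsLocalization.lift_eq]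

end LCv

theorem lCv : CvQ := by
  intro R L κ _ _ _ ψ φ x q _ w hq hrg h0 hx hne hne' hfr hw
  have hs : Function.Surjective ψ.rangeRestrict := ψ.rangeRestrict_surjective
  have hk : RingHom.ker ψ.rangeRestrict ≤ RingHom.ker φ := fun c hc =>
    h0 c (congrArg Subtype.val (RingHom.mem_ker.1 hc))
  obtain ⟨f, hf⟩ : ∃ f : ψ.range →+* κ, ∀ c, f (ψ.rangeRestrict c) = φ c :=
    ⟨ψ.rangeRestrict.liftOfSurjective hs ⟨φ, hk⟩, fun c =>
      RingHom.liftOfRightInverse_comp_apply _ _ _ ⟨φ, hk⟩ c⟩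
  have hle : RingHom.ker f ≤ q := fun b hb => by
    obtain ⟨c, rfl⟩ := hs b
    exact (hq c).2 (hx c ((hf c).symm.trans hb))
  have lA := VE.W.wLc L ψ.range
  have : (RingHom.ker f).IsPrime := RingHom.ker_isPrime f
  obtain ⟨q', hq', lk⟩ := lA.up q (RingHom.ker f) hle
  have h1 : H1 (lc _ q) (lc _ (RingHom.ker f)) := by
    refine ⟨q', hq', fun e => ?_, fun e => ?_, lk.eq.symm⟩
    · obtain ⟨c, hc, hc'⟩ := hne
      have : ψ.rangeRestrict c ∈ RingHom.ker f := (hf c).trans hc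
      rw [lk.bot.1 e] at this
      exact hc' (congrArg Subtype.val (Ideal.mem_bot.1 this))
    · obtain ⟨c, hc, hc'⟩ := hne'
      have : ψ.rangeRestrict c ∈ RingHom.ker f := lk.max.1 e ▸ (hq c).2 hc
      exact hc' ((hf c).symm.trans this)
  obtain ⟨dv, hDO, -⟩ := (rgA hrg).dvr _ h1
  obtain ⟨r, hr⟩ := LCv.exists_res ψ.range f
  have key : ∀ (z : lc _ (RingHom.ker f)) (P Q : R), (z : L) * ψ Q = ψ P → r z * φ Q = φ P :=
    fun z P Q e => by
      rw [← hf, ← hf]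
      exact hr z _ _ e
  have hdiv : ∀ P Q, φ Q ≠ 0 → ψ P / ψ Q * ψ Q = ψ P := fun P Q h =>
    div_mul_cancel₀ _ fun e => h (h0 Q e)
  refine ⟨_, r, h1, ⟨dv.dvr, dv.fr, fun t => ?_, fun a => ⟨fun e u => ?_, fun e => ?_⟩⟩,
    fun c => ⟨le_lc _ _ ⟨c, rfl⟩, ?_⟩, ?_⟩
  · obtain ⟨⟨_, P, rfl⟩, ⟨_, Q, rfl⟩, hb, e⟩ := hfr t
    have hz : ψ P / ψ Q ∈ lc _ (RingHom.ker f) :=
      mem_lc.2 ⟨ψ.rangeRestrict P, ψ.rangeRestrict Q, fun h => hb ((hf Q).symm.trans h),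
        hdiv P Q hb⟩
    exact ⟨⟨_, hz⟩, mul_right_cancel₀ hb ((key ⟨_, hz⟩ P Q (hdiv P Q hb)).trans e.symm)⟩
  · exact (u.map r).ne_zero e
  · by_contra h
    obtain ⟨c, b, hb, e'⟩ := mem_lc.1 a.2
    have hc : c ∉ RingHom.ker f := fun hc =>
      mul_ne_zero h hb ((hr a c b e').trans hc)
    have e'' : a * Subring.inclusion (le_lc _ _) b = Subring.inclusion (le_lc _ _) c :=
      Subtype.ext e'
    exact e (isUnit_of_mul_isUnit_left (e'' ▸ (lA.unit _ c).2 hc))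
  · simpa using key ⟨_, le_lc _ _ ⟨c, rfl⟩⟩ c 1 (by simp)
  · ext t
    rw [hw]
    constructor
    · rintro ⟨z, hz, rfl⟩
      obtain ⟨a, b, hb, e⟩ := mem_lc.1 (show (z : L) ∈ lc _ q from hz)
      obtain ⟨P, rfl⟩ := hs a
      obtain ⟨Q, rfl⟩ := hs b
      exact ⟨P, Q, fun h => hb ((hq Q).2 h), key z P Q e⟩
    · rintro ⟨P, Q, hQ, e⟩
      have hb : φ Q ≠ 0 := fun h => hQ (hx Q h)
      have hz : ψ P / ψ Q ∈ lc _ q :=
        mem_lc.2 ⟨ψ.rangeRestrict P, ψ.rangeRestrict Q, fun h => hQ ((hq Q).1 h), hdiv P Q hb⟩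
      exact ⟨⟨_, hDO hz⟩, hz,
        mul_right_cancel₀ hb ((key ⟨_, hDO hz⟩ P Q (hdiv P Q hb)).trans e.symm)⟩

end Pool.Agent.MP_f3836a_nt.GQ
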