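import Pool.Agent.MP_f3836a_nt.GQ.SpecL
import Pool.Agent.MP_f3836a_nt.GP.GPw

/-! Part GQ: functions with prescribed behaviour along the vertical curves. -/

set_option autoImplicit false

namespace Pool.Agent.MP_f3836a_nt.GQ

open Polynomial IsLocalRing PK VE.W VE.Z GP

namespace LFex

variable {L ι : Type} [Field L] {ξ : ι → L} {M : ℕ} {V V' : Subring L}

theorem pw [IsLocalRing V] [IsNoetherianRing V] (hd : Dm1 V) (b : V) (b0 : (b : L) ≠ 0) :
    ∃ N, ∀ w, Pw V N (w - b) → Ut V (w / b) := by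
  obtain ⟨n, hn⟩ := (Ideal.span {b}).exists_radical_pow_le_of_fg (IsNoetherian.noetherian _)
  refine ⟨n + 1, fun w h => ?_⟩
  have h1 := GPw.ind (Q := fun z => Nu V (z / b)) (by simpa using nu_zero)
    (fun x y hx hy => add_div x y (b : L) ▸ hx.add hy) (fun s c hs hc => by
      have : (⟨s, hs.1⟩ : V) ∈ (Ideal.span {b}).radical := by
        rw [Ideal.radical_eq_sInf, Submodule.mem_sInf]
        rintro q ⟨q1, q2⟩
        rw [eq_maximalIdeal (hd q q2 fun e => b0 (congrArg Subtype.val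
          (show b = 0 from Ideal.mem_bot.1 (e ▸ q1 (Ideal.mem_span_singleton_self b)))))]
        exact (nu_iff ⟨s, hs.1⟩).1 hs
      obtain ⟨d, e⟩ := Ideal.mem_span_singleton'.1 (hn (Ideal.pow_mem_pow this n))
      have e' : (d : L) * b = s ^ n := congrArg Subtype.val e
      rw [show s ^ (n + 1) * c / b = d * c * s by rw [pow_succ, ← e']; field_simp]
      exact hs.mul (V.mul_mem d.2 hc)) h
  have h2 := ut_one.add h1
  rwa [sub_div, div_self b0, add_sub_cancel] at h2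

theorem app {T : Finset (Subring L)} (crt : Crt T) (a : Subring L → L)
    (h : ∀ S ∈ T, a S ∈ S ∧ ∃ N, ∀ w, Pw S N (w - a S) → Ut S (w / a S)) :
    ∃ w, ∀ S ∈ T, Ut S (w / a S) := by
  choose! N hN using fun S k => (h S k).2
  obtain ⟨w, hw⟩ := crt a (T.sup N) fun S k => (h S k).1
  exact ⟨w, fun S k => hN S k w ((gPw L S).2.1 _ _ _ (Finset.le_sup k) (hw S k).2)⟩

theorem ne_top [CharZero L] (hM : M ≠ 0) (h : Nu V M) : V ≠ ⊤ := fun e =>
  h.not ⟨Nat.cast_ne_zero.2 hM, h.1, e ▸ Subring.mem_top _⟩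

theorem anti [CharZero L] (md : MdA ξ) (sf : SfA ξ) (hM : M ≠ 0) (h : Pv ξ M V) (h' : Pv ξ M V')
    (e : V ≤ V') : V = V' := by
  have := md.loc V h.1
  obtain ⟨q, hq, rfl⟩ := md.ov V V' h.1 h'.1 e
  have m := eq_maximalIdeal ((sf.tri V h.1).resolve_left h.2.1 q hq fun k =>
    ne_top hM h'.2.2 (((wLc L V).top q (md.fr V h.1)).2 k))
  refine le_antisymm e fun z hz => ?_
  obtain ⟨a, b, hb, k⟩ := mem_lc.1 hz
  have u : Ut V b := (ut_iff b).2 (notMem_maximalIdeal.1 (m ▸ hb))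
  rw [eq_div_of_mul_eq u.1 k, div_eq_mul_inv]
  exact V.mul_mem a.2 u.2.2

/-- approximation along the vertical curves -/
theorem key [CharZero L] (md : MdA ξ) (fm : FmA ξ) (sf : SfA ξ) (hM : M ≠ 0)
    {T : Set (Subring L)} (hT : T.Finite) (h : ∀ S ∈ T, Pt ξ S ∧ Alg S) (x : Subring L → L)
    (x0 : ∀ V, x V ≠ 0) :
    ∃ t, (∀ S ∈ T, Ut S t) ∧ ∀ V, Pv ξ M V → (∀ S ∈ T, ¬S ≤ V) → Ut V (t / x V) := by
  classical
  have f : (T ∪ {V | Pv ξ M V ∧ ∀ S ∈ T, ¬S ≤ V}).Finite :=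
    hT.union ((sf.zer M (Nat.cast_ne_zero.2 hM)).subset fun V k => ⟨k.1.1, k.1.2.1, k.1.2.2.not⟩)
  have m : ∀ S ∈ f.toFinset, S ∈ T ∨ Pv ξ M S ∧ ∀ S' ∈ T, ¬S' ≤ S := fun S k => f.mem_toFinset.1 k
  have crt := fm.crt f.toFinset (fun S k => (m S k).elim (fun k => (h S k).1) fun k => k.1.1)
    fun S k S' k' e => by
      rcases m S' k' with u | u
      · exact md.min S' S (h S' u).1 ((m S k).elim (fun k => (h S k).1) fun k => k.1.1) (h S' u).2 e
      · exact (m S k).elim (fun v => absurd e (u.2 S v)) fun v => anti md sf hM v.1 u.1 e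
  have ap : ∀ a : ∀ V : Subring L, V, (∀ V, Pt ξ V → (a V : L) ≠ 0) → ∃ w, (∀ S ∈ T, Ut S w) ∧
      ∀ V, Pv ξ M V → (∀ S ∈ T, ¬S ≤ V) → Ut V (w / a V) := fun a a0 => by
    obtain ⟨w, hw⟩ := app crt (fun S => if Alg S then 1 else a S) fun S k => by
      have p := (m S k).elim (fun k => (h S k).1) fun k => k.1.1
      have := md.loc S p
      have := md.noeth S p
      split_ifs with u
      · exact ⟨S.one_mem, 1, fun w e => by
          simpa using ut_of_nu ut_one ((gPw L S).2.2.1 ‹_› 1 _ one_pos e)⟩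
      · exact ⟨(a S).2, pw ((sf.tri S p).resolve_left u) _ (a0 S p)⟩
    exact ⟨w, fun S k => by simpa [(h S k).2] using hw S (f.mem_toFinset.2 (.inl k)),
      fun V k k' => by simpa [k.2.1] using hw V (f.mem_toFinset.2 (.inr ⟨k, k'⟩))⟩
  have fr : ∀ V : Subring L, ∃ a b : V, Pt ξ V → (b : L) ≠ 0 ∧ x V * b = a := fun V => by
    by_cases p : Pt ξ V
    · exact (md.fr V p (x V)).imp fun _ k => k.imp fun _ k _ => k
    · exact ⟨0, 0, fun k => absurd k p⟩
  choose a b hab using fr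
  obtain ⟨w, w1, w2⟩ := ap a fun V p => (hab V p).2 ▸ mul_ne_zero (x0 V) (hab V p).1
  obtain ⟨w', w1', w2'⟩ := ap b fun V p => (hab V p).1
  refine ⟨w / w', fun S k => (w1 S k).div (w1' S k), fun V k k' => ?_⟩
  have := (hab V k.1).1
  rw [show w / w' / x V = w / a V / (w' / b V) by rw [← (hab V k.1).2]; field_simp]
  exact (w2 V k k').div (w2' V k k')

end LFex

open LFex

theorem lFex : OfFex := fun hm hf hs L ι _ _ _ ξ ff md M D O g hM hD _ _ ho e => by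
  have sf := hs L ι ξ ff md
  obtain ⟨t, t1, t2⟩ := key (hm L ι ξ md) (hf L ι ξ md) sf hM (Set.finite_singleton D)
    (fun S k => k ▸ ⟨hD.1, hD.2.1⟩) (fun _ => g⁻¹) fun _ => inv_ne_zero e.ne
  refine ⟨t, t1 D rfl, fun V k => ?_⟩
  by_cases u : D ≤ V
  · exact (e.oth V ((sf.h1 D V hD.1 hD.2.1).2 ⟨k.1, u, k.2.1, ne_top hM k.2.2⟩)
      fun v => k.2.2.not (v ▸ ho_ut ho hM)).mul ((t1 D rfl).mono u)
  · simpa [mul_comm] using t2 V k fun S v => v ▸ u

theorem lTw2 : OfTw2 := fun hm hf hs L ι _ _ _ ξ ff md M E T hM hE dv hT h => by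
  classical
  have A := dvA dv
  obtain ⟨π, p0, p1⟩ := A.uni
  obtain ⟨t, t1, t2⟩ := key (hm L ι ξ md) (hf L ι ξ md) (hs L ι ξ ff md) hM hT
    (fun S k => ⟨(h S k).1, (h S k).2.1⟩) (fun V => if V = E then π else 1) fun V => by
      split_ifs
      exacts [p0, one_ne_zero]
  have u := (A.ut _).1 (by simpa using t2 E hE fun S k => (h S k).2.2 : Ut E (t / π))
  refine ⟨t, (div_ne_zero_iff.1 u.1).1, ?_, fun V k v => ?_, t1⟩
  · rw [← div_mul_cancel₀ t p0, A.mul _ _ u.1 p0, u.2, p1, zero_add]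
  · by_cases w : ∃ S ∈ T, S ≤ V
    · obtain ⟨S, w, w'⟩ := w
      exact (t1 S w).mono w'
    · simpa [v] using t2 V k fun S a b => w ⟨S, a, b⟩

end Pool.Agent.MP_f3836a_nt.GQ
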