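import Pool.Agent.MP_f3836a_nt.GQ.SpecL
import Pool.Agent.MP_f3836a_nt.GP.GVal
import Pool.Agent.MP_f3836a_nt.GP.TFf
import Pool.Agent.MP_f3836a_nt.GP.TFin

/-! Part GQ: flags on a place. -/

set_option autoImplicit false

namespace Pool.Agent.MP_f3836a_nt.GQ

open Polynomial IsLocalRing PK VE.W VE.Z GP

namespace LFl

variable {L : Type} [Field L] {O U : Subring L} [IsLocalRing O] {M : ℕ}

theorem ut_res (a : O) : Ut O a ↔ residue O a ≠ 0 := by
  rw [Ne, ← GVal.nu_res, nu_iff_not a.2, not_not]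

theorem su_of (u : O) (hu : Ut O u) (h : Um M (residue O u)) : SU O M u := by
  obtain ⟨n, h0, h1, h2, h3⟩ := h
  have key : ∀ v : O, IsIntegral ℤ ((n : ResidueField O) * residue O v) → Itg O (n * (v : L)) :=
    fun v k => (GVal.itg ((n : O) * v)).2 (by rwa [map_mul, map_natCast])
  exact ⟨n, h0, h1, key u h2, key ⟨_, hu.2.2⟩ (by rwa [GVal.res_inv hu])⟩

theorem ok_eq (e : U ≤ O) (a : O) : oK O U a = ordR (im O (residue O) U) (residue O a) := by
  rw [oK_eq, od, if_pos e, EDVA.res_mem a.2]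

variable (h : ∀ z, Nu O z → z ∈ U)

include h

theorem mem_im (a : O) : residue O a ∈ im O (residue O) U ↔ (a : L) ∈ U := by
  refine ⟨?_, fun k => ⟨a, k, rfl⟩⟩
  rintro ⟨b, hb, e⟩
  have := h _ ((GVal.nu_res (a - b)).2 (by rw [map_sub, e, sub_self]))
  simpa using U.add_mem this hb

theorem ut_im (a : O) (ha : Ut O a) : Ut (im O (residue O) U) (residue O a) ↔ Ut U a := by
  have e := mem_im h ⟨_, ha.2.2⟩
  rw [GVal.res_inv ha] at e
  exact and_congr ⟨fun _ => ha.1, fun _ => (ut_res a).1 ha⟩ (and_congr (mem_im h a) e)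

theorem nu_im (e : U ≤ O) (a : O) : Nu (im O (residue O) U) (residue O a) ↔ Nu U a := by
  rcases nu_or a.2 with n | u
  · rw [(GVal.nu_res a).1 n]
    exact ⟨fun _ => nu_down e (h _ n) n, fun _ => nu_zero⟩
  · exact ⟨fun k => (nu_iff_not ((mem_im h a).1 k.1)).2 fun z => k.not ((ut_im h a u).2 z),
      fun k => (nu_iff_not ((mem_im h a).2 k.1)).2 fun z => k.not ((ut_im h a u).1 z)⟩

theorem vr_im (hv : Vr U) : Vr (im O (residue O) U) := fun x => by
  obtain ⟨a, rfl⟩ := residue_surjective x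
  rcases nu_or a.2 with n | u
  · exact .inl ((mem_im h a).2 (h _ n))
  · exact (hv a).imp (mem_im h a).2 fun k => GVal.res_inv u ▸ (mem_im h ⟨_, u.2.2⟩).2 k

theorem nu_nat (e : U ≤ O) : Nu (im O (residue O) U) (M : ResidueField O) ↔ Nu U (M : L) := by
  simpa using nu_im h e (M : O)

omit h in
theorem bij (hO : Dvr O) : Set.BijOn (im O (residue O)) {U | Fl M O U}
    {w : Subring (ResidueField O) | Vr w ∧ Nu w M} := by
  have k : ∀ U, Vr U → U ≤ O → ∀ z, Nu O z → z ∈ U := fun U a b => ((gVal L O hO).1 U a b).2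
  refine ⟨fun U u => ⟨vr_im (k U u.1 u.2.1) u.1, (nu_nat (k U u.1 u.2.1) u.2.1).2 u.2.2⟩,
    fun U u U' u' e => ?_, fun w hw => ?_⟩
  · ext z
    by_cases hz : z ∈ O
    · rw [← mem_im (k U u.1 u.2.1) ⟨z, hz⟩, ← mem_im (k U' u'.1 u'.2.1) ⟨z, hz⟩, e]
    · exact ⟨fun a => absurd (u.2.1 a) hz, fun a => absurd (u'.2.1 a) hz⟩
  · have v := GVal.up_vr (dvA hO).val (ValuationSubring.ofSubring w hw.1)
    have l := GVal.up_le (ValuationSubring.ofSubring w hw.1)
    have e : im O (residue O) (GVal.up (ValuationSubring.ofSubring w hw.1)) = w := by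
      ext x
      obtain ⟨a, rfl⟩ := residue_surjective x
      exact (mem_im (k _ v l) a).trans (GVal.mem_up a)
    exact ⟨_, ⟨v, l, (nu_nat (k _ v l) l).1 (e.symm ▸ hw.2)⟩, e⟩

end LFl

open LFl in
theorem lFl : OfFl := by
  intro hN L _ _ M O hF M0 pl
  have := (dvA pl.1).loc
  have : CharZero (ResidueField O) := charZero_of_inj_zero fun n e => by_contra fun n0 =>
    (ut_res (n : O)).1 (by simpa using ho_ut pl.2 n0) (by simpa using e)
  have : NumberField (ResidueField O) :=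
    { to_finiteDimensional := (tFin L ((tFf L).1 hF)).fd O pl }
  obtain ⟨n1, n2, -, n4⟩ := hN (ResidueField O) M M0
  have B := bij (M := M) pl.1
  have k : ∀ U, Fl M O U → ∀ z, Nu O z → z ∈ U := fun U a => ((gVal L O pl.1).1 U a.1 a.2.1).2
  have d : ∀ U, Fl M O U → DvA (im O (residue O) U) := fun U a =>
    dvA (n2 _ (B.mapsTo a).1 (B.mapsTo a).2).1
  refine ⟨n1.of_injOn B.mapsTo B.injOn, fun U a => ⟨fun u u' b b' => ?_, fun u u' b b' c => ?_⟩,
    fun U u a b => ?_, fun U a => ⟨fun z b => ?_, ((gVal L O pl.1).1 U a.1 a.2.1).1⟩,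
    fun l hl hs => ?_⟩
  · have e := ok_eq a.2.1 (⟨u, b.2.1⟩ * ⟨u', b'.2.1⟩)
    rw [map_mul, (d U a).mul _ _ ((ut_res _).1 b) ((ut_res _).1 b'), ← ok_eq a.2.1,
      ← ok_eq a.2.1] at e
    exact_mod_cast e
  · have e := (GVal.nu_res (⟨u, b.2.1⟩ - ⟨u', b'.2.1⟩ : O)).1 c
    rw [map_sub, sub_eq_zero] at e
    rw [ok_eq a.2.1 ⟨u, b.2.1⟩, ok_eq a.2.1 ⟨u', b'.2.1⟩, e]
  · have b' := b.mono a.2.1
    rw [ok_eq a.2.1 ⟨u, b'.2.1⟩]
    exact (((d U a).ut _).1 ((ut_im (k U a) ⟨u, b'.2.1⟩ b').2 b)).2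
  · have b' := b.mono a.2.1
    obtain ⟨j, hj, e⟩ := (n2 _ (B.mapsTo a).1 (B.mapsTo a).2).2.1 _
      ((ut_im (k U a) ⟨z, b'.2.1⟩ b').2 b)
    exact ⟨j, hj, (nu_im (k U a) a.2.1 (⟨z, b'.2.1⟩ ^ j - 1)).1
      (by rwa [map_sub, map_pow, map_one])⟩
  · obtain ⟨s, hs'⟩ := (residue_surjective (R := O)).hasRightInverse
    have e : ∀ u : O, Ut O u → l (s (residue O u)) = l u := fun u b =>
      hl.cg _ _ ((ut_res _).2 (by rw [hs']; exact (ut_res u).1 b)) b
        ((GVal.nu_res (s (residue O u) - u)).2 (by rw [map_sub, hs', sub_self]))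
    obtain ⟨a, -, ha⟩ := n4 (fun x => l (s x)) (fun x y x0 y0 => by
      obtain ⟨u, rfl⟩ := residue_surjective x
      obtain ⟨u', rfl⟩ := residue_surjective y
      have b := (ut_res u).2 x0
      have b' := (ut_res u').2 y0
      simp only
      rw [← map_mul, e u b, e u' b', e (u * u') (b.mul b')]
      exact hl.mul _ _ b b') fun x x0 hx => by
        obtain ⟨u, rfl⟩ := residue_surjective x
        have b := (ut_res u).2 x0
        exact (e u b).trans (hs u b (su_of u b hx))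
    refine ⟨fun U => a (im O (residue O) U), fun u b => ?_⟩
    rw [← e ⟨u, b.2.1⟩ b, ha _ ((ut_res ⟨u, b.2.1⟩).1 b)]
    exact (finsum_mem_eq_of_bijOn _ B fun U c => by rw [← ok_eq c.2.1]).symm

theorem lBd : BdQ := by
  intro L _ M a D O pl F
  have f : {U | Fl M O U ∧ Dom D U}.Finite := F.fin.subset fun _ k => k.1
  refine ⟨⟨fun u u' b b' => ?_, fun u u' b b' c => ?_⟩, fun u b ⟨w, c, e⟩ => ?_,
    fun lam u q b c => ?_⟩
  · refine Eq.trans ?_ (finsum_mem_add_distrib f)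
    exact finsum_congr fun U => finsum_congr fun k => by
      rw [← mul_add]; exact congrArg _ ((F.fn U k.1).mul u u' b b')
  · exact finsum_congr fun U => finsum_congr fun k => congrArg _ ((F.fn U k.1).cg u u' b b' c)
  · refine finsum_mem_eq_zero_of_forall_eq_zero (s := {U | Fl M O U ∧ Dom D U}) fun U k => ?_
    have w1 := c.mono k.2.1
    have := (F.fn U k.1).cg u w b (w1.mono k.1.2.1) e
    rw [this, F.un U w k.1 w1, Int.cast_zero, mul_zero]
  · rw [q O u pl b]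
    refine finsum_mem_inter_support_eq' _ {U | Fl M O U} {U | Fl M O U ∧ Dom D U} fun U k =>
      ⟨fun z => ⟨z, by_contra fun n => k ?_⟩, And.left⟩
    simp only
    rw [F.un U u z (c U z n), Int.cast_zero, mul_zero]

end Pool.Agent.MP_f3836a_nt.GQ
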