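import Pool.Agent.MP_f3836a_nt.GQ.SpecL

/-! Part GQ: a generator for a branch. -/

set_option autoImplicit false

namespace Pool.Agent.MP_f3836a_nt.GQ

open Polynomial IsLocalRing PK VE.W VE.Z GP

namespace LG1

variable {κ : Type} [Field κ] {A w : Subring κ} {g : κ}

theorem ae_mem (e : A ≤ w) (hg : g ∈ w) (P : A[X]) : aeval g P ∈ w := by
  rw [aeval_eq_sum_range]
  exact w.sum_mem fun i _ => w.mul_mem (e (P.coeff i).2) (w.pow_mem hg i)

/-- fractions of polynomials in `g` -/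
def fr (A w : Subring κ) (g : κ) : Subring κ where
  carrier := {z | ∃ P Q : A[X], Ut w (aeval g Q) ∧ z * aeval g Q = aeval g P}
  mul_mem' := by
    rintro a b ⟨P, Q, u, e⟩ ⟨P', Q', u', e'⟩
    exact ⟨P * P', Q * Q', by rw [map_mul]; exact u.mul u', by
      rw [map_mul, map_mul, ← e, ← e']; ring⟩
  one_mem' := ⟨1, 1, by rw [map_one]; exact ut_one, by rw [one_mul]⟩
  add_mem' := by
    rintro a b ⟨P, Q, u, e⟩ ⟨P', Q', u', e'⟩
    exact ⟨P * Q' + P' * Q, Q * Q', by rw [map_mul]; exact u.mul u', by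
      rw [map_add, map_mul, map_mul, map_mul, ← e, ← e']; ring⟩
  zero_mem' := ⟨0, 1, by rw [map_one]; exact ut_one, by rw [zero_mul, map_zero]⟩
  neg_mem' := by
    rintro a ⟨P, Q, u, e⟩
    exact ⟨-P, Q, u, by rw [map_neg, ← e]; ring⟩

theorem ae_fr (P : A[X]) : aeval g P ∈ fr A w g :=
  ⟨P, 1, by rw [map_one]; exact ut_one, by rw [map_one, mul_one]⟩

theorem fr_le (e : A ≤ w) (hg : g ∈ w) : fr A w g ≤ w := by
  rintro z ⟨P, Q, u, h⟩
  have := w.mul_mem (ae_mem e hg P) u.2.2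
  rwa [← h, mul_assoc, mul_inv_cancel₀ u.1, mul_one] at this

theorem fr_ut {z : κ} (h : z ∈ fr A w g) (u : Ut w z) : Ut (fr A w g) z := by
  refine ⟨u.1, h, ?_⟩
  obtain ⟨P, Q, u', e⟩ := h
  exact ⟨Q, P, e ▸ u.mul u', by rw [← e, ← mul_assoc, inv_mul_cancel₀ u.1, one_mul]⟩

theorem ex_pow {v : Subring κ} (h : Dvr v) {t : κ} (t0 : t ≠ 0) (ht : Nu v t) (z : κ) :
    ∃ n : ℕ, z * t ^ n ∈ v := by
  rcases eq_or_ne z 0 with rfl | z0
  · exact ⟨0, by rw [zero_mul]; exact v.zero_mem⟩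
  have d := dvA h
  have p := ((d.nu t).1 ht).resolve_left t0
  refine ⟨(ordR v z).natAbs, (d.mem _ (mul_ne_zero z0 (pow_ne_zero _ t0))).2 ?_⟩
  rw [d.mul _ _ z0 (pow_ne_zero _ t0), ← zpow_natCast, d.zpow _ _ t0]
  have : -ordR v z ≤ ((ordR v z).natAbs : ℤ) := by omega
  nlinarith [Int.natCast_nonneg (ordR v z).natAbs]

theorem frac (hB : BrQ) (hA : Cu1 A) (hw : Br A w) (ug : Ut w g) (hn : g⁻¹ ∈ nrm A)
    (ho : ∀ w', Br A w' → w' ≠ w → Nu w' g⁻¹) {m : A[X]} (m0 : aeval g m ≠ 0)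
    (m1 : ordR w (aeval g m) = 1) (hr : ∀ z ∈ w, ∃ P : A[X], Nu w (z - aeval g P)) :
    w ≤ fr A w g := by
  obtain ⟨hf, -, -, hd, -, hN, -⟩ := hB κ A hA
  obtain ⟨-, s, hs, hs'⟩ := hA.nrm
  have d := dvA (hd w hw).1
  have := d.loc
  have le := fr_le hw.2.1 ug.2.1
  let W : Submodule (fr A w g) κ :=
    { carrier := w
      add_mem' := w.add_mem
      zero_mem' := w.zero_mem
      smul_mem' := fun c _ h => w.mul_mem (le c.2) h }
  have hW : W.FG := by
    refine ⟨s, le_antisymm (Submodule.span_le.2 fun z hz => (hN z).1 (hs z hz) w hw) fun z hz => ?_⟩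
    have ev : ∀ᶠ n in Filter.atTop, ∀ w' ∈ {w | Br A w}, z * g⁻¹ ^ n ∈ w' := by
      refine (Filter.eventually_all_finite hf).2 fun w' h' => ?_
      have : ∃ n : ℕ, z * g⁻¹ ^ n ∈ w' := by
        rcases eq_or_ne w' w with rfl | ne
        · exact ⟨0, by rw [pow_zero, mul_one]; exact hz⟩
        · exact ex_pow (hd w' h').1 (inv_ne_zero ug.1) (ho w' h' ne) z
      obtain ⟨k, hk⟩ := this
      filter_upwards [Filter.eventually_ge_atTop k] with n hn'
      obtain ⟨l, rfl⟩ := Nat.exists_eq_add_of_le hn'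
      rw [pow_add, ← mul_assoc]
      exact w'.mul_mem hk (w'.pow_mem ((hN _).1 hn w' h') l)
    obtain ⟨n, h⟩ := ev.exists
    have h1 : ∀ y ∈ Submodule.span A (s : Set κ), y ∈ Submodule.span (fr A w g) (s : Set κ) := by
      intro y hy
      induction hy using Submodule.span_induction with
      | mem y hy => exact Submodule.subset_span hy
      | zero => exact Submodule.zero_mem _
      | add _ _ _ _ a b => exact Submodule.add_mem _ a b
      | smul c y _ a =>
        have : aeval g (C c) * y ∈ _ := Submodule.smul_mem _ (⟨_, ae_fr (C c)⟩ : fr A w g) a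
        rwa [aeval_C] at this
    have : aeval g (X ^ n : A[X]) * _ ∈ _ :=
      Submodule.smul_mem _ (⟨_, ae_fr (X ^ n)⟩ : fr A w g) (h1 _ (hs' _ ((hN _).2 h)))
    rwa [aeval_X_pow, mul_left_comm, ← mul_pow, mul_inv_cancel₀ ug.1, one_pow, mul_one] at this
  have nt : Nu w (aeval g m) := (d.nu _).2 (.inr (by rw [m1]; exact one_pos))
  have := Submodule.le_of_le_smul_of_le_jacobson_bot (N := (1 : Submodule (fr A w g) κ))
    (I := Ideal.span {⟨_, ae_fr m⟩}) hW ?_ ?_
  · intro z hz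
    obtain ⟨y, rfl⟩ := Submodule.mem_one.1 (this hz)
    exact y.2
  · rw [Ideal.span_le, Set.singleton_subset_iff, SetLike.mem_coe, Ideal.mem_jacobson_bot]
    intro y
    refine (ut_iff _).1 (fr_ut (Subtype.property _) ?_)
    have := ut_one.add (nt.mul (le y.2))
    rwa [add_comm, mul_comm] at this
  · intro z hz
    obtain ⟨P, hP⟩ := hr z hz
    have hu : (z - aeval g P) / aeval g m ∈ w := by
      rcases (d.nu _).1 hP with e | p
      · rw [e, zero_div]; exact w.zero_mem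
      rcases eq_or_ne (z - aeval g P) 0 with e | e
      · rw [e, zero_div]; exact w.zero_mem
      have := d.mul _ _ (div_ne_zero e m0) m0
      rw [div_mul_cancel₀ _ m0, m1] at this
      exact (d.mem _ (div_ne_zero e m0)).2 (by omega)
    refine Submodule.mem_sup.2 ⟨aeval g P, Submodule.mem_one.2 ⟨⟨_, ae_fr P⟩, rfl⟩, _,
      Submodule.smul_mem_smul (Ideal.mem_span_singleton_self _) (show _ ∈ W from hu), ?_⟩
    rw [Subring.smul_def, smul_eq_mul, mul_div_cancel₀ _ m0, add_sub_cancel]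

theorem xI_map {R S : Type} [CommRing R] [CommRing S] [IsLocalRing R] [IsLocalRing S]
    (ρ : R →+* S) (h : Function.Surjective ρ) (m P : R[X]) :
    P.map ρ ∈ xI (m.map ρ) ↔ P ∈ xI m := by
  have := IsLocalHom.of_surjective ρ h
  have e : xI (m.map ρ) = (xI m).map (mapRingHom ρ) := by
    rw [xI, xI, Ideal.map_sup, Ideal.map_span, Set.image_singleton, Ideal.map_map,
      ← map_maximalIdeal_of_surjective ρ h, Ideal.map_map, mapRingHom_comp_C]
    rfl
  rw [e]
  refine ⟨fun k => ?_, fun k => Ideal.mem_map_of_mem (mapRingHom ρ) k⟩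
  have k' : P ∈ ((xI m).map (mapRingHom ρ)).comap (mapRingHom ρ) := k
  rw [Ideal.comap_map_of_surjective _ (map_surjective ρ h), ← RingHom.ker_eq_comap_bot,
    ker_mapRingHom] at k'
  exact (sup_le le_rfl ((Ideal.map_mono (le_maximalIdeal (RingHom.ker_ne_top ρ))).trans
    le_sup_left) : _ ≤ xI m) k'

end LG1

open LG1 in
theorem lG1 : OfG1 := fun hB hG A κ _ _ _ e w hA hw => by
  have := hA.loc
  have hs := e.rangeRestrict_surjective
  have := IsLocalHom.of_surjective _ hs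
  obtain ⟨g, m₁, ug, hn, ho, mon, c0, m0, m1, hr, hx, hl⟩ := hG κ e.range w hA hw
  obtain ⟨m, rfl, hd, mon'⟩ := lifts_and_natDegree_eq_and_monic
    ((mem_lifts m₁).2 (map_surjective _ hs m₁)) mon
  have ev : ∀ P : A[X], eval₂ e g P = aeval g (P.map e.rangeRestrict) := fun P => by
    rw [aeval_def, eval₂_map]; rfl
  refine ⟨g, m, hw.1, ug, mon', ?_, fun P => ?_, fun z hz => ?_, fun P => ?_, ?_, ?_⟩
  · rw [coeff_map] at c0
    exact (isUnit_map_iff _ _).1 c0
  · rw [ev]; exact ae_mem hw.2.1 ug.2.1 _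
  · obtain ⟨P, Q, u, h⟩ := frac hB hA hw ug hn ho m0 m1 hr hz
    obtain ⟨P, rfl⟩ := map_surjective _ hs P
    obtain ⟨Q, rfl⟩ := map_surjective _ hs Q
    exact ⟨P, Q, by rwa [ev], by rwa [ev, ev]⟩
  · rw [ev, hx, xI_map _ hs]
  · obtain ⟨p, pm, hp⟩ : IsIntegral e.range g⁻¹ := hn
    obtain ⟨h, eh⟩ := map_surjective _ hs p.reverse
    refine ⟨h, ?_, (isUnit_map_iff e.rangeRestrict _).1 ?_⟩
    · have := invertibleOfNonzero (inv_ne_zero ug.1)
      have := (eval₂_reverse_eq_zero_iff (algebraMap e.range κ) g⁻¹ p).2 hp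
      rwa [invOf_eq_inv, inv_inv, ← aeval_def, ← eh, ← ev] at this
    · rw [← coeff_map, eh, coeff_zero_reverse, pm.leadingCoeff]; exact isUnit_one
  · rw [hl, hd]

end Pool.Agent.MP_f3836a_nt.GQ
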