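import Pool.Agent.MP_f3836a_nt.GQ.SpecL
import Pool.Agent.MP_f3836a_nt.GP.TAp
import Pool.Agent.MP_f3836a_nt.GP.GPw

/-! Part GQ: a generator for a branch. -/

set_option autoImplicit false

namespace Pool.Agent.MP_f3836a_nt.GQ

open Polynomial IsLocalRing PK VE.W VE.Z GP

namespace LG1a

/-- a generator of a finite field -/
theorem fld (k k' : Type) [Field k] [Field k'] [Algebra k k'] [Finite k'] :
    ∃ θ : k', θ ≠ 0 ∧ (∀ z, ∃ P : k[X], aeval θ P = z) ∧
      Nat.card k' = Nat.card k ^ (minpoly k θ).natDegree := by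
  obtain ⟨α, hα⟩ := IsCyclic.exists_monoid_generator (α := k'ˣ)
  have h : ∀ z : k', z = 0 ∨ ∃ n : ℕ, (α : k') ^ n = z := fun z => (eq_or_ne z 0).imp_right
    fun hz => (hα (Units.mk0 z hz)).imp fun n hn => by simpa using congrArg Units.val hn
  refine ⟨α, α.ne_zero, fun z => ?_, ?_⟩
  · obtain rfl | ⟨n, rfl⟩ := h z
    exacts [⟨0, by simp⟩, ⟨X ^ n, by simp⟩]
  · rw [(Field.primitive_element_iff_minpoly_natDegree_eq k (α : k')).1
      (eq_top_iff.2 fun z _ => ?_), Module.natCard_eq_pow_finrank (K := k)]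
    obtain rfl | ⟨n, rfl⟩ := h z
    exacts [zero_mem _, pow_mem (IntermediateField.mem_adjoin_simple_self k _) n]

/-- a lift of the minimal polynomial -/
theorem lift (A k' : Type) [CommRing A] [IsLocalRing A] [Field k'] [Finite k'] [Algebra A k']
    [Algebra (ResidueField A) k'] [IsScalarTower A (ResidueField A) k'] :
    ∃ (θ : k') (m : A[X]), θ ≠ 0 ∧ m.Monic ∧ IsUnit (m.coeff 0) ∧ aeval θ (derivative m) ≠ 0 ∧
      (∀ z, ∃ P : A[X], aeval θ P = z) ∧ (∀ P : A[X], aeval θ P = 0 ↔ P ∈ xI m) ∧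
      Nat.card k' = Nat.card (ResidueField A) ^ m.natDegree := by
  obtain ⟨θ, h0, hs, hc⟩ := fld (ResidueField A) k'
  have fk : Finite (ResidueField A) := Finite.of_injective _ (algebraMap _ k').injective
  have hi : IsIntegral (ResidueField A) θ := IsIntegral.of_finite _ θ
  have sj : Function.Surjective (algebraMap A (ResidueField A)) := residue_surjective
  obtain ⟨m, e, d, hm⟩ := lifts_and_natDegree_eq_and_monic (mem_lifts_of_surjective sj _)
    (minpoly.monic hi)
  refine ⟨θ, m, h0, hm, (residue_ne_zero_iff_isUnit _).1 ?_, ?_, fun z => ?_, fun P => ⟨fun h => ?_,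
    fun h => ?_⟩, d ▸ hc⟩
  · have := minpoly.coeff_zero_ne_zero hi h0
    rwa [← e, coeff_map] at this
  · rw [← aeval_map_algebraMap (ResidueField A), ← derivative_map, e]
    exact (Algebra.IsSeparable.isSeparable _ θ).aeval_derivative_ne_zero (minpoly.aeval _ _)
  · obtain ⟨P, rfl⟩ := hs z
    obtain ⟨P, rfl⟩ := map_surjective _ sj P
    exact ⟨P, (aeval_map_algebraMap _ _ _).symm⟩
  · rw [← aeval_map_algebraMap (ResidueField A)] at h
    obtain ⟨Q, hQ⟩ := minpoly.dvd _ _ h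
    obtain ⟨Q, rfl⟩ := map_surjective _ sj Q
    rw [← sub_add_cancel P (Q * m)]
    refine Submodule.add_mem_sup ?_ (Ideal.mem_span_singleton'.2 ⟨Q, rfl⟩)
    rw [← ker_residue, ← ker_mapRingHom, RingHom.mem_ker, map_sub, map_mul, sub_eq_zero, mul_comm]
    exact hQ.trans (by rw [← e]; rfl)
  · refine (sup_le (Ideal.map_le_iff_le_comap.2 fun a ha => ?_)
      ((Ideal.span_singleton_le_iff_mem _).2 ?_) : xI m ≤ RingHom.ker (aeval θ)) h
    · rw [Ideal.mem_comap, RingHom.mem_ker, aeval_C, IsScalarTower.algebraMap_apply A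
        (ResidueField A), ResidueField.algebraMap_eq, (residue_eq_zero_iff _).2 ha, map_zero]
    · rw [RingHom.mem_ker, ← aeval_map_algebraMap (ResidueField A), e, minpoly.aeval]

variable {κ : Type} [Field κ] {w : Subring κ}

/-- one of two non-units whose difference has order one has order one -/
theorem one (h : Dvr w) {s x u : κ} (s0 : s ≠ 0) (hs : ordR w s = 1) (hx : Nu w x) (hu : Ut w u) :
    (x ≠ 0 ∧ ordR w x = 1) ∨ (x + u * s ≠ 0 ∧ ordR w (x + u * s) = 1) := by
  have a := dvA h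
  have := a.loc
  have k : ∀ y, Ut w (y / s) → y ≠ 0 ∧ ordR w y = 1 := fun y hy => by
    have := a.mul _ _ hy.1 s0
    rw [div_mul_cancel₀ _ s0, ((a.ut _).1 hy).2, hs] at this
    exact ⟨(div_ne_zero_iff.1 hy.1).1, this⟩
  have m : x / s ∈ w := by
    rcases eq_or_ne x 0 with rfl | x0
    · simp
    · have := a.mul _ _ (div_ne_zero x0 s0) s0
      rw [div_mul_cancel₀ _ s0, hs] at this
      rw [a.mem _ (div_ne_zero x0 s0)]
      have := ((a.nu x).1 hx).resolve_left x0
      omega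
  refine (nu_or m).symm.imp (k x) fun e => k _ ?_
  rw [add_div, mul_div_cancel_right₀ _ s0, add_comm]
  exact hu.add e

end LG1a

open LG1a in
theorem lG1a : OfG1a := by
  classical
  intro hB κ _ A w _ hA hw
  obtain ⟨fin, -, -, dv, -, nr, -⟩ := hB κ A hA
  obtain ⟨dw, -, lw⟩ := dv w hw
  have a := dvA dw
  have := a.loc
  have fw : Finite (ResidueField w) := Nat.finite_of_card_ne_zero fun e => by
    rw [lg_eq, e] at lw; simp at lw
  let _ : Algebra A w := (Subring.inclusion hw.2.1).toAlgebra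
  have : IsScalarTower A w κ := .of_algebraMap_eq fun _ => rfl
  have : IsLocalHom (algebraMap A w) := ⟨fun x hx =>
    (ut_iff x).1 (hw.2.ut x.2 ((ut_iff (algebraMap A w x)).2 hx))⟩
  obtain ⟨θ, m, θ0, hm, c0, sep, sj, kr, cd⟩ := lift A (ResidueField w)
  have ev : ∀ (g : w) (P : A[X]), aeval (g : κ) P = (aeval g P : w) ∧
      residue w (aeval g P) = aeval (residue w g) P := fun g P =>
    ⟨aeval_algebraMap_apply κ g P, (aeval_algebraMap_apply (ResidueField w) g P).symm⟩
  have nu : ∀ x : w, Nu w x ↔ residue w x = 0 := fun x => by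
    rw [nu_iff, ← residue_ne_zero_iff_isUnit, not_not]
  have dT : ∀ S ∈ fin.toFinset, Dvr S := fun S h => (dv S (fin.mem_toFinset.1 h)).1
  have ap : ∀ x ∈ w, ∃ y, (∀ w', Br A w' → y ∈ w') ∧ Pw w 2 (y - x) := fun x hx => by
    obtain ⟨y, hy⟩ := tAp κ _ dT (fun S => if S = w then x else 0) 2 fun S _ => by
      split_ifs with e
      exacts [e ▸ hx, S.zero_mem]
    exact ⟨y, fun w' h => (hy w' (fin.mem_toFinset.2 h)).1, by
      simpa using (hy w (fin.mem_toFinset.2 hw)).2⟩
  obtain ⟨g₀, rfl⟩ := residue_surjective θ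
  obtain ⟨y, hy, py⟩ := ap _ g₀.2
  obtain ⟨z, hz, oz⟩ := TAp.sep dw _ dT
  obtain ⟨π, π0, hπ⟩ := a.uni
  obtain ⟨s, hs, ps⟩ := ap π ((a.mem π π0).2 (by omega))
  obtain ⟨s0, s1⟩ := GPw.ord dw π0 hπ ps
  have sn : Nu w s := (a.nu s).2 (.inr (by omega))
  have key : ∃ g : w, residue w g = residue w g₀ ∧ (∀ w', Br A w' → w' ≠ w → (g : κ) ∉ w') ∧
      aeval (g : κ) m ≠ 0 ∧ ordR w (aeval (g : κ) m) = 1 := by
    let g : w := ⟨y + z, w.add_mem (hy w hw) hz.1⟩
    let t : w := ⟨s, sn.1⟩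
    have e1 : residue w g = residue w g₀ := by
      rw [← sub_eq_zero, ← map_sub, ← nu]
      convert (((gPw κ w).2.2.1 a.loc 2 _ two_pos py).add hz) using 1
      simp only [g]; push_cast; ring
    have e2 : residue w t = 0 := (nu t).1 sn
    have o1 : ∀ w', Br A w' → w' ≠ w → (g : κ) ∉ w' := fun w' h e k =>
      oz w' (fin.mem_toFinset.2 h) e (by simpa [g] using w'.sub_mem k (hy w' h))
    obtain ⟨c, hc⟩ := exists_mul_sq_add_linear_part_eq_eval_add (m.map (algebraMap A w)) g t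
    rw [derivative_map, eval_map_algebraMap, eval_map_algebraMap, eval_map_algebraMap] at hc
    have u : Ut w (aeval g (derivative m) + c * t : w) := by
      rw [ut_iff, ← residue_ne_zero_iff_isUnit, map_add, map_mul, e2, mul_zero, add_zero,
        (ev _ _).2, e1]
      exact sep
    have x : Nu w (aeval (g : κ) m) := by
      rw [(ev _ _).1, nu, (ev _ _).2, e1, kr]
      exact Ideal.mem_sup_right (Ideal.mem_span_singleton_self m)
    rcases one dw s0 s1 x u with h | h
    · exact ⟨g, e1, o1, h⟩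
    · refine ⟨g + t, by rw [map_add, e1, e2, add_zero], fun w' h e k =>
        o1 w' h e (by simpa [t] using w'.sub_mem k (hs w' h)), ?_⟩
      convert h using 3 <;>
      · rw [(ev _ _).1, (ev _ _).1, ← hc]
        simp only [t]; push_cast; ring
  obtain ⟨g, e, o, h1, h2⟩ := key
  have ug : Ut w g := by rw [ut_iff, ← residue_ne_zero_iff_isUnit, e]; exact θ0
  have og : ∀ w', Br A w' → w' ≠ w → Nu w' (g : κ)⁻¹ := fun w' h k =>
    TAp.inv (dv w' h).1 (o w' h k)
  refine ⟨g, m, ug, (nr _).2 fun w' h => ?_, og, hm, c0, h1, h2, fun z hz => ?_, fun P => ?_, ?_⟩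
  · by_cases k : w' = w
    exacts [k ▸ ug.2.2, (og w' h k).1]
  · obtain ⟨P, hP⟩ := sj (residue w ⟨z, hz⟩)
    refine ⟨P, ?_⟩
    rw [(ev _ _).1]
    refine (nu (⟨z, hz⟩ - aeval g P)).2 ?_
    rw [map_sub, (ev _ _).2, e, hP, sub_self]
  · rw [(ev _ _).1, nu, (ev _ _).2, e, kr]
  · rw [lg_eq, lg_eq, cd, Nat.cast_pow, Real.log_pow]

end Pool.Agent.MP_f3836a_nt.GQ
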