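import Pool.Agent.MP_f3836a_nt.GQ.SpecL

/-! Part GQ: the surface through two points of the line. -/

set_option autoImplicit false

namespace Pool.Agent.MP_f3836a_nt.GQ

open Polynomial IsLocalRing PK VE.W VE.Z GP

namespace LG2

variable {A : Type} [CommRing A] [IsLocalRing A]

theorem lt_xI {m : A[X]} (h : m.Monic) : (maximalIdeal A).map C < xI m :=
  lt_of_le_of_ne le_sup_left fun e => by
    have k : m ∈ (maximalIdeal A).map C :=
      e ▸ Ideal.mem_sup_right (Ideal.mem_span_singleton_self m)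
    have := Ideal.mem_map_C_iff.1 k m.natDegree
    rw [h.coeff_natDegree] at this
    exact this isUnit_one

theorem xI_X : xI (X : A[X]) = (maximalIdeal A).comap constantCoeff := by
  refine le_antisymm (sup_le (Ideal.map_le_iff_le_comap.2 fun c hc => ?_)
    ((Ideal.span_singleton_le_iff_mem _).2 ?_)) fun c hc => ?_
  · simpa using hc
  · simp
  · rw [← divX_mul_X_add c]
    exact Ideal.add_mem _ (Ideal.mem_sup_right (Ideal.mul_mem_left _ _
      (Ideal.mem_span_singleton_self _))) (Ideal.mem_sup_left (Ideal.mem_map_of_mem _ hc))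

theorem pr {κ : Type} [Field κ] {e : A →+* κ} {w : Subring κ} {g : κ} {m : A[X]}
    (h : Bg e w g m) : (xI m).IsPrime := by
  refine ⟨(Ideal.ne_top_iff_one _).2 fun k => ?_, fun {P Q} k => ?_⟩
  · have := (h.nu 1).2 k
    rw [eval₂_one] at this
    exact this.not ut_one
  · have := (h.nu _).2 k
    rw [eval₂_mul] at this
    rw [← h.nu, ← h.nu]
    rcases nu_or (h.mem P) with a | a
    · exact .inl a
    · exact .inr ((nu_or (h.mem Q)).resolve_right fun b => this.not (a.mul b))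

/-- The two local components agree. -/
theorem le_of {R : Type} [CommRing R] {J l x x' S S' : Ideal R} [l.IsPrime] [x'.IsPrime]
    (hS' : S'.IsPrime) (hJ : J ≤ l) (h : l ≤ x) (h' : l ≤ x')
    (e : ∀ c, c ∈ S ↔ ∃ u, u ∉ x ∧ u * c ∈ J) (e' : ∀ c, c ∈ S' ↔ ∃ u, u ∉ x' ∧ u * c ∈ J) :
    J ≤ S' ∧ S' ≤ l ∧ S ≤ S' := by
  have a : J ≤ S' := fun c hc => (e' c).2 ⟨1, Ideal.IsPrime.one_notMem ‹_›, by rwa [one_mul]⟩
  have b : S' ≤ l := fun c hc => by
    obtain ⟨u, u1, u2⟩ := (e' c).1 hc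
    exact (Ideal.IsPrime.mem_or_mem ‹_› (hJ u2)).resolve_left fun k => u1 (h' k)
  refine ⟨a, b, fun c hc => ?_⟩
  obtain ⟨u, u1, u2⟩ := (e c).1 hc
  exact (hS'.mem_or_mem (a u2)).resolve_left fun k => u1 (h (b k))

end LG2

open LG2 in
theorem lG2 : OfG2 := by
  intro hP hH hN hZ hE A κ _ _ _ _ _ n a₀ a e w g m p hd hs _ hf hb ha hp ep
  obtain ⟨b, z₀, hz₀⟩ := hZ A κ _ a₀ a e w g m hs hb ha
  obtain ⟨z, hz, ⟨i, hi⟩, hx⟩ := hE A κ n a₀ a e g m b z₀ p hf ha hp ep hz₀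
  have p1 := pr hb
  have p0 : (xI (X : A[X])).IsPrime := xI_X (A := A) ▸ Ideal.comap_isPrime _ _
  have pl : ((maximalIdeal A).map (C : A →+* A[X])).IsPrime := Ideal.isPrime_map_C_of_isPrime
  have l1 := lt_xI hb.mon
  have l0 := lt_xI (monic_X (R := A))
  have hJ : Ideal.span (Set.range z) ≤ (maximalIdeal A).map C :=
    Ideal.span_le.2 (Set.range_subset_iff.2 hz.ln)
  obtain ⟨S, s1, s2, s3⟩ := hP A[X] (xI m) (n + 2) z (C b) m (hH A (n + 3) _ p1 hd l1)
    (fun i => l1.le (hz.ln i)) (l1.le (Ideal.mem_map_of_mem _ hz.mem))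
    (Ideal.mem_sup_right (Ideal.mem_span_singleton_self _)) hz.g1
  obtain ⟨T, t1, t2, t3⟩ := hP A[X] (xI X) (n + 2) z (C a₀) X (hH A (n + 3) _ p0 hd l0)
    (fun i => l0.le (hz.ln i))
    (l0.le (Ideal.mem_map_of_mem _ (hs ▸ Ideal.subset_span (Set.mem_insert _ _))))
    (Ideal.mem_sup_right (Ideal.mem_span_singleton_self _)) hz.g0
  obtain ⟨q1, q2, q3⟩ := le_of s1 hJ l0.le l1.le t2 s2
  obtain rfl : T = S := le_antisymm q3 (le_of t1 hJ l1.le l0.le s2 t2).2.2
  have gr : ∀ c ∈ T, eval₂ e g c = 0 := fun c hc => by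
    obtain ⟨u, u1, u2⟩ := (s2 c).1 hc
    have k : Ideal.span (Set.range z) ≤ RingHom.ker (eval₂RingHom e g) :=
      Ideal.span_le.2 (Set.range_subset_iff.2 hz.gr)
    have k' : eval₂ e g u * eval₂ e g c = 0 := by rw [← eval₂_mul]; exact k u2
    exact (mul_eq_zero.1 k').resolve_left fun h => u1 ((hb.nu u).1 (h ▸ nu_zero))
  obtain ⟨s, t, h1, h2⟩ := hN A κ e _ g hf ⟨z i, Ideal.subset_span (Set.mem_range_self i), hi⟩ hx
  refine ⟨T, s1, gr, fun c hc => ?_, q2, ⟨b, hz.mem, s3⟩, t3, s, t, fun k => h1 ?_, q1 h2⟩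
  · obtain ⟨u, u1, u2⟩ := (t2 c).1 hc
    have k : Ideal.span (Set.range z) ≤ (Ideal.span (Set.range a)).comap constantCoeff :=
      Ideal.span_le.2 (Set.range_subset_iff.2 hz.rf)
    have k' := k u2
    rw [Ideal.mem_comap, map_mul] at k'
    rw [xI_X, Ideal.mem_comap] at u1
    exact (Ideal.unit_mul_mem_iff_mem _ (notMem_maximalIdeal.1 u1)).1 k'
  · simpa using gr _ k

end Pool.Agent.MP_f3836a_nt.GQ
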