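import Pool.Agent.MP_f3836a_nt.GQ.SpecL
import Pool.Agent.MP_f3836a_nt.VE.ZSb

/-! The line over a point with two regular points. -/

set_option autoImplicit false

namespace Pool.Agent.MP_f3836a_nt.GQ

open Polynomial IsLocalRing PK VE.W VE.Z GP

namespace LG3

theorem push {R L : Type} [CommRing R] [Field L] (ψ : R →+* L) (x : Ideal R) [x.IsPrime]
    (h : RingHom.ker ψ ≤ x) :
    ∃ (q : Ideal ψ.range) (_ : q.IsPrime), ∀ c, ψ.rangeRestrict c ∈ q ↔ c ∈ x := by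
  have k : RingHom.ker ψ.rangeRestrict ≤ x := by rwa [RingHom.ker_rangeRestrict]
  refine ⟨_, Ideal.map_isPrime_of_surjective ψ.rangeRestrict_surjective k, fun c => ?_⟩
  rw [← Ideal.mem_comap, Ideal.comap_map_of_surjective _ ψ.rangeRestrict_surjective]
  exact (sup_eq_left.2 k).symm ▸ Iff.rfl

theorem red {A : Type} [CommRing A] (s t : A) (f : A[X]) :
    ∃ (n : ℕ) (c : A) (Q : A[X]), C s ^ n * f = Q * (C s * X - C t) + C c := by
  induction f using Polynomial.induction_on with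
  | C a => exact ⟨0, a, 0, by simp⟩
  | add p q hp hq =>
    obtain ⟨n, c, Q, e⟩ := hp
    obtain ⟨n', c', Q', e'⟩ := hq
    refine ⟨n + n', s ^ n' * c + s ^ n * c', C s ^ n' * Q + C s ^ n * Q', ?_⟩
    simp only [map_add, map_mul, map_pow]
    linear_combination C s ^ n' * e + C s ^ n * e'
  | monomial k a h =>
    obtain ⟨n, c, Q, e⟩ := h
    refine ⟨n + 1, c * t, Q * (C s * X) + C c, ?_⟩
    rw [map_mul]
    linear_combination C s * X * e

theorem rng {A L : Type} [CommRing A] [Field L] (e : A →+* L) (τ : L) :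
    Bl e.range τ = (eval₂RingHom e τ).range := by
  refine le_antisymm (Subring.closure_le.2 ?_) ?_
  · rintro _ (rfl | ⟨a, rfl⟩)
    · exact ⟨X, eval₂_X _ _⟩
    · exact ⟨C a, eval₂_C _ _⟩
  · rintro _ ⟨f, rfl⟩
    rw [coe_eval₂RingHom, eval₂_eq_sum_range]
    exact sum_mem fun i _ => mul_mem (Subring.subset_closure (.inr ⟨_, rfl⟩))
      (pow_mem (Subring.subset_closure (.inl rfl)) _)

theorem rle {A L : Type} [CommRing A] [Field L] (e : A →+* L) (τ : L) :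
    e.range ≤ (eval₂RingHom e τ).range := by
  rintro _ ⟨a, rfl⟩; exact ⟨C a, eval₂_C _ _⟩

variable {A L : Type} [CommRing A] [IsLocalRing A] [Field L] {m : A[X]}

theorem cm {a : A} (h : a ∈ maximalIdeal A) : C a ∈ (maximalIdeal A).map C :=
  Ideal.mem_map_of_mem _ h

theorem xm : m ∈ xI m := Ideal.mem_sup_right (Ideal.mem_span_singleton_self m)

theorem mon (h : m.Monic) : m ∉ (maximalIdeal A).map C := fun k =>
  (mem_maximalIdeal _).1 (Ideal.mem_map_C_iff.1 k m.natDegree) (h.coeff_natDegree ▸ isUnit_one)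

theorem x0 (c : A[X]) : c ∈ xI (X : A[X]) ↔ c.coeff 0 ∈ maximalIdeal A := by
  refine ⟨fun h => ?_, fun h => ?_⟩
  · have : xI (X : A[X]) ≤ (maximalIdeal A).comap constantCoeff :=
      sup_le (Ideal.map_le_iff_le_comap.2 fun a ha => by simpa using ha)
        ((Ideal.span_singleton_le_iff_mem _).2 (by simp))
    exact this h
  · rw [← X_mul_divX_add c]
    exact add_mem (Ideal.mul_mem_right _ _ xm) (Ideal.mem_sup_left (cm h))

theorem fin [Finite (ResidueField A)] (h : m.Monic) : Finite (A[X] ⧸ xI m) := by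
  have := h.finite_quotient
  have : Module.Finite A (A[X] ⧸ xI m) := Module.Finite.of_surjective
    (Ideal.Quotient.factorₐ A (le_sup_right : Ideal.span {m} ≤ xI m)).toLinearMap
    (Ideal.Quotient.factor_surjective (le_sup_right : Ideal.span {m} ≤ xI m))
  let _ : Algebra (A ⧸ maximalIdeal A) (A[X] ⧸ xI m) :=
    Ideal.Quotient.algebraQuotientOfLEComap fun a ha => Ideal.mem_sup_left (cm ha)
  have : IsScalarTower A (A ⧸ maximalIdeal A) (A[X] ⧸ xI m) := .of_algebraMap_eq fun _ => rfl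
  have := Module.Finite.of_restrictScalars_finite A (A ⧸ maximalIdeal A) (A[X] ⧸ xI m)
  have : Finite (A ⧸ maximalIdeal A) := ‹Finite (ResidueField A)›
  exact Module.finite_of_finite (A ⧸ maximalIdeal A)

theorem nuA {e : A →+* L} {a : A} (h : ∀ b, e b = 0 → b ∈ maximalIdeal A)
    (ha : a ∈ maximalIdeal A) : Nu e.range (e a) :=
  (nu_or (e.mem_range_self a)).resolve_right fun ⟨u, _, b, k⟩ => (mem_maximalIdeal _).1
    (sub_mem (Ideal.mul_mem_right b _ ha) (h (a * b - 1) (by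
      rw [map_sub, map_mul, k, mul_inv_cancel₀ u, map_one, sub_self]))) (by simp)

variable {e : A →+* L} {τ : L} {x : Ideal A[X]} {q : Ideal (eval₂RingHom e τ).range} [q.IsPrime]

theorem dom (hq : ∀ c, (eval₂RingHom e τ).rangeRestrict c ∈ q ↔ c ∈ x)
    (h : (maximalIdeal A).map C ≤ x) : Dom e.range (lc _ q) := by
  have l := (rle e τ).trans (le_lc _ q)
  refine ⟨l, fun z hz => (nu_or (l hz.1)).resolve_right fun u => ?_⟩
  obtain ⟨a, rfl⟩ := hz.1
  have ha : a ∈ maximalIdeal A := fun k => hz.not ((ut_iff (e.rangeRestrict a)).2 (k.map _))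
  exact (zb_ut ((eval₂RingHom e τ).rangeRestrict (C a))).1 (by simpa using u) ((hq _).2 (h (cm ha)))

theorem cen (hq : ∀ c, (eval₂RingHom e τ).rangeRestrict c ∈ q ↔ c ∈ xI m) (r : Rg (lc _ q))
    (h0 : ∀ b, e b = 0 → b ∈ maximalIdeal A) {S : Subring L} [IsLocalRing S]
    (h : (eval₂RingHom e τ).range ≤ S) (d : Dom e.range S) (n : Nu S (eval₂ e τ m)) :
    Dom (lc _ q) S := by
  obtain ⟨q', p, k⟩ := zb_cen h
  have a : ∀ c, Nu S (eval₂ e τ c) → (eval₂RingHom e τ).rangeRestrict c ∈ q' := fun c hc =>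
    by_contra fun u => hc.not (((zb_ut _).2 u).mono k.1)
  have b : xI m ≤ q'.comap (eval₂RingHom e τ).rangeRestrict :=
    sup_le (Ideal.map_le_iff_le_comap.2 fun b hb => a (C b) (by
      rw [eval₂_C]; exact d.2 _ (nuA h0 hb))) ((Ideal.span_singleton_le_iff_mem _).2 (a m n))
  obtain rfl : q = q' := (zb_max q r.alg).eq_of_le p.ne_top fun z hz => by
    obtain ⟨c, rfl⟩ := (eval₂RingHom e τ).rangeRestrict_surjective z
    exact b ((hq c).1 hz)
  exact k

omit [IsLocalRing A] in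
theorem cb {κ : Type} [Field κ] {φ : A →+* κ} {g : κ} {D : Subring L} {w : Subring κ}
    (h : Cb (eval₂RingHom e τ) (eval₂RingHom φ g) D w) : Cb e φ D w := by
  obtain ⟨O, r, h1, h2, h3, h4⟩ := h
  refine ⟨O, r, h1, h2, fun a => ?_, h4⟩
  have k := h3 (C a)
  rwa [show eval₂RingHom e τ (C a) = e a from eval₂_C _ _,
    show eval₂RingHom φ g (C a) = φ a from eval₂_C _ _] at k

end LG3

open LG3 in
theorem lG3 : OfG3 := by
  intro pt cv A κ κ₀ L _ _ _ _ _ _ _ k a₀ a e e₀ e' w g m S p ha₀ B G f f₀ f' k₀ k' hp ep ep₀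
  obtain ⟨s, t, hs, hst⟩ := G.bir
  obtain ⟨b, hb, g1⟩ := G.g1
  have := G.pr
  have s0 : e' s ≠ 0 := fun h => hs ((k' s).1 h)
  let τ := e' t / e' s
  let ψ := eval₂RingHom e' τ
  have ker : ∀ c, ψ c = 0 ↔ c ∈ S := fun c => by
    obtain ⟨n, d, Q, h⟩ := red s t c
    have h1 : e' s ^ n * ψ c = e' d := by
      simpa [ψ, τ, mul_div_cancel₀ _ s0, eval₂_pow] using congrArg ψ h
    rw [← mul_eq_zero_iff_left (pow_ne_zero n s0), h1, k',
      ← Ideal.add_mem_iff_right S (S.mul_mem_left Q hst), ← h]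
    exact ⟨fun u => (G.pr.mem_or_mem u).resolve_left fun v => hs (G.pr.mem_of_pow_mem n v),
      S.mul_mem_left _⟩
  have kr : RingHom.ker ψ = S := Ideal.ext ker
  have h0 : ∀ b, e' b = 0 → b ∈ maximalIdeal A := fun b h => by
    simpa using Ideal.mem_map_C_iff.1 (G.ln ((k' b).1 h)) 0
  have ut : ∀ P, P ∉ xI m → Ut w (eval₂ e g P) := fun P h =>
    (nu_or (B.mem P)).resolve_left fun u => h ((B.nu P).1 u)
  have : (xI m).IsPrime := ⟨(Ideal.ne_top_iff_one _).2 fun h => ((B.nu 1).2 h).not (by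
    rw [eval₂_one]; exact ut_one), fun {P Q} h => by_contra fun u => ((B.nu _).2 h).not (by
      rw [eval₂_mul]; exact (ut P fun v => u (.inl v)).mul (ut Q fun v => u (.inr v)))⟩
  have : (xI (X : A[X])).IsPrime := by
    rw [show xI (X : A[X]) = (maximalIdeal A).comap constantCoeff from Ideal.ext x0]
    infer_instance
  have := Ideal.isPrime_map_C_of_isPrime (P := maximalIdeal A)
  obtain ⟨q1, _, h1⟩ := push ψ (xI m) (kr ▸ G.ln.trans le_sup_left)
  obtain ⟨q0, _, h2⟩ := push ψ (xI X) (kr ▸ G.ln.trans le_sup_left)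
  obtain ⟨ql, _, h3⟩ := push ψ _ (kr ▸ G.ln)
  have fr := zb_fr f' (rle e' τ)
  have nz : ∃ c ∈ (maximalIdeal A).map C, ψ c ≠ 0 :=
    ⟨C p, cm hp, fun h => ep (by simpa using G.gr _ ((ker _).1 h))⟩
  have nX : ψ X ≠ 0 := fun h => mon monic_X (G.ln ((ker _).1 h))
  have eX : ψ X = τ := eval₂_X _ _
  obtain ⟨r1, c1, o1⟩ := pt _ L ψ _ _ q1 ql (C b) m fr h1 h3 (fin B.mon) le_sup_left nz (cm hb) xm
    (mon B.mon) (kr ▸ g1)
  obtain ⟨r0, c0, o0⟩ := pt _ L ψ _ _ q0 ql (C a₀) X fr h2 h3 (fin monic_X) le_sup_left nz (cm ha₀)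
    xm (mon monic_X) (kr ▸ G.g0)
  refine ⟨τ, _, _, _, ⟨eX ▸ nX, ⟨fun j => e' (m.coeff j), fun j => ⟨_, rfl⟩, ?_⟩,
    (rng e' τ).symm ▸ ⟨q1, _, rfl⟩, (rng e' τ).symm ▸ ⟨q0, _, rfl⟩, r1, r0, dom h1 le_sup_left,
    dom h2 le_sup_left, c1, c0, dom h3 le_rfl, ?_, ?_, o1, eX ▸ o0, fun T _ u d => ?_⟩,
    cb (g := g) (cv _ L κ ψ _ _ q1 w h1 r1 (fun c h => G.gr c ((ker c).1 h))
      (fun c h => (B.nu c).1 ((show eval₂ e g c = 0 from h).symm ▸ nu_zero)) ?_
      ⟨C p, Ideal.mem_sup_left (cm hp), by simpa using ep⟩ (zb_fr f (rle e g)) fun z => ?_),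
    cb (g := 0) (cv _ L κ₀ ψ _ _ q0 _ h2 r0 (fun c h => ?_) (fun c h => (x0 c).2 fun u => ?_)
      ⟨X, by simp, nX⟩ ⟨C p, Ideal.mem_sup_left (cm hp), by simpa using ep₀⟩
      (zb_fr f₀ (rle e₀ 0)) fun z => ?_)⟩
  · conv_lhs => rw [B.mon.as_sum]
    simp [eval₂_finsetSum]
  · exact eX ▸ (zb_ut (ψ.rangeRestrict X)).2 fun u =>
      ((B.nu X).2 ((h1 X).1 u)).not (by rw [eval₂_X]; exact B.ut)
  · exact (zb_ut (ψ.rangeRestrict m)).2 fun u => (x0 m).1 ((h2 m).1 u) B.c0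
  · rw [rng] at u
    exact ⟨cen h1 r1 h0 u d, fun n => cen h2 r0 h0 u d (by rwa [eval₂_X])⟩
  · obtain ⟨h, u, v⟩ := B.eq
    exact ⟨h, u, fun n => Ideal.mem_map_C_iff.1 (G.ln ((ker h).1 n)) 0 v⟩
  · refine ⟨fun hz => ?_, fun ⟨P, Q, u, v⟩ => ?_⟩
    · obtain ⟨P, Q, u, v⟩ := B.frac z hz
      exact ⟨P, Q, fun n => ((B.nu Q).2 n).not u, v⟩
    · rw [eq_div_of_mul_eq (ut Q u).1 v, div_eq_mul_inv]
      exact mul_mem (B.mem P) (ut Q u).2.2
  · rw [coe_eval₂RingHom, eval₂_at_zero, k₀]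
    exact G.rf c ((ker c).1 h)
  · rw [coe_eval₂RingHom, eval₂_at_zero] at h
    exact (u.map e₀).ne_zero h
  · simp only [coe_eval₂RingHom, eval₂_at_zero, x0]
    refine ⟨?_, fun ⟨P, Q, u, v⟩ => ?_⟩
    · rintro ⟨c, rfl⟩
      exact ⟨C c, 1, by simp, by simp⟩
    · obtain ⟨y, hy⟩ := (notMem_maximalIdeal.1 u).exists_right_inv
      exact ⟨P.coeff 0 * y, by rw [map_mul, ← v, mul_assoc, ← map_mul, hy, map_one, mul_one]⟩

end Pool.Agent.MP_f3836a_nt.GQ
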