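import Pool.Agent.MP_f3836a_nt.GQ.SpecL

/-! Part GQ: the forms on a line over a closed point. -/

set_option autoImplicit false

namespace Pool.Agent.MP_f3836a_nt.GQ

open Polynomial IsLocalRing PK VE.W VE.Z GP

namespace LGrF

variable {L : Type} [Field L]

theorem nu_sum {S : Subring L} [IsLocalRing S] {T : Finset ℕ} {f : ℕ → L}
    (h : ∀ j ∈ T, Nu S (f j)) : Nu S (∑ j ∈ T, f j) :=
  Finset.sum_induction f (Nu S) (fun _ _ a b => a.add b) nu_zero h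

theorem dif {A S : Subring L} [IsLocalRing S] (h : Dom A S) {τ : L} (ht : τ ∈ S) {c c' : ℕ → L}
    (hc : ∀ j, Nu A (c j - c' j)) (e : ℕ) : Nu S ((τ ^ e + ∑ j ∈ Finset.range e, c' j * τ ^ j) -
      (τ ^ e + ∑ j ∈ Finset.range e, c j * τ ^ j)) := by
  rw [add_sub_add_left_eq_sub, ← Finset.sum_sub_distrib]
  refine nu_sum fun j _ => ?_
  convert ((h.2 _ (hc j)).mul (S.pow_mem ht j)).neg using 1
  ring

theorem alg_down {A S : Subring L} (e : A ≤ S) (h : Alg S) : Alg A := fun u hu =>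
  (h u (hu.mono e)).imp fun j k =>
    ⟨k.1, nu_down e (A.sub_mem (A.pow_mem hu.2.1 j) A.one_mem) k.2⟩

end LGrF

open LGrF in
theorem lGrF : OfGrF := by
  intro md fm bq L ι _ _ ξ hξ M A τ μ e D D' E ⟨pA, aA, nA⟩ g
  obtain ⟨hb, b1, b2, b3⟩ := bq L ι ξ hξ τ g.ne
  have m := md L ι ξ hξ
  have m' := md L _ _ hb
  have f' := fm L _ _ hb
  obtain ⟨i, i0, hi⟩ := m.cht A pA
  obtain ⟨c, hc, hμ⟩ := g.poly
  choose c' h1 h2 using fun j => m.res i A i0 pA aA ((m.le i A).2 hi) (c j) (hc j)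
  obtain ⟨r, r0, hr⟩ := ((Filter.eventually_gt_atTop 0).and ((Filter.eventually_all_finset
    (Finset.range e)).2 fun j _ => (fm L ι ξ hξ).ev i (c' j) i0 (h1 j))).exists
  obtain ⟨ν, hν⟩ : ∃ ν, ν = τ ^ e + ∑ j ∈ Finset.range e, c' j * τ ^ j := ⟨_, rfl⟩
  have t0 := g.ne
  have pD : Pt (bl ξ τ) D := by
    obtain ⟨q, _, k⟩ := g.pt
    exact k ▸ b2 A q pA
  have pD' : Pt (bl ξ τ) D' := by
    obtain ⟨q, _, k⟩ := g.pt'
    exact k ▸ b2 A q pA
  have R := rgA g.rg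
  have R' := rgA g.rg'
  have := (dvA (R.dvr E g.h1).1).loc
  have ut := g.ut.mono (R.dvr E g.h1).2.1
  have uμ := g.ut'.mono (R'.dvr E g.h1').2.1
  have dE : Nu E (ν - μ) := hν ▸ hμ ▸ dif g.de ut.2.1 h2 e
  have uν := ut_of_nu uμ dE
  have o1 : oK E D τ = 0 := (R.pos E g.h1 τ g.ut.2.1 ut).2.2 g.ut
  have o2 : oK E D' μ = 0 := (R'.pos E g.h1' μ g.ut'.2.1 uμ).2.2 g.ut'
  have q : ξ i ^ (r + e) * τ ^ r * ν / (ξ i * τ) ^ (r + e) = ν * τ ^ (-e : ℤ) := by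
    rw [zpow_neg, zpow_natCast, mul_pow, pow_add τ]
    field_simp
  have f1 : ∀ n, Fm (bl ξ τ) n ((ξ i * τ) ^ n) := fun n => by
    simpa [bl] using f'.pow 1 _ n (f'.one (.inl i))
  have f2 : ∀ n, Fm (bl ξ τ) n (ξ i ^ n) := fun n => by
    simpa [bl] using f'.pow 1 _ n (f'.one (.inr i))
  refine ⟨r + e, ξ i ^ (r + e) * τ ^ r * ν, (ξ i * τ) ^ (r + e), ⟨⟨pD, g.rg.alg, g.dom.2 _ nA⟩,
    ⟨pD', g.rg'.alg, g.dom'.2 _ nA⟩, g.rg, g.rg', fun k => ?_, g.h1, g.h1', g.de.2 _ nA, by omega,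
    ?_, f1 _, fun S pS sE n1 n2 => ?_⟩, ?_, ?_⟩
  · have := g.one'
    rw [← k, o1] at this
    exact zero_ne_one this
  · rw [hν, mul_add, Finset.mul_sum]
    refine f'.add _ _ _ (by convert f1 (r + e) using 1; ring) (Submodule.sum_mem _ fun j hj => ?_)
    have k := (Finset.mem_range.1 hj).le
    obtain ⟨s, rfl⟩ := Nat.exists_eq_add_of_le k
    have := f'.mul _ _ _ _ (b3 r _ (hr j hj)).2 (f'.mul _ _ _ _ (f1 j) (f2 s))
    exact (show c' j * ξ i ^ r * τ ^ r * ((ξ i * τ) ^ j * ξ i ^ s) =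
      ξ i ^ (r + (j + s)) * τ ^ r * (c' j * τ ^ j) by ring) ▸ this
  · have := m'.loc S pS
    obtain ⟨k1, k2⟩ := b1 S (m'.cht S pS)
    obtain ⟨z, pz, dz⟩ := m.cen S this k1
    obtain rfl := m.min A z pA pz aA (m.mono z A S E pz pA dz g.de sE)
    have ss : Dom S S := ⟨le_rfl, fun _ k => k⟩
    by_cases ht : τ ∈ S
    · obtain ⟨c1, c2⟩ := g.cen S this (Subring.closure_le.2 (Set.insert_subset ht dz.1)) dz
      have mμ : μ ∈ S := hμ ▸ S.add_mem (S.pow_mem ht _)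
        (S.sum_mem fun j _ => S.mul_mem (dz.1 (hc j)) (S.pow_mem ht _))
      have u1 : Ut S μ := (nu_or mμ).resolve_left fun k =>
        n1 (le_antisymm (m'.mono S D S S pS pD ss (c1 k) le_rfl) (c1 k).1)
      have u2 : Ut S τ := (nu_or ht).resolve_left fun k =>
        n2 (le_antisymm (m'.mono S D' S S pS pD' ss (c2 k) le_rfl) (c2 k).1)
      have u3 : Ut S ν := ut_of_nu u1 (hν ▸ hμ ▸ dif dz ht h2 e)
      have ch : ∀ j, bl ξ τ j / bl ξ τ (.inr i) ∈ S := by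
        rintro (j | j)
        · exact (mul_div_right_comm (ξ j) τ (ξ i)).symm ▸ S.mul_mem (dz.1 (hi j)) ht
        · exact dz.1 (hi j)
      refine ⟨⟨.inr i, i0, ch, ?_⟩, .inr i, i0, ch, ?_⟩
      · convert (u2.pow r).mul u3 using 1
        simp only [bl, Sum.elim_inr]
        field_simp
      · convert u2.pow (r + e) using 1
        simp only [bl, Sum.elim_inr, mul_pow]
        field_simp
    · have k3 : Nu S τ⁻¹ := ⟨k2.resolve_left ht, .inr (by rwa [inv_inv])⟩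
      have ch : ∀ j, bl ξ τ j / bl ξ τ (.inl i) ∈ S := by
        rintro (j | j)
        · exact (mul_div_mul_right (ξ j) (ξ i) t0).symm ▸ dz.1 (hi j)
        · convert S.mul_mem (dz.1 (hi j)) k3.1 using 1
          simp only [bl, Sum.elim_inr, Sum.elim_inl]
          field_simp
      have x0 : bl ξ τ (.inl i) ≠ 0 := mul_ne_zero i0 t0
      refine ⟨⟨.inl i, x0, ch, ?_⟩, .inl i, x0, ch, ?_⟩
      · have : Nu S (∑ j ∈ Finset.range e, c' j * τ ^ j * τ⁻¹ ^ e) := nu_sum fun j hj => by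
          obtain ⟨s, rfl⟩ := Nat.exists_eq_add_of_lt (Finset.mem_range.1 hj)
          convert k3.mul (S.mul_mem (dz.1 ((m.le i _).2 hi (h1 j))) (S.pow_mem k3.1 s)) using 1
          simp only [inv_pow, pow_add]
          field_simp
        convert ut_one.add this using 1
        rw [show bl ξ τ (.inl i) = ξ i * τ from rfl, q, hν, ← Finset.sum_mul, zpow_neg,
          zpow_natCast, inv_pow, add_mul, mul_inv_cancel₀ (pow_ne_zero _ t0)]
      · exact (div_self (pow_ne_zero _ x0)).symm ▸ ut_one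
  · rw [q, R.mul E _ _ g.h1 uν (ut.zpow _), R.zpow E _ _ g.h1 ut, o1,
      R.cg E g.h1 _ uν.2.1 _ uμ.2.1 dE, g.one, mul_zero, add_zero]
  · rw [q, R'.mul E _ _ g.h1' uν (ut.zpow _), R'.zpow E _ _ g.h1' ut, g.one',
      R'.cg E g.h1' _ uν.2.1 _ uμ.2.1 dE, o2, mul_one, zero_add]

open LGrF in
theorem lGr : OfGr := by
  intro md bq gf sl L ι _ _ _ ξ M VV lam ff hξ cx A τ μ e D D' E pA g
  obtain ⟨hb, b1, -, -⟩ := bq L ι ξ hξ τ g.ne
  have m' := md L _ _ hb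
  obtain ⟨d, U, U', tw, o1, o2⟩ := gf L ι ξ hξ M A τ μ e D D' E pA g
  obtain ⟨α, α', a1, a2, a3⟩ := sl L _ (bl ξ τ) M VV lam ff hb ⟨cx.ks, cx.kp, fun W hW S pS dS aS => by
    obtain ⟨z, pz, dz⟩ := (md L ι ξ hξ).cen S (m'.loc S pS) (b1 S (m'.cht S pS)).1
    exact cx.nc W hW z pz (dz.trans dS) (alg_down dz.1 aS)⟩ D D' E d U U' tw
    fun k => cx.nc E k A pA.1 g.de pA.2.1
  rw [o1, o2] at a3
  push_cast at a3
  exact ⟨α', (show α = e * α' by linarith) ▸ a1, a2⟩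

end Pool.Agent.MP_f3836a_nt.GQ
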