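import Pool.Agent.MP_f3836a_nt.GQ.SpecL

/-! Part GQ: the functional on horizontal curves. -/

set_option autoImplicit false

namespace Pool.Agent.MP_f3836a_nt.GQ

open Polynomial IsLocalRing PK VE.W VE.Z GP

namespace LHz

open Classical in
theorem fib {α β : Type} (W : Finset α) (c : α → β) (Q : β → Prop) (f : α → ℝ) (g : β → ℝ)
    (h1 : ∀ w ∈ W, Q (c w)) (h2 : ∀ x, Q x → g x = ∑ w ∈ W with c w = x, f w) :
    ∑ w ∈ W, f w = ∑ᶠ (x) (_ : Q x), g x := by
  rw [← Finset.sum_fiberwise_of_maps_to (g := c) (t := W.image c)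
    fun w hw => Finset.mem_image_of_mem _ hw]
  refine (finsum_eq_sum_of_support_subset (fun x => ∑ w ∈ W with c w = x, f w) fun x hx => ?_).symm.trans
    (finsum_congr fun x => ?_)
  · obtain ⟨w, hw, -⟩ := Finset.exists_ne_zero_of_sum_ne_zero hx
    exact Finset.mem_coe.2 (Finset.mem_image.2 ⟨w, Finset.mem_filter.1 hw⟩)
  · rw [finsum_eq_if]
    split_ifs with k
    · exact (h2 x k).symm
    · exact Finset.sum_eq_zero fun w hw =>
        (k ((Finset.mem_filter.1 hw).2 ▸ h1 w (Finset.mem_filter.1 hw).1)).elim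

theorem cen (hM : MdS) {S : Sy} (H : S.HtA) {M : ℕ} {C : S.P} {w : Subring (S.κ C)} (h1 : Vr w)
    (h2 : Nu w M) (h3 : Dvr w) (h4 : Alg w) :
    ∃ x, (S.Cl x ∧ (M : S.κ x) = 0) ∧ ∃ h : x ≤ C, Br (S.R h) w := by
  have m := hM _ _ _ (S.md C)
  have := h3.dvr
  obtain ⟨D, d1, d2⟩ := m.cen w inferInstance (m.val w h1)
  obtain ⟨x, h, rfl⟩ := (S.pt C D).1 d1
  refine ⟨x, ⟨(H.cl h).2 fun z hz => (h4 z (hz.mono d2.1)).imp fun j e => ⟨e.1, nu_down d2.1
    (Subring.sub_mem _ (Subring.pow_mem _ hz.2.1 j) (Subring.one_mem _)) e.2⟩,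
    (H.nu h M).1 (nu_down d2.1 (natCast_mem _ M) h2)⟩, h, h1, d2⟩

end LHz

open LHz in
theorem lHz : OfHz := by
  classical
  intro hM hH hN hC hB hL S M lam kb ku
  have H := hH S
  choose! al hal using fun x => hL S M lam x kb ku
  refine ⟨fun x => al x * Real.log (Nat.card (S.κ x)), fun C u hz hu => ?_⟩
  have := H.nf C hz
  obtain ⟨fin, hw, -, dec⟩ := hN (S.κ C) M kb.ne
  obtain ⟨a, ha, e⟩ := dec (lam C) (kb.add C) fun u h0 h1 => ku C u hz h0 h1
  have : Nonempty S.P := ⟨C⟩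
  choose! c c1 c2 using fun (w : Subring (S.κ C)) (k : w ∈ fin.toFinset) =>
    cen hM H (fin.mem_toFinset.1 k).1 (fin.mem_toFinset.1 k).2
      (hw w (fin.mem_toFinset.1 k).1 (fin.mem_toFinset.1 k).2).1
      (hw w (fin.mem_toFinset.1 k).1 (fin.mem_toFinset.1 k).2).2.1
  rw [e u hu, Sy.dl, if_pos hz.1]
  refine (finsum_mem_eq_finite_toFinset_sum _ fin).trans (fib _ c _ _ _ c1 fun x hx => ?_)
  unfold Sy.ord
  split_ifs with h
  · have q : ∀ w, w ∈ fin.toFinset.filter (c · = x) ↔ Br (S.R h) w := fun w => by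
      rw [Finset.mem_filter]
      refine ⟨fun k => ?_, fun k => ?_⟩
      · obtain ⟨k1, rfl⟩ := k
        exact (c2 w k1).2
      · have k1 := fin.mem_toFinset.2 ⟨k.1, k.2.2 _ ((H.nu h M).2 hx.2)⟩
        obtain ⟨h', k2⟩ := c2 w k1
        exact ⟨k1, H.uniq h' h w k2.2 k.2⟩
    rw [← H.lg h, mul_assoc, (hB _ _ (hC S C x h hz hx.1)).2.2.2.2.2.2 u hu]
    simp only [← q]
    rw [finsum_mem_finset_eq_sum, Finset.mul_sum]
    refine Finset.sum_congr rfl fun w k => ?_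
    have k1 := fin.mem_toFinset.1 (Finset.mem_filter.1 k).1
    obtain ⟨v, v1, v2, v3⟩ := (hw w k1.1 k1.2).2.2
    have e1 := (ha w k1.1 k1.2 v v1 v3).symm.trans (hal x hx.1 hx.2 C h w hz ((q w).1 k) v v1 v3)
    rw [v2, Int.cast_one, mul_one, mul_one] at e1
    rw [e1, mul_assoc]
  · rw [Int.cast_zero, mul_zero]
    refine (Finset.sum_eq_zero fun w k => (h ?_).elim).symm
    obtain ⟨k1, rfl⟩ := Finset.mem_filter.1 k
    exact (c2 w k1).1

end Pool.Agent.MP_f3836a_nt.GQ
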