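import Pool.Agent.MP_f3836a_nt.GQ.SpecL
import Pool.Agent.MP_f3836a_nt.GP.GLl
import Pool.Agent.MP_f3836a_nt.GP.GPw

/-! Part GQ: the local law at regular points. -/

set_option autoImplicit false

namespace Pool.Agent.MP_f3836a_nt.GQ

open Polynomial IsLocalRing PK VE.W VE.Z GP

theorem lLb : OfLb := by
  intro md fm fl bd sr L ι _ _ _ ξ M VV lam ff m cx a D dq pc rg
  classical
  have k := md L ι ξ m
  refine gLl gPw L D (Bd M a D) rg (fun O o ho => ?_) ?_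
  · have p : Pl O := ⟨((rgA rg).dvr O o).1, ho⟩
    have e := bd L M a D O p (fl L M O ff cx.ks.ne p)
    exact ⟨e.1, e.2.1⟩
  intro O₁ O₂ g₁ g₂ w₀ N a₁ b₁ c₁ a₂ b₂ c₂ h₀
  obtain ⟨T₁, p₁, q₁⟩ := sr L ι ξ M VV lam ff m cx a D O₁ g₁ dq pc rg a₁ b₁ c₁
  obtain ⟨T₂, p₂, q₂⟩ := sr L ι ξ M VV lam ff m cx a D O₂ g₂ dq pc rg a₂ b₂ c₂
  have hT : ∀ D' ∈ T₁ ∪ T₂, Pt ξ D' ∧ Alg D' ∧ D' ≠ D := fun D' e =>
    (Finset.mem_union.1 e).elim (p₁ D') (p₂ D')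
  have hP : ∀ D' ∈ insert D (T₁ ∪ T₂), Pt ξ D' ∧ Alg D' := fun D' e =>
    (Finset.mem_insert.1 e).elim (fun e => e ▸ ⟨pc.1, pc.2.1⟩) fun e => ⟨(hT D' e).1, (hT D' e).2.1⟩
  obtain ⟨w, hw⟩ := (fm L ι ξ m).crt (insert D (T₁ ∪ T₂)) (fun s e => (hP s e).1)
    (fun s e s' e' => k.min s' s (hP s' e').1 (hP s e).1 (hP s' e').2)
    (fun s => if s = D then w₀ else 1) (N + 1) fun s _ => by
      split_ifs with e
      exacts [e ▸ h₀, s.one_mem]
  have hD := hw D (Finset.mem_insert_self _ _)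
  rw [if_pos rfl] at hD
  have hu : ∀ D' ∈ T₁ ∪ T₂, Ut D' w := fun D' d => by
    have := k.loc D' (hT D' d).1
    have e := (hw D' (Finset.mem_insert_of_mem d)).2
    rw [if_neg (hT D' d).2.2] at e
    exact ut_of_nu ut_one ((gPw L D').2.2.1 this _ _ N.succ_pos e)
  have r₁ := q₁ w hD.1 fun D' e => hu D' (Finset.mem_union_left _ e)
  exact ⟨w, hD.1, (gPw L D).2.1 _ _ _ N.le_succ hD.2, r₁.1, r₁.2,
    (q₂ w hD.1 fun D' e => hu D' (Finset.mem_union_right _ e)).2⟩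

namespace LLb

variable {L ι : Type} [Field L] [CharZero L] {ξ : ι → L} {M : ℕ} {VV : Set (Subring L)}
  {lam : Subring L → L → ℝ}

theorem dq (fl : FlQ) (ff : FF L) (cx : Cx ξ M VV lam) : ∃ a, Dq M lam a := by
  have h : ∀ O, ∃ a : Subring L → ℝ, Pl O → ∀ u, Ut O u →
      lam O u = ∑ᶠ (U) (_ : Fl M O U), a U * oK O U u := fun O => by
    by_cases p : Pl O
    · exact ((fl L M O ff cx.ks.ne p).dec _ (cx.ks.fn O (.inl p)) fun u => cx.kp O u p).imp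
        fun _ e _ => e
    · exact ⟨0, fun e => absurd e p⟩
  choose a ha using h
  exact ⟨a, fun O u p => ha O p u⟩

theorem lv (fl : FlQ) (bd : BdQ) (ff : FF L) (cx : Cx ξ M VV lam) {a : Subring L → Subring L → ℝ}
    (h : Dq M lam a) {D : Subring L} (rg : Rg D) {α : ℝ} (k : Lb M a D α) : Lv M lam D α :=
  fun O u o ho hu e =>
    have p : Pl O := ⟨((rgA rg).dvr O o).1, ho⟩
    ((bd L M a D O p (fl L M O ff cx.ks.ne p)).2.2 lam u h hu e).trans (k O u o ho hu)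

end LLb

open LLb in
theorem lSl : OfSl := by
  intro fl bd lb tw
  refine ⟨fun L ι _ _ _ ξ M VV lam ff m cx D pc rg => ?_,
    fun L ι _ _ _ ξ M VV lam ff m cx D D' E d U U' t hE => ?_⟩
  · obtain ⟨a, h⟩ := dq fl ff cx
    exact (lb L ι ξ M VV lam ff m cx a D h pc rg).imp fun _ => lv fl bd ff cx h rg
  · obtain ⟨a, h⟩ := dq fl ff cx
    obtain ⟨α, k⟩ := lb L ι ξ M VV lam ff m cx a D h t.pc t.rg
    obtain ⟨α', k'⟩ := lb L ι ξ M VV lam ff m cx a D' h t.pc' t.rg'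
    exact ⟨α, α', lv fl bd ff cx h t.rg k, lv fl bd ff cx h t.rg' k',
      tw L ι ξ M VV lam ff m cx a D D' E d U U' α α' h t hE k k'⟩

end Pool.Agent.MP_f3836a_nt.GQ
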