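import Pool.Agent.MP_f3836a_nt.GQ.SpecL

/-! Part GQ: the local law in dimension two, and in general. -/

set_option autoImplicit false

namespace Pool.Agent.MP_f3836a_nt.GQ

open Polynomial IsLocalRing PK VE.W VE.Z GP

namespace LLo2

theorem nu_br {S : Sy} (H : S.HtA) {M : ℕ} {x C : S.P} (hM : (M : S.κ x) = 0) (h : x ≤ C)
    {w : Subring (S.κ C)} (b : Br (S.R h) w) : Nu w M := b.2.2 _ ((H.nu h M).2 hM)

theorem rg {S : Sy} (H : S.HtA) (m : MdA (S.η S.g)) {M : ℕ} (M0 : M ≠ 0) {x C : S.P} (hx : S.Cl x)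
    (hM : (M : S.κ x) = 0) {h : x ≤ C} {a₀ : S.R (S.top x)} {a : Fin 1 → S.R (S.top x)}
    (rf : S.Rf x C h a₀ a) : Rg (S.R (S.top x)) := by
  have pA : Pt (S.η S.g) (S.R (S.top x)) := (S.pt _ _).2 ⟨x, _, rfl⟩
  have g := rf.gen
  rw [Set.range_unique] at g
  have := rf.hz.2
  refine ⟨inferInstance, inferInstance, m.fr _ pA, (H.cl _).1 hx,
    ⟨a₀, a default, a₀.2, (a default).2, fun z => ⟨fun hz => ?_, ?_⟩⟩,
    RingHom.ker (S.ev (S.top C) h), RingHom.ker_isPrime _, fun e => ?_, fun e => ?_⟩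
  · obtain ⟨u, v, e'⟩ := Ideal.mem_span_pair.1 (g.ge ((nu_iff ⟨z, hz.1⟩).1 hz))
    exact ⟨u, u.2, v, v.2, (congrArg Subtype.val e').symm⟩
  · rintro ⟨u, hu, v, hv, rfl⟩
    exact (nu_iff (⟨u, hu⟩ * a₀ + ⟨v, hv⟩ * a default : S.R (S.top x))).2
      (g.le (Ideal.mem_span_pair.2 ⟨_, _, rfl⟩))
  · have a0 : a default = 0 := e.le ((rf.ker _).2 (Ideal.subset_span ⟨_, rfl⟩))
    rw [a0, Set.pair_comm, Ideal.span_insert_zero] at g
    have k := Ideal.height_le_one_of_isPrincipal_of_mem_minimalPrimes (Ideal.span {a₀})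
      (maximalIdeal _) (by rw [g, Ideal.minimalPrimes_eq_subsingleton_self]; rfl)
    have d := rf.dim
    rw [← maximalIdeal_height_eq_ringKrullDim] at d
    have d' : (maximalIdeal (S.R (S.top x))).height = ((1 + 1 : ℕ) : ℕ∞) :=
      WithBot.coe_injective d
    rw [d'] at k
    exact absurd k (by decide)
  · have k : (M : S.R (S.top x)) ∈ RingHom.ker (S.ev (S.top C) h) := by
      rw [eq_maximalIdeal e]
      exact (nu_iff (M : S.R (S.top x))).1 (by simpa using (H.nu (S.top x) M).2 hM)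
    rw [RingHom.mem_ker, map_natCast] at k
    exact M0 (Nat.cast_eq_zero.1 k)

end LLo2

open LLo2

theorem lLo2 : OfLo2 := by
  classical
  intro md sf ht ff cu br cx sl lt S M lam x kb ku hx hM C h a₀ a rf
  have H := ht S
  have m := md _ _ (S.η S.g) (S.md _)
  have cz := S.cz
  have pA : Pt (S.η S.g) (S.R (S.top x)) := (S.pt _ _).2 ⟨x, _, rfl⟩
  have rA := rg H m kb.ne hx hM rf
  have F := (ff _ _ _ _ (S.md _) pA).1 rA
  have sg : S.Sf S.g := ⟨(H.sf _ cz).2 F, cz⟩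
  obtain ⟨α, hα⟩ := sl _ _ _ M _ _ F (S.md _) (cx S M lam _ kb ku sg) _
    ⟨pA, rA.alg, (H.nu _ M).2 hM⟩ rA
  refine ⟨α / Real.log (Nat.card (S.κ x)), fun C' h' w hz b u u0 hu => ?_⟩
  have k := (H.cv (S.top C') sg).1 hz.1
  have h1 : H1 (S.R (S.top x)) (S.R (S.top C')) := ((sf _ _ _ F (S.md _)).h1 _ _ pA rA.alg).2
    ⟨(S.pt _ _).2 ⟨C', _, rfl⟩, (S.le _ _).2 h', k⟩
  have dv := ((rgA rA).dvr _ h1).1
  obtain ⟨b1, -, b2, -, -, -, b3⟩ := br _ _ (cu S C' x h' hz hx)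
  have e := lt S M lam _ C' x (S.top C') h' _ (S.R h') α sg hz rA
    ⟨_, S.r (S.top C'), h1, ⟨dv.dvr, dv.fr, (S.rm _).surj, (S.rm _).ker⟩,
      fun c => ⟨(S.le _ _).2 h' c.2, rfl⟩, S.im _ h'⟩ hα u u0
    fun w' v n d => hu w' v n fun e => d (e ▸ b.2)
  have e' := b3 u u0
  rw [finsum_eq_single _ w fun w' ne => (finsum_congr fun b' => by
    rw [(((dvA ((br _ _ (cu S C' x h' hz hx)).2.2.2.1 w' b').1).ut u).1
      (hu w' b'.1 (nu_br H hM h' b') ne)).2, Int.cast_zero, mul_zero]).trans finsum_zero,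
    finsum_eq_if, if_pos b, H.lg] at e'
  rw [H.lg] at b2
  rw [e, mul_assoc, ← e']
  field_simp

theorem lLoc : OfLoc := by
  intro ht nf cu br rf l1 l2 pr S M lam x kb ku hx hM
  obtain ⟨C₀, h₀, n, a₀, a, r⟩ := rf S x hx
  rcases n with _ | _ | n
  · exact l1 S M lam x kb ku hx hM C₀ h₀ a₀ a r
  · exact l2 S M lam x kb ku hx hM C₀ h₀ a₀ a r
  have H := ht S
  have := H.nf C₀ r.hz
  obtain ⟨-, n1, -, n2⟩ := nf (S.κ C₀) M kb.ne
  obtain ⟨c, c1, -⟩ := n2 _ (kb.add C₀) fun u => ku C₀ u r.hz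
  have A := dvA r.dvr
  have n0 := (H.nu h₀ M).2 hM
  have b0 := c1 _ A.val n0
  have p0 := (br _ _ (cu S C₀ x h₀ r.hz hx)).2.2.1
  refine ⟨c (S.R h₀) / lg (S.R h₀), fun C h w hz b => ?_⟩
  by_cases e : C = C₀
  · subst e
    obtain rfl : S.R h = w := dvr_eq r.dvr ((br _ _ (cu S C x h hz hx)).2.2.2.1 w b).1 b.2.1
    rwa [div_mul_cancel₀ _ p0.ne']
  obtain ⟨k, α, e1, e2, e3⟩ := pr S M lam x kb ku hx hM C₀ h₀ n a₀ a C h w r hz e b
  obtain ⟨u, u0, u1, u2⟩ := (n1 _ A.val n0).2.2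
  have e4 := (e2 u u0 u2).symm.trans (b0 u u0 u2)
  rw [u1, Int.cast_one, mul_one, mul_one] at e4
  convert e1 using 1
  rw [e3, e4]
  field_simp

end Pool.Agent.MP_f3836a_nt.GQ
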