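import Pool.Agent.MP_f3836a_nt.GQ.SpecL
import Pool.Agent.MP_f3836a_nt.VE.ZMainY

/-! Part GQ: from the law on a surface to the law on a curve. -/

set_option autoImplicit false

namespace Pool.Agent.MP_f3836a_nt.GQ

open Polynomial IsLocalRing PK VE.W VE.Z GP

namespace LLt

variable {L κ : Type} [Field L] [Field κ] {O U D : Subring L} {r : O →+* κ}

theorem nu (hr : DV O r) (a : O) : r a = 0 ↔ Nu O a := (hr.ker a).trans (nu_iff a).symm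

theorem ut (hr : DV O r) {a : O} (h : r a ≠ 0) : Ut O a :=
  (nu_or a.2).resolve_left fun k => h ((nu hr a).2 k)

theorem inv {a : O} (h : Ut O a) : r ⟨_, h.2.2⟩ = (r a)⁻¹ :=
  eq_inv_of_mul_eq_one_left (by
    rw [← map_mul, ← map_one r]; exact congrArg r (Subtype.ext (inv_mul_cancel₀ h.1)))

theorem mem (hr : DV O r) (hU : Vr U) (e : U ≤ O) (a : O) : r a ∈ im O r U ↔ (a : L) ∈ U := by
  refine ⟨fun ⟨b, hb, k⟩ => ?_, fun h => ⟨a, h, rfl⟩⟩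
  have n : Nu O (a - b : O) := (nu hr _).1 (by rw [map_sub, k, sub_self])
  have := U.add_mem (n.2.elim (fun k => k ▸ U.zero_mem) fun k =>
    (hU _).resolve_right fun k' => k (e k')) hb
  simpa using this

theorem vr (hr : DV O r) (hU : Vr U) : Vr (im O r U) := fun t => by
  obtain ⟨a, rfl⟩ := hr.surj t
  by_cases h : r a = 0
  · exact .inl (h ▸ zero_mem _)
  · exact (hU a).imp (fun k => ⟨a, k, rfl⟩) fun k => ⟨⟨_, (ut hr h).2.2⟩, k, inv (ut hr h)⟩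

theorem ut_im (hr : DV O r) (hU : Vr U) (e : U ≤ O) (a : O) : Ut (im O r U) (r a) ↔ Ut U a :=
  ⟨fun h => ⟨(ut hr h.1).1, (mem hr hU e a).1 h.2.1,
      (mem hr hU e ⟨_, (ut hr h.1).2.2⟩).1 (by rw [inv (ut hr h.1)]; exact h.2.2)⟩,
    fun h => ⟨fun k => ((nu hr a).1 k).not (h.mono e), ⟨a, h.2.1, rfl⟩,
      ⟨⟨_, (h.mono e).2.2⟩, h.2.2, inv (h.mono e)⟩⟩⟩

theorem nu_im (hr : DV O r) (hU : Vr U) (e : U ≤ O) (a : O) : Nu (im O r U) (r a) ↔ Nu U a :=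
  ⟨fun h => (nu_or ((mem hr hU e a).1 h.1)).resolve_right fun k => h.not ((ut_im hr hU e a).2 k),
    fun h => (nu_or ((mem hr hU e a).2 h.1)).resolve_right fun k => h.not ((ut_im hr hU e a).1 k)⟩

theorem dom [IsLocalRing D] (hr : DV O r) (hU : Vr U) (e : U ≤ O) (e' : D ≤ O)
    (h : Dom (im O r D) (im O r U)) : Dom D U := by
  refine ⟨fun d hd => (mem hr hU e ⟨d, e' hd⟩).1 (h.1 ⟨_, hd, rfl⟩), fun d hd =>
    (nu_im hr hU e ⟨d, e' hd.1⟩).1 (h.2 _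
      ((nu_or (D := im O r D) ⟨⟨d, e' hd.1⟩, hd.1, rfl⟩).resolve_right fun k => ?_))⟩
  obtain ⟨b, hb, k'⟩ := k.2.2
  have n : Nu O (b * ⟨d, e' hd.1⟩ - 1 : O) :=
    (nu hr _).1 (by rw [map_sub, map_mul, k', inv_mul_cancel₀ k.1, map_one, sub_self])
  have := (hd.mul hb).sub (nu_down e' (D.sub_mem (D.mul_mem hb hd.1) D.one_mem) n)
  rw [Subring.coe_subtype, sub_sub_cancel] at this
  exact this.not ut_one

theorem nm {B : Subring L} {s : B →+* κ} (hs : Rm B s) (hr : DV O r)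
    (e : ∀ z : B, ∃ h : (z : L) ∈ O, r ⟨z, h⟩ = s z) :
    Br B O ∧ ∀ v : O, nmW s O v = r v := by
  have A := dvA ⟨hr.dvr, hr.frac⟩
  have := A.loc
  have d : Dom B O := ⟨fun z hz => (e ⟨z, hz⟩).1, fun z hz => (nu hr ⟨z, (e ⟨z, hz.1⟩).1⟩).1
    ((e ⟨z, hz.1⟩).2.trans ((hs.ker _).2 ((nu_iff ⟨z, hz.1⟩).1 hz)))⟩
  obtain ⟨ν, hν⟩ := hs.nv d
  have k : ∀ a : O, ν (r a) = residue O a := fun a => by
    obtain ⟨b, hb⟩ := hs.surj (r a)
    obtain ⟨h, k⟩ := hν b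
    rw [← hb, k, ← sub_eq_zero, ← map_sub, residue_eq_zero_iff]
    exact (hr.ker _).1 (by rw [map_sub, (e b).2, hb, sub_self])
  have f : frO ν = 1 :=
    letI := ν.toAlgebra
    Module.finrank_of_bijective_algebraMap ⟨ν.injective, fun t =>
      let ⟨a, h⟩ := residue_surjective t
      ⟨r a, (k a).trans h⟩⟩
  refine ⟨⟨A.val, d⟩, fun v => ?_⟩
  rw [nmW_eq hs.surj hν, EDVA.res_mem v.2, ← k, nrmO_map, f, pow_one]

end LLt

open LLt in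
theorem lLt : OfLt := by
  intro md _ tr S M lam y C x h h' D w α hy hz hD ⟨O, r, h1, hr, hc, hw⟩ lv u u0 hu
  have T := tr S y hy
  obtain ⟨q, _, hq⟩ := (md _ _ (S.η y) (S.md y)).ov _ _ ((S.pt y _).2 ⟨x, h'.trans h, rfl⟩)
    ((S.pt y _).2 ⟨C, h, rfl⟩) ((S.le _ h).2 h')
  obtain ⟨b, n⟩ := nm (S.rm h) hr fun z => by
    obtain ⟨a, b, hb, e⟩ := mem_lc.1 (hq ▸ z.2 : (z : S.κ y) ∈ lc _ q)
    have b0 : (b : S.κ y) ≠ 0 := fun k => hb (by rw [show b = 0 from Subtype.ext k]; exact q.zero_mem)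
    have ne : S.ev h h' b ≠ 0 := fun k => ((S.ev_eq_zero h h' b).1 k).not
      ⟨b0, (S.le _ h).2 h' b.2, hq ▸ mem_lc.2 ⟨1, b, hb, inv_mul_cancel₀ b0⟩⟩
    obtain ⟨ha, ea⟩ := hc a
    obtain ⟨hb', eb⟩ := hc b
    have ub := ut hr (eb ▸ ne)
    have hz : (z : S.κ y) ∈ O := by
      rw [eq_div_of_mul_eq b0 e, div_eq_mul_inv]
      exact O.mul_mem ha ub.2.2
    refine ⟨hz, mul_right_cancel₀ ne ?_⟩
    rw [← eb, ← map_mul, eb, show (⟨z, hz⟩ * ⟨_, hb'⟩ : O) = ⟨_, ha⟩ from Subtype.ext e, ea, Sy.ev,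
      RingHom.comp_apply, RingHom.comp_apply, ← map_mul]
    exact congrArg _ (Subtype.ext e.symm)
  obtain ⟨v, rfl⟩ := hr.surj u
  have e' := ((rgA hD).dvr O h1).2.1
  have := hD.loc
  have k := lv O v h1 ((T.pl O).2 ⟨C, h, hz, b⟩).2 (ut hr u0) fun U fl nd =>
    (ut_im hr fl.1 fl.2.1 v).1 (hu _ (vr hr fl.1)
      (map_natCast r M ▸ (nu_im hr fl.1 fl.2.1 M).2 fl.2.2)
      fun d => nd (dom hr fl.1 fl.2.1 e' (hw ▸ d)))
  rwa [T.eq lam C h O v hz.1 b, n, ← zOk odS wTr zDv rgS _ _ D O r v hD h1 hr, od, if_pos e', hw,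
    EDVA.res_mem v.2] at k

end Pool.Agent.MP_f3836a_nt.GQ
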