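import Pool.Agent.MP_f3836a_nt.GQ.SpecL
import Pool.Agent.MP_f3836a_nt.PK.Ord
import Pool.Agent.MP_f3836a_nt.VE.ZSb

/-! Orders on curves, and the functionals attached to closed points. -/

set_option autoImplicit false

namespace Pool.Agent.MP_f3836a_nt.GQ

open Polynomial IsLocalRing PK VE.W VE.Z GP

namespace LOr

variable {L : Type} [Field L]

theorem ord_one (R : Subring L) : ordR R 1 = 0 := by
  unfold ordR
  split_ifs with h
  · have h1 := h.2.choose_spec.2
    rw [one_mul] at h1
    rw [Subtype.ext h1, sub_self]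
  · rfl

theorem ord_ut {R : Subring L} [IsNoetherianRing R] [Ring.KrullDimLE 1 R] {u : L} (h : Ut R u) :
    ordR R u = 0 := by
  have n : (⟨u, h.2.1⟩ : R) ≠ 0 := fun e => h.1 (congrArg Subtype.val e)
  exact (Ord.coe n).trans ((Ord.o_zero n).2 ((ut_iff ⟨u, h.2.1⟩).1 h))

theorem mn {B : Subring L} {q : Ideal B} [hq : q.IsPrime] (h : Dm1 (lc B q)) {c : B} (c0 : c ≠ 0)
    (hc : c ∈ q) : q ∈ (Ideal.span {c}).minimalPrimes := by
  obtain ⟨q', h1, h2⟩ := Ideal.exists_minimalPrimes_le ((Ideal.span_singleton_le_iff_mem q).2 hc)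
  have := h1.1.1
  have le : lc B q ≤ lc B q' := fun z hz => by
    obtain ⟨a, b, hb, e⟩ := mem_lc.1 hz
    exact mem_lc.2 ⟨a, b, fun k => hb (h2 k), e⟩
  have m : ∀ a : B, Subring.inclusion (le_lc B q) a ∈
      (maximalIdeal (lc B q')).comap (Subring.inclusion le) ↔ a ∈ q' := fun a => by
    rw [Ideal.mem_comap, mem_maximalIdeal, mem_nonunits_iff, ← ut_iff]
    exact (zb_ut a).not.trans not_not
  have e := eq_maximalIdeal (h ((maximalIdeal (lc B q')).comap (Subring.inclusion le))
    inferInstance fun e => c0 (by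
      have := (m c).2 (h1.1.2 (Ideal.mem_span_singleton_self c))
      rw [e, Ideal.mem_bot] at this
      have t := congrArg Subtype.val this
      exact Subtype.ext t))
  refine (le_antisymm h2 fun a ha => (m a).1 ?_) ▸ h1
  rw [e, mem_maximalIdeal, mem_nonunits_iff, ← ut_iff]
  exact fun k => (zb_ut a).1 k ha

open Classical in
theorem fin {B : Subring L} [IsNoetherianRing B] (fr : Fr B) {u : L} (hu : u ≠ 0) :
    {S | ∃ (q : Ideal B) (_ : q.IsPrime), S = lc B q ∧ Dm1 S ∧ ¬Ut S u}.Finite := by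
  obtain ⟨a, b, b0, e⟩ := fr u
  have b1 : b ≠ 0 := fun k => b0 (congrArg Subtype.val k)
  have a1 : a ≠ 0 := Ord.num_ne hu b1 e
  refine (((Ideal.span {a * b}).finite_minimalPrimes_of_isNoetherianRing B).image
    fun q => if h : q.IsPrime then lc B q else ⊤).subset ?_
  rintro _ ⟨q, hq, rfl, h, k⟩
  refine ⟨q, mn h (mul_ne_zero a1 b1) (by_contra fun n => k ?_), dif_pos hq⟩
  rw [eq_div_of_mul_eq b0 e]
  exact ((zb_ut a).2 fun t => n (q.mul_mem_right _ t)).div
    ((zb_ut b).2 fun t => n (q.mul_mem_left _ t))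

open Classical in
theorem fs_eq {α : Type} {p : α → Prop} {f : α → ℝ} {t : Set α} (ht : t.Finite)
    (h : ∀ a, p a → f a ≠ 0 → a ∈ t) :
    ∑ᶠ (a) (_ : p a), f a = ∑ a ∈ ht.toFinset, if p a then f a else 0 := by
  simp only [finsum_eq_if]
  exact finsum_eq_sum_of_support_subset _ fun a ha => by
    by_cases e : p a
    · simpa using h a e (by simpa [e] using ha)
    · simp [e] at ha

theorem one (S : Sy) (C x : S.P) : S.ord C x 1 = 0 := by
  unfold Sy.ord
  split_ifs
  exacts [ord_one _, rfl]

end LOr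

open LOr Classical in
theorem lOr : OfOr := fun hM hH S C hC => by
  have A := hM _ _ _ (S.md C)
  have pt : ∀ {x} (h : x ≤ C), Pt (S.η C) (S.R h) := fun h => (S.pt C _).2 ⟨_, h, rfl⟩
  have kd : ∀ {x} (h : x ≤ C), Ring.KrullDimLE 1 (S.R h) := fun h =>
    .mk₁' fun I a b => ((hH S).dm h hC).1 I b a
  refine ⟨fun x u u' a b => ?_, fun u => ?_⟩
  · unfold Sy.ord
    split_ifs with h
    · have := A.noeth _ (pt h)
      have := kd h
      exact Ord.mul (A.fr _ (pt h)) u u' a b
    · rfl
  · have le : ∀ x, S.ord C x u ≠ 0 → ∃ h : x ≤ C, ordR (S.R h) u ≠ 0 := fun x k => by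
      unfold Sy.ord at k
      split_ifs at k with h
      exacts [⟨h, k⟩, absurd rfl k]
    by_cases hu : u = 0
    · refine Set.finite_empty.subset fun x k => ?_
      obtain ⟨h, k⟩ := le x k.2
      exact k (dif_neg fun e => e.1 hu)
    have f : ∀ i, {T | S.η C i ≠ 0 ∧ ∃ (q : Ideal (Ch (S.η C) i)) (_ : q.IsPrime),
        T = lc _ q ∧ Dm1 T ∧ ¬Ut T u}.Finite := fun i => by
      by_cases e : S.η C i = 0
      · simp [e]
      · have := A.ft i
        have := Algebra.FiniteType.isNoetherianRing ℤ (Ch (S.η C) i)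
        exact (fin ((S.md C).2 i e) hu).subset fun T k => k.2
    refine Set.Finite.of_injOn (f := fun x => if h : x ≤ C then S.R h else ⊤)
      (fun x k => ?_) (fun x k y k' e => ?_) (Set.finite_iUnion f)
    · obtain ⟨h, k⟩ := le x k.2
      obtain ⟨i, i0, q, hq, e⟩ := pt h
      have := A.noeth _ (pt h)
      have := kd h
      simp only [dif_pos h]
      exact Set.mem_iUnion.2 ⟨i, i0, q, hq, e, ((hH S).dm h hC).1, fun t => k (ord_ut t)⟩
    · obtain ⟨h, -⟩ := le x k.2
      obtain ⟨h', -⟩ := le y k'.2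
      simp only [dif_pos h, dif_pos h'] at e
      exact S.anti _ _ ((S.le h' h).1 e.ge) ((S.le h h').1 e.le)

open LOr Classical in
theorem lSw : OfSw := fun hH hO S M α => by
  refine ⟨fun C u u' a b => ?_, fun C u a b => ?_, fun φ h => ?_⟩
  · unfold Sy.dl
    split_ifs with hC
    · have f := fun u => ((hO S C hC).2 u).subset
        (t := {x | S.Cl x ∧ (M : S.κ x) = 0} ∩ Function.support fun x => α x * S.ord C x u)
        fun x k => ⟨k.1.1, fun e => k.2 (by simp [e])⟩
      refine .trans (finsum_congr fun x => finsum_congr fun _ => ?_)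
        (finsum_mem_add_distrib' (f u) (f u'))
      rw [(hO S C hC).1 x u u' a b, Int.cast_add, mul_add]
    · simp
  · unfold Sy.dl
    split_ifs with hC
    · refine finsum_eq_zero_of_forall_eq_zero fun x =>
        finsum_eq_if.trans (ite_eq_right_iff.2 fun k => ?_)
      unfold Sy.ord
      split_ifs with h
      · refine absurd ⟨hC, ?_⟩ b
        have p0 : ringChar (S.κ C) ≠ 0 := fun e =>
          a ⟨hC, (CharP.ringChar_zero_iff_CharZero _).1 e⟩
        have p1 := CharP.char_prime_of_ne_zero (S.κ C) p0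
        have p2 := ((hH S).nu h (ringChar (S.κ C))).1
          (by rw [ringChar.Nat.cast_ringChar]; exact nu_zero)
        rw [ringChar.spec] at p2 ⊢
        rw [← (p1.eq_one_or_self_of_dvd _ p2).resolve_left CharP.ringChar_ne_one]
        exact (ringChar.spec _ _).1 k.2
      · simp
    · rfl
  · have ht := h.fin.biUnion fun C hC => (hO S C (h.cv C hC)).2 (φ C)
    rw [finsum_eq_sum_of_support_subset (s := h.fin.toFinset) _ fun C k => ?_,
      Finset.sum_congr rfl (g := fun C => ∑ x ∈ ht.toFinset,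
        if S.Cl x ∧ (M : S.κ x) = 0 then α x * S.ord C x (φ C) else 0) fun C hC => ?_,
      Finset.sum_comm]
    · refine Finset.sum_eq_zero fun x _ => ?_
      by_cases e : S.Cl x ∧ (M : S.κ x) = 0
      · have k := h.div x e.1
        rw [finsum_eq_sum_of_support_subset (s := h.fin.toFinset) _ fun C k => by
          simpa using fun t => k (by simp only [t, one])] at k
        simp only [if_pos e]
        rw [← Finset.mul_sum, ← Int.cast_sum, k, Int.cast_zero, mul_zero]
      · simp only [if_neg e, Finset.sum_const_zero]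
    · have c := h.fin.mem_toFinset.1 hC
      rw [Sy.dl, if_pos (h.cv C c)]
      refine (fs_eq (p := fun x => S.Cl x ∧ (M : S.κ x) = 0) ht fun x a b =>
        Set.mem_biUnion c ⟨a.1, fun e => b (by simp [e])⟩).trans ?_
      exact Finset.sum_congr rfl fun x _ => by
        by_cases e : S.Cl x ∧ (M : S.κ x) = 0 <;> simp only [e, if_true, if_false, and_self]
    · simpa using fun t => k (by simp [t, Sy.dl, one])

end Pool.Agent.MP_f3836a_nt.GQ
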