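import Pool.Agent.MP_f3836a_nt.GQ.SpecL

/-! Part GQ: a branch and the reference branch. -/

set_option autoImplicit false

namespace Pool.Agent.MP_f3836a_nt.GQ

open Polynomial IsLocalRing PK VE.W VE.Z GP

namespace LPair

theorem nu_lc {K : Type} [Field K] {B : Subring K} {q : Ideal B} [q.IsPrime] (a : B) :
    Nu (lc B q) (a : K) ↔ a ∈ q := by
  rw [nu_iff_not (le_lc B q a.2), zb_ut, not_not]

variable (S : Sy) {x y z z' : S.P}

theorem pt (h : z ≤ y) : Pt (S.η y) (S.R h) := (S.pt y _).2 ⟨z, h, rfl⟩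

/-- the order is read off the kernels -/
theorem le_of_ker (md : MdS) (h : x ≤ z) (h' : x ≤ z')
    (k : ∀ b : S.R (S.top x), S.ev (S.top z) h b = 0 → S.ev (S.top z') h' b = 0) : z' ≤ z := by
  have m := md _ _ _ (S.md S.g)
  obtain ⟨q, hq, e⟩ := m.ov _ _ (pt S (S.top x)) (pt S (S.top z)) ((S.le _ _).2 h)
  obtain ⟨q', hq', e'⟩ := m.ov _ _ (pt S (S.top x)) (pt S (S.top z')) ((S.le _ _).2 h')
  refine (S.le (S.top z') (S.top z)).1 ?_
  rw [e, e', (wLc _ _).le]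
  intro b hb
  have := k b ((S.ev_eq_zero _ h b).2 (e ▸ (nu_lc b).2 hb))
  rwa [S.ev_eq_zero, e', nu_lc] at this

theorem cb (h : z ≤ y) (h' : x ≤ z) {D : Subring (S.κ y)} {w : Subring (S.κ z)}
    (c : Cb (S.ev (S.top y) (h'.trans h)) (S.ev (S.top z) h') D w) :
    Cb (S.R (h'.trans h)).subtype (S.ev h h') D w := by
  obtain ⟨O, r, h1, h2, h3, h4⟩ := c
  refine ⟨O, r, h1, h2, fun ⟨c, hc⟩ => ?_, h4⟩
  obtain ⟨a, rfl⟩ : c ∈ (S.ev (S.top y) (h'.trans h)).range := by rwa [S.ev_range]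
  obtain ⟨ha, e⟩ := h3 a
  exact ⟨ha, e.trans (S.ev_ev (S.top y) h h' a).symm⟩

theorem bv {L : Type} [Field L] {M : ℕ} {l : L → ℝ} {w : Subring L} {α : ℝ}
    (h : ∀ u, u ≠ 0 → (∀ w' : Subring L, Vr w' → Nu w' M → ¬Dom w w' → Ut w' u) →
      l u = α * ordR w u) : Bv M l w α := fun u u0 k =>
  h u u0 fun w' v n d => k w' v n fun e => d (e ▸ ⟨le_rfl, fun _ => id⟩)

end LPair

open LPair in
theorem lPair : OfPair := by
  intro md ht ff cu _ bq cx gr lt g1 g2 g3 S M lam x hb hu hx hM C₀ h₀ n a₀ a C' h w rf hC ne hw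
  have H := ht S
  have := hC.2
  have := rf.hz.2
  have m0 : ∀ z : S.P, CharZero (S.κ z) → ∀ hz : x ≤ z, S.ev (S.top z) hz M ≠ 0 := fun z _ hz => by
    rw [map_natCast]; exact Nat.cast_ne_zero.2 hb.ne
  have fr : ∀ (z : S.P) (hz : x ≤ z), Fr (S.ev (S.top z) hz).range := fun z hz => by
    rw [S.ev_range]; exact (md _ _ _ (S.md z)).fr _ (pt S hz)
  have : Finite (ResidueField (S.R (S.top x))) :=
    (md _ _ _ (S.md S.g)).fin _ (pt S _) ((H.cl _).1 hx)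
  have mM : (M : S.R (S.top x)) ∈ maximalIdeal _ :=
    (nu_iff (M : S.R (S.top x))).1 (by simpa using (H.nu (S.top x) M).2 hM)
  obtain ⟨g, m, bg⟩ := g1 _ _ (S.ev (S.top C') h) w (by rw [S.ev_range]; exact cu S C' x h hC hx)
    (by rwa [S.ev_range])
  have ea : ∃ i, S.ev (S.top C') h (a i) ≠ 0 := by
    by_contra! k
    have l : C' ≤ C₀ := le_of_ker S md h₀ h fun b e =>
      (Ideal.span_le (I := RingHom.ker (S.ev (S.top C') h))).2
        (by rintro _ ⟨i, rfl⟩; exact k i) ((rf.ker b).1 e)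
    refine (H.dm l rf.hz.1).2.elim ne fun c => ?_
    have := hC.1
    rw [Sy.Cv, c] at this
    exact zero_ne_one this
  obtain ⟨T, gs⟩ := g2 _ _ n a₀ a (S.ev (S.top C') h) w g m M rf.dim.ge rf.gen
    (by rw [← show RingHom.ker _ = _ from Ideal.ext rf.ker]; exact RingHom.ker_isPrime _)
    (fr _ h) bg ea mM (m0 _ hC.2 h)
  have := gs.pr
  obtain ⟨y, hy, h₂, e⟩ := H.pr (S.top x) (T.comap C)
  have ke : ∀ b : S.R (S.top x), S.ev (S.top y) hy b = 0 ↔ C b ∈ T := fun b => by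
    rw [S.ev_eq_zero, e, nu_lc, Ideal.mem_comap]
  have l : C' ≤ y := le_of_ker S md hy h fun b k => by simpa using gs.gr _ ((ke b).1 k)
  have l₀ : C₀ ≤ y := le_of_ker S md hy h₀ fun b k =>
    (rf.ker b).2 (by simpa using gs.rf _ ((ke b).1 k))
  obtain ⟨τ, D, D', E, G, c, c₀⟩ := g3 _ _ _ _ _ a₀ a (S.ev (S.top C') h) (S.ev (S.top C₀) h₀)
    (S.ev (S.top y) hy) w g m T M (rf.gen ▸ Ideal.subset_span (Set.mem_insert _ _)) bg gs (fr _ h)
    (fr _ h₀) (fr _ hy) rf.ker ke mM (m0 _ hC.2 h) (m0 _ rf.hz.2 h₀)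
  rw [S.ev_range] at G c₀
  have cz := H.cz l hC.2
  have F : FF (S.κ y) := by
    obtain ⟨b1, -, b3, -⟩ := bq _ _ _ (S.md y) τ G.ne
    obtain ⟨q, _, e⟩ := G.pt
    exact (ff _ _ _ D b1 (e ▸ b3 _ q (pt S hy))).1 G.rg
  have sf : S.Sf y := ⟨(H.sf y cz).2 F, cz⟩
  obtain ⟨α, v, v₀⟩ := gr _ _ _ M _ _ F (S.md y) (cx S M lam y hb hu sf) _ τ _ _ D D' E
    ⟨pt S hy, (H.cl hy).1 hx, (H.nu hy M).2 hM⟩ G
  refine ⟨m.natDegree, α, bv (lt S M lam y C' x l h D w _ sf hC G.rg (cb S l h c) v),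
    bv (lt S M lam y C₀ x l₀ h₀ D' _ _ sf rf.hz G.rg' (cb S l₀ h₀ c₀) v₀), ?_⟩
  rw [bg.deg, S.ev_range, H.lg, H.lg]

end Pool.Agent.MP_f3836a_nt.GQ
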