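import Pool.Agent.MP_f3836a_nt.GQ.SpecL

/-! Part GQ: perturbation of the equations of the surface. -/

set_option autoImplicit false

namespace Pool.Agent.MP_f3836a_nt.GQ

open Polynomial IsLocalRing PK VE.W VE.Z GP

namespace LPe

variable {A κ : Type} [CommRing A] [IsLocalRing A] [Field κ] {k : ℕ}

theorem span_le {z u : Fin k → A[X]} {δ : A[X]} (h : δ ∈ ((maximalIdeal A).map C : Ideal A[X]) ^ 2)
    (J : Ideal A[X]) (m : A[X]) : Ideal.span (Set.range z) ⊔ J ⊔ xI m ^ 2 ≤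
      Ideal.span (Set.range fun i => z i + δ * u i) ⊔ J ⊔ xI m ^ 2 := by
  refine sup_le (sup_le (Ideal.span_le.2 ?_) (le_sup_right.trans le_sup_left)) le_sup_right
  rintro _ ⟨i, rfl⟩
  rw [show z i = z i + δ * u i - δ * u i by ring]
  exact sub_mem (Ideal.mem_sup_left (Ideal.mem_sup_left (Ideal.subset_span ⟨i, rfl⟩)))
    (Ideal.mem_sup_right (Ideal.mul_mem_right _ _ (Ideal.pow_right_mono le_sup_left 2 h)))

theorem add {a₀ : A} {a : Fin k → A} {e : A →+* κ} {g : κ} {m : A[X]} {b : A} {z : Fin k → A[X]}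
    (h : Zs a₀ a e g m b z) {δ : A[X]} (h1 : eval₂ e g δ = 0)
    (h2 : δ.coeff 0 ∈ Ideal.span (Set.range a))
    (h3 : δ ∈ ((maximalIdeal A).map C : Ideal A[X]) ^ 2) (u : Fin k → A[X]) :
    Zs a₀ a e g m b fun i => z i + δ * u i where
  mem := h.mem
  gr := fun i => by rw [eval₂_add, eval₂_mul, h.gr, h1, zero_mul, add_zero]
  rf := fun i => by
    rw [coeff_add, mul_coeff_zero]
    exact add_mem (h.rf i) (Ideal.mul_mem_right _ _ h2)
  ln := fun i => add_mem (h.ln i) (Ideal.mul_mem_right _ _ (Ideal.pow_le_self two_ne_zero h3))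
  g1 := fun c hc => (h.g1 c hc).imp fun _ w => ⟨w.1, span_le h3 _ _ w.2⟩
  g0 := fun c hc => (h.g0 c hc).imp fun _ w => ⟨w.1, span_le h3 _ _ w.2⟩

omit [IsLocalRing A] in
theorem fac {e : A →+* κ} {g : κ} {P : A[X]} (h : eval₂ e g P = 0) :
    ∃ q, P.map e = (X - C g) * q :=
  dvd_iff_isRoot.2 (by rwa [IsRoot.def, eval_map])

end LPe

theorem lPe : OfPe := by
  intro H A κ _ _ _ _ n a₀ a e g m b z p hF ⟨i, hi⟩ hp hp0 hz
  obtain ⟨⟨_, A₀, rfl⟩, ⟨_, B, rfl⟩, hB, hg⟩ := hF g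
  change e B ≠ 0 at hB
  change g * e B = e A₀ at hg
  have hβ : e (p ^ 2 * a i * B) ≠ 0 := by simp [hi, hp0, hB]
  have hc : p ^ 2 * a i * B ≠ 0 := fun h => hβ (by rw [h, map_zero])
  obtain ⟨δ, hδ⟩ : ∃ δ : A[X], δ = C (p ^ 2 * a i * B) * X + C (-(p ^ 2 * a i * A₀)) := ⟨_, rfl⟩
  have m1 : δ.map e = (X - C g) * C (e (p ^ 2 * a i * B)) := by
    simp only [hδ, Polynomial.map_add, Polynomial.map_mul, map_C, map_X, map_neg, map_mul, ← hg,
      Polynomial.map_neg]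
    ring
  have h1 : eval₂ e g δ = 0 := by rw [← eval_map, m1]; simp
  have h2 : δ.coeff 0 ∈ Ideal.span (Set.range a) := by
    rw [hδ, coeff_add, coeff_mul_X_zero, coeff_C_zero, zero_add]
    exact neg_mem (Ideal.mul_mem_right _ _ (Ideal.mul_mem_left _ _ (Ideal.subset_span ⟨i, rfl⟩)))
  have h3 : δ ∈ ((maximalIdeal A).map C : Ideal A[X]) ^ 2 := by
    rw [show δ = C p ^ 2 * (C (a i * B) * X - C (a i * A₀)) by
      simp only [hδ, map_neg, map_mul, map_pow]; ring]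
    exact Ideal.mul_mem_right _ _ (Ideal.pow_mem_pow (Ideal.mem_map_of_mem _ hp) 2)
  have l0 : (z 0 + δ * X ^ (z 0).natDegree).leadingCoeff = p ^ 2 * a i * B := by
    rw [leadingCoeff_add_of_degree_lt, leadingCoeff_mul_X_pow, hδ, leadingCoeff_linear hc]
    rw [degree_mul_X_pow, hδ, degree_linear hc]
    exact degree_le_natDegree.trans_lt (by exact_mod_cast Nat.lt_add_of_pos_left one_pos)
  obtain ⟨q, hq⟩ := LPe.fac ((LPe.add hz h1 h2 h3 fun _ => X ^ (z 0).natDegree).gr 0)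
  obtain ⟨q', hq'⟩ := LPe.fac (hz.gr 1)
  have q0 : q ≠ 0 := fun h => hβ (by
    rw [← l0, leadingCoeff, ← coeff_map, hq, h, mul_zero, coeff_zero])
  obtain ⟨c, u, v, huv⟩ := H κ q q' _ q0 hβ
  refine ⟨_, LPe.add hz h1 h2 h3 fun j => if j = 0 then X ^ (z 0).natDegree else c,
    ⟨0, by rw [if_pos rfl, l0]; exact hβ⟩, ?_⟩
  have e1 : X - C g = u * mapRingHom e (z 0 + δ * X ^ (z 0).natDegree) +
      v * mapRingHom e (z 1 + δ * c) := by
    rw [coe_mapRingHom, hq, Polynomial.map_add, Polynomial.map_mul, hq', m1,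
      Polynomial.map_natCast]
    rw [C_mul, C_eq_natCast] at huv
    linear_combination (C g - X) * huv
  rw [e1]
  exact add_mem (Ideal.mul_mem_left _ _ (Ideal.mem_map_of_mem _ (Ideal.subset_span ⟨0, by simp⟩)))
    (Ideal.mul_mem_left _ _ (Ideal.mem_map_of_mem _ (Ideal.subset_span ⟨1, by simp⟩)))

end Pool.Agent.MP_f3836a_nt.GQ
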