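import Pool.Agent.MP_f3836a_nt.GQ.SpecL

/-! Part GQ: a prime ideal from local equations; the height of a point on a line. -/

set_option autoImplicit false

namespace Pool.Agent.MP_f3836a_nt.GQ

open Polynomial IsLocalRing PK

namespace LPr

theorem prime (R : Type) [CommRing R] [IsLocalRing R] [IsNoetherianRing R] (k : ℕ) (z : Fin k → R)
    (a b : R) (hd : ((k + 2 : ℕ) : WithBot ℕ∞) ≤ ringKrullDim R)
    (hm : maximalIdeal R = Ideal.span (Set.range z) ⊔ Ideal.span {a, b}) :
    (Ideal.span (Set.range z)).IsPrime := by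
  have hz : Ideal.span (Set.range z) ≤ maximalIdeal R := hm ▸ le_sup_left
  have nt : Ideal.span (Set.range z) ≠ ⊤ := ne_top_of_le_ne_top (maximalIdeal.isMaximal R).ne_top hz
  have := Ideal.Quotient.nontrivial_iff.2 nt
  have sj := Ideal.Quotient.mk_surjective (I := Ideal.span (Set.range z))
  have := IsLocalRing.of_surjective' (Ideal.Quotient.mk (Ideal.span (Set.range z))) sj
  have le : (maximalIdeal (R ⧸ Ideal.span (Set.range z))).spanFinrank ≤ 2 := by
    rw [← map_maximalIdeal_of_surjective _ sj, hm, Ideal.map_sup, Ideal.map_quotient_self,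
      bot_sup_eq, Ideal.map_span, Set.image_pair]
    exact (Submodule.spanFinrank_span_le_ncard_of_finite (Set.toFinite _)).trans
      ((Set.ncard_insert_le _ _).trans (by simp))
  have ge : ((2 : ℕ) : WithBot ℕ∞) ≤ ringKrullDim (R ⧸ Ideal.span (Set.range z)) := by
    have h1 := Ideal.height_le_ringKrullDim_quotient_add_encard (p := maximalIdeal R) _
      (Ideal.span_le.1 hz)
    have h2 : (Set.range z).encard ≤ k := by
      rw [← Set.image_univ]
      exact (Set.encard_image_le _ _).trans (by simp)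
    rw [maximalIdeal_height_eq_ringKrullDim] at h1
    have h3 := (hd.trans h1).trans (add_le_add_right (WithBot.coe_le_coe.2 h2) _)
    rw [add_comm k, Nat.cast_add] at h3
    exact (ENat.WithBot.add_le_add_natCast_right_iff).1 h3
  have reg : IsRegularLocalRing (R ⧸ Ideal.span (Set.range z)) :=
    IsRegularLocalRing.of_spanFinrank_maximalIdeal_le _ (le_trans (by exact_mod_cast le) ge)
  exact (Ideal.Quotient.isDomain_iff_prime _).1 (rDom _)

end LPr

theorem lPr : PrQ := by
  intro R _ _ x _ k z a b hx hz ha hb h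
  let f := algebraMap R (Localization.AtPrime x)
  have mem : ∀ (I : Ideal R) (c : R), f c ∈ I.map f ↔ ∃ u, u ∉ x ∧ u * c ∈ I := fun I c =>
    IsLocalization.algebraMap_mem_map_algebraMap_iff x.primeCompl _ I c
  have e : x.map f = maximalIdeal _ := Localization.AtPrime.map_eq_maximalIdeal
  have hI : Ideal.span (Set.range z) ⊔ Ideal.span {a, b} ≤ x :=
    sup_le (Ideal.span_le.2 (Set.range_subset_iff.2 hz))
      (Ideal.span_le.2 (Set.insert_subset ha (Set.singleton_subset_iff.2 hb)))
  have hm : maximalIdeal (Localization.AtPrime x) =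
      (Ideal.span (Set.range z) ⊔ Ideal.span {a, b}).map f := by
    refine le_antisymm (Submodule.le_of_le_smul_of_le_jacobson_bot (IsNoetherian.noetherian _)
      (maximalIdeal_le_jacobson ⊥) ?_) (e ▸ Ideal.map_mono hI)
    rw [smul_eq_mul, ← pow_two, ← e, ← Ideal.map_pow, ← Ideal.map_sup, Ideal.map_le_iff_le_comap]
    exact fun c hc => (mem _ c).2 (h c hc)
  have hp : ((Ideal.span (Set.range z)).map f).IsPrime := by
    rw [Ideal.map_span, ← Set.range_comp]
    refine LPr.prime _ k _ (f a) (f b) ?_ ?_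
    · rw [IsLocalization.AtPrime.ringKrullDim_eq_height x]
      exact WithBot.coe_le_coe.2 hx
    · rw [hm, Ideal.map_sup, Ideal.map_span, Ideal.map_span, Set.image_pair, Set.range_comp]
  refine ⟨_, Ideal.comap_isPrime f ((Ideal.span (Set.range z)).map f), mem _, fun c hc => ?_⟩
  obtain ⟨u, h1, h2⟩ := (mem _ c).1 (hm ▸ e ▸ Ideal.mem_map_of_mem f hc)
  have : Ideal.span (Set.range z) ⊔ Ideal.span {a, b} ≤
    ((Ideal.span (Set.range z)).map f).comap f ⊔ Ideal.span {a, b} :=
    sup_le_sup_right Ideal.le_comap_map _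
  exact ⟨u, h1, this h2⟩

theorem lHtP : HtP := by
  intro A _ _ k x _ hk hx
  have mo : StrictMono fun P : PrimeSpectrum A => (⟨P.asIdeal.map C, inferInstance⟩ :
      PrimeSpectrum A[X]) := fun P Q h => lt_of_le_not_ge (Ideal.map_mono h.le) fun e =>
    h.not_ge fun c hc => by
      simpa using Ideal.mem_map_C_iff.1 (e (Ideal.mem_map_of_mem C hc)) 0
  have h1 := Order.height_le_height_apply_of_strictMono _ mo (closedPoint A)
  rw [← PrimeSpectrum.height_eq_orderHeight, ← PrimeSpectrum.height_eq_orderHeight] at h1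
  rw [← maximalIdeal_height_eq_ringKrullDim] at hk
  have h2 : (k : ℕ∞) ≤ (maximalIdeal A).height := by exact_mod_cast hk
  rw [Nat.cast_add_one]
  exact (add_le_add_left (h2.trans h1) 1).trans (Ideal.height_add_one_le_of_lt_of_isPrime hx)

end Pool.Agent.MP_f3836a_nt.GQ
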