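import Pool.Agent.MP_f3836a_nt.GQ.SpecL
import Pool.Agent.MP_f3836a_nt.VE.ZSb

/-! Part GQ: a point and a curve through it. -/

set_option autoImplicit false

namespace Pool.Agent.MP_f3836a_nt.GQ

open Polynomial IsLocalRing PK VE.W VE.Z GP

theorem lPt : PtQ := by
  intro R L _ _ _ ψ x l q q' _ _ b m fr hq hq' fin lx ⟨c, cl, c0⟩ bl mx ml gen
  have sj := ψ.rangeRestrict_surjective
  have ut : ∀ r, Ut (lc _ q) (ψ r) ↔ r ∉ x := fun r =>
    (zb_ut (ψ.rangeRestrict r)).trans (not_congr (hq r))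
  have mem : ∀ r, ψ r ∈ lc _ q := fun r => le_lc _ q (ψ.mem_range_self r)
  have nu : ∀ r ∈ x, Nu (lc _ q) (ψ r) := fun r h =>
    (nu_iff_not (mem r)).2 fun u => (ut r).1 u h
  have le : q' ≤ q := fun a ha => by
    obtain ⟨r, rfl⟩ := sj a
    exact (hq r).2 (lx ((hq' r).1 ha))
  have : Finite (ψ.range ⧸ q) := Finite.of_surjective _
    (Ideal.quotientMap_surjective (J := x) (H := fun r h => (hq r).2 h) sj)
  have g : Gen (lc _ q) (ψ b) (ψ m) := ⟨mem b, mem m, fun z => ⟨fun hz => by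
    obtain ⟨a, d, hd, e⟩ := mem_lc.1 hz.1
    obtain ⟨r, rfl⟩ := sj a
    have ud := (zb_ut d).2 hd
    have e' : z = ψ r / d := eq_div_of_mul_eq ud.1 e
    obtain ⟨u, hu, k⟩ := gen r (by_contra fun h => hz.not (e' ▸ ((ut r).2 h).div ud))
    obtain ⟨n, hn, w, hw, k⟩ := Submodule.mem_sup.1 k
    obtain ⟨s, t, rfl⟩ := Ideal.mem_span_pair.1 hw
    have uu := ((ut u).2 hu).mul ud
    have k' := congrArg ψ k
    rw [map_add, RingHom.mem_ker.1 hn, zero_add, map_add, map_mul, map_mul, map_mul] at k'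
    refine ⟨_, mul_mem (mem s) uu.2.2, _, mul_mem (mem t) uu.2.2, ?_⟩
    have h1 := ((ut u).2 hu).1
    have h2 := ud.1
    rw [e']
    field_simp
    linear_combination -k', by
    rintro ⟨u, hu, v, hv, rfl⟩
    exact ((nu b (lx bl)).mul hu).add ((nu m mx).mul hv)⟩⟩
  obtain ⟨p, hp, k⟩ := (wLc L ψ.range).up q q' le
  have p0 : p ≠ ⊥ := fun e => c0 (congrArg Subtype.val
    (Ideal.mem_bot.1 (k.bot.1 e ▸ (hq' c).2 cl) : ψ.rangeRestrict c = 0))
  have p1 : ¬p.IsMaximal := fun e => ml ((hq' m).1 (k.max.1 e ▸ (hq m).2 mx))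
  have rg : Rg (lc _ q) := ⟨inferInstance, (wLc L ψ.range).noeth q inferInstance,
    zb_fr fr (le_lc _ q), zb_alg q, ⟨_, _, g⟩, p, hp, p0, p1⟩
  have h1 : H1 (lc _ q) (lc _ q') := ⟨p, hp, p0, p1, k.eq.symm⟩
  obtain ⟨O, ax⟩ := (cyA rg).ax _ _ g
  have e : lc _ q' = O := by_contra fun h =>
    (zb_ut (ψ.rangeRestrict b)).1 (ax.oth _ h1 h) ((hq' b).2 bl)
  exact ⟨rg, h1, e ▸ ax.one⟩

end Pool.Agent.MP_f3836a_nt.GQ
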