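import Pool.Agent.MP_f3836a_nt.GQ.SpecL

/-! Part GQ: the reference curve and the local law in dimension one. -/

set_option autoImplicit false

namespace Pool.Agent.MP_f3836a_nt.GQ

open Polynomial IsLocalRing PK VE.W VE.Z GP

namespace LRf

theorem eq_g (S : Sy) {C : S.P} (h : S.R (S.top C) = ⊤) : C = S.g :=
  S.anti _ _ ((S.le (S.top S.g) (S.top C)).1 (h ▸ le_top)) (S.top C)

theorem dvr_of {A κ : Type} [CommRing A] [Field κ] (e : A →+* κ) (I : Ideal A) [IsDomain (A ⧸ I)]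
    [IsDiscreteValuationRing (A ⧸ I)] (h : ∀ b, e b = 0 ↔ b ∈ I) :
    IsDiscreteValuationRing e.range :=
  IsDiscreteValuationRing.RingEquivClass.isDiscreteValuationRing
    ((Ideal.quotEquivOfEq (Ideal.ext fun b => (h b).symm : I = RingHom.ker e)).trans
      e.quotientKerEquivRange)

end LRf

open LRf

theorem lRf : OfRf := by
  intro hR hM hH hF S x hx
  have H := hH S
  have := (H.fin x).1 hx
  have := S.cz
  have hp : (ringChar (S.κ x)).Prime := CharP.char_is_prime (S.κ x) _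
  have nu : ∀ n : ℕ, ¬IsUnit (n : S.R (S.top x)) ↔ ringChar (S.κ x) ∣ n := fun n => by
    rw [← nu_iff, Subring.coe_natCast, H.nu, ringChar.spec]
  obtain ⟨d, a₀, a, dim, gen, cn, dom, dvr⟩ := hR (S.R (S.top x)) (ringChar (S.κ x) : ℕ)
    ((nu _).2 dvd_rfl) fun e => hp.ne_zero (by
      have := congrArg Subtype.val e
      rw [Subring.coe_natCast] at this
      exact_mod_cast this)
  have pr := (Ideal.Quotient.isDomain_iff_prime _).1 dom
  obtain ⟨C, h, h₂, e⟩ := H.pr (S.top x) (Ideal.span (Set.range a))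
  have ker : ∀ b, S.ev (S.top C) h b = 0 ↔ b ∈ Ideal.span (Set.range a) := fun b => by
    rw [S.ev_eq_zero, e, nu_iff_not (le_lc _ _ b.2), zb_ut, not_not]
  have pt := (S.pt C _).2 ⟨x, h, rfl⟩
  have dv : IsDiscreteValuationRing (S.R h) := S.ev_range (S.top C) h ▸ dvr_of _ _ ker
  have cz : CharZero (S.κ C) := charZero_of_inj_zero fun n hn => by
    by_contra n0
    obtain ⟨k, n', h1, rfl⟩ := Nat.exists_eq_pow_mul_and_not_dvd n0 _ hp.ne_one
    rw [← map_natCast (S.ev (S.top C) h), ker, Nat.cast_mul, Nat.cast_pow] at hn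
    exact (pr.mem_or_mem hn).elim (fun u => cn (pr.mem_of_pow_mem _ u)) fun u =>
      pr.ne_top (Ideal.eq_top_of_isUnit_mem _ u (not_not.1 fun v => h1 ((nu _).1 v)))
  exact ⟨C, h, d, a₀, a, dim, gen, ⟨(H.hz C cz).2 ((hF _ _ _ _ (S.md C) pt).2 ((H.cl h).1 hx)
    fun q hq q0 => IsPrime.to_maximal_ideal q0), cz⟩, ⟨dv, (hM _ _ _ (S.md C)).fr _ pt⟩, ker⟩

theorem lLo1 : OfLo1 := by
  intro hM hH hN hC hB S M lam x kb ku hx hMx C h a₀ a rf
  have H := hH S
  have le : S.R (S.top x) ≤ S.R (S.top C) := (S.le _ _).2 h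
  obtain rfl : C = S.g := eq_g S (eq_top_iff.2 fun z _ => by
    obtain ⟨b, c, c0, e⟩ := (hM _ _ _ (S.md S.g)).fr _ ((S.pt S.g _).2 ⟨x, S.top x, rfl⟩) z
    have u : Ut (S.R (S.top C)) c := (nu_or (le c.2)).resolve_left fun v => c0 (by
      have := (rf.ker c).1 ((S.ev_eq_zero (S.top C) h c).2 v)
      rw [Set.range_eq_empty, Ideal.span_empty, Ideal.mem_bot] at this
      rw [this]; rfl)
    rw [eq_div_of_mul_eq c0 e, div_eq_mul_inv]
    exact Subring.mul_mem _ (le b.2) u.2.2)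
  have := H.nf _ rf.hz
  obtain ⟨f, hf, -⟩ := (hN (S.κ S.g) M kb.ne).2.2.2 (lam S.g) (kb.add _) fun u => ku _ u rf.hz
  have B := hB _ _ (hC S _ x h rf.hz hx)
  refine ⟨f (S.R h) / lg (S.R h), fun C' h' w hz br => ?_⟩
  obtain rfl : C' = S.g := eq_g S (((dvA rf.dvr).max _ ((S.le h (S.top C')).2 h')).resolve_left
    fun e => by
      have e' := S.anti _ _ h' ((S.le (S.top C') h).1 e.le)
      have e1 : Order.height C' = 1 := hz.1
      have e0 : Order.height x = 0 := hx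
      rw [e', e0] at e1
      exact zero_ne_one e1)
  obtain rfl := dvr_eq rf.dvr (B.2.2.2.1 w br).1 br.2.1
  rw [div_mul_cancel₀ _ B.2.2.1.ne']
  exact hf _ br.1 ((H.nu h M).2 hMx)

end Pool.Agent.MP_f3836a_nt.GQ
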