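import Pool.Agent.MP_f3836a_nt.GQ.SpecL

/-! Part GQ: local reciprocity from reciprocity at finitely many points. -/

set_option autoImplicit false

namespace Pool.Agent.MP_f3836a_nt.GQ

open Polynomial IsLocalRing PK VE.W VE.Z GP

namespace LSr

variable {L ι : Type} [Field L] {ξ : ι → L} {M : ℕ} {D O : Subring L}

theorem ord0 {u : L} (h : Dvr O) (hu : Ut O u) : ordR O u = 0 := (((dvA h).ut u).1 hu).2

theorem ex_T [CharZero L] (A : MdA ξ) (S : SfA ξ) (hM : M ≠ 0) (D : Subring L) {f : L}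
    (hf : ∀ V, Pv ξ M V → Ut V f) : ∃ T : Finset (Subring L),
      (∀ D' ∈ T, Pt ξ D' ∧ Alg D' ∧ D' ≠ D) ∧ (∀ V, Pv ξ M V → ∃ D' ∈ T, D' ≤ V) ∧
      ∀ D', Pc ξ M D' → D' ≠ D → D' ∉ T → Ut D' f := by
  choose! pt h1 h2 h3 h4 using fun V (k : Pv ξ M V) => A.sec V D k.1 k.2.1
  have fv : {V | Pv ξ M V}.Finite :=
    (S.zer M (Nat.cast_ne_zero.2 hM)).subset fun V k => ⟨k.1, k.2.1, k.2.2.not⟩
  have fin : (({D' | Pc ξ M D' ∧ ¬Ut D' f} ∪ pt '' {V | Pv ξ M V}) \ {D}).Finite :=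
    ((S.bad M f hM hf).union (fv.image pt)).sdiff
  refine ⟨fin.toFinset, fun D' k => ?_, fun V hV => ⟨pt V, fin.mem_toFinset.2
    ⟨.inr ⟨V, hV, rfl⟩, h4 V hV⟩, h3 V hV⟩, fun D' hD' ne k =>
      by_contra fun e => k (fin.mem_toFinset.2 ⟨.inl ⟨hD', e⟩, ne⟩)⟩
  obtain ⟨a | ⟨V, hV, rfl⟩, b⟩ := fin.mem_toFinset.1 k
  · exact ⟨a.1.1, a.1.2.1, b⟩
  · exact ⟨h1 V hV, h2 V hV, b⟩

theorem pv (S : SfA ξ) (hD : Pc ξ M D) (rg : Rg D) (h : H1 D O) (n : ¬Ho O) : Pv ξ M O := by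
  have := rg.loc
  obtain ⟨a, b, c, -⟩ := (S.h1 D O hD.1 hD.2.1).1 h
  obtain ⟨p, hp, e⟩ := ex_nu n
  exact ⟨a, c, nu_dvd e (dvd_of_nu hp (nu_down b (natCast_mem D p) e) hD.2.2)⟩

end LSr

open LSr in
theorem lSr : OfSr := by
  classical
  intro hA hS hFl hBd hSr hF L ι _ _ _ ξ M VV lam ff md cx a D O g hq hD rg hO ho hg
  have A := hA L ι ξ md
  have S := hS L ι ξ ff md
  have hM := cx.ks.ne
  obtain ⟨t, ut, hf⟩ := hF L ι ξ ff md M D O g hM hD rg hO ho hg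
  have f0 := mul_ne_zero hg.ne ut.1
  obtain ⟨T, t1, t2, t3⟩ := ex_T A S hM D hf
  refine ⟨T, t1, fun w _ hw => ?_⟩
  have vw : ∀ V, Pv ξ M V → Ut V w := fun V hV =>
    let ⟨D', a, b⟩ := t2 V hV
    (hw D' a).mono b
  have uv : Uv D w := fun V o n => vw V (pv S hD rg o n)
  refine ⟨uv, fun uw => ?_⟩
  have key : ∀ O', ∑ᶠ (_ : H1 D O' ∧ Ho O'), Bd M a D O' (tameE O' w (g * t)) =
      (if O' = O then Bd M a D O w else 0) -
        ∑ᶠ (_ : H1 D O'), (ordR O' w : ℝ) * Bd M a D O' g := by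
    intro O'
    by_cases h1 : H1 D O'
    swap
    · rw [if_neg fun e : O' = O => h1 (e ▸ hO)]
      simp [h1]
    obtain ⟨dv, le, -⟩ := (rgA rg).dvr O' h1
    by_cases h : Ho O'
    swap
    · rw [if_neg fun e : O' = O => h (e ▸ ho), ord0 dv (uv O' h1 h)]
      simp [h]
    have ut' := ut.mono le
    obtain ⟨fn, un, -⟩ := hBd L M a D O' ⟨dv, h⟩ (hFl L M O' ff hM ⟨dv, h⟩)
    rw [finsum_eq_if, if_pos ⟨h1, h⟩, finsum_eq_if, if_pos h1]
    by_cases e : O' = O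
    · subst e
      rw [if_pos rfl, tame_l (ord0 dv uw), (dvA dv).mul g t hg.ne ut.1, hg.ord, ord0 dv ut',
        ord0 dv uw]
      simp
    · have ug := hg.oth O' h1 e
      rw [if_neg e, tame_r (ord0 dv (ug.mul ut')), fn.zpow (ug.mul ut'), fn.mul g t ug ut',
        un t ut' (uc_of ut)]
      simp
  have := hSr L ι ξ M VV lam ff md cx a {D} w (g * t) hq
    (fun D' k => Finset.mem_singleton.1 k ▸ ⟨hD.1, rg⟩) uw.1 f0
    (fun D' k ne => (em (D' ∈ T)).imp (hw D') (t3 D' k fun e => ne (Finset.mem_singleton.2 e)))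
    fun W hW => by
      obtain ⟨dv, n⟩ := cx.ks.dv W hW
      obtain ⟨V, v1, v2⟩ := A.cen W (dvA dv).loc (A.val W (dvA dv).val)
      have hV : Pv ξ M V := ⟨v1, cx.nc W hW V v1 v2, nu_down v2.1 (natCast_mem V M) n⟩
      exact ⟨(vw V hV).mono v2.1, (hf V hV).mono v2.1⟩
  have a' : Function.HasFiniteSupport fun O' => if O' = O then Bd M a D O w else 0 :=
    (Set.finite_singleton O).subset fun O' k => by_contra fun e => k (if_neg e)
  have b : Function.HasFiniteSupport fun O' =>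
      ∑ᶠ (_ : H1 D O'), (ordR O' w : ℝ) * Bd M a D O' g :=
    ((rgA rg).fin w).subset fun O' k => by_contra fun e => k ((finsum_congr fun o => by
      rw [not_not.1 fun k => e ⟨o, k⟩, Int.cast_zero, zero_mul]).trans finsum_zero)
  rw [Finset.sum_singleton, finsum_congr key, finsum_sub_distrib a' b,
    finsum_eq_single _ O fun O' e => if_neg e, if_pos rfl] at this
  exact sub_eq_zero.1 this

end Pool.Agent.MP_f3836a_nt.GQ
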