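import Pool.Agent.MP_f3836a_nt.GQ.SpecL
import Pool.Agent.MP_f3836a_nt.GP.TFf
import Pool.Agent.MP_f3836a_nt.GP.TFin

/-! Part GQ: reciprocity at finitely many points. -/

set_option autoImplicit false

namespace Pool.Agent.MP_f3836a_nt.GQ

open Polynomial IsLocalRing PK VE.W VE.Z GP

namespace LSr2

theorem fs {α : Type} (S : Finset α) {c : α → Prop} {g : α → ℝ} (h1 : ∀ x, c x → x ∉ S → g x = 0)
    (h2 : ∀ x ∈ S, ¬c x → g x = 0) : ∑ᶠ (x) (_ : c x), g x = ∑ x ∈ S, g x :=
  finsum_mem_eq_sum_of_inter_support_eq g (s := {x | c x}) (Set.ext fun x =>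
    and_congr_left fun k => ⟨fun e => by_contra fun n => k (h1 x e n),
      fun e => by_contra fun n => k (h2 x e n)⟩)

variable {L : Type} [Field L] {D U O : Subring L} {f w : L}

theorem alg (h : D ≤ U) (a : Alg U) : Alg D := fun z u => (a z (u.mono h)).imp fun j e =>
  ⟨e.1, nu_down h (D.sub_mem (D.pow_mem u.2.1 j) D.one_mem) e.2⟩

theorem ut (h : Dvr O) (e : U ≤ O) (k : Ut U f ∨ Ut U w) : Ut U (tameE O f w) := by
  rcases k with k | k
  · rw [tame_l (((dvA h).ut f).1 (k.mono e)).2]; exact k.zpow _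
  · rw [tame_r (((dvA h).ut w).1 (k.mono e)).2]; exact k.zpow _

end LSr2

open LSr2 in
theorem lSr2 : OfSr2 := by
  classical
  intro hM hF hB L ι _ _ _ ξ M VV lam ff md cx a P f w dq hP f0 w0 hD hW
  have A := hM L ι ξ md
  have fi := tFin L ((tFf L).1 ff)
  have F := fun O => hF L M O ff cx.ks.ne
  obtain ⟨S, hS⟩ := ((fi.fin f).union (fi.fin w)).exists_finset_coe
  have s1 : ∀ O ∈ S, Pl O := fun O k => (hS.le k).elim (·.1) (·.1)
  have s2 : ∀ O, Pl O → O ∉ S → tameE O f w = 1 := fun O o k => by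
    rw [tame_l (by_contra fun e => k (hS.ge (.inl ⟨o, e⟩))),
      show ordR O w = 0 from by_contra fun e => k (hS.ge (.inr ⟨o, e⟩)), zpow_zero]
  have k1 : ∀ O ∈ S, lam O (tameE O f w) = ∑ D ∈ P, Bd M a D O (tameE O f w) := fun O k => by
    have o := s1 O k
    obtain ⟨s, hs⟩ := (F O o).fin.exists_finset_coe
    have e : ∀ D, Bd M a D O (tameE O f w) =
        ∑ U ∈ s, if Dom D U then a O U * oK O U (tameE O f w) else 0 := fun D =>
      (fs (s.filter (Dom D)) (fun U c n => (n (Finset.mem_filter.2 ⟨hs.ge c.1, c.2⟩)).elim)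
        fun U c n => (n ((Finset.mem_filter.1 c).imp_left fun x => hs.le x)).elim).trans
        (Finset.sum_filter _ _)
    rw [dq O _ o (tame_ut o.1 f0 w0), fs s (c := Fl M O) (fun U c n => (n (hs.ge c)).elim)
      fun U c n => (n (hs.le c)).elim, Finset.sum_congr rfl fun D _ => e D, Finset.sum_comm]
    refine Finset.sum_congr rfl fun U hU => ?_
    have u : Fl M O U := hs.le hU
    obtain ⟨D, d1, d2⟩ := A.cen U ((F O o).alg U u).2 (A.val U u.1)
    by_cases c : D ∈ P
    · rw [Finset.sum_eq_single_of_mem D c fun D' c' n => if_neg fun d => n (le_antisymm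
        (A.mono _ _ _ _ (hP D' c').1 d1 d d2 le_rfl) (A.mono _ _ _ _ d1 (hP D' c').1 d2 d le_rfl)),
        if_pos d2]
    · simp [(F O o).un U _ u (ut o.1 u.2.1 ((hD D ⟨d1, alg d2.1 ((F O o).alg U u).1,
        nu_down d2.1 (natCast_mem D M) u.2.2⟩ c).imp (·.mono d2.1) (·.mono d2.1)))]
  have k2 : ∀ D ∈ P, ∑ᶠ (O) (_ : H1 D O ∧ Ho O), Bd M a D O (tameE O f w) =
      ∑ O ∈ S, Bd M a D O (tameE O f w) := fun D d => by
    have R := rgA (hP D d).2
    refine fs S (fun O c n => ?_) fun O c n => ?_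
    · have o : Pl O := ⟨(R.dvr O c.1).1, c.2⟩
      rw [s2 O o n]
      exact (hB L M a D O o (F O o)).1.one
    · have o := s1 O c
      exact (finsum_congr fun U => (finsum_congr fun u : Fl M O U ∧ Dom D U =>
        (R.cen O o.1 (u.2.1.trans u.1.2.1)).elim (fun h => (n ⟨h, o.2⟩).elim)
          fun h => (ZPsi.not_ho h (hP D d).2.alg o.2).elim).trans finsum_zero).trans finsum_zero
  rw [Finset.sum_congr rfl k2, Finset.sum_comm, ← Finset.sum_congr rfl k1, ← cx.ks.bd f w f0 w0]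
  refine (fs S (fun O c n => ?_) fun O c n => (n (.inl (s1 O c))).elim).symm
  refine (congrArg _ (c.elim (s2 O · n) fun v => ?_)).trans (cx.ks.fn O c).one
  have d := dvA (cx.ks.dv O v).1
  rw [tame_l ((d.ut f).1 (hW O v).1).2, ((d.ut w).1 (hW O v).2).2, zpow_zero]

end Pool.Agent.MP_f3836a_nt.GQ
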