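import Pool.Agent.MP_f3836a_nt.GQ.SpecL

/-! Part GQ: two points on a vertical curve. -/

set_option autoImplicit false

namespace Pool.Agent.MP_f3836a_nt.GQ

open Polynomial IsLocalRing PK VE.W VE.Z GP

namespace LTw

variable {L : Type} [Field L] {D E : Subring L} {t u : L}

/-- the horizontal part of the boundary -/
theorem hor (h : Rg D) (hE : H1 D E) (nE : ¬Ho E) (t0 : t ≠ 0) (t1 : ordR E t = 1) (uE : Ut E u)
    (hv : ∀ V, H1 D V → ¬Ho V → V ≠ E → Ut V t ∧ Ut V u) (α : ℝ) :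
    ∑ᶠ (O) (_ : H1 D O ∧ Ho O), α * oK O D (tameE O t u) = α * oK E D u := by
  have R := rgA h
  have z : ∀ O, H1 D O → ordR O t = 0 → ordR O u = 0 → oK O D (tameE O t u) = 0 :=
    fun O o a b => by
      rw [tame_l a, b, R.zpow O t 0 o (((dvA (R.dvr O o).1).ut t).2 ⟨t0, a⟩), zero_mul]
  have f : ({O | H1 D O ∧ Ho O} ∩ Function.support fun O => oK O D (tameE O t u)).Finite :=
    ((R.fin t).union (R.fin u)).subset fun O o => by
      by_contra e
      simp only [Set.mem_union, Set.mem_ofPred_eq, not_or, not_and, not_not] at e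
      exact o.2 (z O o.1.1 (e.1 o.1.1) (e.2 o.1.1))
  have k : ∑ᶠ O ∈ {O | H1 D O}, oK O D (tameE O t u) = 0 := by
    simpa [bdE] using ((cyA h).key [(t, u)] (by simp [NZ, t0, uE.1])).2
  rw [finsum_mem_inter_support_eq' _ {O | H1 D O} (insert E {O | H1 D O ∧ Ho O}) fun O o =>
    ⟨fun a => by
      by_contra e
      simp only [Set.mem_insert_iff, Set.mem_ofPred_eq, not_or, not_and] at e
      have A := dvA (R.dvr O a).1
      have b := hv O a (e.2 a) e.1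
      exact o (z O a ((A.ut t).1 b.1).2 ((A.ut u).1 b.2).2),
    fun a => a.elim (fun e => e ▸ hE) And.left⟩, finsum_mem_insert' _ (fun e => nE e.2) f,
    tame_r (((dvA (R.dvr E hE).1).ut u).1 uE).2, R.zpow E u _ hE uE, t1] at k
  have e := ((AddMonoidHom.mulLeft α).comp (Int.castAddHom ℝ)).map_finsum_mem' f
  rw [show ∑ᶠ O ∈ {O | H1 D O ∧ Ho O}, oK O D (tameE O t u) = oK E D u by linarith] at e
  exact e.symm

end LTw

theorem lTw : OfTw := fun hM hF hS _ hR h1 h2 L ι _ _ _ ξ M VV lam ff md cx a D D' E d U U' α α'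
    dq tw hE lb lb' => by
  classical
  have m := hM L ι ξ md
  have s := hS L ι ξ ff md
  have M0 := cx.ks.ne
  obtain ⟨pE, -, aE, -⟩ := (s.h1 D E tw.pc.1 tw.pc.2.1).1 tw.h1
  have vE : Pv ξ M E := ⟨pE, aE, tw.nu⟩
  have dE := ((rgA tw.rg).dvr E tw.h1).1
  have nE : ¬Ho E := fun k => tw.nu.not (ho_ut k M0)
  obtain ⟨k, u, k0, e, uV, uS⟩ := h1 L ι ξ ff md M D D' E d U U' M0 tw
  obtain ⟨t, t0, t1, tV, tS⟩ := h2 L ι ξ ff md M E {S | Pc ξ M S ∧ ¬Ut S u ∧ S ≠ D ∧ S ≠ D'} M0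
    vE dE ((s.bad M u M0 uV).subset fun S x => ⟨x.1, x.2.1⟩) fun S x =>
      ⟨x.1.1, x.1.2.1, fun l => x.2.1 (uS S x.1.1 l x.2.2.1 x.2.2.2)⟩
  have uE := uV E vE
  have uf := tw.uf E pE le_rfl (fun x => aE (x ▸ tw.pc.2.1)) fun x => aE (x ▸ tw.pc'.2.1)
  have uU := ((hF L ι ξ md).div d U' U E tw.fm uf.2).2.2 uf.1
  have one : ∀ S β, Pc ξ M S → Rg S → H1 S E → Lb M a S β →
      ∑ᶠ (O) (_ : H1 S O ∧ Ho O), Bd M a S O (tameE O t u) = k * (β * oK E S (U / U')) :=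
    fun S β pc rg o l => by
      have R := rgA rg
      have := rg.loc
      rw [finsum_congr fun O => finsum_congr fun x : H1 S O ∧ Ho O =>
        l O _ x.1 x.2 (tame_ut (R.dvr O x.1).1 t0 uE.1), LTw.hor rg o nE t0 t1 uE fun V v n ne => ?_,
        R.cg E o u uE.2.1 _ (uU.pow k).2.1 e, ← zpow_natCast, R.zpow E _ _ o uU]
      · push_cast; ring
      · obtain ⟨pV, l, aV, -⟩ := (s.h1 S V pc.1 pc.2.1).1 v
        obtain ⟨p, hp, x⟩ := ex_nu n
        have y : Pv ξ M V :=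
          ⟨pV, aV, nu_dvd x (dvd_of_nu hp (nu_down l (natCast_mem S p) x) pc.2.2)⟩
        exact ⟨tV V y ne, uV V y⟩
  have key := hR L ι ξ M VV lam ff md cx a {D, D'} t u dq (fun S x => by
      rcases Finset.mem_insert.1 x with rfl | x
      exacts [⟨tw.pc.1, tw.rg⟩, Finset.mem_singleton.1 x ▸ ⟨tw.pc'.1, tw.rg'⟩]) t0 uE.1
    (fun S pc x => or_iff_not_imp_right.2 fun y => tS S ⟨pc, y, by simpa using x⟩) fun W w => by
      obtain ⟨dW, nW⟩ := cx.ks.dv W w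
      obtain ⟨V, pV, c⟩ := m.cen W (dvA dW).loc (m.val W (dvA dW).val)
      have y : Pv ξ M V := ⟨pV, cx.nc W w V pV c, nu_down c.1 (natCast_mem V M) nW⟩
      exact ⟨(tV V y fun x => hE (dvr_eq dE dW (x ▸ c.1) ▸ w)).mono c.1, (uV V y).mono c.1⟩
  rw [Finset.sum_pair tw.ne, one D α tw.pc tw.rg tw.h1 lb, one D' α' tw.pc' tw.rg' tw.h1' lb',
    ← mul_add] at key
  exact (mul_eq_zero.1 key).resolve_left (Nat.cast_ne_zero.2 k0.ne')

end Pool.Agent.MP_f3836a_nt.GQ
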