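import Pool.Agent.MP_f3836a_nt.GQ.SpecL

/-! Part GQ: the row `Tw1`. -/

set_option autoImplicit false

namespace Pool.Agent.MP_f3836a_nt.GQ

open Polynomial IsLocalRing PK VE.W VE.Z GP

namespace LTw1

variable {L ι : Type} [Field L] {ξ : ι → L} {M d : ℕ}

theorem anti (A : MdA ξ) (F : SfA ξ) (hM : (M : L) ≠ 0) {V V' : Subring L} (h : Pv ξ M V)
    (h' : Pv ξ M V') (e : V ≤ V') : V = V' := by
  obtain ⟨q, hq, rfl⟩ := A.ov V V' h.1 h'.1 e
  have := A.loc V h.1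
  by_cases q0 : q = ⊥
  · have k := ((wLc L V).top q (A.fr V h.1)).2 q0
    exact absurd (k ▸ Subring.mem_top _) (h'.2.2.2.resolve_left hM)
  · have m := eq_maximalIdeal (((F.tri V h.1).resolve_left h.2.1) q hq q0)
    refine le_antisymm e fun z hz => ?_
    obtain ⟨a, b, hb, k⟩ := mem_lc.1 hz
    have u : Ut V (b : L) := (ut_iff b).2 (by simpa [m] using hb)
    rw [← mul_inv_cancel_right₀ u.1 z, k]
    exact V.mul_mem a.2 u.2.2

theorem ev (A : MdA ξ) (B : FmA ξ) (B0 : Fm0 ξ) (F : SfA ξ) (hM : (M : L) ≠ 0) (hd : 0 < d)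
    {G : L} (hG : Fm ξ d G) : ∀ᶠ k in Filter.atTop, ∃ J, Fm ξ (d * k) J ∧
      (∀ V, Pv ξ M V → Uf ξ (d * k) (G ^ k + J) V) ∧
      ∀ V, Pv ξ M V → Uf ξ d G V → ¬Uf ξ (d * k) J V := by
  have fin : {V | Pv ξ M V}.Finite := (F.zer M hM).subset fun V h => ⟨h.1, h.2.1, h.2.2.not⟩
  have s := B.sep {V | Pv ξ M V ∧ ¬Uf ξ d G V} {V | Pv ξ M V ∧ Uf ξ d G V}
    (fin.subset fun _ h => h.1) (fin.subset fun _ h => h.1) (fun _ h => h.1.1) (fun _ h => h.1.1)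
    fun S h S' h' e => h.2 (anti A F hM h.1 h'.1 e ▸ h'.2)
  have t : Filter.Tendsto (fun k => d * k) Filter.atTop Filter.atTop :=
    Filter.tendsto_atTop_mono (fun k => Nat.le_mul_of_pos_left k hd) Filter.tendsto_id
  filter_upwards [t.eventually s, Filter.eventually_gt_atTop 0] with k ⟨J, hJ, h1, h2⟩ hk
  refine ⟨J, hJ, fun V hV => ?_, fun V hV u => h2 V ⟨hV, u⟩⟩
  by_cases u : Uf ξ d G V
  · exact B.uadd _ _ _ V (A.loc V hV.1) hJ (B.upow d G k V u) (h2 V ⟨hV, u⟩)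
  · obtain ⟨k, rfl⟩ := Nat.exists_eq_succ_of_ne_zero hk.ne'
    have n := B0.nmul d (d * k) G (G ^ k) V hG (B.pow d G k hG) u
    rw [← pow_succ', add_comm, ← Nat.mul_succ] at n
    rw [add_comm]
    exact B.uadd _ _ _ V (A.loc V hV.1) (B.pow d G _ hG) (h1 V ⟨hV, u⟩) n

end LTw1

theorem lTw1 : OfTw1 := by
  intro hA hB hB0 hF L ι _ _ _ ξ ff md M D D' E d U U' hM T
  have A := hA L ι ξ md
  have B := hB L ι ξ md
  have F := hF L ι ξ ff md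
  have hM' : (M : L) ≠ 0 := Nat.cast_ne_zero.2 hM
  obtain ⟨pE, -, aE, -⟩ := (F.h1 D E T.pc.1 T.pc.2.1).1 T.h1
  have vE : Pv ξ M E := ⟨pE, aE, T.nu⟩
  have uE := T.uf E pE le_rfl (fun e => aE (e ▸ T.pc.2.1)) fun e => aE (e ▸ T.pc'.2.1)
  obtain ⟨k, ⟨⟨J, hJ, h1, h2⟩, J', hJ', h1', h2'⟩, hk⟩ :=
    (((LTw1.ev A B (hB0 L ι ξ) F hM' T.pos T.fm).and
      (LTw1.ev A B (hB0 L ι ξ) F hM' T.pos T.fm')).and (Filter.eventually_gt_atTop 0)).exists
  have fN := B.add _ _ _ (B.pow d U k T.fm) hJ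
  refine ⟨k, (U ^ k + J) / (U' ^ k + J'), hk, ?_,
    fun V hV => (B.div _ _ _ V fN (h1' V hV)).2.2 (h1 V hV), fun S pS e n n' => ?_⟩
  · have := A.loc E pE
    have a := B.div _ _ _ E hJ (h1' E vE)
    have a' := B.div _ _ _ E hJ' (h1' E vE)
    have b := (B.div _ _ _ E (B.pow d U k T.fm) (B.upow d U' k E uE.2)).1
    have c := ((nu_iff_not a.1).2 fun x => h2 E vE uE.1 (a.2.1 x)).sub
      (((nu_iff_not a'.1).2 fun x => h2' E vE uE.2 (a'.2.1 x)).mul b)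
    have n1 := B.ne _ _ _ (h1' E vE)
    have n2 := B.ne _ _ _ uE.2
    convert c using 1
    rw [div_pow]
    field_simp
    ring
  · have u := T.uf S pS e n n'
    have l := A.loc S pS
    exact (B.div _ _ _ S fN (B.uadd _ _ _ S l hJ' (B.upow d U' k S u.2) fun x =>
      h2' E vE uE.2 (B.mono _ _ _ _ x e))).2.2 (B.uadd _ _ _ S l hJ (B.upow d U k S u.1) fun x =>
      h2 E vE uE.1 (B.mono _ _ _ _ x e))

end Pool.Agent.MP_f3836a_nt.GQ
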