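import Pool.Agent.MP_f3836a_nt.GQ.SpecL

/-! Part GQ: equations of the surface. -/

set_option autoImplicit false

namespace Pool.Agent.MP_f3836a_nt.GQ

open Polynomial IsLocalRing PK VE.W VE.Z GP

namespace LZs

theorem top {κ ι : Type} [Field κ] [Finite ι] {w : Subring κ} (hw : Vr w) (f : ι → κ) {i₀ : ι}
    (h : f i₀ ≠ 0) : ∃ j, f j ≠ 0 ∧ ∀ i, f i / f j ∈ w := by
  let V : ValuationSubring κ := ⟨w, hw⟩
  have : Nonempty ι := ⟨i₀⟩
  obtain ⟨j, hj⟩ := Finite.exists_max fun i => V.valuation (f i)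
  have p : 0 < V.valuation (f j) := (V.valuation.pos_iff.2 h).trans_le (hj i₀)
  refine ⟨j, V.valuation.pos_iff.1 p, fun i => (V.valuation_le_one_iff _).1 ?_⟩
  rw [map_div₀]
  exact (div_le_one₀ p).2 (hj i)

theorem gen {A ι : Type} [CommRing A] [IsLocalRing A] {b : ι → A}
    (hb : Ideal.span (Set.range b) = maximalIdeal A) {u m : A[X]} {J : Ideal A[X]}
    (h : ∀ i, u * C (b i) ∈ J) (h' : u * m ∈ J) : ∀ c ∈ xI m, u * c ∈ J := by
  have : xI m ≤ Submodule.comap (LinearMap.mulLeft A[X] u) J := by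
    rw [xI, ← hb, Ideal.map_span]
    refine sup_le (Ideal.span_le.2 ?_) ((Ideal.span_singleton_le_iff_mem _).2 h')
    rintro _ ⟨_, ⟨i, rfl⟩, rfl⟩
    exact h i
  exact this

end LZs

open LZs in
theorem lZs : ZsQ := by
  intro A κ _ _ _ k a₀ a e w g m hs hb ⟨i₀, h₀⟩
  rw [← Fin.range_cons] at hs
  set b : Fin (k + 1) → A := Fin.cons a₀ a
  have bm : ∀ i, b i ∈ maximalIdeal A := fun i => hs ▸ Ideal.subset_span ⟨i, rfl⟩
  have cm : ∀ i, C (b i) ∈ (maximalIdeal A).map (C : A →+* A[X]) := fun i =>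
    Ideal.mem_map_of_mem _ (bm i)
  obtain ⟨j, hj, hw⟩ := top hb.vr (fun i => e (b i)) (i₀ := i₀.succ) h₀
  choose P Q hQ hP using fun i : Fin k => hb.frac _ (hw (j.succAbove i))
  obtain ⟨h, h0, h1⟩ := hb.eq
  set z : Fin k → A[X] := fun i =>
    X * (Q i * C (b (j.succAbove i)) - P i * C (b j)) + h * C (b i.succ) with hz
  have zm : ∀ i (I J : Ideal A[X]), z i ∈ Ideal.span (Set.range z) ⊔ I ⊔ J := fun i I J =>
    Ideal.mem_sup_left (Ideal.mem_sup_left (Ideal.subset_span ⟨i, rfl⟩))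
  have l : ∀ (c s t : A[X]) (I J : Ideal A[X]), c * s ∈ I ⊔ Ideal.span {s, t} ⊔ J ∧
      c * t ∈ I ⊔ Ideal.span {s, t} ⊔ J := fun c s t I J =>
    ⟨Ideal.mul_mem_left _ _ (Ideal.mem_sup_left (Ideal.mem_sup_right (Ideal.subset_span (by simp)))),
      Ideal.mul_mem_left _ _ (Ideal.mem_sup_left (Ideal.mem_sup_right (Ideal.subset_span (by simp))))⟩
  refine ⟨b j, z, bm j, fun i => ?_, fun i => ?_, fun i => add_mem (Ideal.mul_mem_left _ _ (sub_mem
    (Ideal.mul_mem_left _ _ (cm _)) (Ideal.mul_mem_left _ _ (cm _)))) (Ideal.mul_mem_left _ _ (cm _)),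
    fun c hc => ⟨X * ∏ i, Q i, fun n => ((hb.nu _).2 n).not ?_, gen hs
      ((Fin.forall_iff_succAbove j).2 ⟨(l _ _ _ _ _).1, fun i => ?_⟩) (l _ _ _ _ _).2 c hc⟩,
    fun c hc => ⟨h, fun n => ?_, gen hs (Fin.forall_fin_succ.2 ⟨(l _ _ _ _ _).1, fun i => ?_⟩)
      (l _ _ _ _ _).2 c hc⟩⟩
  · simp only [hz, eval₂_add, eval₂_mul, eval₂_sub, eval₂_C, h0, ← hP i]
    field_simp
    ring
  · simp only [hz, coeff_add, mul_coeff_zero, coeff_C_zero, coeff_X_zero, zero_mul, zero_add]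
    exact Ideal.mul_mem_left _ _ (Ideal.subset_span ⟨i, rfl⟩)
  · rw [eval₂_mul, eval₂_X, eval₂_finsetProd]
    exact hb.ut.mul (Finset.prod_induction _ (Ut w) (fun _ _ => Ut.mul) ut_one fun i _ => hQ i)
  · obtain ⟨c, hc⟩ := Finset.dvd_prod_of_mem Q (Finset.mem_univ i)
    rw [show X * (∏ i, Q i) * C (b (j.succAbove i)) =
      c * (z i - h * C (b i.succ) + X * P i * C (b j)) by rw [hc, hz]; ring]
    refine Ideal.mul_mem_left _ _ (add_mem (sub_mem (zm _ _ _) (Ideal.mem_sup_right ?_))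
      (l _ _ _ _ _).1)
    rw [sq]
    exact Ideal.mul_mem_mul ((hb.nu _).1 (h0 ▸ nu_zero)) (Ideal.mem_sup_left (cm _))
  · have : xI (X : A[X]) ≤ (maximalIdeal A).comap constantCoeff := sup_le
      (Ideal.map_le_iff_le_comap.2 fun x hx => by simpa using hx)
      ((Ideal.span_singleton_le_iff_mem _).2 (by simp))
    exact this n h1
  · rw [show h * C (b i.succ) = z i - (Q i * C (b (j.succAbove i)) - P i * C (b j)) * X by
      rw [hz]; ring]
    exact sub_mem (zm _ _ _) (l _ _ _ _ _).2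

end Pool.Agent.MP_f3836a_nt.GQ
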