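import Pool.Agent.MP_f3836a_nt.GQ.MuC
import Pool.Agent.MP_f3836a_nt.GP.TFf
import Pool.Agent.MP_f3836a_nt.GP.TFin

/-! One function on the constants. -/

set_option autoImplicit false

namespace Pool.Agent.MP_f3836a_nt.GQ

open Polynomial IntermediateField GP PK VE.W VE.Z IsLocalRing

def OfMu : Prop := MdS → HtQ → TrQ → KsQ → NmK → MuQ

namespace Mu

variable {S : Sy} {k : Type} [Field k] [Algebra k (S.κ S.g)] {A : Subalgebra k (S.κ S.g)}

/-- The local ring of `z` is the localisation of `A` at `p`. -/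
def Ct (A : Subalgebra k (S.κ S.g)) (p : Ideal A) (z : S.P) : Prop :=
  ∀ t, t ∈ S.R (S.top z) ↔ ∃ a b : A, b ∉ p ∧ t * b = a

/-- `A` lies in the local ring of `z`. -/
def In (A : Subalgebra k (S.κ S.g)) (z : S.P) : Prop := ∀ a : A, (a : S.κ S.g) ∈ S.R (S.top z)

/-- Evaluation at `z`. -/
def rho {z : S.P} (h : In A z) : A →+* S.κ z :=
  (S.r (S.top z)).comp (A.val.toRingHom.codRestrict _ h)

variable {p p' : Ideal A} {z z' : S.P}

theorem Ct.mem [p.IsPrime] (h : Ct A p z) : In A z := fun a =>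
  (h a).2 ⟨a, 1, (Ideal.ne_top_iff_one p).1 Ideal.IsPrime.ne_top', mul_one _⟩

theorem Ct.ker [p.IsPrime] (h : Ct A p z) (hA : In A z) : RingHom.ker (rho hA) = p := by
  ext a
  refine ((S.rm (S.top z)).ker ⟨a, hA a⟩).trans ⟨fun hu => of_not_not fun ha => hu ?_,
    fun ha hu => ?_⟩
  · have a0 : (a : S.κ S.g) ≠ 0 := fun e => ha (by
      rw [show a = 0 from Subtype.ext e]
      exact zero_mem _)
    exact (ut_iff ⟨_, hA a⟩).1 ⟨a0, hA a, (h _).2 ⟨1, a, ha, inv_mul_cancel₀ a0⟩⟩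
  · have u := (ut_iff ⟨_, hA a⟩).2 hu
    obtain ⟨a', b, hb, e⟩ := (h _).1 u.2.2
    refine hb ?_
    rw [show b = a * a' from Subtype.ext (by
      push_cast
      rw [← e]
      exact (mul_inv_cancel_left₀ u.1 _).symm)]
    exact Ideal.mul_mem_right _ _ ha

theorem rho_mul (hA : In A z) (t : S.R (S.top z)) {a b : A} (e : (t : S.κ S.g) * b = a) :
    S.r _ t * rho hA b = rho hA a :=
  (map_mul _ _ _).symm.trans (congrArg (S.r _) (Subtype.ext e))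

theorem Ct.fr [p.IsPrime] (h : Ct A p z) (hA : In A z) (x : S.κ z) :
    ∃ a b, rho hA b ≠ 0 ∧ x * rho hA b = rho hA a := by
  obtain ⟨t, rfl⟩ := (S.rm (S.top z)).surj x
  obtain ⟨a, b, hb, e⟩ := (h t).1 t.2
  exact ⟨a, b, fun k => hb ((h.ker hA).le k), rho_mul hA t e⟩

theorem Ct.le (h : Ct A p z) (h' : Ct A p' z') (e : p ≤ p') : z' ≤ z :=
  (S.le (S.top z') (S.top z)).1 fun t ht =>
    let ⟨a, b, hb, k⟩ := (h' t).1 ht
    (h t).2 ⟨a, b, fun m => hb (e m), k⟩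

theorem rho_cz [CharZero k] (hA : In A z) : CharZero (S.κ z) :=
  charZero_of_injective_ringHom ((rho hA).comp (algebraMap k A)).injective

/-- The chart number `i` over the constants. -/
def chart (S : Sy) (k : Type) [Field k] [Algebra k (S.κ S.g)] (i : Fin S.N) :
    Subalgebra k (S.κ S.g) := Algebra.adjoin k (Set.range fun j => S.η S.g j / S.η S.g i)

theorem ch_le (i : Fin S.N) : Ch (S.η S.g) i ≤ (chart S k i).toSubring :=
  Subring.closure_le.2 Algebra.subset_adjoin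

instance (i : Fin S.N) : Algebra.FiniteType k (chart S k i) :=
  (Subalgebra.fg_iff_finiteType _).1 (Subalgebra.fg_def.2 ⟨_, Set.finite_range _, rfl⟩)

variable {c : ∀ z, CharZero (S.κ z) → (k →+* S.κ z)} {i : Fin S.N}

theorem in_chart (hc : S.Cs k c) (e : algebraMap k (S.κ S.g) = c S.g S.cz)
    (hz : CharZero (S.κ z)) (h : Ch (S.η S.g) i ≤ S.R (S.top z)) : In (chart S k i) z := by
  rintro ⟨a, ha⟩
  induction ha using Algebra.adjoin_induction with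
  | mem x hx => exact h (Subring.subset_closure hx)
  | algebraMap x =>
    show algebraMap k (S.κ S.g) x ∈ _
    rw [e]
    exact (hc.cmp (S.top z) S.cz hz x).1
  | add x y _ _ hx hy => exact add_mem hx hy
  | mul x y _ _ hx hy => exact mul_mem hx hy

theorem ct_of (hA : In (chart S k i) z) (q : Ideal (Ch (S.η S.g) i)) [q.IsPrime]
    (e : S.R (S.top z) = lc _ q) (p : Ideal (chart S k i)) [p.IsPrime]
    (hp : ∀ b, Subring.inclusion (ch_le i) b ∈ p ↔ b ∈ q) : Ct (chart S k i) p z := by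
  intro t
  refine ⟨fun ht => ?_, ?_⟩
  · obtain ⟨a, b, hb, k⟩ := mem_lc.1 (e ▸ ht)
    exact ⟨Subring.inclusion (ch_le i) a, Subring.inclusion (ch_le i) b,
      fun m => hb ((hp b).1 m), k⟩
  · rintro ⟨a, b, hb, k⟩
    obtain ⟨a₁, b₁, h₁, k₁⟩ := mem_lc.1 (e ▸ hA a)
    obtain ⟨a₂, b₂, h₂, k₂⟩ := mem_lc.1 (e ▸ hA b)
    have h₃ : a₂ ∉ q := fun m => by
      have := (hp a₂).2 m
      rw [show Subring.inclusion (ch_le i) a₂ = b * Subring.inclusion (ch_le i) b₂ from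
        Subtype.ext k₂.symm] at this
      exact (Ideal.IsPrime.mem_or_mem ‹_› this).elim hb fun m => h₂ ((hp b₂).1 m)
    rw [e]
    refine mem_lc.2 ⟨a₁ * b₂, a₂ * b₁, fun m => (Ideal.IsPrime.mem_or_mem ‹_› m).elim h₃ h₁, ?_⟩
    push_cast
    rw [← k₁, ← k₂, ← k]
    ring

theorem ex_ct [CharZero k] (H : S.HtA) (hc : S.Cs k c) (e : algebraMap k (S.κ S.g) = c S.g S.cz)
    (hi : S.η S.g i ≠ 0) (p : Ideal (chart S k i)) [p.IsPrime] :
    ∃ z, Ct (chart S k i) p z := by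
  let q : Ideal (Ch (S.η S.g) i) := p.comap (Subring.inclusion (ch_le i))
  have : q.IsPrime := Ideal.comap_isPrime _ _
  obtain ⟨z, h, hz⟩ := (S.pt S.g _).1 ⟨i, hi, q, this, rfl⟩
  have cz : CharZero (S.κ z) := (H.ho h S.cz).1 fun n hn => by
    have := S.cz
    rw [hz]
    refine mem_lc.2 ⟨1, n, fun m => ?_, by simp [hn]⟩
    have m' : (n : chart S k i) ∈ p := by simpa [q] using m
    refine Ideal.IsPrime.ne_top' (Ideal.eq_top_of_isUnit_mem p m' ?_)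
    rw [← map_natCast (algebraMap k (chart S k i))]
    exact (Ne.isUnit (Nat.cast_ne_zero.2 hn)).map _
  exact ⟨z, ct_of (in_chart hc e cz (hz ▸ le_lc _ _)) q hz p fun _ => Iff.rfl⟩

theorem ct_ker (D : MdA (S.η S.g)) (hi : S.η S.g i ≠ 0) (hA : In (chart S k i) z) :
    Ct (chart S k i) (RingHom.ker (rho hA)) z := by
  obtain ⟨q, _, e⟩ := D.chart i _ hi ((S.pt S.g _).2 ⟨z, S.top z, rfl⟩)
    fun x hx => hA ⟨x, ch_le i hx⟩
  have := RingHom.ker_isPrime (rho hA)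
  refine ct_of hA q e _ fun b => ((S.rm (S.top z)).ker ⟨b, hA ⟨b, ch_le i b.2⟩⟩).trans ?_
  rw [← nu_iff]
  show Nu _ (b : S.κ S.g) ↔ _
  rw [e]
  exact (nu_iff (Subring.inclusion (le_lc _ q) b)).trans
    ((IsLocalization.AtPrime.isUnit_to_map_iff (lc _ q) q b).not.trans not_not)

variable {Ω : Type} [Field Ω] [Algebra k Ω]

/-- `Λ` is the function attached to the geometric point `φ`. -/
def Rel (lam : ∀ C, S.κ C → ℝ) (φ : A →ₐ[k] Ω) (Λ : Ω → ℝ) : Prop :=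
  ∃ (z : S.P) (hz : S.Hz z) (hA : In A z) (σ : S.κ z →+* Ω), Ct A (RingHom.ker φ) z ∧
    (∀ a, σ (rho hA a) = φ a) ∧ Λ = @Lam _ _ _ _ hz.2 σ (lam z)

variable {lam : ∀ C, S.κ C → ℝ}

theorem Rel.uniq {φ : A →ₐ[k] Ω} {Λ Λ' : Ω → ℝ} (h : Rel lam φ Λ) (h' : Rel lam φ Λ') :
    Λ = Λ' := by
  obtain ⟨z, hz, hA, σ, h1, h2, rfl⟩ := h
  obtain ⟨z', hz', hA', σ', h1', h2', rfl⟩ := h'
  obtain rfl : z = z' := S.anti _ _ (h1.le h1' le_rfl) (h1'.le h1 le_rfl)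
  have := RingHom.ker_isPrime φ
  obtain rfl : σ = σ' := RingHom.ext fun x => by
    obtain ⟨a, b, hb, e⟩ := h1.fr hA x
    rw [eq_div_of_mul_eq hb e, map_div₀, map_div₀, h2, h2, h2', h2']
  rfl

theorem ex_rel [NumberField k] (hΩ : ∀ c : Ω, IsAlgebraic ℤ c) (H : S.HtA) (hc : S.Cs k c)
    (e : algebraMap k (S.κ S.g) = c S.g S.cz) (hi : S.η S.g i ≠ 0) (φ : chart S k i →ₐ[k] Ω) :
    ∃ z, Ct (chart S k i) (RingHom.ker φ) z ∧ ∃ (_ : S.Hz z) (hA : In (chart S k i) z)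
      (σ : S.κ z →+* Ω), ∀ a, σ (rho hA a) = φ a := by
  have := RingHom.ker_isPrime φ
  obtain ⟨z, h⟩ := ex_ct H hc e hi (RingHom.ker φ)
  have hA := h.mem
  obtain ⟨σ, hσ⟩ : ∃ σ : S.κ z →+* Ω, ∀ a, σ (rho hA a) = φ a := by
    let : Algebra (chart S k i ⧸ RingHom.ker (rho hA)) (S.κ z) :=
      (RingHom.kerLift (rho hA)).toAlgebra
    have : (RingHom.ker (rho hA)).IsPrime := RingHom.ker_isPrime _
    have : FaithfulSMul (chart S k i ⧸ RingHom.ker (rho hA)) (S.κ z) :=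
      (faithfulSMul_iff_algebraMap_injective _ _).mpr (RingHom.kerLift_injective _)
    have : IsFractionRing (chart S k i ⧸ RingHom.ker (rho hA)) (S.κ z) :=
      IsFractionRing.of_field _ _ fun x => by
        obtain ⟨a, b, hb, e⟩ := h.fr hA x
        exact ⟨Ideal.Quotient.mk _ a, Ideal.Quotient.mk _ b, eq_div_of_mul_eq hb e⟩
    let g : chart S k i ⧸ RingHom.ker (rho hA) →+* Ω :=
      Ideal.Quotient.lift _ φ.toRingHom fun a ha => (h.ker hA).le ha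
    have hg : Function.Injective g := by
      rw [injective_iff_map_eq_zero]
      intro x hx
      obtain ⟨x, rfl⟩ := Ideal.Quotient.mk_surjective x
      exact Ideal.Quotient.eq_zero_iff_mem.2 ((h.ker hA).ge hx)
    exact ⟨IsFractionRing.lift hg, fun a =>
      IsFractionRing.lift_algebraMap hg (Ideal.Quotient.mk _ a)⟩
  have cz := rho_cz hA
  exact ⟨z, h, ⟨(H.hz z cz).2 fun x =>
    (isAlgebraic_algHom_iff σ.toIntAlgHom σ.injective).1 (hΩ (σ x)), cz⟩, hA, σ, hσ⟩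

theorem join [NumberField k] [IsAlgClosed Ω] (hΩ : ∀ c : Ω, IsAlgebraic ℤ c) (H : S.HtA)
    (hT : TrQ) (hK : KsQ) (hN : NmK) {M : ℕ} (hl : S.Kb M lam) {y : S.P} [p.IsPrime]
    (hy : Ct A p y) {φ ψ : A →ₐ[k] Ω} (h : Jn p φ.toRingHom ψ.toRingHom) {Λ Λ' : Ω → ℝ}
    (h1 : Rel lam φ Λ) (h2 : Rel lam ψ Λ') {x : Ω} (hx : x ≠ 0) (hM : Um M x) : Λ x = Λ' x := by
  have : CharZero Ω := charZero_of_injective_algebraMap (algebraMap k Ω).injective
  have hA := hy.mem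
  have cz := rho_cz hA
  obtain ⟨ff, ⟨t, ht⟩, A₁, m, φ₁, ψ₁, e₁, e₂, e₃⟩ := h _ (rho hA) (hy.ker hA) (hy.fr hA)
  have sf : S.Sf y := ⟨(H.sf y cz).2 ff, cz⟩
  have G := (tFf _).1 ff
  have I := tFin _ G
  obtain ⟨k', _, _, _, cl⟩ := ex_const G I
  have ks := (hK S M lam y hl sf).1
  obtain ⟨μ, hμ, e⟩ := (hN k' _ G cl).eng M _ _ ks.ne ks.fin ks.dv ks.fn ks.bd
  have mk : ∀ a : k', IsAlgebraic ℤ (algebraMap k' (S.κ y) a) := fun a => (cl.al a).algebraMap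
  have ho : Ho A₁ := fun n hn => by
    have := (e₃ _ (mk (n : k')⁻¹)).1
    rwa [map_inv₀, map_natCast] at this
  have key : ∀ (φ : A →ₐ[k] Ω) (φ₁ : A₁ →+* Ω) (Λ : Ω → ℝ), (∀ a, φ₁ ⟨rho hA a, m a⟩ = φ a) →
      Rel lam φ Λ → Λ x = Lam (φ₁.comp ((algebraMap k' (S.κ y)).codRestrict A₁
        fun a => (e₃ _ (mk a)).1)) μ x := by
    rintro φ φ₁ Λ e₁ ⟨z, hz, hB, σ, c1, c2, rfl⟩
    obtain ⟨O, pl, hO, _, τ, hτ⟩ := place hΩ I A₁ ho ⟨_, m t⟩ ht φ₁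
    have hzy : z ≤ y := hy.le c1 fun a ha => by
      rw [RingHom.mem_ker, ← e₁, show (⟨rho hA a, m a⟩ : A₁) = 0 from
        Subtype.ext ((hy.ker hA).ge ha), map_zero]
    have k1 : ∀ w : S.R hzy, ∃ h : (w : S.κ y) ∈ O, τ (residue O ⟨w, h⟩) = σ (S.r hzy w) := by
      rintro ⟨w, hw⟩
      obtain ⟨u, hu, rfl⟩ := (S.im (S.top y) hzy).ge hw
      obtain ⟨a, b, hb, eb⟩ := (c1 u).1 hu
      have b0 : φ b ≠ 0 := hb
      have r1 := rho_mul hA u eb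
      have r2 := rho_mul hB ⟨u, hu⟩ eb
      have ub : Ut O (rho hA b) := (ut_iff ⟨_, hO (m b)⟩).2 (of_not_not fun n => b0 (by
        rw [← e₁, ← hτ, (residue_eq_zero_iff _).2 n, map_zero]))
      have mu : S.r (S.top y) u ∈ O := by
        rw [eq_div_of_mul_eq ub.1 r1, div_eq_mul_inv]
        exact O.mul_mem (hO (m a)) ub.2.2
      refine ⟨mu, mul_right_cancel₀ b0 ?_⟩
      rw [S.cmp (S.top y) hzy u hu hw]
      conv_lhs => rw [← e₁, ← hτ, ← map_mul, ← map_mul]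
      rw [← c2, ← map_mul, r2, c2, ← e₁, ← hτ]
      exact congrArg (fun s => τ (residue O s)) (Subtype.ext r1)
    have := H.nf z hz
    obtain ⟨br, k2⟩ := side hΩ I pl (fun a : k' => hO (e₃ _ (mk a)).1) (S.rm hzy)
      (fun w hw => (k1 ⟨w, hw⟩).1) τ σ fun w => (k1 w).2
    rw [k2 (hl.add z) hμ (fun u hu su => ((hT S y sf).eq lam z hzy O u hz.1 br).symm.trans
      (e O u pl hu su)) x hx hM]
    exact congrArg (fun s => Lam s μ x) (RingHom.ext fun a => hτ ⟨_, (e₃ _ (mk a)).1⟩)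
  rw [key φ φ₁ Λ e₁ h1, key ψ ψ₁ Λ' e₂ h2]
  exact congrArg (fun s => Lam s μ x) (RingHom.ext fun a => (e₃ _ (mk a)).2)

end Mu

open Mu in
theorem muQ : OfMu := by
  intro hM hH hT hK hN S k _ _ c hc M lam hl
  classical
  have H := hH S
  have D := hM _ _ (S.η S.g) (S.md S.g)
  let := (c S.g S.cz).toAlgebra
  have e : algebraMap k (S.κ S.g) = c S.g S.cz := rfl
  have cl : Cl k (S.κ S.g) := ⟨fun a => (IsFractionRing.isAlgebraic_iff ℤ ℚ k).2
    (Algebra.IsAlgebraic.isAlgebraic a), hc.cl⟩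
  let Ω := AlgebraicClosure k
  have : Algebra.IsAlgebraic ℤ k := ⟨cl.al⟩
  have hΩ : ∀ x : Ω, IsAlgebraic ℤ x := fun x =>
    (Algebra.IsAlgebraic.isAlgebraic (R := k) x).restrictScalars ℤ
  have one : ∀ i, S.η S.g i ≠ 0 → ∀ (φ ψ : chart S k i →ₐ[k] Ω) Λ Λ', Rel lam φ Λ →
      Rel lam ψ Λ' → ∀ x, x ≠ 0 → Um M x → Λ x = Λ' x := by
    intro i hi φ ψ Λ Λ' h1 h2 x hx hu
    have ex : ∀ φ : chart S k i →ₐ[k] Ω, ∃ Λ, Rel lam φ Λ := fun φ =>
      let ⟨z, a, hz, hA, σ, b⟩ := ex_rel hΩ H hc e hi φ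
      ⟨_, z, hz, hA, σ, a, b, rfl⟩
    choose F hF using ex
    rw [h1.uniq (hF φ), h2.uniq (hF ψ)]
    refine conn1 cl (chart S k i).val Subtype.val_injective (fun φ => F φ x)
      (fun p φ ψ hp h => ?_) φ ψ
    obtain ⟨y, hy⟩ := ex_ct H hc e hi p
    exact join hΩ H hT hK hN hl hy h (hF φ) (hF ψ) hx hu
  have rel : ∀ i, S.η S.g i ≠ 0 → ∀ z (hz : S.Hz z) (σ : S.κ z →+* Ω),
      Ch (S.η S.g) i ≤ S.R (S.top z) → σ.comp (c z hz.2) = algebraMap k Ω →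
      ∃ φ : chart S k i →ₐ[k] Ω, Rel lam φ (@Lam _ _ _ _ hz.2 σ (lam z)) := by
    intro i hi z hz σ h hσ
    have hA := in_chart hc e hz.2 h
    refine ⟨⟨σ.comp (rho hA), fun a => (congrArg σ (hc.cmp (S.top z) S.cz hz.2 a).2).trans
      (RingHom.congr_fun hσ a)⟩, z, hz, hA, σ, ?_, fun _ => rfl, rfl⟩
    convert ct_ker D hi hA using 1
    ext a
    exact map_eq_zero σ
  have all : ∀ z (hz : S.Hz z) (σ : S.κ z →+* Ω) z' (hz' : S.Hz z') (σ' : S.κ z' →+* Ω),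
      σ.comp (c z hz.2) = algebraMap k Ω → σ'.comp (c z' hz'.2) = algebraMap k Ω →
      ∀ x, x ≠ 0 → Um M x →
      @Lam _ _ _ _ hz.2 σ (lam z) x = @Lam _ _ _ _ hz'.2 σ' (lam z') x := by
    intro z hz σ z' hz' σ' h h' x hx hu
    obtain ⟨i, hi, m⟩ := D.cht _ ((S.pt S.g _).2 ⟨z, S.top z, rfl⟩)
    obtain ⟨j, hj, m'⟩ := D.cht _ ((S.pt S.g _).2 ⟨z', S.top z', rfl⟩)
    obtain ⟨φ, hφ⟩ := rel i hi z hz σ ((D.le _ _).2 m) h
    obtain ⟨φ', hφ'⟩ := rel j hj z' hz' σ' ((D.le _ _).2 m') h'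
    let s : chart S k i := ⟨_, Algebra.subset_adjoin ⟨j, rfl⟩⟩
    have s0 : (s : S.κ S.g) ≠ 0 := div_ne_zero hj hi
    obtain ⟨χ, hχ⟩ := ex_pt (K := k) (Ω := Ω) (s := s) fun e => s0 (congrArg Subtype.val e)
    obtain ⟨w, a, hw, hA, τ, b⟩ := ex_rel hΩ H hc e hi χ
    obtain ⟨χ', hχ'⟩ := rel j hj w hw τ ((D.le _ _).2 fun l => (a _).2
      ⟨⟨_, Algebra.subset_adjoin ⟨l, rfl⟩⟩, s, hχ, by simp only [s]; field_simp⟩)
      (RingHom.ext fun t => (congrArg τ (hc.cmp (S.top w) S.cz hw.2 t).2.symm).trans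
        ((b (algebraMap k _ t)).trans (χ.commutes t)))
    exact (one i hi φ χ _ _ hφ ⟨w, hw, hA, τ, a, b, rfl⟩ x hx hu).trans
      (one j hj χ' φ' _ _ hχ' hφ' x hx hu)
  by_cases h0 : ∃ C, S.Hz C
  swap
  · exact ⟨0, fun _ _ _ _ => by simp, fun C u h => absurd ⟨C, h⟩ h0⟩
  obtain ⟨C₀, h₀⟩ := h0
  have fd : ∀ C (h : S.Hz C), letI := (c C h.2).toAlgebra; FiniteDimensional k (S.κ C) := by
    intro C h
    let := (c C h.2).toAlgebra
    have := H.nf C h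
    have : IsScalarTower ℚ k (S.κ C) := IsScalarTower.of_algebraMap_eq' (RingHom.ext_rat _ _)
    exact Module.Finite.of_restrictScalars_finite ℚ k _
  obtain ⟨σ₀, hσ₀⟩ : ∃ σ : S.κ C₀ →+* Ω, σ.comp (c C₀ h₀.2) = algebraMap k Ω := by
    let := (c C₀ h₀.2).toAlgebra
    have := fd C₀ h₀
    let g : S.κ C₀ →ₐ[k] Ω := IsAlgClosed.lift
    exact ⟨g, g.comp_algebraMap⟩
  have := H.nf C₀ h₀
  have ad := lam_adr hΩ σ₀ (hl.add C₀)
  refine ⟨fun a => Module.finrank ℚ k * Lam σ₀ (lam C₀) (algebraMap k Ω a), fun a b ha hb => ?_,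
    fun C u h hu hM => ?_⟩
  · simp only [map_mul]
    rw [ad _ _ ((_root_.map_ne_zero _).2 ha) ((_root_.map_ne_zero _).2 hb), mul_add]
  · let := (c C h.2).toAlgebra
    have := fd C h
    have := H.nf C h
    have : IsScalarTower ℚ k (S.κ C) := IsScalarTower.of_algebraMap_eq' (RingHom.ext_rat _ _)
    have e1 := lam_avg (K := k) (hl.add C) ad hu fun σ => all C h σ.toRingHom C₀ h₀ σ₀
      σ.comp_algebraMap hσ₀ _ ((map_ne_zero σ).2 hu) ((um_map σ.toRingHom).2 hM)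
    rw [← Module.finrank_mul_finrank ℚ k (S.κ C), Nat.cast_mul, mul_comm (Module.finrank ℚ k : ℝ),
      mul_assoc] at e1
    rw [Sy.nm, dif_pos h]
    exact mul_left_cancel₀ (Nat.cast_ne_zero.2 Module.finrank_pos.ne') e1

end Pool.Agent.MP_f3836a_nt.GQ
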