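import Pool.Agent.MP_f3836a_nt.GQ.SpecR

/-! Elementary properties of the transcendence degree over the prime ring. -/

namespace Pool.Agent.MP_f3836a_nt.GQ.R

open Polynomial IsLocalRing PK VE.W VE.Z

namespace RDp

/-- change of the base along a bijection -/
theorem base {A A' L : Type} [CommRing A] [CommRing A'] [CommRing L] [IsDomain L] [Nontrivial A]
    [Algebra A L] [Algebra A' L] [FaithfulSMul A' L] (φ : A →+* A') (h : Function.Bijective φ)
    (e : ∀ x, algebraMap A L x = algebraMap A' L (φ x)) :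
    Algebra.trdeg A L = Algebra.trdeg A' L := by
  let := φ.toAlgebra
  have : IsScalarTower A A' L := IsScalarTower.of_algebraMap_eq e
  have : FaithfulSMul A A' := (faithfulSMul_iff_algebraMap_injective A A').2 h.1
  have : Algebra.IsAlgebraic A A' := ⟨fun x => by
    obtain ⟨y, rfl⟩ := h.2 x
    exact isAlgebraic_algebraMap y⟩
  rw [← trdeg_add_eq A A' (A := L), trdeg_eq_zero, zero_add]

variable {R : Type} [CommRing R] [IsDomain R]

theorem ext {L : Type} [CommRing L] [IsDomain L] (f : R →+* L) (hf : Function.Injective f)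
    (h : ∀ c : L, IsAlgebraic f.range c) :
    Algebra.trdeg (⊥ : Subring R) R = Algebra.trdeg (⊥ : Subring L) L := by
  let := f.toAlgebra
  have : FaithfulSMul R L := (faithfulSMul_iff_algebraMap_injective R L).2 hf
  have : Algebra.IsAlgebraic R L := ⟨fun c => (h c).of_ringHom_of_comp_eq f.rangeRestrict
    (RingHom.id L) f.rangeRestrict_surjective (fun _ _ e => e) rfl⟩
  have h1 := trdeg_add_eq (⊥ : Subring R) R (A := L)
  rw [trdeg_eq_zero (R := R), add_zero] at h1
  rw [h1]
  refine base (f.restrict ⊥ ⊥ fun x hx => ?_) ⟨fun x y e => ?_, fun y => ?_⟩ fun x => rfl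
  · obtain ⟨n, rfl⟩ := Subring.mem_bot.1 hx
    exact Subring.mem_bot.2 ⟨n, (map_intCast f n).symm⟩
  · exact Subtype.ext (hf (congrArg Subtype.val e))
  · obtain ⟨n, hn⟩ := Subring.mem_bot.1 y.2
    exact ⟨n, (map_intCast _ n).trans (Subtype.ext hn)⟩

theorem tz [CharZero R] : Algebra.trdeg (⊥ : Subring R) R = Algebra.trdeg ℤ R := by
  refine (base (Int.castRingHom _) ⟨fun x y e => ?_, fun y => ?_⟩ fun x => rfl).symm
  · exact Int.cast_injective (α := R) (congrArg Subtype.val e)
  · obtain ⟨n, hn⟩ := Subring.mem_bot.1 y.2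
    exact ⟨n, Subtype.ext hn⟩

theorem key {b : R} (hb : Transcendental ℤ b) : Algebra.trdeg ℤ R ≤ 1 ↔ ∀ a : R,
    ∃ P : ℤ[X][X], P ≠ 0 ∧ eval₂ (aeval b : ℤ[X] →ₐ[ℤ] R).toRingHom a P = 0 := by
  let := (aeval b : ℤ[X] →ₐ[ℤ] R).toRingHom.toAlgebra
  have : FaithfulSMul ℤ[X] R := (faithfulSMul_iff_algebraMap_injective _ _).2
    (transcendental_iff_injective.1 hb)
  have h1 := trdeg_add_eq ℤ ℤ[X] (A := R)
  rw [Polynomial.trdeg_of_isDomain] at h1
  rw [← h1]
  constructor
  · intro h a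
    have h2 : Algebra.trdeg ℤ[X] R = 0 := by
      by_contra h3
      have h4 := (add_le_add le_rfl (Cardinal.one_le_iff_ne_zero.2 h3)).trans h
      norm_num at h4
    exact (trdeg_eq_zero_iff.1 h2).1 a
  · intro h
    have : Algebra.IsAlgebraic ℤ[X] R := ⟨h⟩
    rw [trdeg_eq_zero, add_zero]

end RDp

open RDp

theorem rDp : OfDp := by
  intro hD R _ _
  have hx : ∀ (L : Type) [CommRing L] [IsDomain L] (f : R →+* L), Function.Injective f →
      (∀ c : L, IsAlgebraic f.range c) → ∀ k, Dp R k ↔ Dp L k := fun L _ _ f hf h k => by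
    rw [hD, hD, RDp.ext f hf h]
  have h0 : Dp R 0 ↔ Algebra.IsAlgebraic (⊥ : Subring R) R := by
    rw [hD, Nat.cast_zero, nonpos_iff_eq_zero, trdeg_eq_zero_iff]
  refine ⟨fun k k' h h' => (hD R k').2 (((hD R k).1 h').trans (by exact_mod_cast h)), hx,
    fun L _ f hf h => hx L f hf fun c => ?_, fun ⟨s, hs⟩ => ?_, fun _ => ?_, fun _ => ?_,
    fun _ => h0.2 inferInstance, fun _ hp h => ?_⟩
  · obtain ⟨a, b, hb, e⟩ := h c
    refine ⟨C ⟨f b, b, rfl⟩ * X - C ⟨f a, a, rfl⟩, fun z => hb ?_, ?_⟩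
    · have := congrArg (fun p => ((coeff p 1 : f.range) : L)) z
      simpa [coeff_C] using this
    · simp only [map_sub, map_mul, aeval_C, aeval_X]
      exact sub_eq_zero.2 ((mul_comm _ _).trans e)
  · refine ⟨s.card, fun i => s.equivFin.symm i, fun b => ?_⟩
    have e : Set.range (fun i => (s.equivFin.symm i : R)) = s := by
      ext x
      exact ⟨fun ⟨i, hi⟩ => hi ▸ (s.equivFin.symm i).2, fun hx => ⟨s.equivFin ⟨x, hx⟩, by simp⟩⟩
    have hb : b ∈ Subring.closure (Set.range fun i => (s.equivFin.symm i : R)) := by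
      have h1 : b ∈ Algebra.adjoin ℤ (s : Set R) := hs ▸ Algebra.mem_top
      rw [Algebra.adjoin_int] at h1
      rwa [e]
    exact isAlgebraic_algebraMap (⟨b, hb⟩ : Subring.closure _)
  · rw [hD, Nat.cast_zero, nonpos_iff_eq_zero, tz, trdeg_eq_zero_iff]
    exact ⟨fun h => h.1, fun h => ⟨h⟩⟩
  · rw [hD, Nat.cast_one, tz]
    refine ⟨fun h a b => ?_, fun h => ?_⟩
    · by_cases hb : IsAlgebraic ℤ b
      · obtain ⟨Q, h1, h2⟩ := hb
        exact ⟨C Q, C_ne_zero.2 h1, by rw [eval₂_C]; exact h2⟩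
      · exact (key hb).1 h a
    · by_cases hb : ∃ b : R, Transcendental ℤ b
      · obtain ⟨b, hb⟩ := hb
        exact (key hb).2 fun a => h a b
      · have : Algebra.IsAlgebraic ℤ R := ⟨fun b => not_not.1 fun e => hb ⟨b, e⟩⟩
        rw [trdeg_eq_zero]; exact zero_le_one
  · have : Fact (ringChar R).Prime := ⟨(CharP.char_is_prime_or_zero R _).resolve_right hp⟩
    let := ZMod.algebra R (ringChar R)
    have : Algebra.IsAlgebraic (ZMod (ringChar R)) R := ⟨fun c => by
      refine ((h0.1 h).1 c).of_ringHom_of_comp_eq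
        ((algebraMap (ZMod (ringChar R)) R).codRestrict ⊥ fun x => ?_) (RingHom.id R)
        (fun y => ?_) (fun _ _ e => e) rfl
      · obtain ⟨n, rfl⟩ := ZMod.intCast_surjective x
        exact Subring.mem_bot.2 ⟨n, (map_intCast _ n).symm⟩
      · obtain ⟨n, hn⟩ := Subring.mem_bot.1 y.2
        exact ⟨n, (map_intCast _ n).trans (Subtype.ext hn)⟩⟩
    have := Algebra.FiniteType.of_restrictScalars_finiteType ℤ (ZMod (ringChar R)) R
    have : Module.Finite (ZMod (ringChar R)) R := Algebra.IsIntegral.finite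
    exact Module.finite_of_finite (ZMod (ringChar R))

end Pool.Agent.MP_f3836a_nt.GQ.R
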