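import Pool.Agent.MP_f3836a_nt.GQ.SpecR

/-! Comparison with the transcendence degree. -/

namespace Pool.Agent.MP_f3836a_nt.GQ.R

open Polynomial IsLocalRing PK VE.W VE.Z

namespace RDt

theorem cl {R : Type} [CommRing R] (s : Set R) :
    Subring.closure s = (Algebra.adjoin (⊥ : Subring R) s).toSubring := by
  rw [Algebra.adjoin_eq_ring_closure]
  refine (Subring.closure_mono Set.subset_union_right).antisymm (Subring.closure_le.2 ?_)
  rintro _ (⟨a, rfl⟩ | h)
  · exact (bot_le : (⊥ : Subring R) ≤ _) a.2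
  · exact Subring.subset_closure h

theorem iff {R : Type} [CommRing R] (s : Set R) (b : R) :
    IsAlgebraic (Subring.closure s) b ↔ IsAlgebraic (Algebra.adjoin (⊥ : Subring R) s) b := by
  rw [cl]
  rfl

end RDt

theorem rDt : DtS := by
  intro R _ _ k
  refine ⟨fun ⟨t, ht⟩ => ?_, fun h => ?_⟩
  · have : Algebra.IsAlgebraic (Algebra.adjoin (⊥ : Subring R) (Set.range t)) R :=
      ⟨fun b => (RDt.iff _ b).1 (ht b)⟩
    exact (Algebra.IsAlgebraic.trdeg_le_cardinalMk _ (Set.range t)).trans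
      (Cardinal.mk_range_le.trans (by simp))
  · obtain ⟨ι, x, hx⟩ := exists_isTranscendenceBasis' (⊥ : Subring R) R
    rw [← hx.cardinalMk_eq_trdeg, ← Cardinal.mk_fin] at h
    obtain ⟨e⟩ := h
    refine ⟨Function.extend e x 0, fun b => (RDt.iff _ b).2
      ((hx.isAlgebraic.1 b).tower_top_of_subalgebra_le (Algebra.adjoin_mono ?_))⟩
    rintro _ ⟨i, rfl⟩
    exact ⟨e i, e.injective.extend_apply _ _ i⟩

end Pool.Agent.MP_f3836a_nt.GQ.R
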