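import Pool.Agent.MP_f3836a_nt.GQ.SpecR

/-! Part GQ: almost all primes are parameters. -/

set_option autoImplicit false

namespace Pool.Agent.MP_f3836a_nt.GQ.R

open Polynomial IsLocalRing PK VE.W VE.Z

namespace RGood

theorem ht (dp : DpS) (up : UpS) {B : Type} [CommRing B] [IsDomain B] [IsNoetherianRing B] {e : ℕ}
    (h : Dp B e) (q : Ideal B) [q.IsPrime] (hq : ∀ n : ℕ, (n : B) ∈ q → (n : B) = 0) :
    q.height ≤ e := by
  have pb := Ideal.isPrime_bot (α := B)
  have h0 : ∀ I : Ideal B, I = ⊥ → Dp (B ⧸ I) e := by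
    rintro _ rfl
    refine ((dp B).ext (B ⧸ (⊥ : Ideal B)) (Ideal.Quotient.mk ⊥) ?_ (fun c => ?_) e).1 h
    · rw [RingHom.injective_iff_ker_eq_bot, Ideal.mk_ker]
    · exact isAlgebraic_algebraMap
        (⟨c, Ideal.Quotient.mk_surjective c⟩ : (Ideal.Quotient.mk (⊥ : Ideal B)).range)
  obtain ⟨l, h1, h2⟩ := q.exists_ltSeries_length_eq_height
  rw [← h2, Nat.cast_le]
  by_cases hb : l.head.asIdeal = ⊥
  · refine (up B l e (h0 _ hb)).2 fun n hn => ?_
    rw [h1] at hn
    rw [hq n hn]; exact zero_mem _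
  · have := (up B (l.cons ⟨⊥, pb⟩ (bot_lt_iff_ne_bot.2 hb : (⊥ : Ideal B) < l.head.asIdeal)) e
      (h0 _ rfl)).2 fun n hn => by
        rw [RelSeries.last_cons, h1] at hn
        rw [hq n hn]; exact zero_mem _
    rw [RelSeries.cons_length] at this
    omega

theorem gen {A : Type} [CommRing A] {I : Ideal A} (hI : I.FG) {e : ℕ} (h : I.spanFinrank ≤ e) :
    ∃ g : Fin e → A, Ideal.span (Set.range g) = I := by
  obtain ⟨s, h1, h2⟩ := Submodule.FG.exists_span_finset_card_eq_spanFinrank hI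
  refine ⟨fun i => s.toList.getD i 0, le_antisymm (Ideal.span_le.2 ?_) ?_⟩
  · rintro _ ⟨i, rfl⟩
    by_cases hi : (i : ℕ) < s.toList.length
    · simp only [List.getD_eq_getElem _ _ hi]
      rw [← h2]
      exact Submodule.subset_span (Finset.mem_toList.1 (List.getElem_mem hi))
    · simp only [List.getD_eq_default _ _ (not_lt.1 hi)]
      exact zero_mem _
  · rw [← h2]
    refine Submodule.span_le.2 fun a ha => Ideal.subset_span ?_
    obtain ⟨i, hi, rfl⟩ := List.getElem_of_mem (Finset.mem_toList.2 ha)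
    exact ⟨⟨i, by rw [Finset.length_toList] at hi; omega⟩, List.getD_eq_getElem _ _ hi⟩

theorem par {B : Type} [CommRing B] (q : Ideal B) [q.IsPrime] {e : ℕ}
    (r : IsRegularLocalRing (Localization.AtPrime q)) (h : q.height ≤ e) :
    ∃ π : Fin e → B, (∀ i, π i ∈ q) ∧ ∀ a ∈ q, ∃ s, s ∉ q ∧ s * a ∈ Ideal.span (Set.range π) := by
  have h1 := r.spanFinrank_maximalIdeal
  rw [IsLocalization.AtPrime.ringKrullDim_eq_height q] at h1
  have h2 : (maximalIdeal (Localization.AtPrime q)).spanFinrank ≤ e := by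
    have : (((maximalIdeal (Localization.AtPrime q)).spanFinrank : ℕ∞) : WithBot ℕ∞) ≤
      ((e : ℕ∞) : WithBot ℕ∞) := h1.le.trans (WithBot.coe_le_coe.2 h)
    exact_mod_cast this
  obtain ⟨g, hg⟩ := gen (IsNoetherian.noetherian _) h2
  choose x hx using fun i => IsLocalization.surj q.primeCompl (g i)
  refine ⟨fun i => (x i).1, fun i => ?_, fun a ha => ?_⟩
  · rw [← IsLocalization.AtPrime.to_map_mem_maximal_iff (Localization.AtPrime q) q, ← hx i, ← hg]
    exact Ideal.mul_mem_right _ _ (Ideal.subset_span ⟨i, rfl⟩)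
  · rw [← IsLocalization.AtPrime.to_map_mem_maximal_iff (Localization.AtPrime q) q, ← hg] at ha
    refine (IsLocalization.algebraMap_mem_map_algebraMap_iff q.primeCompl
      (Localization.AtPrime q) _ a).1 (Ideal.span_le.2 ?_ ha)
    rintro _ ⟨i, rfl⟩
    exact (IsLocalization.mem_map_algebraMap_iff q.primeCompl _).2
      ⟨(⟨(x i).1, Ideal.subset_span ⟨i, rfl⟩⟩, (x i).2), hx i⟩

theorem dim {A : Type} [CommRing A] [IsLocalRing A] [IsNoetherianRing A] {S : Set A} (f : S.Finite)
    (hS : ∀ a ∈ S, a ∈ maximalIdeal A) (h : maximalIdeal A ≤ Ideal.span S ⊔ maximalIdeal A ^ 2)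
    {k : ℕ} (hk : S.ncard ≤ k) : ringKrullDim A ≤ k := by
  have h1 : maximalIdeal A = Ideal.span S := le_antisymm
    (Submodule.le_of_le_smul_of_le_jacobson_bot (I := maximalIdeal A) (IsNoetherian.noetherian _)
      (jacobson_eq_maximalIdeal ⊥ bot_ne_top).ge (by rwa [smul_eq_mul, ← pow_two]))
    (Ideal.span_le.2 hS)
  refine (ringKrullDim_le_spanFinrank_maximalIdeal A).trans ?_
  rw [h1]
  exact_mod_cast (Submodule.spanFinrank_span_le_ncard_of_finite f).trans hk

theorem card {A : Type} {e : ℕ} (w : Fin e → A) : (Set.range w).ncard ≤ e := by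
  rw [← Set.image_univ]
  refine (Set.ncard_image_le Set.finite_univ).trans ?_
  simp

end RGood

open RGood in
theorem rGood : OfGood := by
  intro dp up low ga gb B _ _ _ _ e he hmin reg
  have : IsNoetherianRing B := Algebra.FiniteType.isNoetherianRing ℤ B
  obtain ⟨M, hM, hs⟩ := ga B e fun q hq hn => par q (reg q) (ht dp up he q fun n h => by
    have := hn n (by rwa [Int.cast_natCast])
    rw [Int.natCast_eq_zero.1 this, Nat.cast_zero])
  refine ⟨M, hM, fun m hm p hp hd hpm => ?_⟩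
  have hMm : (M : B) ∉ m := fun h => by
    obtain ⟨u, v, huv⟩ := Nat.isCoprime_iff_coprime.2 (hp.coprime_iff_not_dvd.2 hd)
    have h1 := add_mem (m.mul_mem_left (u : B) hpm) (m.mul_mem_left (v : B) h)
    have h2 : (u : B) * p + v * M = 1 := by exact_mod_cast congrArg (Int.cast : ℤ → B) huv
    rw [h2] at h1
    exact hm.ne_top ((Ideal.eq_top_iff_one _).2 h1)
  obtain ⟨s, ⟨t, ht⟩, hsm⟩ : ∃ s, (∃ t : Fin e → B, CyE s t) ∧ s ∉ m := by
    by_contra! h
    exact hMm (Ideal.span_le.2 (fun s hs => h s hs) hs)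
  have fin := za_fin m
  obtain ⟨w, hw, hle⟩ := gb B m p e s t hm fin hp hpm hsm ht
  have r := reg m
  set A := Localization.AtPrime m
  have mm : ∀ a ∈ m, algebraMap B A a ∈ maximalIdeal A := fun a ha =>
    (IsLocalization.AtPrime.to_map_mem_maximal_iff A m a).2 ha
  have h1 : maximalIdeal A ≤ Ideal.span (insert (p : A) (Set.range fun i => algebraMap B A (w i))) ⊔
      maximalIdeal A ^ 2 := by
    have := Ideal.map_mono (f := algebraMap B A) hle
    rwa [Ideal.map_sup, Ideal.map_pow, Ideal.map_span, Set.image_insert_eq, map_natCast,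
      ← Set.range_comp, Localization.AtPrime.map_eq_maximalIdeal] at this
  have hwA : ∀ a ∈ Set.range fun i => algebraMap B A (w i), a ∈ maximalIdeal A := by
    rintro _ ⟨i, rfl⟩; exact mm _ (hw i)
  have p0 : (p : B) ≠ 0 := Nat.cast_ne_zero.2 hp.ne_zero
  have lo : ¬ringKrullDim A ≤ e := fun h => by
    rw [IsLocalization.AtPrime.ringKrullDim_eq_height m] at h
    have h' : m.height ≤ e := WithBot.coe_le_coe.1 h
    rcases e with _ | k
    · rw [Nat.cast_zero, nonpos_iff_eq_zero, Ideal.height_eq_zero_iff_eq_bot] at h'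
      exact p0 (h'.le hpm)
    · have := hmin _ ((low B m k 0 ((dp _).fin fin)).2 p p0 hpm h')
      omega
  refine ⟨?_, fun h => lo (dim (Set.finite_range _) hwA (h1.trans ?_) (card _))⟩
  · have h2 : ringKrullDim A ≤ (e + 1 : ℕ) := dim ((Set.finite_range _).insert _) (by
      rintro a (rfl | ha)
      · simpa using mm _ hpm
      · exact hwA a ha) h1 ((Set.ncard_insert_le _ _).trans (Nat.succ_le_succ (card _)))
    have h3 := r.spanFinrank_maximalIdeal
    rw [← h3] at h2 lo ⊢
    have h4 : (maximalIdeal A).spanFinrank ≤ e + 1 := by exact_mod_cast h2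
    have h5 : ¬(maximalIdeal A).spanFinrank ≤ e := fun k => lo (by exact_mod_cast k)
    rw [show (maximalIdeal A).spanFinrank = e + 1 by omega]
  · rw [Ideal.span_insert]
    exact sup_le (sup_le (((Ideal.span_singleton_le_iff_mem _).2 h).trans le_sup_right)
      le_sup_left) le_sup_right

end Pool.Agent.MP_f3836a_nt.GQ.R
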