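import Pool.Agent.MP_f3836a_nt.GQ.SpecR

/-! Part GQ: the dimension inequality. -/

set_option autoImplicit false

namespace Pool.Agent.MP_f3836a_nt.GQ.R

open Polynomial IsLocalRing PK VE.W VE.Z

namespace RLow

theorem par {C : Type} [CommRing C] [IsNoetherianRing C] (p : Ideal C) [p.IsPrime] {h : ℕ}
    (hh : p.height ≤ h) : ∃ s : Fin h → C, (∀ i, s i ∈ p) ∧
      ∀ q : Ideal C, q.IsPrime → q ≤ p → (∀ i, s i ∈ q) → q = p := by
  obtain ⟨s, hs, e⟩ := p.exists_finset_card_eq_height_of_isNoetherianRing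
  have hc : s.card ≤ h := by exact_mod_cast e.trans_le hh
  refine ⟨fun i => if hi : i.1 < s.card then s.equivFin.symm ⟨i, hi⟩ else 0, fun i => ?_,
    fun q hq hle k => hle.antisymm (hs.2 ⟨hq, Ideal.span_le.2 fun x hx => ?_⟩ hle)⟩
  · beta_reduce
    split_ifs
    · exact hs.1.2 (Ideal.subset_span (Subtype.prop _))
    · exact zero_mem _
  · simpa using k ⟨s.equivFin ⟨x, hx⟩, (Fin.is_lt _).trans_le hc⟩

theorem drop {B C : Type} [CommRing B] [IsDomain B] [CommRing C] {f : B →+* C}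
    (hf : Function.Surjective f) {n : B} (h0 : n ≠ 0) (hn : f n = 0) (h : ℕ) :
    ∀ (p : Ideal C) [p.IsPrime], (p.comap f).height ≤ h → p.height < h := by
  induction h with
  | zero =>
    intro p _ e
    have e1 : p.comap f = ⊥ := Ideal.height_eq_zero_iff_eq_bot.1 (by simpa using e)
    exact absurd (e1.le (show f n ∈ p from hn ▸ zero_mem p)) h0
  | succ h ih =>
    intro p _ e
    refine lt_of_le_of_lt (Ideal.height_le_iff.2 fun q hq hlt => ih q ?_)
      (by exact_mod_cast h.lt_succ_self)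
    have e1 : q.comap f < p.comap f := (Ideal.comap_mono hlt.le).lt_of_ne fun e =>
      hlt.ne (Ideal.comap_injective_of_surjective f hf e)
    have e2 := (Ideal.height_add_one_le_of_lt_of_isPrime e1).trans e
    push_cast at e2
    exact (ENat.add_le_add_iff_right ENat.one_ne_top).1 e2

theorem core (hZ : ZmS) {B : Type} [CommRing B] [IsDomain B] [Algebra.FiniteType ℤ B]
    (Q : Ideal B) [Q.IsPrime] {h j : ℕ} (s : Fin h → B) (hs : ∀ i, s i ∈ Q)
    (hm : ∀ Q' : Ideal B, Q'.IsPrime → Q' ≤ Q → (∀ i, s i ∈ Q') →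
      (∀ n : ℕ, (n : B) ∈ Q → (n : B) ∈ Q') → Q' = Q) (hd : Dp (B ⧸ Q) j) : Dp B (h + j) := by
  obtain ⟨tb, htb⟩ := hd
  choose t ht using fun i => Ideal.Quotient.mk_surjective (tb i)
  refine ⟨Fin.append s t, hZ B _ Q (fun Q' hp hle ha => hm Q' hp hle
    (fun i => ha _ (Subring.subset_closure ⟨Fin.castAdd j i, Fin.append_left _ _ _⟩) (hs i))
    fun n hn => ha _ (natCast_mem _ n) hn) fun b => ?_⟩
  set A := Subring.closure (Set.range (Fin.append s t))
  have le : Subring.closure (Set.range tb) ≤ A.map (Ideal.Quotient.mk Q) :=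
    Subring.closure_le.2 (by
      rintro _ ⟨i, rfl⟩
      exact ⟨t i, Subring.subset_closure ⟨Fin.natAdd h i, Fin.append_right _ _ _⟩, ht i⟩)
  obtain ⟨Pb, hne, hP⟩ := htb (Ideal.Quotient.mk Q b)
  obtain ⟨P, e⟩ : Pb.map (Subring.subtype _) ∈ lifts ((Ideal.Quotient.mk Q).comp A.subtype) :=
    (lifts_iff_coeff_lifts _).2 fun n => by
      obtain ⟨a, ha, e⟩ := le (Pb.coeff n).2
      exact ⟨⟨a, ha⟩, by rw [coeff_map]; exact e⟩
  rw [coe_mapRingHom] at e
  refine ⟨P, ⟨Pb.natDegree, fun k => leadingCoeff_ne_zero.2 hne (Subtype.ext ?_)⟩, ?_⟩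
  · have := congrArg (coeff · Pb.natDegree) e
    simp only [coeff_map] at this
    exact this.symm.trans (Ideal.Quotient.eq_zero_iff_mem.2 k)
  · rw [← Ideal.Quotient.eq_zero_iff_mem, aeval_def, hom_eval₂, ← eval_map]
    exact (congrArg _ e).trans ((eval_map _ _).trans hP)

end RLow

open RLow in
theorem rLow : OfLow := by
  intro _ hZ B _ _ _ Q _ h j hd
  have : IsNoetherianRing B := Algebra.FiniteType.isNoetherianRing ℤ B
  refine ⟨fun hh => ?_, fun n h0 hn hh => ?_⟩
  · obtain ⟨s, h1, h2⟩ := par Q hh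
    exact core hZ Q s h1 (fun Q' a b c _ => h2 Q' a b c) hd
  have sur := Ideal.Quotient.mk_surjective (I := Ideal.span {(n : B)})
  have cm : ∀ q : Ideal B, (n : B) ∈ q → (q.map (Ideal.Quotient.mk (Ideal.span {(n : B)}))).comap
      (Ideal.Quotient.mk _) = q := fun q hq => by
    rw [Ideal.comap_map_of_surjective _ sur, ← RingHom.ker_eq_comap_bot, Ideal.mk_ker]
    exact sup_eq_left.2 ((Ideal.span_singleton_le_iff_mem _).2 hq)
  have pr : ∀ q : Ideal B, q.IsPrime → (n : B) ∈ q →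
      (q.map (Ideal.Quotient.mk (Ideal.span {(n : B)}))).IsPrime := fun q _ hq =>
    Ideal.map_isPrime_of_surjective sur (by
      rw [Ideal.mk_ker]; exact (Ideal.span_singleton_le_iff_mem _).2 hq)
  have := pr Q ‹_› hn
  have h3 := drop sur h0 (Ideal.Quotient.eq_zero_iff_mem.2 (Ideal.mem_span_singleton_self _))
    (h + 1) (Q.map (Ideal.Quotient.mk _)) (by rwa [cm Q hn])
  push_cast at h3
  obtain ⟨sb, h1, h2⟩ := par (h := h) _ (Order.le_of_lt_add_one h3)
  choose s hs using fun i => sur (sb i)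
  refine core hZ Q s (fun i => ?_) (fun Q' a b c d => ?_) hd
  · rw [← cm Q hn, Ideal.mem_comap, hs]; exact h1 i
  · rw [← cm Q hn, ← cm Q' (d n hn), h2 _ (pr Q' a (d n hn)) (Ideal.map_mono b) fun i =>
      hs i ▸ Ideal.mem_map_of_mem _ (c i)]

end Pool.Agent.MP_f3836a_nt.GQ.R
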