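import Pool.Agent.MP_f3836a_nt.GQ.SpecR

/-! Part GQ: a regular curve that is not contained in a given hypersurface. -/

set_option autoImplicit false

namespace Pool.Agent.MP_f3836a_nt.GQ.R

open Polynomial IsLocalRing PK VE.W VE.Z

namespace RRef

theorem rk {A : Type} [CommRing A] [IsRegularLocalRing A] {n : ℕ} (h : ringKrullDim A = n) :
    (maximalIdeal A).spanFinrank = n := by
  have k := IsRegularLocalRing.spanFinrank_maximalIdeal (R := A)
  rw [h] at k
  exact_mod_cast k

theorem pick {A : Type} [CommRing A] [IsRegularLocalRing A] {d : ℕ}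
    (h : ringKrullDim A = (d + 1 + 1 : ℕ)) {c : A} (h0 : c ≠ 0) :
    ∃ y ∈ maximalIdeal A, y ∉ maximalIdeal A ^ 2 ∧ c ∉ Ideal.span {y} := by
  have fin := (Ideal.finite_minimalPrimes_of_isNoetherianRing A (Ideal.span {c})).insert
    (maximalIdeal A ^ 2)
  have av : ¬(maximalIdeal A : Set A) ⊆ ⋃ I ∈ insert (maximalIdeal A ^ 2)
      (Ideal.span {c}).minimalPrimes, (I : Set A) := by
    refine (Ideal.subset_union_prime_finite fin (f := id) (maximalIdeal A ^ 2) ⊥
      fun I hI e _ => (hI.resolve_left e).1.1).not.2 ?_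
    rintro ⟨I, rfl | hI, e⟩
    · have := rk h
      rw [ELen.nak (I := maximalIdeal A) (by rwa [← sq]), Submodule.spanFinrank_bot] at this
      omega
    · have h1 := Ideal.height_le_one_of_isPrincipal_of_mem_minimalPrimes _ I hI
      rw [← (maximalIdeal.isMaximal A).eq_of_le hI.1.1.ne_top e] at h1
      have h2 := maximalIdeal_height_eq_ringKrullDim (R := A)
      rw [h] at h2
      have h3 : (maximalIdeal A).height = (d + 1 + 1 : ℕ) := by exact_mod_cast h2
      rw [h3] at h1
      norm_cast at h1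
  obtain ⟨y, hy, k⟩ := Set.not_subset.1 av
  simp only [Set.mem_iUnion, not_exists] at k
  have h2 : y ∉ maximalIdeal A ^ 2 := k _ (Set.mem_insert _ _)
  refine ⟨y, hy, h2, fun e => h0 ?_⟩
  have p := (rRegQ A _ h y hy h2).2.2
  have := (Ideal.span_singleton_prime p.ne_zero).2 p
  obtain ⟨P, hP, le⟩ := Ideal.exists_minimalPrimes_le ((Ideal.span_singleton_le_iff_mem _).2 e)
  have z : P = ⊥ := ELen.nak fun x hx => by
    obtain ⟨z, rfl⟩ := Ideal.mem_span_singleton.1 (le hx)
    exact Ideal.mul_mem_mul hy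
      ((hP.1.1.mem_or_mem hx).resolve_left (k P (Set.mem_insert_of_mem _ hP)))
  simpa [z] using hP.1.2 (Ideal.subset_span rfl)

theorem cm {A : Type} [CommRing A] (y : A) (S : Set A) :
    (Ideal.span (Ideal.Quotient.mk (Ideal.span {y}) '' S)).comap
      (Ideal.Quotient.mk (Ideal.span {y})) = Ideal.span (insert y S) := by
  rw [← Ideal.map_span, Ideal.comap_map_of_surjective _ Ideal.Quotient.mk_surjective,
    ← RingHom.ker_eq_comap_bot, Ideal.mk_ker, Ideal.span_insert, sup_comm]

theorem ind (d : ℕ) : ∀ (A : Type) [CommRing A] [IsRegularLocalRing A] (c : A),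
    ringKrullDim A = (d + 1 : ℕ) → c ≠ 0 → ∃ (a₀ : A) (a : Fin d → A),
      Ideal.span (insert a₀ (Set.range a)) = maximalIdeal A ∧ c ∉ Ideal.span (Set.range a) ∧
      ∃ (D : Type) (_ : CommRing D) (_ : IsDomain D) (_ : IsDiscreteValuationRing D)
        (f : A →+* D), Function.Surjective f ∧ RingHom.ker f = Ideal.span (Set.range a) := by
  induction d with
  | zero =>
    intro A _ _ c h h0
    have := rDom A
    obtain ⟨⟨x, hx⟩, -⟩ := (Submodule.spanFinrank_eq_one_iff _).1 (rk h)
    refine ⟨x, Fin.elim0, by simp [hx], by simpa using h0, A, _, this,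
      finrank_CotangentSpace_eq_one_iff.1 ?_, RingHom.id A, Function.surjective_id, ?_⟩
    · rw [← spanFinrank_maximalIdeal_eq_finrank_cotangentSpace]; exact rk h
    · simp [RingHom.ker_eq_comap_bot]
  | succ d ih =>
    intro A _ _ c h h0
    obtain ⟨y, hy, h2, hc⟩ := pick h h0
    obtain ⟨_, e, -⟩ := rRegQ A _ h y hy h2
    have sj := Ideal.Quotient.mk_surjective (I := Ideal.span {y})
    obtain ⟨b₀, b, k1, k2, D, _, _, _, f, f1, f2⟩ := ih _ (Ideal.Quotient.mk _ c) e
      fun z => hc (Ideal.Quotient.eq_zero_iff_mem.1 z)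
    obtain ⟨a₀, rfl⟩ := sj b₀
    choose a ha using fun i => sj (b i)
    have r : Set.range b = Ideal.Quotient.mk (Ideal.span {y}) '' Set.range a := by
      rw [← Set.range_comp]; exact congrArg _ (funext fun i => (ha i).symm)
    rw [r] at k1 k2 f2
    have := IsLocalHom.of_surjective _ sj
    refine ⟨a₀, Fin.cons y a, ?_, ?_, D, _, ‹_›, ‹_›, f.comp (Ideal.Quotient.mk _), f1.comp sj,
      ?_⟩ <;> rw [Fin.range_cons]
    · rw [Set.insert_comm, ← cm, Set.image_insert_eq, k1, maximalIdeal_comap]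
    · rwa [← cm]
    · rw [← cm, ← f2, RingHom.comap_ker]

end RRef

theorem rRef : RefS := by
  intro A _ _ c hc h0
  have h := (IsRegularLocalRing.spanFinrank_maximalIdeal (R := A)).symm
  obtain ⟨d, hd⟩ := Nat.exists_eq_succ_of_ne_zero fun e : (maximalIdeal A).spanFinrank = 0 =>
    h0 (by simpa [(Submodule.spanFinrank_eq_zero_iff_eq_bot (IsNoetherian.noetherian _)).1 e]
      using hc)
  rw [hd] at h
  obtain ⟨a₀, a, k1, k2, D, _, _, _, f, f1, f2⟩ := RRef.ind d A c h h0
  have e := ((Ideal.quotEquivOfEq f2).symm.trans (RingHom.quotientKerEquivOfSurjective f1)).symm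
  have : IsDomain (A ⧸ Ideal.span (Set.range a)) := e.symm.toMulEquiv.isDomain _
  exact ⟨d, a₀, a, h, k1, k2, this,
    IsDiscreteValuationRing.RingEquivClass.isDiscreteValuationRing e⟩

end Pool.Agent.MP_f3836a_nt.GQ.R
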