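import Pool.Agent.MP_f3836a_nt.GQ.SpecR

/-! Part GQ: one step of a chain of primes. -/

set_option autoImplicit false

namespace Pool.Agent.MP_f3836a_nt.GQ.R

open Polynomial IsLocalRing PK VE.W VE.Z

namespace RStep

variable {R R' ι : Type} [CommRing R] [CommRing R']

theorem sur : Function.Surjective (algebraMap ℤ (⊥ : Subring R)) := fun x => by
  obtain ⟨n, hn⟩ := Subring.mem_bot.1 x.2
  exact ⟨n, Subtype.ext (by simpa using hn)⟩

/-- independence over the prime ring in terms of integral polynomials -/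
theorem ind_iff (v : ι → R) : AlgebraicIndependent (⊥ : Subring R) v ↔
    ∀ P : MvPolynomial ι ℤ, MvPolynomial.aeval v P = 0 → ∀ m, ((P.coeff m : ℤ) : R) = 0 := by
  rw [algebraicIndependent_iff]
  refine ⟨fun h P e m => ?_, fun h p e => ?_⟩
  · have := congrArg (fun Q => ((MvPolynomial.coeff m Q : (⊥ : Subring R)) : R))
      (h (P.map (algebraMap ℤ _)) (by rwa [MvPolynomial.aeval_map_algebraMap]))
    simpa [MvPolynomial.coeff_map] using this
  · obtain ⟨P, rfl⟩ := MvPolynomial.map_surjective _ sur p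
    rw [MvPolynomial.aeval_map_algebraMap] at e
    refine MvPolynomial.ext _ _ fun m => Subtype.ext ?_
    simpa [MvPolynomial.coeff_map] using h P e m

theorem map_ev (φ : R →+* R') (v : ι → R) (P : MvPolynomial ι ℤ) :
    MvPolynomial.aeval (fun i => φ (v i)) P = φ (MvPolynomial.aeval v P) :=
  (MvPolynomial.comp_aeval_apply v φ.toIntAlgHom P).symm

variable [IsDomain R] [IsDomain R']

/-- independent families lift -/
theorem lift (φ : R →+* R') (v : ι → R)
    (h : AlgebraicIndependent (⊥ : Subring R') fun i => φ (v i)) :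
    AlgebraicIndependent (⊥ : Subring R) v := by
  rw [ind_iff] at h ⊢
  intro P e m
  by_contra hm
  have h0 := h P (by rw [map_ev, e, map_zero]) m
  obtain ⟨p, hp, hp'⟩ := za_prime (Ideal.isPrime_bot (α := R')) (n := P.coeff m)
    (fun d => hm (by rw [d, Int.cast_zero])) h0
  have := (CharP.charP_iff_prime_eq_zero hp).2 (show (p : R') = 0 from hp')
  have hpR : (p : R) ≠ 0 := fun d => hm (by
    obtain ⟨a, ha⟩ := (CharP.intCast_eq_zero_iff R' p _).1 h0
    rw [ha, Int.cast_mul, Int.cast_natCast, d, zero_mul])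
  obtain ⟨n, Q, rfl, hQ⟩ := za_ex (π := (MvPolynomial.C (p : ℤ) : MvPolynomial ι ℤ)) (Q := P)
    (fun d => (Nat.prime_iff_prime_int.1 hp).not_isUnit
      (by simpa using d.map MvPolynomial.constantCoeff))
    (fun d => hm (by simp [d]))
  rw [map_mul, map_pow, mul_eq_zero] at e
  have e' := e.resolve_left (pow_ne_zero _ (by simpa using hpR))
  exact hQ ((MvPolynomial.C_dvd_iff_dvd_coeff _ _).2 fun i =>
    (CharP.intCast_eq_zero_iff R' p _).1 (h Q (by rw [map_ev, e', map_zero]) i))

/-- an element of the kernel can be added -/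
theorem plus (φ : R →+* R') (v : ι → R) (hn : ∀ n : ℕ, (n : R') = 0 → (n : R) = 0) {c : R}
    (hc : c ≠ 0) (h0 : φ c = 0) (h : AlgebraicIndependent (⊥ : Subring R') fun i => φ (v i)) :
    AlgebraicIndependent (⊥ : Subring R) fun o : Option ι => o.elim c v := by
  refine ((lift φ v h).option_iff_transcendental c).2 fun ⟨P, hP, e⟩ => ?_
  have := Ideal.isPrime_bot (α := R)
  obtain ⟨⟨a, ha⟩, a0, a1⟩ := za_low (algebraMap _ R) ⊥ ⊥ hc P ⟨_, leadingCoeff_ne_zero.2 hP⟩
    (fun b hb => by rw [show b = 0 from hb, map_zero]; exact zero_mem _) e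
  rw [Algebra.adjoin_range_eq_range_aeval] at ha
  obtain ⟨p, rfl⟩ := ha
  obtain ⟨Q, rfl⟩ := MvPolynomial.map_surjective _ sur p
  rw [bot_sup_eq, Ideal.mem_span_singleton] at a1
  obtain ⟨b, hb⟩ := a1
  have hb' : MvPolynomial.aeval v Q = c * b :=
    (MvPolynomial.aeval_map_algebraMap _ v Q).symm.trans hb
  have h1 := (ind_iff _).1 h Q (by rw [map_ev, hb', map_mul, h0, zero_mul])
  refine a0 (Subtype.ext ((MvPolynomial.aeval_map_algebraMap _ v Q).trans ?_))
  rw [MvPolynomial.aeval_def, MvPolynomial.eval₂_eq]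
  refine Finset.sum_eq_zero fun m _ => mul_eq_zero_of_left ?_ _
  have h2 := hn (Q.coeff m).natAbs (by
    rcases Int.natAbs_eq (Q.coeff m) with d | d <;> have h3 := h1 m <;> rw [d] at h3 <;>
      simpa using h3)
  rcases Int.natAbs_eq (Q.coeff m) with d | d <;> rw [d] <;> simpa using h2

end RStep

open RStep

theorem rStep : OfStep := by
  intro dt B _ q q' _ _ k hq h
  rw [dt] at h
  obtain ⟨ι, x, hx⟩ := exists_isTranscendenceBasis' (⊥ : Subring (B ⧸ q')) (B ⧸ q')
  choose v hv using fun i => Ideal.Quotient.factor_surjective hq (x i)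
  have hi : AlgebraicIndependent (⊥ : Subring (B ⧸ q')) fun i =>
      Ideal.Quotient.factor hq (v i) := by simpa only [hv] using hx.1
  refine ⟨(dt _ _).2 (hx.cardinalMk_eq_trdeg.ge.trans
    ((lift _ v hi).cardinalMk_le_trdeg.trans h)), fun hne hn => ?_⟩
  obtain ⟨c, c1, c0⟩ := SetLike.exists_of_lt (lt_of_le_of_ne hq hne)
  have h1 := (plus (Ideal.Quotient.factor hq) v (fun n d =>
      (map_natCast (Ideal.Quotient.mk q) n).symm.trans (Ideal.Quotient.eq_zero_iff_mem.2 (hn n
        (Ideal.Quotient.eq_zero_iff_mem.1 ((map_natCast (Ideal.Quotient.mk q') n).trans d)))))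
    (c := Ideal.Quotient.mk q c) (fun d => c0 (Ideal.Quotient.eq_zero_iff_mem.1 d))
    (Ideal.Quotient.eq_zero_iff_mem.2 c1) hi).cardinalMk_le_trdeg.trans h
  rw [Cardinal.mk_option] at h1
  cases k with
  | zero => simp at h1
  | succ j =>
    rw [Nat.cast_succ, Cardinal.add_one_le_add_one_iff] at h1
    exact ⟨j, rfl, (dt _ _).2 (hx.cardinalMk_eq_trdeg.ge.trans h1)⟩

end Pool.Agent.MP_f3836a_nt.GQ.R
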