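import Pool.Agent.MP_f3836a_nt.GQ.SpecR

/-! Chains of primes are short; generators of the maximal ideal at a smooth point. -/

namespace Pool.Agent.MP_f3836a_nt.GQ.R

open Polynomial IsLocalRing PK VE.W VE.Z

theorem rUp : OfUp := by
  intro hS B _ p
  induction p using RelSeries.inductionOn with
  | singleton x => exact fun k _ => ⟨Nat.zero_le _, fun _ => Nat.zero_le _⟩
  | cons p x hx ih =>
    intro k hk
    rw [RelSeries.head_cons] at hk
    rw [RelSeries.head_cons, RelSeries.last_cons, show (p.cons x hx).length = p.length + 1 by simp]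
    have h1 : x < p.head := hx
    have h2 : p.head.asIdeal ≤ p.last.asIdeal := LTSeries.head_le_last p
    obtain ⟨h3, h4⟩ := hS B x.asIdeal p.head.asIdeal k h1.le hk
    have h5 := h4 fun e => h1.ne (PrimeSpectrum.ext e)
    refine ⟨?_, fun h => ?_⟩
    · by_cases h : ∀ n : ℕ, (n : B) ∈ p.head.asIdeal → (n : B) ∈ x.asIdeal
      · obtain ⟨j, rfl, hj⟩ := h5 h
        exact Nat.succ_le_succ (ih j hj).1
      refine Nat.succ_le_succ ((ih k h3).2 fun n hn => ?_)
      obtain ⟨c, hc⟩ := not_forall.1 h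
      obtain ⟨c1, c2⟩ := Classical.not_imp.1 hc
      obtain ⟨q, hq, e⟩ := za_prime p.head.2 (n := c)
        (fun z => c2 (by simp [Int.natCast_eq_zero.1 z])) (by simpa using c1)
      by_cases d : q ∣ n
      · obtain ⟨d, rfl⟩ := d
        rw [Nat.cast_mul]
        exact Ideal.mul_mem_right _ _ e
      obtain ⟨u, v, huv⟩ := Nat.Coprime.cast (R := B) (hq.coprime_iff_not_dvd.2 d)
      exact absurd ((Ideal.eq_top_iff_one _).2 (huv ▸ add_mem (Ideal.mul_mem_left _ u (h2 e))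
        (Ideal.mul_mem_left _ v hn))) p.last.2.ne_top
    · obtain ⟨j, rfl, hj⟩ := h5 fun n hn => h n (h2 hn)
      exact Nat.succ_le_succ ((ih j hj).2 fun n hn => h1.le (h n hn))

theorem gdB : GdB := by
  intro B _ m p k s t hm hf hp hpm hs hc
  have := Fact.mk hp
  let _ := Ideal.Quotient.field m
  let _ := Fintype.ofFinite (B ⧸ m)
  have : CharP (B ⧸ m) p := (CharP.charP_iff_prime_eq_zero hp).2 (by
    rw [← map_natCast (Ideal.Quotient.mk m)]; exact Ideal.Quotient.eq_zero_iff_mem.2 hpm)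
  obtain ⟨f, -, hq⟩ := FiniteField.card (B ⧸ m) p
  have h1 : ∀ x : B, x - x ^ p ^ (f : ℕ) ∈ m := fun x => Ideal.Quotient.eq.1 (by
    rw [map_pow, ← hq, FiniteField.pow_card])
  have h2 : 2 ≤ p ^ (f : ℕ) := hq ▸ Fintype.one_lt_card
  set I : Ideal B := Ideal.span {(p : B)} ⊔ m ^ 2 with hI
  have Im : I ≤ m :=
    sup_le ((Ideal.span_singleton_le_iff_mem m).2 hpm) (Ideal.pow_le_self two_ne_zero)
  have : Nontrivial (B ⧸ I) :=
    Ideal.Quotient.nontrivial_iff.2 fun e => hm.ne_top (top_le_iff.1 (e ▸ Im))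
  have : CharP (B ⧸ I) p := (CharP.charP_iff_prime_eq_zero hp).2 (by
    rw [← map_natCast (Ideal.Quotient.mk I)]
    exact Ideal.Quotient.eq_zero_iff_mem.2 (Ideal.mem_sup_left (Ideal.mem_span_singleton_self _)))
  have h3 : ∀ x ∈ m, ∀ y ∈ m, x * y ∈ m ^ 2 := fun x hx y hy => sq m ▸ Ideal.mul_mem_mul hx hy
  let δ : Derivation ℤ B (B ⧸ I) := Derivation.mk'
    (AddMonoidHom.mk' (fun b : B => Ideal.Quotient.mk I (b - b ^ p ^ (f : ℕ))) fun a b => by
      simp only [map_sub, map_pow, map_add, add_pow_char_pow]; ring).toIntLinearMap fun a b => by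
      change Ideal.Quotient.mk I _ = Ideal.Quotient.mk I (a * _ + b * _)
      refine Ideal.Quotient.eq.2 (Ideal.mem_sup_right ?_)
      convert neg_mem (h3 _ (h1 a) _ (h1 b)) using 1
      rw [mul_pow]; ring
  refine ⟨fun i => t i - t i ^ p ^ (f : ℕ), fun i => h1 _, fun a ha => ?_⟩
  obtain ⟨c, e⟩ := (Submodule.mem_span_range_iff_exists_fun B).1 (hc a)
  obtain ⟨y, z, hz, e1⟩ := hm.exists_inv hs
  have e2 := congrArg δ.liftKaehlerDifferential e.symm
  simp only [map_sum, map_smul, δ.liftKaehlerDifferential_comp_D] at e2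
  have e3 : s * (a - a ^ p ^ (f : ℕ)) - ∑ i, c i * (t i - t i ^ p ^ (f : ℕ)) ∈ I :=
    Ideal.Quotient.eq.1 (e2.trans (map_sum (Ideal.Quotient.mk I) _ _).symm)
  have e4 : a ^ p ^ (f : ℕ) ∈ m ^ 2 := Ideal.pow_le_pow_right h2 (Ideal.pow_mem_pow ha _)
  set J := Ideal.span (insert (p : B) (Set.range fun i => t i - t i ^ p ^ (f : ℕ))) ⊔ m ^ 2
  have e5 : I ≤ J := sup_le_sup_right (Ideal.span_mono (by simp)) _
  have e6 : ∑ i, c i * (t i - t i ^ p ^ (f : ℕ)) ∈ J := Ideal.sum_mem _ fun i _ =>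
    Ideal.mul_mem_left _ _ (Ideal.mem_sup_left (Ideal.subset_span (Or.inr ⟨i, rfl⟩)))
  convert add_mem (Ideal.mul_mem_left _ y (add_mem (add_mem (e5 e3) e6)
    (Ideal.mem_sup_right (Ideal.mul_mem_left _ s e4)))) (Ideal.mem_sup_right (h3 _ hz _ ha)) using 1
  linear_combination (-a) * e1

end Pool.Agent.MP_f3836a_nt.GQ.R
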