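import Pool.Agent.MP_f3836a_nt.GQ.SpecR

/-! Part GQ: a consequence of the main theorem of Zariski. -/

set_option autoImplicit false

namespace Pool.Agent.MP_f3836a_nt.GQ.R

open Polynomial IsLocalRing PK VE.W VE.Z

theorem rZm : ZmS := by
  intro B _ _ _ A Q hQ h1 h2 t
  have : IsNoetherianRing B := Algebra.FiniteType.isNoetherianRing ℤ B
  have : Algebra.FiniteType A B := Algebra.FiniteType.of_restrictScalars_finiteType ℤ A B
  obtain ⟨J, hJ⟩ : ∃ J : Ideal B, J = (Q.comap (algebraMap A B)).map (algebraMap A B) := ⟨_, rfl⟩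
  have fin : (J.minimalPrimes \ {Q}).Finite :=
    (Ideal.finite_minimalPrimes_of_isNoetherianRing _ _).sdiff
  obtain ⟨f, f1, f2⟩ : ∃ f ∈ fin.toFinset.inf id, f ∉ Q := SetLike.not_le_iff_exists.1 fun e => by
    obtain ⟨q, hq, e'⟩ := hQ.inf_le'.1 e
    rw [Set.Finite.mem_toFinset] at hq
    exact hq.2 (h1 q hq.1.1.1 e' fun a ha h => hq.1.1.2
      (hJ ▸ Ideal.mem_map_of_mem (algebraMap A B) (x := ⟨a, ha⟩) h))
  have qf : Algebra.QuasiFiniteAt A Q := Algebra.QuasiFiniteAt.of_isOpen_singleton_fiber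
    (⟨Q, hQ⟩ : PrimeSpectrum B) (by
      refine isOpen_induced_iff.2 ⟨_, PrimeSpectrum.isOpen_basicOpen (a := f),
        Set.ext fun Q' => ⟨fun hQ' => ?_, ?_⟩⟩
      · have e0 : Q'.1.asIdeal.comap (algebraMap A B) = Q.comap (algebraMap A B) :=
          congrArg PrimeSpectrum.asIdeal Q'.2
        obtain ⟨q, hq, e⟩ := Ideal.exists_minimalPrimes_le (I := J) (J := Q'.1.asIdeal)
          (hJ ▸ Ideal.map_le_iff_le_comap.2 e0.ge)
        by_cases e' : q = Q
        · refine Subtype.ext (PrimeSpectrum.ext (le_antisymm (fun b hb => ?_) (e' ▸ e)))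
          by_contra hb'
          obtain ⟨P, hP, hP'⟩ := h2 b
          obtain ⟨c, c1, c2⟩ := za_low (algebraMap A B) Q (Q.comap (algebraMap A B)) hb' P hP
            (fun _ h => h) hP'
          exact c1 (e0.le (sup_le (e' ▸ e) ((Ideal.span_singleton_le_iff_mem _).2 hb) c2))
        · exact absurd (e ((Finset.inf_le (f := id) (fin.mem_toFinset.2 ⟨hq, e'⟩)) f1)) hQ'
      · rintro rfl
        exact f2)
  obtain ⟨r, r1, r2, r3⟩ := Algebra.zariskisMainProperty_iff.1
    (Algebra.ZariskisMainProperty.of_finiteType (R := A) Q)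
  obtain ⟨k, hk⟩ := r3 t
  exact IsAlgebraic.of_mul (mem_nonZeroDivisors_of_ne_zero (pow_ne_zero k fun e : r = 0 =>
    r1 (e ▸ Q.zero_mem))) (r2.pow k).isAlgebraic hk.isAlgebraic

end Pool.Agent.MP_f3836a_nt.GQ.R
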