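import Pool.Agent.MP_f3836a_nt.GQ.SpecY

/-! Part GQ: cycles form a group. -/

set_option autoImplicit false

namespace Pool.Agent.MP_f3836a_nt.GQ

open Polynomial IsLocalRing PK VE.W VE.Z GP R Order

namespace YCy

variable {S : Sy} {C x : S.P} {φ ψ : ∀ C, S.κ C}

theorem ord1 (C x : S.P) : S.ord C x 1 = 0 := by
  unfold Sy.ord ordR
  split_ifs with h k
  · have h1 := k.2.choose_spec.2
    rw [one_mul] at h1
    rw [Subtype.ext h1, sub_self]
  all_goals rfl

theorem ro (m : MdS) (a : S.H1A) (h : x ≤ C) (hC : S.Cv C) :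
    (∀ f g, f ≠ 0 → g ≠ 0 → ordR (S.R h) (f * g) = ordR (S.R h) f + ordR (S.R h) g) ∧
      ∀ u, Ut (S.R h) u → ordR (S.R h) u = 0 :=
  have k := m _ _ (S.η C) (S.md C)
  have p : Pt (S.η C) (S.R h) := (S.pt C _).2 ⟨x, h, rfl⟩
  have o := rOrd _ _ (k.noeth _ p) (Ring.krullDimLE_one_iff_of_noZeroDivisors.2 fun I I0 I1 =>
    (a.dm h hC).1 I I1 I0) (k.fr _ p)
  ⟨o.1, fun u hu => (o.2.2 ⟨u, hu.2.1⟩ fun e => hu.1 (congrArg Subtype.val e)).2 ((ut_iff _).1 hu)⟩

theorem omul (m : MdS) (a : S.H1A) {u v : S.κ C} (h : u ≠ 1 → S.Cv C) (hu : u ≠ 0) (hv : v ≠ 0) :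
    S.ord C x (u * v) = S.ord C x u + S.ord C x v := by
  by_cases e : u = 1
  · rw [e, one_mul, ord1, zero_add]
  · unfold Sy.ord
    split_ifs with k
    · exact (ro m a k (h e)).1 u v hu hv
    · rfl

theorem fs (h : S.Cy φ) (x : S.P) : Function.HasFiniteSupport fun C => S.ord C x (φ C) :=
  h.fin.subset fun C k e => k (by simp only [e, ord1])

theorem one : S.Cy fun _ => 1 :=
  ⟨fun _ => one_ne_zero, by simp, fun _ e => absurd rfl e, fun x _ => by simp [ord1]⟩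

theorem mul (m : MdS) (a : S.H1A) (h : S.Cy φ) (h' : S.Cy ψ) : S.Cy fun C => φ C * ψ C := by
  have k : ∀ C, φ C * ψ C ≠ 1 → φ C ≠ 1 ∨ ψ C ≠ 1 := fun C e =>
    not_and_or.1 fun d => e (by rw [d.1, d.2, one_mul])
  refine ⟨fun C => mul_ne_zero (h.ne C) (h'.ne C), (h.fin.union h'.fin).subset k,
    fun C e => (k C e).elim (h.cv C) (h'.cv C), fun x hx => ?_⟩
  rw [finsum_congr fun C => omul m a (h.cv C) (h.ne C) (h'.ne C),
    finsum_add_distrib (fs h x) (fs h' x), h.div x hx, h'.div x hx, add_zero]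

theorem inv (m : MdS) (a : S.H1A) (h : S.Cy φ) : S.Cy fun C => (φ C)⁻¹ := by
  refine ⟨fun C => inv_ne_zero (h.ne C), by simpa using h.fin, by simpa using h.cv, fun x hx => ?_⟩
  rw [finsum_congr (g := fun C => -S.ord C x (φ C)) fun C => eq_neg_of_add_eq_zero_right (by
    rw [← omul m a (h.cv C) (h.ne C) (inv_ne_zero (h.ne C)), mul_inv_cancel₀ (h.ne C), ord1]),
    finsum_neg_distrib, h.div x hx, neg_zero]

theorem ut (h : x ≤ C) {t : S.κ S.g} (ht : S.Gu t) : Ut (S.R h) (S.vl C t) := by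
  have e : S.vl C t = S.r (S.top C) ⟨t, (ht C).2.1⟩ := dif_pos _
  have e' : S.r (S.top C) ⟨t, (ht C).2.1⟩ * S.r (S.top C) ⟨t⁻¹, (ht C).2.2⟩ = 1 := by
    rw [← map_mul, ← map_one (S.r (S.top C))]
    exact congrArg _ (Subtype.ext (mul_inv_cancel₀ (ht C).1))
  rw [e, ← S.im (S.top C) h]
  exact ⟨left_ne_zero_of_mul_eq_one e', ⟨_, (ht x).2.1, rfl⟩,
    ⟨_, (ht x).2.2, eq_inv_of_mul_eq_one_right e'⟩⟩

end YCy

open YCy in
theorem yCy : OfCy := by
  intro m h1 S
  have a := h1 S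
  refine ⟨one, fun _ _ => mul m a, fun _ => inv m a, fun φ n h => ?_, fun C₀ t hC ht => ?_⟩
  · induction n with
    | zero => simpa only [pow_zero] using one
    | succ n ih => simpa only [pow_succ] using mul m a ih h
  · have k : ∀ C, S.sg C₀ (S.vl C₀ t) C ≠ 1 → C = C₀ := fun C e => by
      by_contra d
      exact e (by simp [Sy.sg, d])
    have e : S.sg C₀ (S.vl C₀ t) C₀ = S.vl C₀ t := by simp [Sy.sg]
    refine ⟨fun C d => ?_, (Set.finite_singleton C₀).subset k, fun C d => k C d ▸ hC,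
      fun x _ => finsum_eq_zero_of_forall_eq_zero fun C => ?_⟩
    · obtain rfl := k C (d ▸ zero_ne_one)
      exact (ut le_rfl ht).1 (e.symm.trans d)
    · by_cases d : S.sg C₀ (S.vl C₀ t) C = 1
      · rw [d, ord1]
      · obtain rfl := k C d
        rw [e, Sy.ord]
        split_ifs with h
        · exact (ro m a h hC).2 _ (ut h ht)
        · rfl

end Pool.Agent.MP_f3836a_nt.GQ
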