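import Pool.Agent.MP_f3836a_nt.GQ.SpecY

/-! Part GQ: coordinates at all points and the two forms of the boundary. -/

set_option autoImplicit false

namespace Pool.Agent.MP_f3836a_nt.GQ

open IsLocalRing PK PS VE.A VE.W VE.Z GP R Order AlgebraicGeometry CategoryTheory MvPolynomial

theorem yDic : DicS := by
  intro Y N P fr H η
  classical
  have r0 : η ⤳ η := specializes_refl η
  obtain ⟨i₀, h₀⟩ := H.good η
  obtain ⟨E₀, c₀⟩ := sc_ex H η i₀ h₀
  have nz : ∀ i, E₀ (X i) ≠ 0 ↔ X i ∉ P η := fun i => (c₀.zero H h₀ (isHomogeneous_X _ _)).not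
  have : ∀ i, ∃ E, E₀ (X i) ≠ 0 → VE.W.Ch P fr η i E := fun i => by
    by_cases h : E₀ (X i) = 0
    · exact ⟨E₀, fun k => absurd h k⟩
    · exact (sc_ex H η i ((nz i).1 h)).imp fun _ k _ => k
  choose E c using this
  have ee : ∀ i j, E₀ (X i) ≠ 0 → E i (X j) = E₀ (X j) / E₀ (X i) := fun i j h => by
    rw [← c₀.val η r0 1 _ _ (isHomogeneous_X _ j) (isHomogeneous_X _ _) ((nz i).1 h),
      ← (c i h).val η r0 1 _ _ (isHomogeneous_X _ j) (isHomogeneous_X _ _) ((nz i).1 h),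
      (c i h).one, mul_one, mul_div_cancel_right₀ _ h]
  have rg : ∀ i, E₀ (X i) ≠ 0 → GQ.Ch (fun i => E₀ (X i)) i = (E i).range := fun i h =>
    le_antisymm (Subring.closure_le.2 (by
      rintro _ ⟨j, rfl⟩
      exact ⟨_, ee i j h⟩)) ((zd_le _ _).2 fun j => Subring.subset_closure ⟨j, (ee i j h).symm⟩)
  refine ⟨fun i => E₀ (X i), ⟨⟨i₀, (nz _).2 h₀⟩, fun i h => ?_⟩, fun S => ⟨?_, ?_⟩⟩
  · rw [rg i h]
    intro z
    obtain ⟨a, rfl⟩ := (SComp.range_refl r0).ge (Subring.mem_top z)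
    obtain ⟨n, A, B, hA, hB, k, rfl⟩ := H.surj η a
    exact ⟨⟨_, A, rfl⟩, ⟨_, B, rfl⟩, fun e => k (((c i h).zero H ((nz i).1 h) hB).1 e),
      (c i h).val η _ n A B hA hB k⟩
  · rintro ⟨i, h, k⟩
    rw [rg i h] at k
    obtain ⟨q, hq, rfl⟩ := k
    exact (c i h).of H ((nz i).1 h) q
  · rintro ⟨z, g, rfl⟩
    obtain ⟨i, hi⟩ := H.good z
    have h := (nz i).2 fun k => hi ((H.le _ _).1 g k)
    refine ⟨i, h, ?_⟩
    rw [rg i h]
    obtain ⟨q, hq, m⟩ := (c i h).to H g hi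
    exact ⟨q, hq, (c i h).loc H _ q m⟩

theorem yBd : BdS := by
  intro A L _ _ _ e r hr f g
  classical
  have sj : Function.Surjective r := fun t => by
    obtain ⟨a, rfl⟩ := residue_surjective t
    exact ⟨_, hr a⟩
  have dm : ∀ W : ValuationSubring L, PT.Dom e W ↔ Br e.range W.toSubring := fun W => by
    refine ⟨fun h => ⟨W.mem_or_inv_mem', ?_, ?_⟩, fun h a => ⟨h.2.1 ⟨a, rfl⟩, fun ha => ?_⟩⟩
    · rintro _ ⟨a, rfl⟩
      exact (h a).1
    · rintro z hz
      obtain ⟨a, rfl⟩ := hz.1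
      exact ⟨(h a).1, W.mem_nonunits_iff_or.1 ((h a).2 fun hu =>
        (nu_iff (e.rangeRestrict a)).1 hz (hu.map e.rangeRestrict))⟩
    · exact W.mem_nonunits_iff_or.2 (h.2.2 _ ((nu_iff (e.rangeRestrict a)).2 fun hu =>
        (hu.map r).ne_zero ((hr a).trans ((residue_eq_zero_iff a).2 ha)))).2
  have e1 : ∀ W : ValuationSubring L, (∏ᶠ (h : PT.Dom e W),
      nrmO (PT.toRes h) (tameR W.toSubring (resW W) f g)) =
      ∏ᶠ (_ : Br e.range W.toSubring), nmW r W.toSubring (tameE W.toSubring f g) := fun W => by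
    by_cases h : PT.Dom e W
    · have : IsLocalRing W.toSubring := inferInstanceAs (IsLocalRing W)
      rw [finprod_eq_dif, dif_pos h, finprod_eq_if, if_pos ((dm W).1 h)]
      refine (nmW_eq sj (W := W.toSubring) (ν := PT.toRes h) ?_ _).symm
      rintro ⟨_, a, rfl⟩
      exact ⟨(h a).1, by rw [hr]; rfl⟩
    · rw [finprod_eq_dif, dif_neg h, finprod_eq_if, if_neg fun k => h ((dm W).2 k)]
  rw [bdry_eq, finprod_congr e1, ← finprod_mem_range
    (f := fun W => ∏ᶠ (_ : Br e.range W), nmW r W (tameE W f g))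
    ValuationSubring.toSubring_injective]
  refine finprod_congr fun W => ?_
  by_cases h : Br e.range W
  · rw [finprod_eq_if, if_pos ⟨⟨W, h.1⟩, rfl⟩]
  · simp only [finprod_eq_if, if_neg h, ite_self]

end Pool.Agent.MP_f3836a_nt.GQ
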