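import Pool.Agent.MP_f3836a_nt.GQ.SpecY
import Pool.Agent.MP_f3836a_nt.GP.GFinal

/-! Part GQ: the theorem for schemes. -/

set_option autoImplicit false

namespace Pool.Agent.MP_f3836a_nt.GQ

open IsLocalRing AlgebraicGeometry CategoryTheory PK VE.W VE.Z GP R E

/-- the theorem for schemes of any dimension -/
def FinalQ : Prop := ∀ (N : ℕ) (X : Scheme.{0}) (ι : X ⟶ PT.PN N) [IsClosedImmersion ι]
  [IsIntegral X], (∀ z : X, IsRegularLocalRing (X.presheaf.stalk z)) →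
  ∀ C₀ : X, Order.height C₀ = 1 → CharZero (X.residueField C₀) →
  (∀ φ : ∀ C : X, X.residueField C, (∀ C, φ C ≠ 0) → {C | φ C ≠ 1}.Finite →
    (∀ C, φ C ≠ 1 → Order.height C = 1) →
    (∀ x : X, Order.height x = 0 → ∑ᶠ C, PT.ordZ C x (φ C) = 0) →
    ∃ n : ℕ, 0 < n ∧ ∃ (u : Γ(X, ⊤)ˣ) (l : List (Σ y : X, X.residueField y × X.residueField y)),
      (∀ a ∈ l, Order.height a.1 = 2 ∧ a.2.1 ≠ 0 ∧ a.2.2 ≠ 0) ∧
      φ C₀ ^ n = (X.Γevaluation C₀).hom u * (l.map fun a => PT.bd a.1 C₀ a.2.1 a.2.2).prod ∧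
      ∀ C : X, Order.height C = 1 → C ≠ C₀ →
        φ C ^ n = (l.map fun a => PT.bd a.1 C a.2.1 a.2.2).prod) ∧
  ∀ (u : Γ(X, ⊤)ˣ) (l : List (Σ y : X, X.residueField y × X.residueField y)),
    (∀ a ∈ l, Order.height a.1 = 2 ∧ a.2.1 ≠ 0 ∧ a.2.2 ≠ 0) →
    (X.Γevaluation C₀).hom u = (l.map fun a => PT.bd a.1 C₀ a.2.1 a.2.2).prod →
    (∀ C : X, Order.height C = 1 → C ≠ C₀ →
      (l.map fun a => PT.bd a.1 C a.2.1 a.2.2).prod = 1) →
    ∃ n : ℕ, 0 < n ∧ u ^ n = 1

namespace YFin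

variable {X : Scheme.{0}}

/-- the residue map -/
noncomputable def rr {y z : X} (h : y ⤳ z) : (PT.ev h).range →+* X.residueField z :=
  (SComp.exists_rs h _ rfl).choose

theorem rr_ev {y z : X} (h : y ⤳ z) (a : X.presheaf.stalk z) (ha : PT.ev h a ∈ (PT.ev h).range) :
    rr h ⟨PT.ev h a, ha⟩ = X.residue z a := (SComp.exists_rs h _ rfl).choose_spec a ha

/-- the system of points of a scheme -/
noncomputable def sy {N : ℕ} {g : X} (c : Chx X) (G : Gnx X g)
    (η : ∀ y : X, Fin (N + 1) → X.residueField y) (md : ∀ y, Md (η y))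
    (pt : ∀ y S, Pt (η y) S ↔ ∃ (z : X) (h : y ⤳ z), (PT.ev h).range = S) : Sy where
  P := X
  κ := fun z => X.residueField z
  N := N + 1
  η := η
  R := fun h => (PT.ev h).range
  r := fun h => rr h
  g := g
  top := G.gen
  anti := fun _ _ h h' => (Specializes.antisymm h h').eq
  md := md
  pt := pt
  le := fun h h' => (c.le _ _ _ h h').symm
  rm := fun {y z} h => ⟨fun t => by
      obtain ⟨a, rfl⟩ := SComp.res_surj z t
      exact ⟨_, rr_ev h a ⟨_, rfl⟩⟩, fun a => ⟨fun h0 hu => (hu.map (rr h)).ne_zero h0, by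
      obtain ⟨_, b, rfl⟩ := a
      exact fun hu => (rr_ev h b _).trans ((SComp.res_eq_zero z b).2 fun hb =>
        hu (hb.map (PT.ev h).rangeRestrict))⟩⟩
  self := fun {y} h => ⟨SComp.range_refl h, by
    rintro ⟨_, b, rfl⟩
    exact (rr_ev h b _).trans (congrArg (X.residue y).hom (sp_refl h b).symm)⟩
  im := fun h h' => SComp.loc_eq rfl (fun a ha => rr_ev h a ha) h'
  cmp := fun {y z w} h h' a ha hb => by
    obtain ⟨b, e⟩ := id ha
    have e1 : a = ⟨PT.ev h (sp h' b), _, rfl⟩ := Subtype.ext (e.symm.trans (ev_trans h h' b))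
    subst e1
    have e2 : rr h ⟨PT.ev h (sp h' b), _, rfl⟩ = PT.ev h' b := rr_ev h _ _
    exact ((congrArg (rr h') (Subtype.ext e2)).trans (rr_ev h' b ⟨_, rfl⟩)).trans
      ((rr_ev (Specializes.trans h h') b ⟨_, rfl⟩).symm.trans (congrArg _ (Subtype.ext e)))
  reg := fun z => (G.reg z).of_ringEquiv (RingEquiv.ofBijective (PT.ev (G.gen z)).rangeRestrict
    ⟨fun a b k => G.inj z _ (congrArg Subtype.val k), RingHom.rangeRestrict_surjective _⟩)
  cz := G.zero

theorem rep {α M : Type} [CommMonoid M] (F : α → M) (l : List α) (n : ℕ) :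
    ((List.replicate n l).flatten.map F).prod = (l.map F).prod ^ n := by
  induction n with
  | zero => simp
  | succ n ih => rw [List.replicate_succ, List.flatten_cons, List.map_append, List.prod_append, ih,
      pow_succ']

end YFin

open YFin

theorem yFin (hC : ChS) (hH : HdS) (hG : GxS) (hX : CxS) (hF : FxS) (hD : DicS) (hB : BdS)
    (hM : MainQ) (hI : InjQ) : FinalQ := by
  intro N Y ι hι _ reg C₀ h₀ c₀
  classical
  have g : ∀ z, genericPoint Y ⤳ z := genericPoint_specializes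
  have ri : Function.Injective (residue Y.functionField) := RingHom.injective _
  have inj : ∀ z, Function.Injective (PT.ev (g z)) := fun z =>
    ri.comp (IsFractionRing.injective (Y.presheaf.stalk z) Y.functionField)
  obtain ⟨G1, G2, G3⟩ := gGlu Y
  replace G3 : ∀ c, (∀ z, c ∈ (PT.ev (g z)).range) →
    ∃ s : Γ(Y, ⊤), (Y.Γevaluation (genericPoint Y)).hom s = c := G3
  clear ri
  generalize genericPoint Y = γ at g inj G1 G3
  have G : Gnx Y γ := ⟨g, reg, fun z _ => inj z, charZero_of_inj_zero fun n h => by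
    have e := congrArg (Y.residue C₀).hom
      (inj C₀ (a₁ := n) (a₂ := 0) (by rw [map_natCast, h, map_zero]))
    rw [map_natCast, map_zero] at e
    exact Nat.cast_eq_zero.1 e⟩
  obtain ⟨P, fr, H⟩ : ∃ P fr, PrA Y N P fr := ⟨_, _, SPr.main N Y ι hι⟩
  have c := hC Y N P fr H
  obtain ⟨M, e, M0, gd⟩ := hG Y γ c (hH Y c) G
  obtain ⟨Z, hZ⟩ := hX Y M e c (hH Y c) gd
  choose η md pt using hD Y N P fr H
  let F : ∀ C : Y, (Σ y : Y, Y.residueField y × Y.residueField y) → Y.residueField C :=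
    fun C a => PT.bd a.1 C a.2.1 a.2.2
  let v : Y.residueField γ → ∀ C : Y, Y.residueField C := fun t =>
    Pi.mulSingle C₀ (resR _ (rr (g C₀)) t)
  have bd : ∀ (l : List (Σ y : Y, Y.residueField y × Y.residueField y)) (C : Y),
      Order.height C = 1 → (sy c G η md pt).bl l C = (l.map (F C)).prod :=
    fun l C hC => congrArg List.prod (List.map_congr_left fun (a : Σ y : Y, _) _ => by
      refine (if_pos hC).trans ?_
      by_cases h : a.1 ⤳ C
      · exact (dif_pos h).trans ((hB _ _ (PT.ev h) (rr h) (fun b => rr_ev h b _) _ _).symm.trans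
          (show F C a = _ from dif_pos h).symm)
      · exact (dif_neg h).trans (bdT_not h _ _).symm)
  have val : ∀ (s : Γ(Y, ⊤)) z, (Y.Γevaluation γ).hom s ∈ (PT.ev (g z)).range ∧
      resR _ (rr (g z)) ((Y.Γevaluation γ).hom s) = (Y.Γevaluation z).hom s := fun s z => by
    obtain ⟨a, a1, a2⟩ := G2 s γ z (g z)
    rw [← a1, ← a2]
    exact ⟨⟨a, rfl⟩, (dif_pos ⟨a, rfl⟩).trans (rr_ev (g z) a _)⟩
  have M1 : ∀ φ : ∀ C : Y, Y.residueField C, CyX φ → ∃ n : ℕ, 0 < n ∧ ∃ t : Y.residueField γ,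
      (∀ z, Ut (PT.ev (g z)).range t) ∧
      ∃ l : List (Σ y : Y, Y.residueField y × Y.residueField y),
        (∀ a ∈ l, Order.height a.1 = 2 ∧ a.2.1 ≠ 0 ∧ a.2.2 ≠ 0) ∧
        ∃ ψ : ∀ C : Y, Y.residueField C, CyX ψ ∧ (∀ C, ψ C ≠ 1 → Gd M C) ∧
          ∀ C, Order.height C = 1 → φ C ^ n = v t C * (l.map (F C)).prod * ψ C := fun φ h => by
    obtain ⟨n, hn, t, ht, l, l1, ψ, p1, p2, p3⟩ :=
      hM (sy c G η md pt) C₀ φ M ⟨h₀, c₀⟩ ⟨h.ne, h.fin, h.cv, h.div⟩ M0
    exact ⟨n, hn, t, ht, l, fun a ha => ⟨(l1 a ha).1.1, (l1 a ha).2⟩, ψ,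
      ⟨p1.ne, p1.fin, p1.cv, p1.div⟩, p2, fun C hC => bd l C hC ▸ p3 C⟩
  have M2 : ∀ (t : Y.residueField γ) (l : List (Σ y : Y, Y.residueField y × Y.residueField y)),
      (∀ z, Ut (PT.ev (g z)).range t) →
      (∀ a ∈ l, Order.height a.1 = 2 ∧ a.2.1 ≠ 0 ∧ a.2.2 ≠ 0) →
      (∀ C, Order.height C = 1 → v t C = (l.map (F C)).prod) → ∃ n : ℕ, 0 < n ∧ t ^ n = 1 :=
    fun t l a b e => hI (sy c G η md pt) C₀ t l ⟨h₀, c₀⟩ a b fun C hC =>
      (e C hC).trans (bd l C hC).symm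
  refine ⟨fun φ hne hfin hsupp hdiv => ?_, fun u l hl e1 e2 => ?_⟩
  · obtain ⟨n, hn, t, ht, l, l1, ψ, p1, p2, p3⟩ := M1 φ ⟨hne, hfin, hsupp, hdiv⟩
    obtain ⟨m, hm, l', q1, q2⟩ := hF N Y ι M Z hZ ψ p1 p2
    obtain ⟨s, rfl⟩ := G3 t fun z => (ht z).2.1
    obtain ⟨s', e'⟩ := G3 _ fun z => (ht z).2.2
    have k : ∀ C : Y, Order.height C = 1 → φ C ^ (n * m) = v ((Y.Γevaluation γ).hom s) C ^ m *
        (((List.replicate m l).flatten ++ l').map (F C)).prod := fun C hC => by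
      rw [pow_mul, List.map_append, List.prod_append, rep, ← q2 C hC, p3 C hC, mul_pow, mul_pow,
        mul_assoc]
    refine ⟨n * m, mul_pos hn hm, Units.mkOfMulEqOne s s' (G1 (by
      rw [map_mul, e', map_one, mul_inv_cancel₀ (ht γ).1])) ^ m, (List.replicate m l).flatten ++ l',
      fun a ha => ?_, ?_, fun C hC h => ?_⟩
    · refine (List.mem_append.1 ha).elim (fun k => ?_) (q1 a)
      obtain ⟨l₀, k1, k2⟩ := List.mem_flatten.1 k
      rw [List.eq_of_mem_replicate k1] at k2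
      exact l1 a k2
    · rw [k C₀ h₀, Units.val_pow_eq_pow_val, map_pow,
        show v _ C₀ = _ from (Pi.mulSingle_eq_same _ _).trans (val s C₀).2]
      rfl
    · rw [k C hC, show v _ C = 1 from Pi.mulSingle_eq_of_ne h _, one_pow, one_mul]
  · obtain ⟨n, hn, e⟩ := M2 ((Y.Γevaluation γ).hom u) l (fun z =>
      ⟨(u.isUnit.map _).ne_zero, (val _ z).1, by rw [← map_units_inv]; exact (val _ z).1⟩) hl
      fun C hC => by
        by_cases h : C = C₀
        · subst h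
          exact (Pi.mulSingle_eq_same _ _).trans ((val _ _).2.trans e1)
        · exact (Pi.mulSingle_eq_of_ne h _).trans (e2 C hC h).symm
    exact ⟨n, hn, Units.ext (G1 (by rw [Units.val_pow_eq_pow_val, map_pow, e, Units.val_one, map_one]))⟩

end Pool.Agent.MP_f3836a_nt.GQ
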