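import Pool.Agent.MP_f3836a_nt.GQ.SpecY
import Pool.Agent.MP_f3836a_nt.GP.GVal

/-! Part GQ: global functions, and norms to the constants. -/

set_option autoImplicit false

namespace Pool.Agent.MP_f3836a_nt.GQ

open Polynomial IsLocalRing PK VE.W VE.Z GP R Order

theorem yGl : OfGl := by
  intro hM S t
  have m := hM _ _ _ (S.md S.g)
  refine ⟨fun h z => ?_, fun h => GVal.int_of t fun V _ => ?_⟩
  · have := S.reg z
    have : IsFractionRing (S.R (S.top z)) (S.κ S.g) := IsFractionRing.of_field _ _ fun x => by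
      obtain ⟨a, b, hb, e⟩ := m.fr _ ((S.pt _ _).2 ⟨z, S.top z, rfl⟩) x
      exact ⟨a, b, eq_div_of_mul_eq hb e⟩
    obtain ⟨y, rfl⟩ := (isIntegrallyClosed_iff (S.κ S.g)).1 (rNorm (S.R (S.top z)))
      h.tower_top
    exact y.2
  · obtain ⟨D, hD, d⟩ := m.cen V.toSubring (inferInstanceAs (IsLocalRing V))
      (m.val _ V.mem_or_inv_mem)
    obtain ⟨z, hz, rfl⟩ := (S.pt _ _).1 hD
    exact d.1 (h z)

namespace YGl

variable {k K : Type} [Field k] [Field K] [NumberField k] [NumberField K] (ν : k →+* K)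

theorem fin : letI := ν.toAlgebra; Module.Finite k K :=
  letI := ν.toAlgebra
  Module.Finite.of_restrictScalars_finite ℚ k K

theorem um {M : ℕ} {u : K} (h : Um M u) : Um M (nrmO ν u) := by
  letI := ν.toAlgebra
  have := fin ν
  obtain ⟨n, n0, hn, a, b⟩ := h
  have e : ∀ x : K, IsIntegral ℤ (n * x) →
      IsIntegral ℤ (((n ^ Module.finrank k K : ℕ) : k) * Algebra.norm k x) := fun x hx => by
    have := Algebra.isIntegral_norm k hx
    rwa [map_mul, Algebra.norm_natCast, ← Nat.cast_pow] at this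
  exact ⟨_, pow_ne_zero _ n0, hn.pow_left _, e u a, Algebra.norm_inv (K := k) u ▸ e _ b⟩

end YGl

open YGl in
theorem yNm : OfNmQ := by
  intro hU S k _ _ c hc
  refine ⟨fun C => ?_, fun C u u' => ?_, fun C u hu => ?_, fun C u h => dif_neg h, fun C h => ?_,
    fun M C u h _ hu => ?_, fun C h a => ?_⟩
  · unfold Sy.nm nrmO
    split_ifs
    exacts [map_one _, rfl]
  · unfold Sy.nm nrmO
    split_ifs
    exacts [map_mul _ _ _, (mul_one _).symm]
  · unfold Sy.nm
    split_ifs with h
    · have := (hU S).nf C h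
      letI := (c C h.2).toAlgebra
      have := fin (c C h.2)
      exact Algebra.norm_ne_zero_iff.2 hu
    · exact one_ne_zero
  · have := (hU S).nf C h
    letI := (c C h.2).toAlgebra
    have := fin (c C h.2)
    exact ⟨Module.finrank k (S.κ C), Module.finrank_pos, fun a =>
      (dif_pos h).trans (Algebra.norm_algebraMap a)⟩
  · have := (hU S).nf C h
    rw [Sy.nm, dif_pos h]
    exact um _ hu
  · obtain ⟨ha, e⟩ := hc.cmp (S.top C) S.cz h a
    exact (dif_pos ha).trans e

end Pool.Agent.MP_f3836a_nt.GQ
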