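import Pool.Agent.MP_f3836a_nt.GQ.SpecY

/-! Part GQ: heights of points and dimensions of their local rings. -/

set_option autoImplicit false

namespace Pool.Agent.MP_f3836a_nt.GQ

open Polynomial IsLocalRing PK VE.W VE.Z GP R Order

namespace YHd

theorem ge (S : Sy) (H : S.H1A) {y z : S.P} (h : z ≤ y) (n : ℕ) (e : height y ≤ n) :
    ringKrullDim (S.R h) ≤ n := by
  choose w _ hy ew using fun q : PrimeSpectrum (S.R h) => H.pr h q.asIdeal
  have k : ∀ q q', w q ≤ w q' ↔ q' ≤ q := fun q q' =>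
    (S.le (hy q) (hy q')).symm.trans (by rw [ew, ew]; exact (wLc _ _).le _ _)
  let g : (PrimeSpectrum (S.R h))ᵒᵈ → Set.Iic y := fun q => ⟨w (OrderDual.ofDual q), hy _⟩
  have hg : StrictMono g := fun q q' hq =>
    lt_iff_le_not_ge.2 ⟨(k _ _).2 hq.le, fun a => hq.not_ge ((k _ _).1 a)⟩
  have h4 := krullDim_le_of_strictMono g hg
  rw [krullDim_orderDual, ← height_eq_krullDim_Iic] at h4
  exact h4.trans (WithBot.coe_le_coe.2 e)

theorem le (hM : MdS) (S : Sy) (y : S.P) (n : ℕ)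
    (e : ∀ (z : S.P) (h : z ≤ y), ringKrullDim (S.R h) ≤ n) : height y ≤ n := by
  refine height_le fun l hl => ?_
  have h2 : ∀ i, l i ≤ y := fun i => hl ▸ l.monotone (Fin.le_last i)
  have A := hM _ _ (S.η y) (S.md y)
  have pt : ∀ i, Pt (S.η y) (S.R (h2 i)) := fun i => (S.pt y _).2 ⟨_, _, rfl⟩
  choose q hq eq using fun i => A.ov _ _ (pt 0) (pt i) ((S.le _ _).2 (l.head_le i))
  have k : ∀ i j, l i ≤ l j ↔ q j ≤ q i := fun i j =>
    (S.le (h2 i) (h2 j)).symm.trans (by rw [eq i, eq j]; exact (wLc _ _).le _ _)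
  let l' : LTSeries (PrimeSpectrum (S.R (h2 0)))ᵒᵈ :=
    ⟨l.length, fun i => OrderDual.toDual ⟨q i, hq i⟩, fun i =>
      have h4 : l i.castSucc < l i.succ := l.step i
      lt_iff_le_not_ge.2 ⟨(k _ _).1 h4.le, fun a => h4.not_ge ((k _ _).2 a)⟩⟩
  have h4 := LTSeries.length_le_krullDim l'
  rw [krullDim_orderDual] at h4
  exact WithBot.coe_le_coe.1 (h4.trans (e _ (h2 0)))

theorem dp (hD : DpS) {K κ : Type} [Field K] [Field κ] (B D : Subring K) (q : Ideal B) [q.IsPrime]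
    (e : D = lc B q) (r : D →+* κ) (hr : Rm D r) : ringKrullDim D = q.height ∧
      (∀ n : ℕ, (n : B) ∈ q ↔ (n : κ) = 0) ∧ ∀ k, Dp (B ⧸ q) k ↔ Dp κ k := by
  subst e
  let f : B →+* κ := r.comp (Subring.inclusion (le_lc B q))
  have k : ∀ a, f a = 0 ↔ a ∈ q := fun a =>
    (hr.ker _).trans (((wLc K B).unit q a).not.trans not_not)
  refine ⟨IsLocalization.AtPrime.ringKrullDim_eq_height q _,
    fun n => by rw [← k, map_natCast], (hD _).frac κ (Ideal.Quotient.lift q f fun a => (k a).2)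
      (RingHom.lift_injective_of_ker_le_ideal q _ fun a => (k a).1) fun c => ?_⟩
  obtain ⟨z, rfl⟩ := hr.surj c
  obtain ⟨a, b, hb, e⟩ := mem_lc.1 z.2
  refine ⟨Ideal.Quotient.mk q a, Ideal.Quotient.mk q b, fun e => hb ((k b).1 e), ?_⟩
  exact (map_mul r z _).symm.trans (congrArg r (Subtype.ext e))

end YHd

theorem yHd : OfHdQ := fun hM hD hH S =>
  ⟨YHd.ge S (hH S), YHd.le hM S, fun {y z} h => by
    obtain ⟨i, hi, q, hq, e⟩ := (S.pt y _).2 ⟨z, h, rfl⟩
    exact ⟨_, q, hq, (hM _ _ (S.η y) (S.md y)).ft i, (S.md y).2 i hi,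
      YHd.dp hD _ _ q e (S.r h) (S.rm h)⟩⟩

end Pool.Agent.MP_f3836a_nt.GQ
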