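import Pool.Agent.MP_f3836a_nt.GQ.SpecY
import Pool.Agent.MP_f3836a_nt.GQ.HHt

/-! Part GQ: heights and transcendence degrees, constants. -/

set_option autoImplicit false

namespace Pool.Agent.MP_f3836a_nt.GQ

open Polynomial IsLocalRing PK VE.W VE.Z GP R Order E.HHt

theorem yHu : OfHu := by
  intro dp us ls h1 hd S
  replace h1 := h1 S
  replace hd := hd S
  have fr : ∀ {y : S.P} {B : Subring (S.κ y)}, Fr B → ∀ k, Dp B k ↔ Dp (S.κ y) k := fun {_ B} f =>
    (dp B).frac _ B.subtype Subtype.val_injective f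
  have up : ∀ (y : S.P) (k : ℕ), Dp (S.κ y) k → height y ≤ (k + 1 : ℕ) :=
    fun y k hk => hd.le y _ fun x h => by
      obtain ⟨B, q, _, -, f, e, -⟩ := hd.dp h
      rw [e]
      exact_mod_cast (ht_le dp us q ((fr f k).2 hk)).1
  have rel : ∀ {y z : S.P} (h : z ≤ y) (a j : ℕ), CharZero (S.κ y) → ¬CharZero (S.κ z) →
      ringKrullDim (S.R h) ≤ (a + 1 : ℕ) → Dp (S.κ z) j → Dp (S.κ y) (a + j) :=
    fun {y z} h a j c c' u v => by
      obtain ⟨B, q, _, _, f, d1, d2, d3⟩ := hd.dp h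
      obtain ⟨n, n1, n2⟩ : ∃ n : ℕ, (n : S.κ z) = 0 ∧ n ≠ 0 := by
        by_contra k
        exact c' (charZero_of_inj_zero fun n t => by_contra fun t' => k ⟨n, t, t'⟩)
      rw [d1] at u
      exact (fr f _).1 ((ls B q a j ((d3 j).2 v)).2 n (Nat.cast_ne_zero.2 n2) ((d2 n).2 n1)
        (by exact_mod_cast u))
  have low' : ∀ (y : S.P) (k : ℕ), CharZero (S.κ y) → height y ≤ (k + 1 : ℕ) → Dp (S.κ y) k :=
    fun y k c u => by
      obtain ⟨x, h, t⟩ := h1.ex y
      have := (h1.fin x).1 t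
      exact rel h k 0 c (ncz _) (hd.ge h _ u) ((dp _).fin this)
  have gen : ∀ y : S.P, ∃ s : Finset (S.κ y), Subfield.closure (s : Set (S.κ y)) = ⊤ := fun y => by
    obtain ⟨B, q, _, a, b, -⟩ := hd.dp (le_refl y)
    exact fg B a b
  refine ⟨up, fun y k c hk => hd.le y _ fun x h => ?_, fun y k u => ?_, low', rel,
    fun C c => ⟨fun e => ((dp _).zero c).1 (low' C 0 c e.le), fun e => le_antisymm
      (up C 0 (((dp _).zero c).2 e)) (Order.one_le_iff_ne_zero.2 fun z => ?_)⟩, fun C c => ?_,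
    fun y c => ⟨fun e => ⟨gen y, ((dp _).one c).1 (low' y 1 c e.le), ?_⟩,
      fun ⟨_, a, t, b⟩ => le_antisymm (up y 1 (((dp _).one c).2 a))
        (Order.add_one_le_of_lt (not_le.1 fun u => b (((dp _).zero c).1 (low' y 0 c u) t)))⟩⟩
  · obtain ⟨B, q, hq, -, f, e, -⟩ := hd.dp h
    rw [e]
    obtain ⟨p, hp⟩ := CharP.exists (S.κ y)
    have pp : p.Prime := (CharP.char_is_prime_or_zero (S.κ y) p).resolve_right fun z =>
      c (by subst z; exact CharP.charP_to_charZero _)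
    exact_mod_cast (ht_le dp us q ((fr f k).2 hk)).2 fun n t => (CharP.cast_eq_zero_iff B p n).2
      (by_contra fun w => hq.ne_top (q.eq_top_of_isUnit_mem t ((CharP.isUnit_natCast_iff pp).2 w)))
  · obtain ⟨x, h, t⟩ := h1.ex y
    obtain ⟨B, q, _, _, f, d1, -, d3⟩ := hd.dp h
    have v := hd.ge h _ u
    rw [d1] at v
    exact (fr f _).1 ((ls B q k 0 ((d3 0).2 ((dp _).fin ((h1.fin x).1 t)))).1
      (by exact_mod_cast v))
  · have := (h1.fin C).1 z
    exact ncz _ c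
  · obtain ⟨s, hs⟩ := gen C
    have := c.2
    exact nf hs (((dp _).zero c.2).1 (low' C 0 c.2 c.1.le))
  · by_contra k
    have := e.ge.trans (up y 0 (((dp _).zero c).2 fun t => by_contra fun w => k ⟨t, w⟩))
    exact absurd this (by decide)

theorem yCs : OfCs := by
  intro h1 hu gl S C₀ h₀
  have := S.cz
  have hK : ∀ c : S.κ S.g, c ∈ algebraicClosure ℚ (S.κ S.g) ↔ IsAlgebraic ℤ c :=
    fun c => mem_algebraicClosure_iff.trans (IsFractionRing.isAlgebraic_iff ℤ ℚ _).symm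
  have al : ∀ z, CharZero (S.κ z) → ∀ c : S.κ S.g, IsAlgebraic ℤ c → c ∈ S.R (S.top z) :=
    fun z hz c hc => by
      obtain ⟨n, n0, hn⟩ := hc.exists_integral_multiple
      have a := (gl S _).1 hn z
      have b := ((h1 S).ho (S.top z) this).2 hz n.natAbs (Int.natAbs_ne_zero.2 n0)
      have n1 : (n : S.κ S.g) ≠ 0 := Int.cast_ne_zero.2 n0
      have e := mul_mem b a
      rw [Nat.cast_natAbs, zsmul_eq_mul] at e
      rcases abs_choice n with k | k <;> rw [k] at e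
      · rwa [inv_mul_cancel_left₀ n1] at e
      · rwa [Int.cast_neg, inv_neg, neg_mul, inv_mul_cancel_left₀ n1, neg_mem_iff] at e
  let e : ∀ z, CharZero (S.κ z) → (algebraicClosure ℚ (S.κ S.g) →+* S.κ z) := fun z hz =>
    (S.r (S.top z)).comp ((algebraicClosure ℚ (S.κ S.g)).val.toRingHom.codRestrict _ fun c =>
      al z hz c ((hK c).1 c.2))
  have := (hu S).nf C₀ h₀
  have k := e C₀ h₀.2
  refine ⟨algebraicClosure ℚ (S.κ S.g), inferInstance,
    @NumberField.mk _ _ _ (Module.Finite.of_injective k.toRatAlgHom.toLinearMap k.injective), e,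
    fun {y z} h hy hz a => ?_, fun t ht => ⟨⟨t, (hK t).2 ht⟩, (S.self _).2 _⟩⟩
  have m := al z hz a ((hK a).1 a.2)
  have b : e y hy a ∈ S.R h := S.im (S.top y) h ▸ ⟨_, m, rfl⟩
  exact ⟨b, S.cmp (S.top y) h _ m b⟩

end Pool.Agent.MP_f3836a_nt.GQ
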