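import Pool.Agent.MP_f3836a_nt.GQ.SpecY
import Pool.Agent.MP_f3836a_nt.GP.GDu

/-! Part GQ: injectivity. -/

set_option autoImplicit false

namespace Pool.Agent.MP_f3836a_nt.GQ

open Polynomial IsLocalRing PK VE.W VE.Z GP R Order

namespace YInj

/-- a family of constants killed by `μ` -/
def Ok {I k : Type} [Field k] (μ : k → ℝ) (F : I → k) : Prop :=
  (∀ C, F C ≠ 0) ∧ {C | F C ≠ 1}.Finite ∧ ∑ᶠ C, μ (F C) = 0

variable {I k : Type} [Field k] {μ : k → ℝ} {F G : I → k}

theorem m1 (h : Adr μ) : μ 1 = 0 := by simpa using h 1 1 one_ne_zero one_ne_zero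

theorem pw (h : Adr μ) {a : k} (a0 : a ≠ 0) (n : ℕ) : μ (a ^ n) = n * μ a := by
  induction n with
  | zero => simp [m1 h]
  | succ n ih => rw [pow_succ, h _ _ (pow_ne_zero n a0) a0, ih]; push_cast; ring

theorem one (h : Adr μ) (e : ∀ C, F C = 1) : Ok μ F :=
  ⟨fun C => e C ▸ one_ne_zero, by simp [e], by simp [e, m1 h]⟩

theorem mul (h : Adr μ) (a : Ok μ F) (b : Ok μ G) : Ok μ fun C => F C * G C := by
  have k : ∀ {F : I → k}, Ok μ F → (Function.support fun C => μ (F C)).Finite := fun a =>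
    a.2.1.subset fun C z e => z ((congrArg μ e).trans (m1 h))
  refine ⟨fun C => mul_ne_zero (a.1 C) (b.1 C), (a.2.1.union b.2.1).subset fun C z => ?_, ?_⟩
  · by_contra e
    simp only [Set.mem_union, Set.mem_ofPred_eq, not_or, not_not] at e
    exact z (by simp only [e.1, e.2, mul_one])
  · rw [finsum_congr fun C => h _ _ (a.1 C) (b.1 C), finsum_add_distrib (k a) (k b), a.2.2, b.2.2,
      add_zero]

end YInj

open YInj

theorem yInj : OfInjQ := by
  intro hH hT hC hG hN hW S C₀ t l h0 gu hl hb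
  classical
  obtain ⟨k, _, _, c, hc⟩ := hC S C₀ h0
  have N := hN S k c hc
  obtain ⟨a, rfl⟩ := hc.cl t ((hG S t).2 fun z => (gu z).2.1).isAlgebraic
  have a0 : a ≠ 0 := fun e => (gu S.g).1 (by rw [e, map_zero])
  obtain ⟨d, d0, hd⟩ := N.con C₀ h0
  obtain ⟨n, n0, e⟩ := (gNu k 0 0 a a0).1 fun μ hμ => by
    have sy : ∀ y f g, height y = 2 → f ≠ 0 → g ≠ 0 → Ok μ fun C => S.nm c C (S.bc y f g C) :=
      fun y f g hy f0 g0 => by
        by_cases z : CharZero (S.κ y)
        · have T := hT S y ⟨hy, z⟩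
          exact ⟨fun C => N.ne C _ (T.ne f g C f0 g0),
            (T.sup f g f0 g0).subset fun C w e => w ((congrArg _ e).trans (N.one C)),
            hW S k c hc μ y f g hμ ⟨hy, z⟩ f0 g0⟩
        · refine one hμ fun C => ?_
          by_cases w : S.Hz C
          · rw [Sy.bc, if_pos w.1, Sy.bd, dif_neg fun h => z ((hH S).cz h w.2), N.one]
          · exact N.off C _ w
    have key : ∀ l : List S.Sb, (∀ a ∈ l, height a.1 = 2 ∧ a.2.1 ≠ 0 ∧ a.2.2 ≠ 0) →
        Ok μ fun C => S.nm c C (S.bl l C) := fun l hl => by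
      induction l with
      | nil => exact one hμ N.one
      | cons s l ih =>
        have hs := hl s List.mem_cons_self
        simpa only [Sy.bl, List.map_cons, List.prod_cons, N.mul] using
          mul hμ (sy _ _ _ hs.1 hs.2.1 hs.2.2) (ih fun t ht => hl t (List.mem_cons_of_mem _ ht))
    have k1 : ∑ᶠ C, μ (S.nm c C (S.bl l C)) = 0 := (key l hl).2.2
    rw [finsum_eq_single _ C₀ fun C w => by
      by_cases z : S.Hz C
      · rw [← hb C z.1, Sy.sg, Pi.mulSingle_eq_of_ne w, N.one, m1 hμ]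
      · rw [N.off C _ z, m1 hμ], ← hb C₀ h0.1, Sy.sg, Pi.mulSingle_eq_same, N.vl C₀ h0.2, hd,
      pw hμ a0] at k1
    exact (mul_eq_zero.1 k1).resolve_left (Nat.cast_ne_zero.2 d0.ne')
  exact ⟨n, n0, by rw [← map_pow, e, map_one]⟩

end Pool.Agent.MP_f3836a_nt.GQ
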