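import Pool.Agent.MP_f3836a_nt.GQ.SpecY
import Pool.Agent.MP_f3836a_nt.PK.EDual

/-! Part GQ: reduction to vertical cycles over good primes. -/

set_option autoImplicit false

namespace Pool.Agent.MP_f3836a_nt.GQ

open Polynomial IsLocalRing PK VE.W VE.Z GP R Order

theorem yMain : OfMainQ := by
  intro hT hD hC hG hN hY hTop S C₀ φ M₀ h₀ hφ hM₀
  classical
  obtain ⟨k, _, _, c, hc⟩ := hC S C₀ h₀
  obtain ⟨M, M0, hM, H⟩ := hTop S k c hc C₀ h₀ φ M₀ hφ hM₀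
  have Y := hY S
  let U : k → Prop := fun a => a ≠ 0 ∧ IsIntegral ℤ a ∧ IsIntegral ℤ a⁻¹
  have gu : ∀ a, U a → S.Gu (c S.g S.cz a) := fun a ha z =>
    ⟨(_root_.map_ne_zero _).2 ha.1, (hG S _).1 (map_isIntegral_int _ ha.2.1) z,
      (hG S _).1 (map_inv₀ (c S.g S.cz) a ▸ map_isIntegral_int _ ha.2.2) z⟩
  have vl := (hN S k c hc).vl C₀ h₀.2
  let s : k → ∀ C, S.κ C := fun a => S.sg C₀ (c C₀ h₀.2 a)
  have s1 : ∀ C, s 1 C = 1 := fun C => by simp only [s, Sy.sg, map_one, Pi.mulSingle_one, Pi.one_apply]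
  have sm : ∀ a b C, s (a * b) C = s a C * s b C := fun a b C => by
    simp only [s, Sy.sg, map_mul, Pi.mulSingle_mul, Pi.mul_apply]
  let G : (∀ C, S.κ C) → Prop := fun ψ =>
    (∃ y f g, (S.Sf y ∧ f ≠ 0 ∧ g ≠ 0) ∧ ψ = S.bc y f g) ∨ ∃ a, U a ∧ ψ = s a
  have gc : ∀ ψ, G ψ → S.Cy ψ ∧ ∃ ψ', G ψ' ∧ ∀ C, ψ C * ψ' C = 1 := by
    rintro _ (⟨y, f, g, ⟨h, f0, g0⟩, rfl⟩ | ⟨a, ha, rfl⟩)
    · exact ⟨hD S y f g h f0 g0, _, .inl ⟨y, g, f, ⟨h, g0, f0⟩, rfl⟩,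
        fun C => (hT S y h).swap f g C f0 g0⟩
    · refine ⟨?_, _, .inr ⟨a⁻¹, ⟨inv_ne_zero ha.1, ha.2.2, (inv_inv a).symm ▸ ha.2.1⟩, rfl⟩,
        fun C => by rw [← sm, mul_inv_cancel₀ ha.1, s1]⟩
      simpa only [vl] using Y.sg C₀ _ h₀.1 (gu a ha)
  have gl : ∀ L : List {ψ // G ψ}, S.Cy (fun C => (L.map fun ψ => ψ.1 C).prod) ∧ ∃ a, U a ∧
      ∃ l : List S.Sb, (∀ b ∈ l, S.Sf b.1 ∧ b.2.1 ≠ 0 ∧ b.2.2 ≠ 0) ∧
        ∀ C, (L.map fun ψ => ψ.1 C).prod = s a C * S.bl l C := by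
    intro L
    induction L with
    | nil =>
      exact ⟨Y.one, 1, ⟨one_ne_zero, isIntegral_one, inv_one (G := k).symm ▸ isIntegral_one⟩, [],
        fun _ h => (List.not_mem_nil h).elim, fun C => by simp [s1, Sy.bl]⟩
    | cons ψ L ih =>
      obtain ⟨cy, a, ha, l, hl, e⟩ := ih
      simp only [List.map_cons, List.prod_cons]
      refine ⟨Y.mul _ _ (gc _ ψ.2).1 cy, ?_⟩
      obtain ⟨_, ⟨y, f, g, h, rfl⟩ | ⟨b, hb, rfl⟩⟩ := ψ
      · refine ⟨a, ha, ⟨y, f, g⟩ :: l, List.forall_mem_cons.2 ⟨h, hl⟩, fun C => ?_⟩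
        simp only [e, Sy.bl, List.map_cons, List.prod_cons]
        exact mul_left_comm _ _ _
      · exact ⟨b * a, ⟨mul_ne_zero hb.1 ha.1, hb.2.1.mul ha.2.1,
          mul_inv b a ▸ hb.2.2.mul ha.2.2⟩, l, hl, fun C => by rw [e, sm, mul_assoc]⟩
  obtain ⟨n, hn, L, hL⟩ := rDualA.{0} {C // S.Hz C ∨ S.Vm M C} {ψ // G ψ} (fun C => S.κ C.1)
    (fun ψ C => ψ.1 C.1) (fun ψ C => (gc _ ψ.2).1.ne C.1)
    (fun ψ => (gc _ ψ.2).1.fin.preimage Subtype.val_injective.injOn)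
    (fun ψ => (gc _ ψ.2).2.elim fun ψ' h => ⟨⟨ψ', h.1⟩, fun C => h.2 C.1⟩)
    (fun C => φ C.1) (fun C => hφ.ne C.1) (hφ.fin.preimage Subtype.val_injective.injOn)
    (fun lam hlam hz => by
      let lam' : ∀ C, S.κ C → ℝ := fun C u =>
        if h : S.Hz C ∨ S.Vm M C then (lam ⟨C, h⟩ u : ℝ) else 0
      have ad : ∀ C, Adr (lam' C) := fun C a b ha hb => by
        simp only [lam']
        split_ifs with h
        · rw [hlam ⟨C, h⟩ a b ha hb, Rat.cast_add]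
        · exact (add_zero _).symm
      have key : ∀ ψ : ∀ C, S.κ C, ∑ᶠ C, lam' C (ψ C) =
          (Rat.castHom ℝ).toAddMonoidHom (∑ᶠ C, lam C (ψ C.1)) := fun ψ => by
        rw [AddMonoidHom.map_finsum_of_injective _ Rat.cast_injective]
        refine .trans (finsum_congr fun C => ?_) ((finsum_subtype_eq_finsum_cond
          (f := fun C => lam' C (ψ C)) fun C => S.Hz C ∨ S.Vm M C).symm.trans
          (finsum_congr fun C => dif_pos C.2))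
        rw [finsum_eq_if]
        split_ifs with h
        · rfl
        · exact dif_neg h
      have := H lam' ⟨M0, ad, fun C u h h' => dif_neg (not_or.2 ⟨h, h'⟩), fun y f g h f0 g0 => by
        rw [key, hz ⟨_, .inl ⟨y, f, g, ⟨h, f0, g0⟩, rfl⟩⟩, map_zero]⟩ fun a a0 a1 a2 => by
        have := key (s a)
        rw [hz ⟨_, .inr ⟨a, ⟨a0, a1, a2⟩, rfl⟩⟩, map_zero, finsum_eq_single _ C₀ fun C h => by
          simpa only [s, Sy.sg, Pi.mulSingle_eq_of_ne h, mul_one, left_eq_add] using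
            ad C 1 1 one_ne_zero one_ne_zero] at this
        simpa only [s, Sy.sg, Pi.mulSingle_eq_same] using this
      exact Rat.cast_eq_zero.1 ((key φ).symm.trans this))
  obtain ⟨cy, a, ha, l, hl, e⟩ := gl L
  have cψ := Y.mul _ _ (Y.pow φ n hφ) (Y.inv _ cy)
  refine ⟨n, hn, _, gu a ha, l, hl, _, cψ, fun C h => ?_, fun C => ?_⟩
  · have cv := cψ.cv C h
    have ng : ¬(S.Hz C ∨ S.Vm M C) := fun g =>
      h ((congrArg (· * _) (hL ⟨C, g⟩)).trans (mul_inv_cancel₀ (cy.ne C)))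
    refine ⟨ringChar (S.κ C), (CharP.char_is_prime_or_zero (S.κ C) _).resolve_right fun z =>
      ng (.inl ⟨cv, (CharP.ringChar_zero_iff_CharZero _).1 z⟩), fun d =>
      ng (.inr ⟨cv, (ringChar.spec _ _).2 (d.trans hM)⟩), ringChar.Nat.cast_ringChar⟩
  · rw [vl, ← e C, mul_comm, inv_mul_cancel_right₀ (cy.ne C)]

end Pool.Agent.MP_f3836a_nt.GQ
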