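import Pool.Agent.MP_f3836a_nt.GQ.SpecY

/-! Part GQ: a horizontal surface through a vertical curve. -/

set_option autoImplicit false

namespace Pool.Agent.MP_f3836a_nt.GQ

open Polynomial IsLocalRing PK VE.W VE.Z GP R Order

theorem ySur : OfSur := by
  intro hR h1 hu S M V hM hV
  have a1 := h1 S
  have au := hu S
  have cz := S.cz
  have rg := S.reg V
  obtain ⟨p, hp, p0⟩ := za_prime (B := S.κ V) Ideal.isPrime_bot (n := M) (by exact_mod_cast hM)
    (by simpa using hV.2)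
  have cV : ¬CharZero (S.κ V) := fun _ => hp.ne_zero (Nat.cast_eq_zero.1 p0)
  have pm : (p : S.R (S.top V)) ∈ maximalIdeal _ :=
    (nu_iff (p : S.R (S.top V))).1 (by simpa using (a1.nu (S.top V) p).2 p0)
  obtain ⟨d, a₀, a, -, -, hc, hd, dv⟩ := hR _ _ pm (Nat.cast_ne_zero.2 hp.ne_zero)
  generalize Ideal.span (Set.range a) = I at hc hd dv
  have hI : I.IsPrime := (Ideal.Quotient.isDomain_iff_prime I).1 hd
  obtain ⟨w, hw, h₂, e⟩ := a1.pr (S.top V) I
  have le : S.R (S.top V) ≤ S.R h₂ := (S.le _ _).2 hw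
  let φ : S.R (S.top V) →+* S.κ w := (S.r h₂).comp (Subring.inclusion le)
  have k : ∀ x, φ x = 0 ↔ x ∈ I := fun x => ((S.rm h₂).ker _).trans <| by
    rw [← ut_iff, ← not_not (a := x ∈ I), ← zb_ut, ← e]
    rfl
  have r : φ.range = S.R hw := by
    rw [← S.im h₂ hw]
    exact le_antisymm (by rintro _ ⟨x, rfl⟩; exact ⟨_, x.2, rfl⟩)
      (by rintro _ ⟨x, hx, rfl⟩; exact ⟨⟨x, hx⟩, rfl⟩)
  have cw : CharZero (S.κ w) := charZero_of_inj_zero fun n hn => by_contra fun n0 => by
    obtain ⟨l, hl, m⟩ := za_prime hI (n := n) (by exact_mod_cast n0) ((k _).1 (by simpa using hn))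
    rcases eq_or_ne l p with rfl | ne
    · exact hc m
    · obtain ⟨u, v, c⟩ := Nat.Coprime.cast (R := S.R (S.top V)) ((Nat.coprime_primes hl hp).2 ne)
      exact (maximalIdeal.isMaximal _).ne_top ((Ideal.eq_top_iff_one _).2 (c ▸ add_mem
        (Ideal.mul_mem_left _ _ (le_maximalIdeal hI.ne_top m)) (Ideal.mul_mem_left _ _ pm)))
  have dim : ringKrullDim (S.R hw) = 1 := by
    rw [← r, ← ringKrullDim_eq_of_ringEquiv ((Ideal.quotEquivOfEq
      (Ideal.ext fun x => (k x).symm)).trans (RingHom.quotientKerEquivRange φ))]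
    exact IsDiscreteValuationRing.ringKrullDim_eq_one _
  have up := au.up w _ (au.rel hw 0 1 cw cV (by simpa using dim.le)
    (au.low V 1 (by simpa using hV.1.le)))
  have lo := height_add_one_le (lt_of_le_not_ge hw fun h => cV (a1.cz (z := w) h cw))
  rw [hV.1] at lo
  exact ⟨w, ⟨le_antisymm (by simpa using up) lo, cw⟩, hw⟩

end Pool.Agent.MP_f3836a_nt.GQ
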