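import Pool.Agent.MP_f3836a_nt.GQ.SpecY
import Pool.Agent.MP_f3836a_nt.GP.GTop
import Pool.Agent.MP_f3836a_nt.GP.GTop1
import Pool.Agent.MP_f3836a_nt.GP.GDu

/-! Part GQ: functionals kill cycles. -/

set_option autoImplicit false

namespace Pool.Agent.MP_f3836a_nt.GQ

open Polynomial IsLocalRing PK VE.W VE.Z GP R Order

namespace YTop

theorem adr_one {k : Type} [Field k] {μ : k → ℝ} (h : Adr μ) : μ 1 = 0 := by
  simpa using h 1 1 one_ne_zero one_ne_zero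

theorem mult {k : Type} [Field k] [NumberField k] (a : k) :
    ∃ n : ℕ, n ≠ 0 ∧ ∀ m : ℕ, n ∣ m → IsIntegral ℤ ((m : k) ^ 1 * a) := by
  obtain ⟨y, y0, h⟩ := ((IsFractionRing.isAlgebraic_iff ℤ ℚ k).2
    (Algebra.IsAlgebraic.isAlgebraic a)).exists_integral_multiple
  refine ⟨y.natAbs, Int.natAbs_ne_zero.2 y0, fun m hm => ?_⟩
  obtain ⟨d, hd⟩ := Int.natAbs_dvd.1 (Int.natCast_dvd_natCast.2 hm)
  have e : (m : k) ^ 1 * a = d • y • a := by
    rw [pow_one, ← Int.cast_natCast, hd, zsmul_eq_mul, zsmul_eq_mul]; push_cast; ring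
  rw [e]
  exact h.zsmul d

theorem fsup {P : Type} {κ : P → Type} [∀ C, Field (κ C)] {ψ : ∀ C, κ C} {l : ∀ C, κ C → ℝ}
    (h : {C | ψ C ≠ 1}.Finite) (h1 : ∀ C, l C 1 = 0) :
    (Function.support fun C => l C (ψ C)).Finite :=
  h.subset fun C hC e => hC (by simp only [e, h1])

end YTop

open YTop GP.GTop GP.GTop1 in
theorem yTop : OfTopQ := by
  intro tr hn we mu mid S k _ _ c cs C₀ h₀ φ M₀ hφ M0
  have N := hn S k c cs
  set ν := ∏ C ∈ hφ.fin.toFinset, S.nm c C (φ C) with hν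
  have ν0 : ν ≠ 0 := Finset.prod_ne_zero_iff.2 fun C _ => N.ne C _ (hφ.ne C)
  obtain ⟨a, a0, ha⟩ := mult ν
  obtain ⟨b, b0, hb⟩ := mult ν⁻¹
  refine ⟨M₀ * (a * b), mul_ne_zero M0 (mul_ne_zero a0 b0), dvd_mul_right _ _, fun lam kb hc => ?_⟩
  have i1 := ha _ ((dvd_mul_right a b).mul_left M₀)
  have i2 := hb _ ((dvd_mul_left b a).mul_left M₀)
  generalize M₀ * (a * b) = M at kb i1 i2
  have T : ∀ μ, Adr μ → (∀ C u, S.Hz C → u ≠ 0 → Um M u → lam C u = μ (S.nm c C u)) →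
      ∑ᶠ C, lam C (φ C) = μ ν := fun μ hμ e => by
    have m1 : ∀ C, μ (S.nm c C 1) = 0 := fun C => by rw [N.one, adr_one hμ]
    have sub : ∀ ψ : ∀ C, S.κ C, {C | ψ C ≠ 1}.Finite →
        ∑ᶠ C, (lam C (ψ C) - μ (S.nm c C (ψ C))) =
          ∑ᶠ C, lam C (ψ C) - ∑ᶠ C, μ (S.nm c C (ψ C)) := fun ψ h =>
      finsum_sub_distrib (fsup h fun C => adr_one (kb.add C))
        (fsup (l := fun C u => μ (S.nm c C u)) h m1)
    have := mid S M (fun C u => lam C u - μ (S.nm c C u)) φ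
      ⟨kb.ne, fun C u v u0 v0 => by
          simp only [kb.add C u v u0 v0, N.mul, hμ _ _ (N.ne C u u0) (N.ne C v v0)]; ring,
        fun C u h h' => by rw [kb.off C u h h', N.off C u h, adr_one hμ, sub_zero],
        fun y f g hy f0 g0 => by
          rw [sub _ ((tr S y hy).sup f g f0 g0), kb.bd y f g hy f0 g0,
            we S k c cs μ y f g hμ hy f0 g0, sub_zero]⟩
      (fun C u h u0 hu => by simp only [e C u h u0 hu, sub_self]) hφ
    rw [sub φ hφ.fin, sub_eq_zero] at this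
    rw [this, hν, adr_prod hμ _ fun C _ => N.ne C _ (hφ.ne C)]
    exact finsum_eq_sum_of_support_subset _ fun C hC => hφ.fin.mem_toFinset.2 fun e =>
      hC (by simp only [e, m1])
  obtain ⟨μ, hμ, e⟩ := mu S k c cs M lam kb
  obtain ⟨n1, n2⟩ := (gNu k M 1 ν ν0).2 (fun v hv h => by
    have := T (fun x => μ x + v x)
      (fun x y x0 y0 => by simp only [hμ x y x0 y0, hv x y x0 y0]; ring)
      fun C u o u0 hu => by rw [e C u o u0 hu, h _ (N.ne C u u0) (N.um M C u o u0 hu), add_zero]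
    rw [T μ hμ e] at this
    linarith) i1 i2
  obtain ⟨d, d0, hd⟩ := N.con C₀ h₀
  have m1 := map_isIntegral_int (c C₀ h₀.2) n1
  have m2 := map_isIntegral_int (c C₀ h₀.2) n2
  rw [map_inv₀] at m2
  have := e C₀ (c C₀ h₀.2 ν) h₀ ((_root_.map_ne_zero _).2 ν0) ⟨1, one_ne_zero, Nat.coprime_one_left _,
    by rwa [Nat.cast_one, one_mul], by rwa [Nat.cast_one, one_mul]⟩
  rw [hc _ ν0 n1 n2, hd, adr_pow hμ ν0] at this
  rw [T μ hμ e]
  exact (mul_eq_zero.1 this.symm).resolve_left (Nat.cast_ne_zero.2 d0.ne')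

end Pool.Agent.MP_f3836a_nt.GQ
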