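import Pool.Agent.MP_f3836a_nt.GQ.SpecY
import Pool.Agent.MP_f3836a_nt.GP.All

/-! Part GQ: reciprocity on a surface. -/

set_option autoImplicit false

namespace Pool.Agent.MP_f3836a_nt.GQ

open Polynomial IsLocalRing PK VE.W VE.Z GP R Order

theorem yWe : OfWe := by
  intro hH hT hN S k _ _ c hc μ y f g hμ sf f0 g0
  classical
  have H := hH S
  have T := hT S y sf
  have N := hN S k c hc
  have := sf.2
  let := (c y sf.2).toAlgebra
  have m1 : μ 1 = 0 := by simpa using hμ 1 1 one_ne_zero one_ne_zero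
  rw [T.sum (fun C u => μ (S.nm c C u)) f g (fun C a b ha hb => by
    simp only [N.mul]
    exact hμ _ _ (N.ne C a ha) (N.ne C b hb)) f0 g0,
    ← weilS k (S.κ y) ((tFf _).1 ((H.sf y sf.2).1 sf.1)) μ f g hμ f0 g0]
  refine finsum_congr fun O => ?_
  by_cases pl : Pl O
  · obtain ⟨C, h, hz, br⟩ := (T.pl O).1 pl
    rw [finsum_eq_if, finsum_eq_if, if_pos pl, if_pos ⟨C, h, hz.1, br⟩, T.eq _ C h O _ hz.1 br]
    have := (dvA pl.1).loc
    obtain ⟨ν, hν⟩ := (S.rm h).nv br.2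
    have m : ∀ a : k, algebraMap k (S.κ y) a ∈ O := fun a => br.2.1 (hc.cmp h sf.2 hz.2 a).1
    have e : emb k O m = ν.comp (c C hz.2) := RingHom.ext fun a => by
      rw [RingHom.comp_apply, ← (hc.cmp h sf.2 hz.2 a).2, (hν _).choose_spec]
      rfl
    rw [nmW_eq (S.rm h).surj hν, nmK_eq k O m, e, Sy.nm, dif_pos hz]
    let := (c C hz.2).toAlgebra
    let := ν.toAlgebra
    let := (ν.comp (c C hz.2)).toAlgebra
    have : IsScalarTower k (S.κ C) (ResidueField O) := IsScalarTower.of_algebraMap_eq' rfl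
    exact congrArg μ Algebra.norm_norm
  · rw [finsum_eq_if, finsum_eq_if, if_neg pl]
    split_ifs with h
    · obtain ⟨C, h, cv, br⟩ := h
      rw [T.eq _ C h O _ cv br, N.off C _ fun hz => pl ((T.pl O).2 ⟨C, h, hz, br⟩), m1]
    · rfl

end Pool.Agent.MP_f3836a_nt.GQ
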