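import Pool.Agent.MP_f3836a_nt.GQ.AllM
import Pool.Agent.MP_f3836a_nt.GQ.HCh
import Pool.Agent.MP_f3836a_nt.GQ.HCs
import Pool.Agent.MP_f3836a_nt.GQ.HCx
import Pool.Agent.MP_f3836a_nt.GQ.HGx
import Pool.Agent.MP_f3836a_nt.GQ.HHd
import Pool.Agent.MP_f3836a_nt.GQ.HHt
import Pool.Agent.MP_f3836a_nt.GQ.MuD
import Pool.Agent.MP_f3836a_nt.GQ.RDp
import Pool.Agent.MP_f3836a_nt.GQ.RDt
import Pool.Agent.MP_f3836a_nt.GQ.RGdA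
import Pool.Agent.MP_f3836a_nt.GQ.RGood
import Pool.Agent.MP_f3836a_nt.GQ.RLow
import Pool.Agent.MP_f3836a_nt.GQ.RRef
import Pool.Agent.MP_f3836a_nt.GQ.RStep
import Pool.Agent.MP_f3836a_nt.GQ.RUp
import Pool.Agent.MP_f3836a_nt.GQ.RZm
import Pool.Agent.MP_f3836a_nt.GQ.YCy
import Pool.Agent.MP_f3836a_nt.GQ.YDic
import Pool.Agent.MP_f3836a_nt.GQ.YFin
import Pool.Agent.MP_f3836a_nt.GQ.YGl
import Pool.Agent.MP_f3836a_nt.GQ.YH1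
import Pool.Agent.MP_f3836a_nt.GQ.YHd
import Pool.Agent.MP_f3836a_nt.GQ.YHu
import Pool.Agent.MP_f3836a_nt.GQ.YInj
import Pool.Agent.MP_f3836a_nt.GQ.YMain
import Pool.Agent.MP_f3836a_nt.GQ.YSur
import Pool.Agent.MP_f3836a_nt.GQ.YTop
import Pool.Agent.MP_f3836a_nt.GQ.YWe
import Pool.Agent.MP_f3836a_nt.GQ.LBl
import Pool.Agent.MP_f3836a_nt.GQ.LCv
import Pool.Agent.MP_f3836a_nt.GQ.LFex
import Pool.Agent.MP_f3836a_nt.GQ.LFf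
import Pool.Agent.MP_f3836a_nt.GQ.LFl
import Pool.Agent.MP_f3836a_nt.GQ.LG1
import Pool.Agent.MP_f3836a_nt.GQ.LG1a
import Pool.Agent.MP_f3836a_nt.GQ.LG2
import Pool.Agent.MP_f3836a_nt.GQ.LG3
import Pool.Agent.MP_f3836a_nt.GQ.LGrF
import Pool.Agent.MP_f3836a_nt.GQ.LHz
import Pool.Agent.MP_f3836a_nt.GQ.LLb
import Pool.Agent.MP_f3836a_nt.GQ.LLo2
import Pool.Agent.MP_f3836a_nt.GQ.LLt
import Pool.Agent.MP_f3836a_nt.GQ.LNak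
import Pool.Agent.MP_f3836a_nt.GQ.LOr
import Pool.Agent.MP_f3836a_nt.GQ.LPair
import Pool.Agent.MP_f3836a_nt.GQ.LPe
import Pool.Agent.MP_f3836a_nt.GQ.LPr
import Pool.Agent.MP_f3836a_nt.GQ.LPt
import Pool.Agent.MP_f3836a_nt.GQ.LRf
import Pool.Agent.MP_f3836a_nt.GQ.LSr
import Pool.Agent.MP_f3836a_nt.GQ.LSr2
import Pool.Agent.MP_f3836a_nt.GQ.LTw
import Pool.Agent.MP_f3836a_nt.GQ.LTw1
import Pool.Agent.MP_f3836a_nt.GQ.LVt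
import Pool.Agent.MP_f3836a_nt.GQ.LZs
import Pool.Agent.MP_f3836a_nt.GV.All

/-! Part GQ: assembled. -/

set_option autoImplicit false

namespace Pool.Agent.MP_f3836a_nt.GQ.Fin

open R E

theorem dpS : DpS := rDp rDt
theorem upS : R.UpS := rUp (rStep rDt)
theorem lowS : LowS := rLow dpS rZm
theorem goodR : GoodR := rGood dpS upS lowS R.gdA R.gdB
theorem h1Q : H1Q := yH1 mdS
theorem huQ : HuQ := yHu dpS upS lowS h1Q (yHd mdS dpS h1Q)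
theorem htQ : HtQ := htQ_of h1Q huQ
theorem cuQ : CuQ := cuQ_of htQ
theorem trQ : TrQ := trQ_of htQ
theorem ksQ : KsQ := ksQ_of htQ
theorem ddQ : DdQ := ddQ_of htQ
theorem flQ : FlQ := lFl qNf
theorem sr2 : Sr2 := lSr2 mdS flQ lBd
theorem sl : Sl1 ∧ Sl2 :=
  lSl flQ lBd (lLb mdS fmS flQ lBd (lSr mdS sfQ flQ lBd sr2 (lFex mdS fmS sfQ)))
    (lTw mdS fmS sfQ flQ sr2 (lTw1 mdS fmS qFm0 sfQ) (lTw2 mdS fmS sfQ))
theorem blQ : BlQ := lBl mdS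
theorem ffQ : FfQ := lFf mdS dpS upS lowS
theorem cxQ : CxQ := lCx htQ ksQ
theorem ltQ : LtQ := lLt mdS htQ trQ
theorem pairQ : PairQ :=
  lPair mdS htQ ffQ cuQ brQ blQ cxQ (lGr mdS blQ (lGrF mdS fmS blQ) sl.2) ltQ
    (lG1 brQ (lG1a brQ)) (lG2 lPr lHtP lNak lZs (lPe lGcd)) (lG3 lPt lCv)
theorem locQ : LocQ :=
  lLoc htQ qNf cuQ brQ (lRf rRef mdS htQ ffQ) (lLo1 mdS htQ qNf cuQ brQ)
    (lLo2 mdS sfQ htQ ffQ cuQ brQ cxQ sl.1 ltQ) pairQ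
theorem midQ : MidQ :=
  lMid trQ ddQ (lSw htQ (lOr mdS htQ)) (lHz mdS htQ qNf cuQ brQ locQ)
    (lVt trQ ksQ (ySur rRef h1Q huQ))
theorem glQ : GlQ := yGl mdS
theorem csQ : CsQ := yCs h1Q huQ glQ
theorem nmQ : NmQ := yNm huQ
theorem weQ : WeQ := yWe htQ trQ nmQ
theorem muQ' : MuQ := muQ mdS htQ trQ ksQ (GP.nmK_of GV.engS)

theorem finalQ : FinalQ := yFin hCh (hHd dpS) (hGx dpS goodR) hCx hFx yDic yBd
  (yMain trQ ddQ csQ glQ nmQ (yCy mdS h1Q) (yTop trQ nmQ weQ muQ' midQ))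
  (yInj htQ trQ csQ glQ nmQ weQ)

end Pool.Agent.MP_f3836a_nt.GQ.Fin
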