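import Pool.Agent.MP_f3836a_nt.GQ.SpecL
import Pool.Agent.MP_f3836a_nt.GQ.HHt
import Pool.Agent.MP_f3836a_nt.VE.ZCy

/-! Part GQ: the dimension of a closed point determines the field; the context. -/

set_option autoImplicit false

namespace Pool.Agent.MP_f3836a_nt.GQ

open Polynomial IsLocalRing PK VE.W VE.Z GP

namespace LFf

variable {L : Type} [Field L]

theorem low [CharZero L] (dp : R.DpS) (lw : R.LowS) {B : Subring L} [Algebra.FiniteType ℤ B]
    (fr : Fr B) (m : Ideal B) [hm : m.IsPrime] (a : Alg (lc B m)) {h : ℕ}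
    (e : ringKrullDim (lc B m) ≤ (h + 1 : ℕ)) : R.Dp L h := by
  have := zb_max m a
  have := za_fin m
  have := B.subtype.charZero
  obtain ⟨p, hp, hpm⟩ := za_char hm
  rw [IsLocalization.AtPrime.ringKrullDim_eq_height m (lc B m)] at e
  exact ((dp B).frac L B.subtype Subtype.val_injective fr h).1
    ((lw B m h 0 ((dp _).fin inferInstance)).2 p (Nat.cast_ne_zero.2 hp.ne_zero) hpm
      (by exact_mod_cast e))

theorem dim2 {D : Subring L} (h : Rg D) : ringKrullDim D ≤ (1 + 1 : ℕ) := by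
  have := h.loc
  have := h.noeth
  obtain ⟨a, b, g⟩ := h.gen
  refine (ringKrullDim_le_spanFinrank_maximalIdeal D).trans ?_
  rw [ZCy.gen_max g]
  exact_mod_cast (Submodule.spanFinrank_span_le_ncard_of_finite (Set.toFinite _)).trans
    ((Set.ncard_insert_le _ _).trans (by rw [Set.ncard_singleton]))

theorem tr [CharZero L] (dp : R.DpS) (up : R.UpS) {D : Subring L} (h : Rg D) :
    ∃ t : L, Transcendental ℤ t := by
  by_contra k
  have := h.loc
  obtain ⟨q, hq, q0, q1⟩ := h.cur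
  have h0 : R.Dp D 0 := ((dp D).frac L D.subtype Subtype.val_injective h.fr 0).2
    (((dp L).zero inferInstance).2 fun c => by_contra fun w => k ⟨c, w⟩)
  have h1 := (E.HHt.ht_le dp up (maximalIdeal D) h0).1
  have h2 := Ideal.height_add_one_le_of_lt_of_isPrime (bot_lt_iff_ne_bot.2 q0)
  have h3 := Ideal.height_add_one_le_of_lt_of_isPrime
    (lt_of_le_of_ne (le_maximalIdeal hq.ne_top) fun e => q1 (e ▸ maximalIdeal.isMaximal D))
  have h4 : (1 : ℕ∞) + 1 ≤ ((0 + 1 : ℕ) : ℕ∞) :=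
    ((add_le_add (le_add_self.trans h2) le_rfl).trans h3).trans h1
  exact absurd h4 (by decide)

end LFf

open LFf

theorem lFf : OfFf := by
  rintro md dp up lw L ι _ _ _ ξ D hm ⟨i, hi, m, hp, rfl⟩
  have ft := (md L ι ξ hm).ft i
  have fr := hm.2 i hi
  refine ⟨fun h => ⟨E.HHt.fg _ ft fr, ((dp L).one inferInstance).1 (low dp lw fr m h.alg (dim2 h)),
    tr dp up h⟩, fun a d => ((dp L).zero inferInstance).1 (low dp lw fr m a ?_)⟩
  exact Ring.krullDimLE_iff.1 (Ring.krullDimLE_one_iff_of_isPrime_bot.2 fun q q0 hq => d q hq q0)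

theorem lCx : OfCx := by
  intro ht ks S M lam y hb hu hy
  refine ⟨(ks S M lam y hb hy).1, (ks S M lam y hb hy).2 hu, ?_⟩
  rintro W ⟨C, h, vm, br⟩ D hD dom alg
  obtain ⟨z, hz, rfl⟩ := (S.pt y D).1 hD
  obtain rfl := (ht S).uniq h hz W br.2 dom
  exact zero_ne_one ((((ht S).cl hz).2 alg).symm.trans vm.1)

end Pool.Agent.MP_f3836a_nt.GQ
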