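import Pool.Agent.MP_f3836a_nt.GQ.SpecL

/-! A polynomial lemma of Nakayama type, and coprime translates. -/

set_option autoImplicit false

namespace Pool.Agent.MP_f3836a_nt.GQ

open Polynomial IsLocalRing PK VE.W VE.Z GP

namespace LNak

theorem loc {B κ : Type} [CommRing B] [IsLocalRing B] [Field κ] {e : B →+* κ}
    (he : Function.Surjective e) {J : Ideal B[X]} {z : B[X]} (hz : z.Monic) (zJ : z ∈ J) {g : κ}
    (h : X - C g ∈ J.map (mapRingHom e)) : ∃ t : B, X - C t ∈ J := by
  obtain ⟨t, rfl⟩ := he g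
  obtain ⟨P, hP, e1⟩ := (Ideal.mem_map_iff_of_surjective _ (map_surjective e he)).1 h
  have e2 : X - C t - P ∈ (RingHom.ker e).map (C : B →+* B[X]) := by
    rw [← ker_mapRingHom, RingHom.mem_ker, map_sub, e1]
    simp
  have := hz.finite_quotient
  have fin : Module.Finite B (B[X] ⧸ J) := Module.Finite.of_surjective
    (Ideal.Quotient.factorₐ B ((Ideal.span_singleton_le_iff_mem _).2 zJ)).toLinearMap
    (Ideal.Quotient.factor_surjective ((Ideal.span_singleton_le_iff_mem _).2 zJ))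
  have e3 : Ideal.Quotient.mk J (X - C t) ∈ (RingHom.ker e).map (algebraMap B (B[X] ⧸ J)) := by
    have := Ideal.mem_map_of_mem (Ideal.Quotient.mk J) e2
    rwa [Ideal.map_map, map_sub, Ideal.Quotient.eq_zero_iff_mem.2 hP, sub_zero] at this
  have key : (⊤ : Submodule B (B[X] ⧸ J)) ≤ 1 := by
    refine Submodule.le_of_le_smul_of_le_jacobson_bot fin.fg_top
      ((le_maximalIdeal (RingHom.ker_ne_top e)).trans (maximalIdeal_le_jacobson _)) fun y _ => ?_
    obtain ⟨Q, rfl⟩ := Ideal.Quotient.mk_surjective y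
    obtain ⟨R, hR⟩ := X_sub_C_dvd_sub_C_eval (p := Q) (a := t)
    rw [eq_add_of_sub_eq' hR, map_add, map_mul, Ideal.smul_top_eq_map]
    exact Submodule.add_mem_sup (Submodule.mem_one.2 ⟨_, rfl⟩) (Ideal.mul_mem_right _ _ e3)
  obtain ⟨s, hs⟩ := Submodule.mem_one.1 (key (Submodule.mem_top (x := Ideal.Quotient.mk J X)))
  exact ⟨s, Ideal.Quotient.eq.1 hs.symm⟩

end LNak

attribute [local instance] Polynomial.algebra in
theorem lNak : NakQ := by
  intro A κ _ _ e J g fr ⟨z, zJ, hz⟩ h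
  have := RingHom.ker_isPrime e
  set B := Localization.AtPrime (RingHom.ker e)
  have hu : ∀ y : (RingHom.ker e).primeCompl, IsUnit (e y) := fun y => IsUnit.mk0 _ y.2
  have he : Function.Surjective (IsLocalization.lift (S := B) hu) := fun x => by
    obtain ⟨⟨_, a, rfl⟩, ⟨_, b, rfl⟩, hb, k⟩ := fr x
    exact ⟨IsLocalization.mk' B a ⟨b, hb⟩,
      (IsLocalization.lift_mk'_spec hu a x ⟨b, hb⟩).2 (k.symm.trans (mul_comm _ _))⟩
  have u : IsUnit (z.map (algebraMap A B)).leadingCoeff := by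
    have := IsLocalization.map_units B (⟨_, hz⟩ : (RingHom.ker e).primeCompl)
    rwa [leadingCoeff_map_of_leadingCoeff_ne_zero _ this.ne_zero]
  have := Polynomial.isLocalization (RingHom.ker e).primeCompl B
  obtain ⟨t, ht⟩ := LNak.loc he (J := J.map (algebraMap A[X] B[X]))
    (monic_of_isUnit_leadingCoeff_inv_smul u)
    (Submodule.smul_of_tower_mem _ u.unit⁻¹.val (Ideal.mem_map_of_mem _ zJ)) (g := g) (by
      rw [Ideal.map_map, Polynomial.algebraMap_def, mapRingHom_comp, IsLocalization.lift_comp]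
      exact h)
  obtain ⟨⟨a, b⟩, rfl⟩ := IsLocalization.mk'_surjective (RingHom.ker e).primeCompl t
  have k : algebraMap A[X] B[X] (C (b : A) * X - C a) ∈ J.map (algebraMap A[X] B[X]) := by
    convert Ideal.mul_mem_left _ (C (algebraMap A B b)) ht using 1
    rw [mul_sub, ← C_mul, IsLocalization.mk'_spec']
    simp [Polynomial.algebraMap_def]
  obtain ⟨_, ⟨m, hm, rfl⟩, k⟩ := (IsLocalization.algebraMap_mem_map_algebraMap_iff
    ((RingHom.ker e).primeCompl.map C) B[X] J _).1 k
  exact ⟨m * b, m * a, mul_mem hm b.2, by rwa [C_mul, C_mul, mul_assoc, ← mul_sub]⟩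

theorem lGcd : GcdQ := by
  intro κ _ _ q q' β hq hβ
  by_contra hn
  have h : ∀ c : ℕ, ∃ a ∈ q.rootSet (AlgebraicClosure κ), aeval a (q' + C (c * β)) = 0 := fun c => by
    by_contra k
    refine hn ⟨c, (isCoprime_iff_aeval_ne_zero_of_isAlgClosed κ (AlgebraicClosure κ) _ _).2
      fun a => ?_⟩
    by_contra k'
    push Not at k'
    exact k ⟨a, mem_rootSet.2 ⟨hq, k'.1⟩, k'.2⟩
  choose a ha hb using h
  refine Set.infinite_of_injective_forall_mem (fun c d e => ?_) ha (rootSet_finite _ _)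
  have k := hb c
  rw [e, ← hb d, map_add, map_add, add_right_inj, aeval_C, aeval_C] at k
  exact_mod_cast mul_right_cancel₀ hβ ((algebraMap κ _).injective k)

end Pool.Agent.MP_f3836a_nt.GQ
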