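import Pool.Agent.MP_f3836a_nt.GQ.SpecL
import Pool.Agent.MP_f3836a_nt.GP.TAp
import Pool.Agent.MP_f3836a_nt.GP.GPw

/-! Part GQ: vertical functionals, and functionals on cycles. -/

set_option autoImplicit false

namespace Pool.Agent.MP_f3836a_nt.GQ

open Polynomial IsLocalRing PK VE.W VE.Z GP

namespace LVt

variable {K : Type} [Field K] {l : K → ℝ}

theorem one (h : Adr l) : l 1 = 0 := by
  have := h 1 1 one_ne_zero one_ne_zero
  rw [mul_one] at this
  linarith

theorem pow (h : Adr l) {u : K} (hu : u ≠ 0) (n : ℕ) : l (u ^ n) = n * l u := by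
  induction n with
  | zero => simp [one h]
  | succ n ih => rw [pow_succ, h _ _ (pow_ne_zero n hu) hu, ih]; push_cast; ring

open Classical in
/-- zero on the places implies zero -/
theorem vt {M : ℕ} {VV : Set (Subring K)} {lam : Subring K → K → ℝ} (ks : Ks M VV lam)
    (h0 : ∀ O u, Pl O → Ut O u → lam O u = 0) {V : Subring K} (hV : V ∈ VV) {u : K}
    (hu : Ut V u) : lam V u = 0 := by
  have m := fun O => ks.fin.mem_toFinset (a := O)
  have cr := tAp K ks.fin.toFinset fun O a => (ks.dv O ((m O).1 a)).1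
  have dV := (ks.dv V hV).1
  obtain ⟨π, π0, π1⟩ := (dvA dV).uni
  have hs : ∀ O, Ut O (sg V u O) := fun O => by
    unfold sg
    split_ifs with e
    exacts [e ▸ hu, ut_one]
  obtain ⟨w, hw⟩ := cr (sg V u) 1 fun O _ => (hs O).2.1
  obtain ⟨t, ht⟩ := cr (sg V π) 2 fun O _ => by
    unfold sg
    split_ifs with e
    exacts [e ▸ ((dvA dV).mem π π0).2 (π1 ▸ zero_le_one), O.one_mem]
  have k : ∀ O ∈ VV, ordR O w = 0 ∧ w ≠ 0 ∧ lam O w = lam O (sg V u O) := fun O a =>
    have A := dvA (ks.dv O a).1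
    have := A.loc
    have n := (gPw K O).2.2.1 this 1 _ one_pos (hw O ((m O).2 a)).2
    have c := ut_of_nu (hs O) n
    ⟨((A.ut w).1 c).2, c.1, (ks.fn O (.inr a)).cg _ _ c (hs O) n⟩
  have tV := (ht V ((m V).2 hV)).2
  rw [sg, if_pos rfl] at tV
  obtain ⟨t0, t1⟩ := (gPw K V).2.2.2.1 dV π t π0 π1 tV
  have w0 := (k V hV).2.1
  have b := ks.bd w t w0 t0
  rw [finsum_eq_single _ V, finsum_eq_if, if_pos (.inr hV), tame_l (k V hV).1, t1, zpow_one,
    (k V hV).2.2, sg, if_pos rfl] at b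
  · exact b
  · refine fun O e => finsum_eq_if.trans (ite_eq_right_iff.2 fun a => ?_)
    rcases a with c | c
    · exact h0 O _ c (tame_ut c.1 w0 t0)
    · have A := dvA (ks.dv O c).1
      have := A.loc
      have n := (gPw K O).2.2.1 this 2 _ two_pos (ht O ((m O).2 c)).2
      rw [sg, if_neg e] at n
      rw [tame_l (k O c).1, ((A.ut t).1 (ut_of_nu ut_one n)).2, zpow_zero, (ks.fn O (.inr c)).one]

end LVt

theorem lVt : OfVt := by
  intro tr ks sur S M lam kb h0 C u u0
  by_cases hz : S.Hz C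
  · exact h0 C u hz u0
  by_cases hV : S.Vm M C
  swap
  · exact kb.off C u hz hV
  obtain ⟨y, hy, h⟩ := sur S M C kb.ne hV
  have T := tr S y hy
  obtain ⟨W, hW⟩ := (T.ex C h hV.1).2
  obtain ⟨a, rfl⟩ := (S.rm h).surj u
  obtain ⟨-, -, -, n, n0, hn⟩ := T.nm C h W hV.1 hW
  have e := LVt.vt (ks S M lam y kb hy).1 (fun O v o hv => by
      obtain ⟨C', h', c, b⟩ := (T.pl O).1 o
      rw [T.eq lam C' h' O v c.1 b]
      exact h0 C' _ c ((T.nm C' h' O c.1 b).1 v hv)) (V := W) ⟨C, h, hV, hW⟩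
    (((ut_iff a).2 (not_not.1 fun k => u0 (((S.rm h).ker a).2 k))).mono hW.2.1)
  rw [T.eq lam C h W a hV.1 hW, hn, LVt.pow (kb.add C) u0] at e
  exact (mul_eq_zero.1 e).resolve_left (Nat.cast_ne_zero.2 n0.ne')

theorem lMid : OfMid := by
  intro tr dd sw hz vt S M lam φ kb ku hφ
  obtain ⟨α, hα⟩ := hz S M lam kb ku
  obtain ⟨a, o, z⟩ := sw S M α
  have e := vt S M (fun C u => lam C u - S.dl M α C u)
    ⟨kb.ne, fun C u u' h h' => by simp only [kb.add C u u' h h', a C u u' h h']; ring,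
      fun C u h h' => by rw [kb.off C u h h', o C u h h', sub_zero],
      fun y f g hy f0 g0 => by
        have s := (tr S y hy).sup f g f0 g0
        rw [finsum_sub_distrib (s.subset fun C h k => h (by rw [k, LVt.one (kb.add C)]))
          (s.subset fun C h k => h (by rw [k, LVt.one (a C)])), kb.bd y f g hy f0 g0,
          z _ (dd S y f g hy f0 g0), sub_zero]⟩
    fun C u h u0 => sub_eq_zero.2 (hα C u h u0)
  rw [← z φ hφ]
  exact finsum_congr fun C => sub_eq_zero.1 (e C _ (hφ.ne C))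

end Pool.Agent.MP_f3836a_nt.GQ
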