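import Pool.Agent.MP_f3836a_nt.GQ.AllM
import Pool.Agent.MP_f3836a_nt.GQ.LG1a
import Pool.Agent.MP_f3836a_nt.GQ.LG1
import Pool.Agent.MP_f3836a_nt.GQ.LPr
import Pool.Agent.MP_f3836a_nt.GQ.LNak
import Pool.Agent.MP_f3836a_nt.GQ.LZs
import Pool.Agent.MP_f3836a_nt.GQ.LPe
import Pool.Agent.MP_f3836a_nt.GQ.LG2
import Pool.Agent.MP_f3836a_nt.GQ.LPt
import Pool.Agent.MP_f3836a_nt.GQ.LCv
import Pool.Agent.MP_f3836a_nt.GQ.LG3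
import Pool.Agent.MP_f3836a_nt.GQ.LFl
import Pool.Agent.MP_f3836a_nt.GQ.LSr2
import Pool.Agent.MP_f3836a_nt.GQ.LFex
import Pool.Agent.MP_f3836a_nt.GQ.LSr
import Pool.Agent.MP_f3836a_nt.GQ.LLb
import Pool.Agent.MP_f3836a_nt.GQ.LTw1
import Pool.Agent.MP_f3836a_nt.GQ.LTw
import Pool.Agent.MP_f3836a_nt.GQ.LBl
import Pool.Agent.MP_f3836a_nt.GQ.LGrF
import Pool.Agent.MP_f3836a_nt.GQ.LFf
import Pool.Agent.MP_f3836a_nt.GQ.LLt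
import Pool.Agent.MP_f3836a_nt.GQ.LRf
import Pool.Agent.MP_f3836a_nt.GQ.LLo2
import Pool.Agent.MP_f3836a_nt.GQ.LPair
import Pool.Agent.MP_f3836a_nt.GQ.LOr
import Pool.Agent.MP_f3836a_nt.GQ.LHz
import Pool.Agent.MP_f3836a_nt.GQ.LVt
import Pool.Agent.MP_f3836a_nt.GQ.RDp
import Pool.Agent.MP_f3836a_nt.GQ.RDt
import Pool.Agent.MP_f3836a_nt.GQ.RLow
import Pool.Agent.MP_f3836a_nt.GQ.RRef
import Pool.Agent.MP_f3836a_nt.GQ.RStep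
import Pool.Agent.MP_f3836a_nt.GQ.RUp
import Pool.Agent.MP_f3836a_nt.GQ.RZm

/-! Part GQ: the local laws, assembled. -/

set_option autoImplicit false

namespace Pool.Agent.MP_f3836a_nt.GQ

theorem flQ : FlQ := lFl qNf
theorem sr2 : Sr2 := lSr2 mdS flQ lBd
theorem sl12 : Sl1 ∧ Sl2 := lSl flQ lBd
  (lLb mdS fmS flQ lBd (lSr mdS sfQ flQ lBd sr2 (lFex mdS fmS sfQ)))
  (lTw mdS fmS sfQ flQ sr2 (lTw1 mdS fmS qFm0 sfQ) (lTw2 mdS fmS sfQ))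
theorem blQ : BlQ := lBl mdS
theorem grQ : GrQ := lGr mdS blQ (lGrF mdS fmS blQ) sl12.2
theorem ffQ : FfQ := lFf mdS (R.rDp R.rDt) (R.rUp (R.rStep R.rDt)) (R.rLow (R.rDp R.rDt) R.rZm)
theorem g1Q : G1Q := lG1 brQ (lG1a brQ)
theorem g2Q : G2Q := lG2 lPr lHtP lNak lZs (lPe lGcd)
theorem g3Q : G3Q := lG3 lPt lCv

theorem locQ_of (h : HtQ) : LocQ :=
  have cx := lCx h (ksQ_of h)
  have lt := lLt mdS h (trQ_of h)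
  lLoc h qNf (cuQ_of h) brQ (lRf R.rRef mdS h ffQ) (lLo1 mdS h qNf (cuQ_of h) brQ)
    (lLo2 mdS sfQ h ffQ (cuQ_of h) brQ cx sl12.1 lt)
    (lPair mdS h ffQ (cuQ_of h) brQ blQ cx grQ lt g1Q g2Q g3Q)

theorem midQ_of (h : HtQ) (s : SurQ) : MidQ :=
  lMid (trQ_of h) (ddQ_of h) (lSw h (lOr mdS h))
    (lHz mdS h qNf (cuQ_of h) brQ (locQ_of h)) (lVt (trQ_of h) (ksQ_of h) s)

end Pool.Agent.MP_f3836a_nt.GQ
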