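import Pool.Agent.MP_f3836a_nt.GQ.SpecM

/-! Part GQ: the points where a form does not vanish are localisations of one ring. -/

set_option autoImplicit false

namespace Pool.Agent.MP_f3836a_nt.GQ

open Polynomial IsLocalRing PK VE.W VE.Z GP

namespace QAff

theorem pw {L ι : Type} [Field L] (ξ : ι → L) (d : ℕ) (G : L) (k : ℕ) :
    ∀ F, Fm ξ (d * k) F → F / G ^ k ∈ Af ξ d G := by
  unfold Fm
  induction k with
  | zero =>
    intro F h
    rw [mul_zero, pow_zero, Submodule.mem_one] at h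
    obtain ⟨n, rfl⟩ := h
    simp
  | succ k ih =>
    intro F h
    rw [Nat.mul_succ, pow_add] at h
    refine Submodule.mul_induction_on h (fun a ha b hb => ?_) fun a b ha hb => ?_
    · rw [pow_succ, ← div_mul_div_comm]
      exact mul_mem (ih a ha) (Subring.subset_closure ⟨b, hb, rfl⟩)
    · rw [add_div]; exact add_mem ha hb

end QAff

theorem qAff : OfAff := by
  intro hM hF L ι _ _ ξ m d G S hd hG hS hU
  have M := hM L ι ξ m
  have F := hF L ι ξ m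
  have := M.loc S hS
  have le : Af ξ d G ≤ S := Subring.closure_le.2 fun z ⟨E, hE, e⟩ => e ▸ (F.div d G E S hE hU).1
  obtain ⟨q, hq, h1, h2⟩ := (wLc L (Af ξ d G)).cen S le
  refine ⟨q, hq, le_antisymm (fun z hz => ?_) h1⟩
  obtain ⟨i, hi, hc, hu⟩ := hU
  obtain ⟨q', hq', rfl⟩ := M.chart i S hi hS ((M.le i S).2 hc)
  obtain ⟨a, b, hb, e⟩ := mem_lc.1 hz
  obtain ⟨k, hk⟩ := Filter.eventually_atTop.1 ((F.ev i a hi a.2).and (F.ev i b hi b.2))
  obtain ⟨ha', hb'⟩ := hk (d * k) (Nat.le_mul_of_pos_left k hd)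
  refine mem_lc.2 ⟨⟨_, QAff.pw ξ d G k _ ha'⟩, ⟨_, QAff.pw ξ d G k _ hb'⟩, fun h => ?_, ?_⟩
  · refine (h2 _).1 h ((ut_iff _).1 ?_)
    have u1 : Ut (lc _ q') (b : L) := (ut_iff (Subring.inclusion (le_lc _ q') b)).2
      (((wLc L _).unit q' b).2 hb)
    have u2 : Ut (lc _ q') ((G / ξ i ^ d) ^ k) :=
      ⟨pow_ne_zero _ hu.1, pow_mem hu.2.1 _, inv_pow (G / ξ i ^ d) k ▸ pow_mem hu.2.2 _⟩
    change Ut _ ((b : L) * ξ i ^ (d * k) / G ^ k)
    rw [mul_div_assoc, pow_mul, ← div_pow, ← inv_div, inv_pow]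
    exact ⟨mul_ne_zero u1.1 (inv_ne_zero u2.1), mul_mem u1.2.1 u2.2.2, by
      rw [mul_inv, inv_inv]; exact mul_mem u1.2.2 u2.2.1⟩
  · change z * ((b : L) * ξ i ^ (d * k) / G ^ k) = (a : L) * ξ i ^ (d * k) / G ^ k
    rw [← e]; ring

end Pool.Agent.MP_f3836a_nt.GQ
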