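import Pool.Agent.MP_f3836a_nt.GQ.SpecM
import Pool.Agent.MP_f3836a_nt.PK.Ord

/-! Part GQ: orders and numbers of residue classes. -/

set_option autoImplicit false

namespace Pool.Agent.MP_f3836a_nt.GQ

open Polynomial IsLocalRing PK VE.W VE.Z GP

namespace QCard

theorem card_len {R : Type} [CommRing R] [IsLocalRing R] {M : Type} [AddCommGroup M] [Module R M]
    (h : IsFiniteLength R M) :
    Nat.card M = Nat.card (ResidueField R) ^ (Module.length R M).toNat := by
  induction h with
  | of_subsingleton => rw [Module.length_eq_zero]; exact Nat.card_of_subsingleton 0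
  | @of_simple_quotient M _ _ N hs hN ih =>
    obtain ⟨m, hm, ⟨e⟩⟩ := isSimpleModule_iff_quot_maximal.mp hs
    rw [eq_maximalIdeal hm] at e
    rw [Module.length_eq_add_of_exact N.subtype N.mkQ N.injective_subtype N.mkQ_surjective
      (LinearMap.exact_subtype_mkQ N), Module.length_eq_one R (M ⧸ N),
      ENat.toNat_add (Module.length_ne_top_iff.2 hN) ENat.one_ne_top, ENat.toNat_one, pow_succ,
      ← ih, Submodule.card_eq_card_quotient_mul_card N, Nat.card_congr e.toEquiv]
    rfl

theorem card_loc {R : Type} [CommRing R] (I : Ideal R) [Finite (R ⧸ I)]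
    [Fintype (MaximalSpectrum R)] (S : MaximalSpectrum R → Type) [∀ m, CommRing (S m)]
    [∀ m, Algebra R (S m)] [∀ m, IsLocalization.AtPrime (S m) m.asIdeal] :
    Nat.card (R ⧸ I) = ∏ m, Nat.card (S m ⧸ I.map (algebraMap R (S m))) := by
  let φ : ∀ m, R →+* S m ⧸ I.map (algebraMap R (S m)) := fun m => algebraMap R _
  have hs : ∀ m, Function.Surjective (φ m) := fun m z => by
    obtain ⟨y, rfl⟩ := IsArtinianRing.localization_surjective
      (Algebra.algebraMapSubmonoid (R ⧸ I) m.asIdeal.primeCompl) _ z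
    obtain ⟨x, rfl⟩ := Ideal.Quotient.mk_surjective y
    exact ⟨x, rfl⟩
  have hk : ∀ m x, x ∈ RingHom.ker (φ m) ↔ ∃ s ∈ m.asIdeal.primeCompl, s * x ∈ I := fun m x =>
    Ideal.Quotient.eq_zero_iff_mem.trans
      (IsLocalization.algebraMap_mem_map_algebraMap_iff m.asIdeal.primeCompl (S m) I x)
  have hp : ∀ m (p : Ideal R), p.IsMaximal → RingHom.ker (φ m) ≤ p → p = m.asIdeal := by
    refine fun m p h e => h.eq_of_le m.isMaximal.ne_top fun s hs' => by_contra fun hn => ?_
    obtain ⟨u, hu⟩ := ((IsLocalization.map_units (S m) (⟨s, hn⟩ : m.asIdeal.primeCompl)).map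
      (Ideal.Quotient.mk (I.map (algebraMap R (S m))))).exists_left_inv
    obtain ⟨r, rfl⟩ := hs m u
    have : r * s - 1 ∈ p := e (by
      rw [RingHom.mem_ker, map_sub, map_mul, map_one, sub_eq_zero]; exact hu)
    exact h.ne_top ((Ideal.eq_top_iff_one _).2 (by
      simpa using p.sub_mem (p.mul_mem_left r hs') this))
  have hc : Pairwise (Function.onFun IsCoprime fun m => RingHom.ker (φ m)) := fun m m' h =>
    Ideal.isCoprime_iff_sup_eq.2 (by_contra fun hn => by
      obtain ⟨p, h1, h2⟩ := Ideal.exists_le_maximal _ hn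
      exact h (MaximalSpectrum.ext ((hp m p h1 (le_sup_left.trans h2)).symm.trans
        (hp m' p h1 (le_sup_right.trans h2)))))
  have hI : ⨅ m, RingHom.ker (φ m) = I := by
    refine le_antisymm (fun x hx => Ideal.mem_of_localization_maximal fun P hP => ?_)
      (le_iInf fun m x hx => (hk m x).2 ⟨1, one_mem _, by rwa [one_mul]⟩)
    exact (IsLocalization.algebraMap_mem_map_algebraMap_iff P.primeCompl _ I x).2
      ((hk ⟨P, hP⟩ x).1 (Ideal.mem_iInf.1 hx _))
  rw [← Nat.card_congr (Ideal.quotEquivOfEq hI).toEquiv,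
    Nat.card_congr (Ideal.quotientInfRingEquivPiQuotient _ hc).toEquiv, Nat.card_pi]
  exact Finset.prod_congr rfl fun m _ =>
    Nat.card_congr (RingHom.quotientKerEquivOfSurjective (hs m)).toEquiv

theorem lc_inj {L : Type} [Field L] {A : Subring L} {m m' : Ideal A} [h : m.IsMaximal]
    [h' : m'.IsMaximal] (e : lc A m = lc A m') : m = m' := by
  refine h.eq_of_le h'.ne_top fun b hb => by_contra fun hn => ?_
  have b0 : (b : L) ≠ 0 := fun h0 => hn (by rw [show b = 0 from Subtype.ext h0]; exact m'.zero_mem)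
  have : (b : L)⁻¹ ∈ lc A m := e ▸ mem_lc.2 ⟨1, b, hn, inv_mul_cancel₀ b0⟩
  obtain ⟨x, y, hy, k⟩ := mem_lc.1 this
  have : y = b * x := Subtype.ext (by rw [Subring.coe_mul, ← k, mul_inv_cancel_left₀ b0])
  exact hy (this ▸ m.mul_mem_right x hb)

end QCard

theorem qCardL : CardL := by
  intro L _ A a h ha
  have := h.loc
  have := h.noeth
  have := h.fin
  have : Ring.KrullDimLE 1 A := .mk₁' fun I h0 hI => h.dim I hI h0
  have k : cd A a = _ := QCard.card_len (Module.length_ne_top_iff.1 (Ord.fin ha))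
  rw [lg_eq, k, Ord.coe ha]
  refine ⟨Real.log_pos (by exact_mod_cast Finite.one_lt_card), pow_ne_zero _ Nat.card_pos.ne', ?_⟩
  rw [Nat.cast_pow, Real.log_pow, mul_comm]
  rfl

theorem qCardP : CardP := by
  intro L _ A a h hf
  classical
  have : Finite (A ⧸ Ideal.span {a}) := Nat.finite_of_card_ne_zero h
  have := hf.to_subtype
  have : Finite (MaximalSpectrum A) := Finite.of_injective
    (fun m : MaximalSpectrum A => (⟨lc A m.asIdeal, _, _, m.isMaximal, rfl⟩ : {S | Mx A S}))
    fun m m' e => MaximalSpectrum.ext (QCard.lc_inj (congrArg Subtype.val e))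
  have := Fintype.ofFinite (MaximalSpectrum A)
  have k : cd A a = ∏ m : MaximalSpectrum A,
      cd (lc A m.asIdeal) (Subring.inclusion (le_lc A m.asIdeal) a) := by
    refine (QCard.card_loc _ fun m => lc A m.asIdeal).trans (Finset.prod_congr rfl fun m _ => ?_)
    rw [Ideal.map_span, Set.image_singleton]
    rfl
  rw [finsum_eq_sum_of_support_subset (s := Finset.univ.map
    ⟨MaximalSpectrum.asIdeal, fun _ _ => MaximalSpectrum.ext⟩), Finset.sum_map, k, Nat.cast_prod,
    Real.log_prod]
  · exact Finset.sum_congr rfl fun m _ => by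
      rw [finsum_eq_dif]; symm; exact dif_pos m.isMaximal
  · exact fun m hm => Nat.cast_ne_zero.2 (Finset.prod_ne_zero_iff.1 (k ▸ h) m hm)
  · intro m hm
    by_cases e : m.IsMaximal
    · exact Finset.mem_coe.2 (Finset.mem_map.2 ⟨⟨m, e⟩, Finset.mem_univ _, rfl⟩)
    · exact absurd ((finsum_eq_dif _).trans (dif_neg e)) hm

end Pool.Agent.MP_f3836a_nt.GQ
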