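import Pool.Agent.MP_f3836a_nt.GQ.SpecM

/-! The index of an element of a finite extension is the index of its norm. -/

namespace Pool.Agent.MP_f3836a_nt.GQ

open Polynomial PK VE.W IntermediateField

namespace QCardN

theorem idx {G : Type} [AddCommGroup G] (f : G →+ G) (hf : Function.Injective f)
    {N M : AddSubgroup G} (h : N ≤ M) (hN : N.map f ≤ N) (hM : M.map f ≤ M)
    (h0 : N.relIndex M ≠ 0) : (M.map f).relIndex M = (N.map f).relIndex N := by
  have h1 := AddSubgroup.relIndex_mul_relIndex _ _ _ hN h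
  have h2 := AddSubgroup.relIndex_mul_relIndex _ _ _ (AddSubgroup.map_mono (f := f) h) hM
  rw [AddSubgroup.relIndex_map_map_of_injective _ _ hf, ← h1, mul_comm] at h2
  exact mul_right_cancel₀ h0 h2

variable {κ κ' : Type} [Field κ] [Field κ'] {A : Subring κ}

theorem cd_eq (a : A) : cd A a = (Ideal.span {a}).toAddSubgroup.index := rfl

theorem cd_mul {x : A} (hx : x ≠ 0) (y : A) : cd A (x * y) = cd A y * cd A x := by
  have h1 := AddSubgroup.relIndex_map_map_of_injective (f := AddMonoidHom.mulLeft x)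
    (Ideal.span {y}).toAddSubgroup ⊤ (mul_right_injective₀ hx)
  have e1 : (Ideal.span {y}).toAddSubgroup.map (AddMonoidHom.mulLeft x) =
      (Ideal.span {x * y}).toAddSubgroup := by
    ext z
    simp only [AddSubgroup.mem_map, Submodule.mem_toAddSubgroup, Ideal.mem_span_singleton,
      AddMonoidHom.coe_mulLeft]
    exact ⟨fun ⟨w, a, b⟩ => b ▸ mul_dvd_mul_left x a,
      fun ⟨w, a⟩ => ⟨y * w, dvd_mul_right _ _, by rw [a, mul_assoc]⟩⟩
  have e2 : (⊤ : AddSubgroup A).map (AddMonoidHom.mulLeft x) = (Ideal.span {x}).toAddSubgroup := by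
    ext z
    simp only [AddSubgroup.mem_map, Submodule.mem_toAddSubgroup, Ideal.mem_span_singleton,
      AddMonoidHom.coe_mulLeft]
    exact ⟨fun ⟨w, _, b⟩ => ⟨w, b.symm⟩, fun ⟨w, a⟩ => ⟨w, trivial, a.symm⟩⟩
  rw [e1, e2, AddSubgroup.relIndex_top_right] at h1
  rw [cd_eq, cd_eq, cd_eq, ← h1]
  exact (AddSubgroup.relIndex_mul_index fun z hz => Ideal.span_singleton_le_span_singleton.2
    (dvd_mul_right x y) hz).symm

theorem cd_pow {x : A} (hx : x ≠ 0) (n : ℕ) : cd A (x ^ n) = cd A x ^ n := by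
  induction n with
  | zero => rw [pow_zero, pow_zero, cd_eq, Ideal.span_singleton_one]; exact AddSubgroup.index_top
  | succ n ih => rw [pow_succ', cd_mul hx, ih, pow_succ]

variable [Algebra κ κ']

theorem den (hA : Fr A) (M : Submodule A κ') {z : κ'} (hz : z ∈ Submodule.span κ (M : Set κ')) :
    ∃ c : A, c ≠ 0 ∧ c • z ∈ M := by
  induction hz using Submodule.span_induction with
  | mem x hx => exact ⟨1, one_ne_zero, M.smul_mem _ hx⟩
  | zero => exact ⟨1, one_ne_zero, by simp⟩
  | add x y _ _ hx hy =>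
    obtain ⟨c, c0, hc⟩ := hx
    obtain ⟨d, d0, hd⟩ := hy
    refine ⟨c * d, mul_ne_zero c0 d0, ?_⟩
    rw [smul_add]
    exact add_mem (by rw [mul_comm, mul_smul]; exact M.smul_mem _ hc)
      (by rw [mul_smul]; exact M.smul_mem _ hd)
  | smul r x _ hx =>
    obtain ⟨c, c0, hc⟩ := hx
    obtain ⟨a, b, b0, e⟩ := hA r
    refine ⟨b * c, mul_ne_zero (fun z => b0 (by rw [z]; rfl)) c0, ?_⟩
    have : (b * c) • r • x = a • c • x := by
      simp only [Subring.smul_def, smul_smul, ← e, Subring.coe_mul]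
      congr 1; ring
    rw [this]
    exact M.smul_mem _ hc

theorem top {A' : Subring κ'} (hA : Fr A') (T : Finset κ') (h1 : ∀ z ∈ T, z ∈ A')
    (h2 : ∀ z ∈ A', z ∈ Submodule.span κ (T : Set κ')) : Submodule.span κ (T : Set κ') = ⊤ := by
  refine eq_top_iff.2 fun z _ => ?_
  obtain ⟨a, b, b0, e⟩ := hA z
  have h3 : ∀ x ∈ Submodule.span κ (T : Set κ'),
      LinearMap.mulLeft κ (b : κ') x ∈ Submodule.span κ (T : Set κ') := fun x hx => by
    induction hx using Submodule.span_induction with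
    | mem x hx => exact h2 _ (mul_mem b.2 (h1 x hx))
    | zero => simp
    | add x y _ _ hx hy => rw [map_add]; exact add_mem hx hy
    | smul r x _ hx => rw [map_smul]; exact Submodule.smul_mem _ _ hx
  obtain ⟨w, hw⟩ := LinearMap.surjective_of_injective (f := (LinearMap.mulLeft κ (b : κ')).restrict h3)
    (fun x y e => Subtype.ext (mul_left_cancel₀ b0 (congrArg Subtype.val e))) ⟨a, h2 _ a.2⟩
  have h4 : (b : κ') * w = b * z := (congrArg Subtype.val hw).trans (e.symm.trans (mul_comm _ _))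
  exact mul_left_cancel₀ b0 h4 ▸ w.2

theorem div {s : κ'} {Q : A[X]} (hm : Q.Monic) (hQ : Q.map (algebraMap A κ) = minpoly κ s)
    (p : A[X]) : p.coeff 0 ∈ Ideal.span {Q.coeff 0} ↔ ∃ r : A[X], s * aeval s r = aeval s p := by
  rw [Ideal.mem_span_singleton]
  have h0 : aeval s Q = 0 := by rw [← aeval_map_algebraMap κ, hQ, minpoly.aeval]
  constructor
  · rintro ⟨y, hy⟩
    refine ⟨divX (p - Q * C y), ?_⟩
    have h1 := congrArg (aeval s) (X_mul_divX_add (p - Q * C y))
    simpa [hy, h0] using h1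
  · rintro ⟨r, hr⟩
    have h1 : Q ∣ p - X * r := by
      rw [← map_dvd_map (algebraMap A κ) Subtype.val_injective hm, hQ]
      exact minpoly.dvd κ s (by rw [aeval_map_algebraMap]; simp [hr])
    obtain ⟨w, hw⟩ := h1
    exact ⟨w.coeff 0, by simpa using congrArg (coeff · 0) hw⟩

end QCardN

open QCardN

theorem qCardN : CardN := by
  intro κ κ' _ _ ν A A' s hA hA' ⟨hle, T, hT1, hT2⟩ hcd hs hP
  classical
  let := ν.toAlgebra
  have hs0 : (s : κ') ≠ 0 := fun e => hs (Subtype.ext e)
  have sA : ∀ z ∈ A', z ∈ Submodule.span A (T : Set κ') := fun z hz => by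
    have := hT2 z hz
    clear hz
    induction this using Submodule.span_induction with
    | mem x hx => exact Submodule.subset_span hx
    | zero => exact zero_mem _
    | add x y _ _ hx hy => exact add_mem hx hy
    | smul r x _ hx =>
      obtain ⟨r, a, ha, rfl⟩ := r
      exact Submodule.smul_mem _ (⟨a, ha⟩ : A) hx
  have tp := top (κ := κ) hA' T hT1 fun z hz => Submodule.span_le_restrictScalars A κ _ (sA z hz)
  have : FiniteDimensional κ κ' := ⟨⟨T, tp⟩⟩
  have hi : IsIntegral κ (s : κ') := .of_finite κ _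
  obtain ⟨Q, hQ, -, hm⟩ := lifts_and_natDegree_eq_and_monic (f := algebraMap A κ)
    ((lifts_iff_coeff_lifts _).2 fun n => ⟨⟨_, hP n⟩, rfl⟩) (minpoly.monic hi)
  replace hQ : Q.map (algebraMap A κ) = minpoly κ (s : κ') := hQ
  have q0 : ((Q.coeff 0 : A) : κ) = (minpoly κ (s : κ')).coeff 0 := by rw [← hQ, coeff_map]; rfl
  have q1 : Q.coeff 0 ≠ 0 := fun e => minpoly.coeff_zero_ne_zero hi hs0 (by rw [← q0, e]; rfl)
  have tK : ⊤ ≤ Submodule.span κ⟮(s : κ')⟯ (A' : Set κ') := fun z _ =>
    Submodule.span_mono (fun x hx => hT1 x hx)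
      (Submodule.span_le_restrictScalars κ κ⟮(s : κ')⟯ _ (tp.ge Submodule.mem_top))
  obtain ⟨J, b, hb⟩ : ∃ (J : Type) (b : Module.Basis J κ⟮(s : κ')⟯ κ'), ∀ j, b j ∈ A' :=
    ⟨_, .ofSpan tK, fun j => Module.Basis.ofSpan_subset tK ⟨j, rfl⟩⟩
  let := FiniteDimensional.fintypeBasisIndex b
  refine ⟨((-1) ^ (adjoin.powerBasis hi).dim * Q.coeff 0) ^ Fintype.card J, ?_, ?_⟩
  · have h1 := Algebra.norm_eq_norm_adjoin κ (s : κ')
    rw [← adjoin.powerBasis_gen hi, Algebra.PowerBasis.norm_gen_eq_coeff_zero_minpoly,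
      adjoin.powerBasis_gen, minpoly_gen, ← q0, Module.finrank_eq_card_basis b] at h1
    push_cast
    exact h1.symm
  let θ : (J → A[X]) →ₗ[A] κ' := ∑ j, (LinearMap.mulRight A (b j)).comp
    ((aeval (s : κ')).toLinearMap.comp (LinearMap.proj j))
  have hθ : ∀ q, θ q = ∑ j, aeval (s : κ') (q j) * b j := fun q => by simp [θ]
  have aA : ∀ p : A[X], aeval (s : κ') p ∈ A' := fun p => by
    rw [aeval_eq_sum_range]
    exact sum_mem fun i _ => by
      rw [Algebra.smul_def]
      exact mul_mem (hle ⟨_, (p.coeff i).2, rfl⟩) (pow_mem s.2 _)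
  have hf : Function.Injective (AddMonoidHom.mulLeft (s : κ')) := mul_right_injective₀ hs0
  have sp : ∀ z, z ∈ Submodule.span κ (LinearMap.range θ : Set κ') := fun z => by
    rw [← b.sum_repr z]
    refine sum_mem fun j _ => ?_
    obtain ⟨p, hp⟩ := (adjoin.powerBasis hi).exists_eq_aeval' (b.repr z j)
    rw [hp, Algebra.smul_def, ← aeval_algebraMap_apply, adjoin.powerBasis_gen,
      AdjoinSimple.algebraMap_gen, aeval_eq_sum_range, Finset.sum_mul]
    refine sum_mem fun i _ => ?_
    rw [smul_mul_assoc]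
    refine Submodule.smul_mem _ _ (Submodule.subset_span ⟨Pi.single j (X ^ i), ?_⟩)
    rw [hθ, Finset.sum_eq_single j (fun k _ h => by simp [h]) (by simp)]
    simp
  have h0 : θ.toAddMonoidHom.range.relIndex A'.subtype.toAddMonoidHom.range ≠ 0 := by
    choose c c0 hc using fun t : T => den hA (LinearMap.range θ) (sp t)
    let g := Fintype.linearCombination A fun t : T => (t : κ')
    refine mt (AddSubgroup.relIndex_eq_zero_of_le_right (L := g.toAddMonoidHom.range) ?_) ?_
    · rintro _ ⟨z, rfl⟩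
      have h1 := sA z z.2
      rw [show (T : Set κ') = Set.range fun t : T => (t : κ') from Subtype.range_coe.symm,
        ← Fintype.range_linearCombination] at h1
      exact h1
    · rw [← AddSubgroup.index_comap]
      refine ne_zero_of_dvd_ne_zero (q := (AddSubgroup.pi Set.univ fun t : T =>
        (Ideal.span {c t}).toAddSubgroup).index) ?_ (AddSubgroup.index_dvd_of_le fun x hx => ?_)
      · rw [AddSubgroup.index_pi]
        exact Finset.prod_ne_zero_iff.2 fun t _ => hcd _ (c0 t)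
      · show g x ∈ LinearMap.range θ
        rw [Fintype.linearCombination_apply]
        refine sum_mem fun t _ => ?_
        obtain ⟨w, hw⟩ := Ideal.mem_span_singleton'.1 (hx t trivial)
        rw [← hw, mul_smul]
        exact Submodule.smul_mem _ _ (hc t)
  have h1 := idx _ hf (N := θ.toAddMonoidHom.range) (M := A'.subtype.toAddMonoidHom.range)
    (by rintro _ ⟨q, rfl⟩
        exact ⟨⟨θ q, hθ q ▸ sum_mem fun j _ => mul_mem (aA _) (hb j)⟩, rfl⟩)
    (by rintro _ ⟨_, ⟨q, rfl⟩, rfl⟩
        exact ⟨fun j => X * q j, by simp [hθ, Finset.mul_sum, mul_assoc]⟩)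
    (by rintro _ ⟨_, ⟨z, rfl⟩, rfl⟩
        exact ⟨s * z, rfl⟩) h0
  rw [← AddSubgroup.index_comap, ← AddSubgroup.index_comap] at h1
  have e1 : (A'.subtype.toAddMonoidHom.range.map (AddMonoidHom.mulLeft (s : κ'))).comap
      A'.subtype.toAddMonoidHom = (Ideal.span {s}).toAddSubgroup := by
    ext z
    refine Iff.trans ?_ Ideal.mem_span_singleton.symm
    exact ⟨fun ⟨_, ⟨w, rfl⟩, e⟩ => ⟨w, Subtype.ext e.symm⟩,
      fun ⟨w, e⟩ => ⟨_, ⟨w, rfl⟩, (congrArg Subtype.val e).symm⟩⟩
  have e2 : (θ.toAddMonoidHom.range.map (AddMonoidHom.mulLeft (s : κ'))).comap θ.toAddMonoidHom =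
      AddSubgroup.pi Set.univ fun _ : J => (Ideal.span {Q.coeff 0}).toAddSubgroup.comap
        (constantCoeff : A[X] →+* A).toAddMonoidHom := by
    ext q
    constructor
    · rintro ⟨_, ⟨r, rfl⟩, e⟩ j -
      replace e : (s : κ') * θ r = θ q := e
      refine (div hm hQ (q j)).2 ⟨r j, ?_⟩
      have h2 := Fintype.linearIndependent_iff.1 b.linearIndependent
        (fun j => aeval (AdjoinSimple.gen κ (s : κ')) (X * r j - q j)) (by
          simp only [Algebra.smul_def, ← aeval_algebraMap_apply, AdjoinSimple.algebraMap_gen,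
            map_sub, map_mul, aeval_X, sub_mul, Finset.sum_sub_distrib, ← hθ, ← e, mul_assoc,
            ← Finset.mul_sum, sub_self]) j
      have h3 := congrArg (algebraMap κ⟮(s : κ')⟯ κ') h2
      rw [← aeval_algebraMap_apply, AdjoinSimple.algebraMap_gen, map_zero] at h3
      simpa [sub_eq_zero] using h3
    · intro h
      choose r hr using fun j => (div hm hQ (q j)).1 (h j trivial)
      refine ⟨_, ⟨r, rfl⟩, ?_⟩
      show (s : κ') * θ r = θ q
      simp only [hθ, Finset.mul_sum, ← mul_assoc, hr]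
  rw [e1, e2, AddSubgroup.index_pi, AddSubgroup.index_comap_of_surjective _
    fun a => ⟨C a, by simp⟩, Finset.prod_const, Finset.card_univ] at h1
  have hu : IsUnit ((-1 : A) ^ (adjoin.powerBasis hi).dim) := isUnit_one.neg.pow _
  rw [cd_pow (mul_ne_zero hu.ne_zero q1), cd_eq, cd_eq, Ideal.span_singleton_mul_left_unit hu]
  exact h1

end Pool.Agent.MP_f3836a_nt.GQ
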