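import Pool.Agent.MP_f3836a_nt.GQ.SpecM
import Pool.Agent.MP_f3836a_nt.GP.GCrt

/-! Simultaneous approximation at finitely many points of a model. -/

set_option autoImplicit false

namespace Pool.Agent.MP_f3836a_nt.GQ

open Polynomial IsLocalRing PK VE.W VE.Z GP Finset Filter

theorem qCrt : OfCrt := by
  intro hM K ι _ _ ξ hm T hT anti a N ha
  have D := hM K ι ξ hm
  have h1 : ∀ S ∈ T, ∃ i, ξ i ≠ 0 ∧ ∃ (q : Ideal (Ch ξ i)) (_ : q.IsPrime), S = lc _ q := hT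
  rcases T.eq_empty_or_nonempty with rfl | ⟨S0, h0⟩
  · exact ⟨0, by simp⟩
  have : Nonempty ι := ⟨(h1 S0 h0).choose⟩
  choose! i i0 hi using h1
  have le : ∀ S ∈ T, Ch ξ (i S) ≤ S := fun S h => by
    obtain ⟨q, _, e⟩ := hi S h
    exact (le_lc _ q).trans e.ge
  have dv := fun S h => (D.le _ S).1 (le S h)
  have ev := fun S h b (hb : b ∈ Ch ξ (i S)) =>
    GCrt.ev (i0 S h) (fun S' => (D.le _ S').2) hb
  have fr : ∀ S ∈ T, ∀ z ∈ S, ∃ x ∈ Ch ξ (i S), ∃ y ∈ Ch ξ (i S), Ut S y ∧ z * y = x := fun S h z hz => by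
    obtain ⟨q, _, e⟩ := hi S h
    obtain ⟨x, y, hy, e'⟩ := mem_lc.1 (e.le hz)
    exact ⟨x, x.2, y, y.2, ((zb_ut y).2 hy).mono e.ge, e'⟩
  set L := Submodule.span ℤ (Set.range ξ)
  have c : ∀ S ∈ T, ∀ (y : K) (d : ℕ), y * ξ (i S) ^ d / ξ (i S) ^ d = y := fun S h y d =>
    mul_div_cancel_right₀ y (pow_ne_zero d (i0 S h))
  have hA : ∀ S ∈ T, ∀ᶠ d in atTop, ∃ P ∈ L ^ d, ∃ Q ∈ L ^ d,
      Ut S (Q / ξ (i S) ^ d) ∧ a S * Q = P := fun S h => by
    obtain ⟨x, hx, y, hy, u, e⟩ := fr S h _ (ha S h)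
    filter_upwards [ev S h x hx, ev S h y hy] with d e1 e2
    exact ⟨_, e1, _, e2, (c S h y d).symm ▸ u, by rw [← mul_assoc, e]⟩
  have hB : ∀ S ∈ T, ∀ S' ∈ T, ∀ᶠ d in atTop, S' ≠ S → ∃ R ∈ L ^ d,
      Ut S (R / ξ (i S) ^ d) ∧ Nu S' (R / ξ (i S') ^ d) := fun S h S' h' => by
    by_cases hne : S' = S
    · exact .of_forall fun _ e => absurd hne e
    obtain ⟨y, hy, u, n⟩ : ∃ y ∈ Ch ξ (i S), Ut S y ∧ Nu S' (y * (ξ (i S) / ξ (i S'))) := by
      rcases nu_or (dv S' h' (i S)) with n | u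
      · exact ⟨1, one_mem _, ut_one, by rwa [one_mul]⟩
      · have b : Ch ξ (i S) ≤ S' := (D.le _ _).2 fun j => by
          have := mul_mem (dv S' h' j) u.2.2
          rwa [inv_div, div_mul_div_cancel₀ (i0 S' h')] at this
        obtain ⟨z, hz, hz'⟩ := SetLike.not_le_iff_exists.1 fun e => hne (anti S h S' h' e).symm
        obtain ⟨x, hx, y, hy, u', e⟩ := fr S h z hz
        refine ⟨y, hy, u', mul_comm y _ ▸ ((nu_or (b hy)).resolve_right fun k => hz' ?_).mul u.2.1⟩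
        rw [eq_div_of_mul_eq k.1 e, div_eq_mul_inv]
        exact mul_mem (b hx) k.2.2
    filter_upwards [ev S h y hy, eventually_gt_atTop 0] with d e1 e2 _
    obtain ⟨k, rfl⟩ := Nat.exists_eq_succ_of_ne_zero e2.ne'
    refine ⟨_, e1, (c S h y _).symm ▸ u, ?_⟩
    rw [mul_div_assoc, ← div_pow, pow_succ, mul_left_comm]
    exact n.mul (pow_mem (dv S' h' _) k)
  obtain ⟨d, d1, d2⟩ := (((eventually_all_finset T).2 hA).and ((eventually_all_finset T).2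
    fun S h => (eventually_all_finset T).2 (hB S h))).exists
  choose! P hP Q hQ hu using d1
  choose! R hR hn using d2
  exact GCrt.alg (fun S h => D.loc S (hT S h)) (fun S => ξ (i S) ^ d) P Q a R N
    (fun S h => pow_ne_zero d (i0 S h)) ha (fun S h S' h' => GCrt.div_mem (dv S h) (hP S' h'))
    (fun S h S' h' => GCrt.div_mem (dv S h) (hQ S' h'))
    (fun S h S' h' S'' h'' e => GCrt.div_mem (dv S h) (hR S' h' S'' h'' e)) hu hn

end Pool.Agent.MP_f3836a_nt.GQ
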