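import Pool.Agent.MP_f3836a_nt.GQ.SpecM
import Pool.Agent.MP_f3836a_nt.GP.Base
import Pool.Agent.MP_f3836a_nt.PK.Ord
import Pool.Agent.MP_f3836a_nt.PK.SComp

/-! Part GQ: boundaries are cycles. -/

set_option autoImplicit false

namespace Pool.Agent.MP_f3836a_nt.GQ

open Polynomial IsLocalRing PK VE.W VE.Z GP

namespace QDd

variable {S : Sy}

theorem ord_one (C x : S.P) : S.ord C x 1 = 0 := by
  unfold Sy.ord
  split_ifs
  exacts [SComp.ordR_one _, rfl]

theorem ord_mul (hM : MdS) (H : S.HtA) {C : S.P} (x : S.P) (hC : S.Cv C) {a b : S.κ C}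
    (ha : a ≠ 0) (hb : b ≠ 0) : S.ord C x (a * b) = S.ord C x a + S.ord C x b := by
  unfold Sy.ord
  split_ifs with h
  · have m := hM _ _ (S.η C) (S.md C)
    have p := (S.pt C _).2 ⟨x, h, rfl⟩
    have := m.noeth _ p
    have : Ring.KrullDimLE 1 (S.R h) :=
      Ring.krullDimLE_one_iff_of_noZeroDivisors.2 fun I a b => (H.dm h hC).1 I b a
    exact Ord.mul (m.fr _ p) a b ha hb
  · rfl

theorem bc_one {y C : S.P} (f g : S.κ y) (h : ¬(S.Cv C ∧ C ≤ y)) : S.bc y f g C = 1 := by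
  unfold Sy.bc Sy.bd
  split_ifs with a b
  exacts [absurd ⟨a, b⟩ h, rfl, rfl]

end QDd

open QDd in
theorem qDd : OfDd := by
  classical
  intro hM hS hH hF hN _ hT h1 h2 S y f g hy f0 g0
  have T := hT S y hy
  have H := hH S
  refine ⟨fun C => T.ne f g C f0 g0, T.sup f g f0 g0,
    fun C c => by_contra fun d => c (bc_one f g fun e => d e.1), fun x cx => ?_⟩
  by_cases hx : x ≤ y
  swap
  · refine finsum_eq_zero_of_forall_eq_zero fun C => ?_
    by_cases c : x ≤ C
    · rw [bc_one f g fun e => hx (c.trans e.2), ord_one]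
    · exact dif_neg c
  have := hy.2
  have ff := (H.sf y hy.2).1 hy.1
  have pt : ∀ {z : S.P} (h : z ≤ y), Pt (S.η y) (S.R h) := fun h => (S.pt y _).2 ⟨_, h, rfl⟩
  have al := (H.cl hx).1 cx
  have L2 := hF _ _ (S.η y) ff (S.md y) _ (pt hx) al
  have NA := hN _ _ L2
  have SF := hS _ _ (S.η y) ff (S.md y)
  have l0 : 0 < lg (S.R hx) := by
    have := (H.fin x).1 cx
    rw [H.lg hx]
    exact Real.log_pos (by exact_mod_cast Finite.one_lt_card)
  have hh : ∀ {C : S.P} (h : C ≤ y), H1 (S.R hx) (S.R h) ↔ x ≤ C ∧ S.Cv C := fun h => by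
    rw [SF.h1 _ _ (pt hx) al, S.le, H.cv h hy]
    exact and_iff_right (pt h)
  let lam : ∀ C, S.κ C → ℝ := fun C u => if S.Cv C then lg (S.R hx) * S.ord C x u else 0
  have ad : ∀ C, Adr (lam C) := fun C a b ha hb => by
    simp only [lam]
    split_ifs with c
    · rw [ord_mul hM H x c ha hb, Int.cast_add, mul_add]
    · rw [add_zero]
  have br : ∀ O, H1 (nrm (S.R hx)) O → ∃ (C : S.P) (h : C ≤ y), x ≤ C ∧ S.Cv C ∧ Br (S.R h) O :=
    fun O o => by
      obtain ⟨-, A, a, b⟩ := NA.h1 O o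
      obtain ⟨C, h, rfl⟩ := (S.pt y A).1 ((SF.h1 _ _ (pt hx) al).1 a).1
      exact ⟨C, h, ((hh h).1 a).1, ((hh h).1 a).2, b⟩
  have e1 := T.sum lam f g ad f0 g0
  have e2 : ∑ᶠ (O) (_ : S.Cw y O), S.lamY lam y O (tameE O f g) = 0 := by
    refine (finsum_congr fun O => ?_).trans (h2 _ _ f g L2 f0 g0)
    by_cases o : H1 (nrm (S.R hx)) O
    · obtain ⟨C, h, a, b, c⟩ := br O o
      have w : S.Cw y O := ⟨C, h, b, c⟩
      rw [finsum_eq_if, finsum_eq_if, if_pos o, if_pos w, T.eq lam C h O _ b c,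
        ← h1 _ _ _ O _ (S.r h) _ L2 ((hh h).2 ⟨a, b⟩) (S.rm h) c (tame_ut (T.dvr O w) f0 g0),
        S.im h a]
      simp only [lam, if_pos b, Sy.ord, dif_pos a]
    · rw [finsum_eq_if, finsum_eq_if, if_neg o]
      split_ifs with w
      · obtain ⟨C, h, b, c⟩ := w
        have a : ¬x ≤ C := fun a => o ((NA.br _ O ((hh h).2 ⟨a, b⟩)).1 c).1
        rw [T.eq lam C h O _ b c]
        simp only [lam, if_pos b, Sy.ord, dif_neg a, Int.cast_zero, mul_zero]
      · rfl
  have inj : Function.Injective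
      ((AddMonoidHom.mulLeft (lg (S.R hx))).comp (Int.castAddHom ℝ)) := fun a b e =>
    Int.cast_injective (mul_left_cancel₀ l0.ne' e)
  refine inj ((AddMonoidHom.map_finsum_of_injective _ inj _).trans ?_)
  rw [map_zero, ← e2, ← e1]
  refine finsum_congr fun C => ?_
  simp only [lam]
  split_ifs with c
  · rfl
  · rw [bc_one f g fun e => c e.1, ord_one, map_zero]

end Pool.Agent.MP_f3836a_nt.GQ
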