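import Pool.Agent.MP_f3836a_nt.GQ.SpecM

/-! Curves through a point of a surface; closed points of horizontal curves. -/

set_option autoImplicit false

namespace Pool.Agent.MP_f3836a_nt.GQ

open Polynomial IsLocalRing PK VE.W VE.Z GP

namespace QDd1

variable {L : Type} [Field L] {W T : Subring L}

theorem oK_one : oK W T 1 = 0 := by
  unfold oK od
  split_ifs
  exacts [by rw [ZPsi.res_one, ZPsi.ord_one], rfl, rfl]

theorem oK_le {z : L} (h : oK W T z ≠ 0) : T ≤ W := by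
  by_contra c
  unfold oK od at h
  split_ifs at h <;> exact h rfl

end QDd1

open QDd1

theorem qDd1 : OfDd1 := by
  intro hN hO L _ D S W κ _ r t hD hS hr hW ht
  have : IsLocalRing W := inferInstanceAs (IsLocalRing (⟨W, hW.1⟩ : ValuationSubring L))
  obtain ⟨ν, hν⟩ := hr.nv hW.2
  obtain ⟨h1, h2, h3, h4, -, h5⟩ := hN L D hD S W κ r ν hS hr hW hν
  rw [nmW_eq hr.surj hν, ← h2, ← h5]
  refine hO _ _ ν _ _ h1 h3 h4 _ ?_
  rw [resR, dif_pos ht.2.1]
  exact (((ut_iff (⟨t, ht.2.1⟩ : W)).1 ht).map (residue W)).ne_zero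

theorem qDd2 : OfDd2 := by
  classical
  intro hN hK L _ D f g hD f0 g0
  have n := hN L D hD
  have k := fun T (h : Mx (nrm D) T) => hK L T (n.mx T h).1
  have key : ∀ T, Mx (nrm D) T → {W | H1 (nrm D) W ∧ oK W T (tameE W f g) ≠ 0}.Finite :=
    fun T h => ((k T h f g f0 g0).1.union (k T h g f g0 f0).1).subset fun W w => by
      have h1 := (n.pt T W h).2 ⟨w.1, oK_le w.2⟩
      by_contra c
      simp only [Set.mem_union, Set.mem_ofPred_eq, h1, true_and, not_or, not_not] at c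
      exact w.2 (by rw [tame_l c.1, c.2, zpow_zero, oK_one])
  obtain ⟨A, hA⟩ := (n.fin.biUnion key).exists_finset
  simp only [Set.mem_iUnion, Set.mem_ofPred_eq] at hA
  have e : ∀ F : Subring L → ℝ, ∑ᶠ (T) (_ : Mx (nrm D) T), F T = ∑ T ∈ n.fin.toFinset, F T :=
    fun F => finsum_mem_eq_finite_toFinset_sum F n.fin
  simp only [e]
  rw [finsum_cond_eq_sum_of_cond_iff _ (t := A) fun {W} w => ⟨fun h => ?_, fun h => ?_⟩,
    Finset.sum_comm]
  · refine Finset.sum_eq_zero fun T hT => ?_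
    rw [Set.Finite.mem_toFinset] at hT
    rw [← Finset.mul_sum, ← Int.cast_sum, ← finsum_cond_eq_sum_of_cond_iff _ (p := H1 T)
      fun {W} w => ⟨fun h => (hA W).2 ⟨T, hT, ((n.pt T W hT).1 h).1, w⟩, fun h => ?_⟩,
      (k T hT f g f0 g0).2, Int.cast_zero, mul_zero]
    obtain ⟨_, _, h, -⟩ := (hA W).1 h
    exact (n.pt T W hT).2 ⟨h, oK_le w⟩
  · obtain ⟨T, hT, w⟩ := Finset.exists_ne_zero_of_sum_ne_zero w
    exact (hA W).2 ⟨T, n.fin.mem_toFinset.1 hT, h, Int.cast_ne_zero.1 (right_ne_zero_of_mul w)⟩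
  · obtain ⟨_, _, h, -⟩ := (hA W).1 h
    exact h

theorem qCu : OfCu := fun hH hF S C x h hC hx =>
  have := (hH S).nf C hC
  hF _ _ (S.η C) (S.md C) _ ((S.pt C _).2 ⟨x, h, rfl⟩) (((hH S).cl h).1 hx)

end Pool.Agent.MP_f3836a_nt.GQ
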