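import Pool.Agent.MP_f3836a_nt.GQ.SpecM

/-! Part GQ: finite normalisation from a finite normal base. -/

set_option autoImplicit false

namespace Pool.Agent.MP_f3836a_nt.GQ

open Polynomial IsLocalRing PK VE.W VE.Z GP IntermediateField

namespace QFinC

variable {L : Type} [Field L]

theorem up {A A' : Subring L} (h : A ≤ A') {z : L} (hz : IsIntegral A z) : IsIntegral A' z :=
  letI := (Subring.inclusion h).toAlgebra
  haveI : IsScalarTower A A' L := .of_algebraMap_eq fun _ => rfl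
  hz.tower_top

/-- the fractions with denominators prime to `p` -/
def Ap (A : Subring L) (p : ℕ) : Subring L where
  carrier := {z | ∃ n : ℕ, n.Coprime p ∧ (n : L) * z ∈ A}
  mul_mem' := fun ⟨n, a, b⟩ ⟨m, c, d⟩ => ⟨n * m, a.mul_left c, by
    rw [Nat.cast_mul, mul_mul_mul_comm]; exact A.mul_mem b d⟩
  one_mem' := ⟨1, Nat.coprime_one_left p, by simp⟩
  add_mem' := fun {x y} ⟨n, a, b⟩ ⟨m, c, d⟩ => ⟨n * m, a.mul_left c, by
    rw [show ((n * m : ℕ) : L) * (x + y) = m * (n * x) + n * (m * y) by push_cast; ring]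
    exact A.add_mem (A.mul_mem (natCast_mem A m) b) (A.mul_mem (natCast_mem A n) d)⟩
  zero_mem' := ⟨1, Nat.coprime_one_left p, by simp⟩
  neg_mem' := fun ⟨n, a, b⟩ => ⟨n, a, by rw [mul_neg]; exact A.neg_mem b⟩

theorem le_ap (A : Subring L) (p : ℕ) : A ≤ Ap A p := fun _ h =>
  ⟨1, Nat.coprime_one_left p, by simpa using h⟩

theorem zp {A : Subring L} {p : ℕ} (h : ∀ n : ℕ, n.Coprime p → (n : L) ≠ 0) : Zp p (Ap A p) :=
  fun n e => ⟨n, e, by rw [mul_inv_cancel₀ (h n e)]; exact A.one_mem⟩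

theorem clr {A : Subring L} {p : ℕ} (h : ∀ n : ℕ, n.Coprime p → (n : L) ≠ 0) {z : L}
    (hz : IsIntegral (Ap A p) z) : ∃ n : ℕ, n.Coprime p ∧ IsIntegral A (n * z) := by
  let := (Subring.inclusion (le_ap A p)).toAlgebra
  have : IsScalarTower A (Ap A p) L := .of_algebraMap_eq fun _ => rfl
  let M : Submonoid A :=
    { carrier := {a | ∃ n : ℕ, n.Coprime p ∧ (a : L) = n}
      mul_mem' := fun ⟨n, a, b⟩ ⟨m, c, d⟩ => ⟨n * m, a.mul_left c, by simp [b, d]⟩
      one_mem' := ⟨1, Nat.coprime_one_left p, by simp⟩ }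
  have : IsLocalization M (Ap A p) := (isLocalization_iff _ _).2
    ⟨fun ⟨a, n, e, k⟩ => IsUnit.of_mul_eq_one ⟨_, zp h n e⟩
        (Subtype.ext ((congrArg (· * _) k).trans (mul_inv_cancel₀ (h n e)))),
      fun ⟨z, n, e, k⟩ => ⟨(⟨_, k⟩, ⟨n, n, e, rfl⟩), Subtype.ext (mul_comm _ _)⟩,
      fun {x y} e => ⟨1, by rw [Subring.inclusion_injective (le_ap A p) e]⟩⟩
  obtain ⟨⟨a, n, e, k⟩, u⟩ := hz.exists_multiple_integral_of_isLocalization M
  exact ⟨n, e, k ▸ u⟩

end QFinC

open QFinC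

theorem qFinC : FinC := by
  rintro L _ A B _ q _ p rfl ⟨-, s, h1, h2⟩ hA - hp hW
  have u : ∀ n : ℕ, n.Coprime p → Ut (lc B q) n := fun n e =>
    (nu_or (natCast_mem _ n)).resolve_left fun k => not_cop hp k e.symm
  have hB : B ≤ nrm (Ap A p) := fun b hb => by
    have e := iInf_valuationSubring_superset (s := (Ap A p : Set L))
    rw [Subring.closure_eq] at e
    rw [nrm, ← e]
    exact Subring.mem_iInf.2 fun V => hW _ V.1.2 (fun _ k => V.2 (le_ap A p k))
      (fun n k => V.2 (zp (fun n k => (u n k).1) n k)) hb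
  refine ⟨fun z hz => isIntegral_algebraMap (x := (⟨z, hz⟩ : lc B q)), s,
    fun z hz => up hA (h1 z hz), fun z hz => ?_⟩
  obtain ⟨⟨m, hm⟩, k⟩ :=
    IsIntegral.exists_multiple_integral_of_isLocalization q.primeCompl z (Rₘ := lc B q) hz
  have k2 : IsIntegral (integralClosure (Ap A p) L) ((m : L) * z) := up hB k
  obtain ⟨n, e, k'⟩ := clr (A := A) (fun n k => (u n k).1) (isIntegral_trans _ k2)
  have v := (u n e).mul ((ut_iff (algebraMap B (lc B q) m)).2
    (IsLocalization.map_units (lc B q) (⟨m, hm⟩ : q.primeCompl)))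
  have w : (n : L) * ((m : L) * z) ∈ Submodule.span (lc B q) (s : Set L) := by
    refine Submodule.span_induction (fun x hx => Submodule.subset_span hx) (zero_mem _)
      (fun _ _ _ _ => add_mem) (fun a x _ hx => ?_) (h2 _ k')
    exact Submodule.smul_mem _ (⟨a, hA a.2⟩ : lc B q) hx
  have := Submodule.smul_mem _ (⟨_, v.2.2⟩ : lc B q) w
  rwa [← mul_assoc, show (⟨_, v.2.2⟩ : lc B q) • ((n : L) * m * z) = z from
    inv_mul_cancel_left₀ v.1 z] at this

end Pool.Agent.MP_f3836a_nt.GQ
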