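import Pool.Agent.MP_f3836a_nt.GQ.SpecM
import Pool.Agent.MP_f3836a_nt.GP.TFin
import Pool.Agent.MP_f3836a_nt.GP.TFf

/-! Closed points of curves and surfaces have a finite normalisation. -/

set_option autoImplicit false

namespace Pool.Agent.MP_f3836a_nt.GQ

open Polynomial IsLocalRing PK VE.W VE.Z GP Filter

namespace QFinN

variable {L ι : Type} [Field L] {ξ : ι → L} {W D B : Subring L} {t G : L} {d p : ℕ}

theorem alg_mem [CharZero L] (h : Vr W) (ho : Ho W) (ht : IsAlgebraic ℤ t) : t ∈ W := by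
  obtain ⟨n, n0, hn⟩ := ht.exists_integral_multiple
  let V : ValuationSubring L := ⟨W, h⟩
  obtain ⟨y, hy⟩ := (IsIntegrallyClosed.isIntegral_iff (R := V) (K := L)).1 hn.tower_top
  have h1 : n • t ∈ W := hy ▸ y.2
  simpa [← mul_assoc, n0] using mul_mem (TFin.rat ho (n : ℚ)⁻¹) h1

theorem alg_of_mul (h : ∀ c : B, IsAlgebraic ℤ (c : L)) {a b : B} (b0 : (b : L) ≠ 0)
    (e : t * b = a) : IsAlgebraic ℤ t :=
  IsAlgebraic.of_mul (mem_nonZeroDivisors_of_ne_zero b0) (h b) (mul_comm t b ▸ e ▸ h a)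

theorem af_le (f : FmA ξ) (h : Uf ξ d G W) : Af ξ d G ≤ W :=
  Subring.closure_le.2 fun _ ⟨F, hF, e⟩ => e ▸ (f.div d G F W hF h).1

theorem ex_p [CharZero L] (h : Alg D) : ∃ p : ℕ, p.Prime ∧ Nu D p :=
  ex_nu fun k => ZPsi.not_ho ⟨le_rfl, fun _ e => e⟩ h k

theorem top_of [NumberField L] (h : Vr W) (ho : Ho W) : W = ⊤ :=
  eq_top_iff.2 fun z _ => alg_mem h ho
    ((IsFractionRing.isAlgebraic_iff ℤ ℚ L).2 (Algebra.IsAlgebraic.isAlgebraic z))

theorem ho_of (hp : p.Prime) (h : Zp p W) (u : Ut W p) : Ho W := fun n hn => by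
  obtain ⟨e, m, hm, rfl⟩ := Nat.exists_eq_pow_mul_and_not_dvd hn p hp.ne_one
  rw [Nat.cast_mul, Nat.cast_pow, mul_inv]
  exact mul_mem (u.pow e).2.2 (h m (hp.coprime_iff_not_dvd.2 hm).symm)

theorem ex_dom (q : Ideal D) [q.IsPrime] : ∃ w, Vr w ∧ Dom (lc D q) w := by
  obtain ⟨V, h1, h2⟩ := (LocalSubring.ofPrime D q).exists_le_valuationSubring
  refine ⟨V.toSubring, V.mem_or_inv_mem', h1, fun z hz => ?_⟩
  exact (nu_iff (Subring.inclusion h1 ⟨z, hz.1⟩)).2 fun e =>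
    (nu_iff ⟨z, hz.1⟩).1 hz ((isUnit_map_iff _ _).1 e)

end QFinN

open QFinN

theorem qFinN2 : OfFinN2 := by
  intro hM hF hS hA hC hZ hP L ι _ _ _ ξ ff md D pt al
  have m := hM L ι ξ md
  have f := hF L ι ξ md
  obtain ⟨p, hp, nu⟩ := ex_p al
  obtain ⟨d, G, G', d0, h1, h2, h3, h4⟩ := hP L ι ξ ff md D p pt hp nu
  obtain ⟨q, _, e⟩ := hA L ι ξ md d G D d0 h1 pt h3
  have fg := (tFf L).1 ff
  have tr : Transcendental ℤ (G' / G) := fun k => by
    have a1 : ∀ c : Af ξ d G, IsAlgebraic ℤ (c : L) := fun c => by_contra fun n => by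
      obtain ⟨O, o, h⟩ := (tFin L fg).ex c n
      exact h (af_le f (h4 O (dvA o.1).val (alg_mem (dvA o.1).val o.2 k) fun n hn =>
        o.2 n fun z => hp.ne_one (by simpa [z] using hn)) c.2)
    obtain ⟨c, hc⟩ := zb_tr ff.2.2 (m.fr D pt)
    obtain ⟨a, b, hb, k⟩ := mem_lc.1 (e.le c.2)
    exact hc ((isAlgebraic_algebraMap_iff (R := ℤ) Subtype.val_injective).1
      (alg_of_mul a1 ((zb_ut b).2 hb).1 k))
  exact ⟨m.loc D pt, m.noeth D pt, m.fr D pt, (hS L ι ξ ff md).no3 D pt, m.fin D pt al,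
    hC L _ _ D q p e (hZ L |>.2 _ tr (((tFf L).2.1 fg).1 _ tr))
      (Subring.closure_le.2 (Set.singleton_subset_iff.2 (f.div d G G' D h2 h3).1)) hp nu
      fun W v a z => af_le f (h4 W v (a (Subring.subset_closure rfl)) z)⟩

theorem qFinN1 : OfFinN1 := by
  intro hM hF hA hC hZ hN L ι _ _ _ ξ md D pt al
  have m := hM L ι ξ md
  have f := hF L ι ξ md
  obtain ⟨p, hp, nu⟩ := ex_p al
  have cen : ∀ w : Subring L, ∃ S, Vr w → Pt ξ S ∧ S ≤ w := fun w => by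
    by_cases v : Vr w
    · exact (m.cen w (inferInstanceAs (IsLocalRing (ValuationSubring.ofSubring w v)))
        (m.val w v)).imp fun _ k _ => ⟨k.1, k.2.1⟩
    · exact ⟨⊤, fun k => absurd k v⟩
  choose c hc using cen
  obtain ⟨d, ⟨G, h1, h2, -⟩, d0⟩ := ((f.sep _ ∅ (((hN L p hp.ne_zero).1.image c).insert D)
    Set.finite_empty (by
      rintro _ (rfl | ⟨w, k, rfl⟩)
      exacts [pt, (hc w k.1).1]) (by simp) (by simp)).and (eventually_gt_atTop 0)).exists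
  have h3 := h2 D (.inl rfl)
  obtain ⟨q, _, e⟩ := hA L ι ξ md d G D d0 h1 pt h3
  refine ⟨m.loc D pt, m.noeth D pt, m.fr D pt, fun r _ r0 => zb_max r ?_, fun k => ?_,
    m.fin D pt al, hC L ⊥ _ D q p e ((hZ L).1 ‹_›) bot_le hp nu fun W v _ z => af_le f ?_⟩
  · obtain ⟨w, v, o⟩ := ex_dom r
    obtain ⟨p', hp', n⟩ := ex_nu fun k => by
      obtain ⟨a, ha, a0⟩ := (Submodule.ne_bot_iff r).1 r0
      have := o.2 a ((nu_or (le_lc D r a.2)).resolve_right fun u => (zb_ut a).1 u ha)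
      rw [top_of v k] at this
      exact this.2.elim (fun z => a0 (Subtype.ext z)) fun z => z trivial
    exact ZPsi.alg_of o ((hN L p' hp'.ne_zero).2.1 w v n).2.1
  · rw [k] at nu
    exact nu.2.elim (Nat.cast_ne_zero.2 hp.ne_zero) fun z => z trivial
  · rcases nu_or (natCast_mem W p) with n | u
    · exact f.mono _ _ _ _ (h2 _ (.inr ⟨W, ⟨v, n⟩, rfl⟩)) (hc W v).2
    · exact f.mono _ _ _ _ h3 (top_of v (ho_of hp z u) ▸ le_top)

end Pool.Agent.MP_f3836a_nt.GQ
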