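import Pool.Agent.MP_f3836a_nt.GQ.SpecM
import Pool.Agent.MP_f3836a_nt.GP.GCrt

/-! Elementary facts about forms. -/

set_option autoImplicit false

namespace Pool.Agent.MP_f3836a_nt.GQ

open Polynomial IsLocalRing PK VE.W VE.Z GP

namespace QFm0

variable {L ι : Type} [Field L] {ξ : ι → L} {S : Subring L} {i : ι} {d : ℕ} {G : L}

theorem uf_iff (h0 : ξ i ≠ 0) (h : ∀ j, ξ j / ξ i ∈ S) : Uf ξ d G S ↔ Ut S (G / ξ i ^ d) := by
  refine ⟨?_, fun u => ⟨i, h0, h, u⟩⟩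
  rintro ⟨k, k0, hk, u⟩
  have e : Ut S (ξ k / ξ i) := ⟨div_ne_zero k0 h0, h k, (inv_div (ξ k) (ξ i)).symm ▸ hk i⟩
  have := u.mul (e.pow d)
  rwa [div_pow, div_mul_div_cancel₀ (pow_ne_zero d k0)] at this

theorem nu_of (h0 : ξ i ≠ 0) (h : ∀ j, ξ j / ξ i ∈ S) (f : Fm ξ d G) (n : ¬Uf ξ d G S) :
    Nu S (G / ξ i ^ d) :=
  (nu_or (GCrt.div_mem h f)).resolve_right fun u => n ⟨i, h0, h, u⟩

end QFm0

open QFm0 in
theorem qFm0 : Fm0S := fun L ι _ ξ =>
  { one := fun i => by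
      rw [Fm, pow_one]; exact Submodule.subset_span ⟨i, rfl⟩
    add := fun _ _ _ h h' => add_mem h h'
    mul := fun d d' G G' h h' => by
      rw [Fm, pow_add]; exact Submodule.mul_mem_mul h h'
    pow := fun d G n h => by
      rw [Fm, pow_mul]; exact Submodule.pow_mem_pow _ h n
    ev := fun i b h0 hb => GCrt.ev h0 (fun S h => Subring.closure_le.2 (by
      rintro _ ⟨j, rfl⟩; exact h j)) hb
    mono := fun _ _ _ _ ⟨i, h0, h, u⟩ e => ⟨i, h0, fun j => e (h j), u.mono e⟩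
    down := fun _ _ _ _ f ⟨i, h0, h⟩ e u => ⟨i, h0, h, e.ut (GCrt.div_mem h f)
      ((uf_iff h0 fun j => e.1 (h j)).1 u)⟩
    ne := fun _ _ _ ⟨_, _, _, u⟩ => (div_ne_zero_iff.1 u.1).1
    div := fun d G G' S f ⟨i, h0, h, u⟩ => by
      have e : G' / G = G' / ξ i ^ d / (G / ξ i ^ d) :=
        (div_div_div_cancel_right₀ (pow_ne_zero d h0) _ _).symm
      rw [uf_iff h0 h, e]
      refine ⟨div_eq_mul_inv (G' / ξ i ^ d) _ ▸ mul_mem (GCrt.div_mem h f) u.2.2,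
        fun v => ?_, fun v => v.div u⟩
      have := v.mul u
      rwa [div_mul_cancel₀ _ u.1] at this
    umul := fun d d' G G' S ⟨i, h0, h, u⟩ v => ⟨i, h0, h, by
      rw [pow_add, ← div_mul_div_comm]; exact u.mul ((uf_iff h0 h).1 v)⟩
    upow := fun d G n S ⟨i, h0, h, u⟩ => ⟨i, h0, h, by
      rw [pow_mul, ← div_pow]; exact u.pow n⟩
    uadd := fun d G G' S _ f ⟨i, h0, h, u⟩ v => ⟨i, h0, h, by
      rw [add_div]; exact u.add (nu_of h0 h f v)⟩
    nadd := fun d G G' S _ ⟨i, h0, h⟩ f f' v v' u => by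
      rw [uf_iff h0 h, add_div] at u
      exact ((nu_of h0 h f v).add (nu_of h0 h f' v')).not u
    nmul := fun d d' G G' S f f' v ⟨i, h0, h, u⟩ => by
      rw [pow_add, ← div_mul_div_comm, mul_comm] at u
      exact ((nu_of h0 h f v).mul (GCrt.div_mem h f')).not u }

end Pool.Agent.MP_f3836a_nt.GQ
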