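import Pool.Agent.MP_f3836a_nt.GQ.SpecM
import Pool.Agent.MP_f3836a_nt.GP.TAp
import Pool.Agent.MP_f3836a_nt.GP.GPw

/-! Part GQ: the key lemma at a point which is regular in codimension one. -/

set_option autoImplicit false

namespace Pool.Agent.MP_f3836a_nt.GQ

open Polynomial IsLocalRing PK VE.W VE.Z GP

namespace QKey

/-- an alternating pairing which kills pairs with disjoint support -/
theorem abs {K I : Type} [Field K] (v : I → K → ℤ) (k : K → K → ℤ)
    (vm : ∀ C f g, f ≠ 0 → g ≠ 0 → v C (f * g) = v C f + v C g)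
    (vz : ∀ C f (n : ℤ), f ≠ 0 → v C (f ^ n) = n * v C f) (fin : ∀ f, {C | v C f ≠ 0}.Finite)
    (km : ∀ f f' g, f ≠ 0 → f' ≠ 0 → g ≠ 0 → k (f * f') g = k f g + k f' g)
    (ka : ∀ f g, f ≠ 0 → g ≠ 0 → k f g = -k g f)
    (dis : ∀ f g, f ≠ 0 → g ≠ 0 → (∀ C, v C f = 0 ∨ v C g = 0) → k f g = 0)
    (ap : ∀ (C : I) (T : Set I), T.Finite → ∃ π, π ≠ 0 ∧ v C π = 1 ∧ ∀ C' ∈ T, C' ≠ C → v C' π = 0)
    (f g : K) (hf : f ≠ 0) (hg : g ≠ 0) : k f g = 0 := by
  classical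
  have kz : ∀ f g (n : ℤ), f ≠ 0 → g ≠ 0 → k (f ^ n) g = n * k f g := fun f g n a b => by
    induction n using Int.induction_on with
    | zero =>
      have := km 1 1 g one_ne_zero one_ne_zero b
      rw [mul_one] at this
      rw [zpow_zero]; omega
    | succ n ih => rw [zpow_add_one₀ a, km _ _ _ (zpow_ne_zero _ a) a b, ih]; ring
    | pred n ih =>
      have := km (f ^ (-(n : ℤ) - 1)) f g (zpow_ne_zero _ a) a b
      rw [← zpow_add_one₀ a, sub_add_cancel, ih] at this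
      linear_combination -this
  have cut : ∀ f π g (n : ℤ), f ≠ 0 → π ≠ 0 → g ≠ 0 → k f g = k (f * π ^ (-n)) g + n * k π g :=
    fun f π g n a b c => by rw [km _ _ _ a (zpow_ne_zero _ b) c, kz _ _ _ b c]; ring
  have vc : ∀ C f π (n : ℤ), f ≠ 0 → π ≠ 0 → v C (f * π ^ (-n)) = v C f - n * v C π :=
    fun C f π n a b => by rw [vm _ _ _ a (zpow_ne_zero _ b), vz _ _ _ b]; ring
  have same : ∀ C x y z, x ≠ 0 → y ≠ 0 → z ≠ 0 → v C x = 1 → v C y = 1 →
      (∀ C', C' ≠ C → v C' x = 0 ∨ v C' z = 0) → (∀ C', C' ≠ C → v C' y = 0 ∨ v C' z = 0) →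
      k x z = k y z := fun C x y z a b c e e' h h' => by
    rw [cut x y z 1 a b c, dis _ _ (mul_ne_zero a (zpow_ne_zero _ b)) c fun C' => ?_, zero_add,
      one_mul]
    rw [vc _ _ _ _ a b]
    by_cases q : C' = C
    · subst q; omega
    · have := h C' q
      have := h' C' q
      omega
  have one : ∀ C x y, x ≠ 0 → y ≠ 0 → v C x = 1 → v C y = 1 →
      (∀ C', C' ≠ C → v C' x = 0 ∨ v C' y = 0) → k x y = 0 := fun C x y a b e e' h => by
    obtain ⟨z, c, e'', hz⟩ := ap C _ ((fin x).union (fin y))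
    have h1 : ∀ C', C' ≠ C → v C' z = 0 ∨ v C' x = 0 := fun C' q =>
      or_iff_not_imp_right.2 fun w => hz C' (.inl w) q
    have h2 : ∀ C', C' ≠ C → v C' z = 0 ∨ v C' y = 0 := fun C' q =>
      or_iff_not_imp_right.2 fun w => hz C' (.inr w) q
    have a1 := same C x z y a c b e e'' h h2
    have a2 := same C y x z b a c e' e (fun C' q => (h2 C' q).symm) fun C' q => (h1 C' q).symm
    have a3 := same C z y x c b a e'' e' h1 fun C' q => (h C' q).symm
    have a4 := ka z y c b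
    have a5 := ka x z a c
    have a6 := ka x y a b
    omega
  have two : ∀ C x, x ≠ 0 → v C x = 1 → (∀ C', C' ≠ C → v C' x = 0 ∨ v C' g = 0) → k x g = 0 :=
    fun C x a e h => by
      obtain ⟨z, c, e', hz⟩ := ap C _ (fin x)
      have h1 : ∀ C', C' ≠ C → v C' z = 0 ∨ v C' x = 0 := fun C' q =>
        or_iff_not_imp_right.2 fun w => hz C' w q
      rw [ka x g a hg, cut g z x (v C g) hg c a, one C z x c a e' e h1,
        dis _ _ (mul_ne_zero hg (zpow_ne_zero _ c)) a fun C' => ?_]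
      · simp
      rw [vc _ _ _ _ hg c]
      by_cases q : C' = C
      · subst q; rw [e']; omega
      · rcases h1 C' q with w | w
        · rw [w]; have := h C' q; omega
        · exact .inr w
  suffices H : ∀ s : Finset I, ∀ f, f ≠ 0 → (∀ C, C ∉ s → v C f = 0 ∨ v C g = 0) → k f g = 0 from
    H (fin g).toFinset f hf fun C q => .inr (by simpa using q)
  intro s
  induction s using Finset.induction_on with
  | empty => exact fun f a h => dis f g a hg fun C => h C (by simp)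
  | insert C s _ ih =>
    intro f a h
    obtain ⟨z, c, e, hz⟩ := ap C _ (fin g)
    have h1 : ∀ C', C' ≠ C → v C' z = 0 ∨ v C' g = 0 := fun C' q =>
      or_iff_not_imp_right.2 fun w => hz C' w q
    rw [cut f z g (v C f) a c hg, two C z c e h1,
      ih _ (mul_ne_zero a (zpow_ne_zero _ c)) fun C' w => ?_]
    · simp
    rw [vc _ _ _ _ a c]
    by_cases q : C' = C
    · subst q; rw [e]; omega
    · rcases h1 C' q with u | u
      · rw [u]; have := h C' (by simp [q, w]); omega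
      · exact .inr u

variable {K : Type} [Field K] {D : Subring K} {I : Type} {O : I → Subring K} {κ : I → Type}
  [∀ C, Field (κ C)] {r : ∀ C, O C →+* κ C}

theorem dvr (hT : Thr D O r) (C : I) : Dvr (O C) := ⟨(hT.dv C).dvr, (hT.dv C).frac⟩

theorem ap (hT : Thr D O r) (C : I) {T : Set I} (h : T.Finite) :
    ∃ π, π ≠ 0 ∧ ordR (O C) π = 1 ∧ ∀ C' ∈ T, C' ≠ C → ordR (O C') π = 0 := by
  classical
  have A := dvA (dvr hT C)
  obtain ⟨π, p0, p1⟩ := A.uni
  obtain ⟨w, hw⟩ := tAp K ((insert C h.toFinset).image O) (fun S hS => by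
    obtain ⟨C', -, rfl⟩ := Finset.mem_image.1 hS
    exact dvr hT C') (fun S => if S = O C then π else 1) 2 fun S _ => by
      split_ifs with e
      exacts [e ▸ (A.mem π p0).2 (by omega), S.one_mem]
  obtain ⟨a, b⟩ := (gPw K (O C)).2.2.2.1 (dvr hT C) π w p0 p1
    (by simpa using (hw _ (Finset.mem_image_of_mem O (Finset.mem_insert_self _ _))).2)
  refine ⟨w, a, b, fun C' m e => ?_⟩
  have A' := dvA (dvr hT C')
  have := A'.loc
  exact ((A'.ut w).1 (ut_of_nu ut_one ((gPw K _).2.2.1 this 2 _ two_pos (by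
    simpa [hT.inj.ne e] using (hw _ (Finset.mem_image_of_mem O
      (Finset.mem_insert_of_mem (h.mem_toFinset.2 m)))).2)))).2

/-- denominators prime to finitely many curves -/
theorem den (hD : Loc2 D) (hT : Thr D O r) {f : K} (hf : f ≠ 0) {T : Set I} (h : T.Finite)
    (e : ∀ C ∈ T, D ≤ O C ∧ ordR (O C) f = 0) : ∃ a b : D, a ≠ 0 ∧ b ≠ 0 ∧ f * b = a ∧
      ∀ C ∈ T, ordR (O C) (a : K) = 0 ∧ ordR (O C) (b : K) = 0 := by
  have hq : ∀ C, ∃ q : Ideal D, q.IsPrime ∧ (C ∈ T → (∃ a b : D, b ∉ q ∧ f * b = a) ∧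
      ∀ b : D, b ≠ 0 → b ∉ q → ordR (O C) (b : K) = 0) := fun C => by
    by_cases m : C ∈ T
    · obtain ⟨q, p, -, e', o⟩ := WKb.loc odS hD hT (e C m).1
      exact ⟨q, p, fun _ => ⟨mem_lc.1 (e' ▸ ((dvA (dvr hT C)).mem f hf).2 (e C m).2.ge),
        fun b b0 hb => (o.ord b b0).2.2 hb⟩⟩
    · exact ⟨⊥, Ideal.isPrime_bot, fun w => absurd w m⟩
  choose q q1 q2 using hq
  let J : Ideal D :=
    { carrier := {b | f * b ∈ D}
      add_mem' := fun ha hb => by
        rw [Set.mem_ofPred_eq, Subring.coe_add, mul_add]; exact D.add_mem ha hb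
      zero_mem' := by simp
      smul_mem' := fun c b hb => by
        rw [Set.mem_ofPred_eq, smul_eq_mul, Subring.coe_mul, mul_left_comm]
        exact D.mul_mem c.2 hb }
  have := (Ideal.subset_union_prime_finite ((h.image q).insert ⊥) (f := id) ⊥ ⊥ (I := J) (by
    rintro _ (rfl | ⟨C, -, rfl⟩) w -
    exacts [absurd rfl w, q1 C])).not.2 (by
      rintro ⟨_, rfl | ⟨C, m, rfl⟩, w⟩
      · obtain ⟨a, b, -, hb, e⟩ := WKb.frac hD.frac hf
        exact hb (w (show f * b ∈ D from e ▸ a.2))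
      · obtain ⟨a, b, hb, e⟩ := (q2 C m).1
        exact hb (w (show f * b ∈ D from e ▸ a.2)))
  obtain ⟨b, b1, b2⟩ := Set.not_subset.1 this
  simp only [Set.mem_iUnion, not_exists] at b2
  have b0 : b ≠ 0 := b2 ⊥ (.inl rfl)
  refine ⟨⟨f * b, b1⟩, b, fun w => mul_ne_zero hf (WKb.ne b0) (congrArg Subtype.val w), b0, rfl,
    fun C m => ?_⟩
  have := (q2 C m).2 b b0 (b2 _ (.inr ⟨C, m, rfl⟩))
  exact ⟨by rw [(dvA (dvr hT C)).mul _ _ hf (WKb.ne b0), (e C m).2, this, add_zero], this⟩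

theorem dis (hD : Loc2 D) (hT : Thr D O r) {f g : K} (hf : f ≠ 0) (hg : g ≠ 0)
    (h : ∀ C, D ≤ O C → ordR (O C) f = 0 ∨ ordR (O C) g = 0) : Kf D O r f g = 0 := by
  obtain ⟨fin, mul, anti, -⟩ := kbS K D I O κ r hD hT
  have h0 : ∀ a c : D, a ≠ 0 → c ≠ 0 →
      (∀ C, D ≤ O C → ordR (O C) (a : K) ≠ 0 → ordR (O C) (c : K) = 0) → Kf D O r c a = 0 :=
    fun a c a0 c0 e => fulS K D I O κ r hD hT c a ⟨c0, a0, fun q p m m' => by
      by_contra n
      have q0 : q ≠ ⊥ := fun w => a0 (by rwa [w] at m')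
      obtain ⟨C, w⟩ := hT.ex _ ⟨q, p, q0, n, rfl⟩
      have o := odS K _ D _ q _ hD q0 n w (hT.dv C)
      exact (o.ord c c0).2.1 (e C (w ▸ le_lc D q) fun z => (o.ord a a0).2.1 z m') m⟩
  have h1 : ∀ x y : K, x ≠ 0 → y ≠ 0 →
      (∀ C, D ≤ O C → ordR (O C) x = 0 ∨ ordR (O C) y = 0) → (∀ c : D, c ≠ 0 →
        (∀ C, D ≤ O C → ordR (O C) y ≠ 0 → ordR (O C) (c : K) = 0) → Kf D O r c y = 0) →
      Kf D O r x y = 0 := fun x y x0 y0 e k => by
    obtain ⟨a, b, a0, b0, w, z⟩ := den hD hT x0 (fin y) fun C m =>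
      ⟨m.1, (e C m.1).resolve_right m.2⟩
    have := mul _ _ _ x0 (WKb.ne b0) y0
    rw [w, k a a0 fun C l n => (z C ⟨l, n⟩).1, k b b0 fun C l n => (z C ⟨l, n⟩).2] at this
    omega
  refine h1 f g hf hg h fun c c0 e => ?_
  rw [anti _ _ (WKb.ne c0) hg, h1 g c hg (WKb.ne c0)
    (fun C l => or_iff_not_imp_left.2 (e C l)) fun a a0 e' => h0 c a c0 a0 e', neg_zero]

end QKey

open QKey

theorem qKeyL : KeyL := by
  intro K _ D I O κ _ r hD hT f g hf hg
  obtain ⟨fin, mul, anti, -⟩ := kbS K D I O κ r hD hT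
  refine abs (I := {C // D ≤ O C}) (fun C => ordR (O C.1)) (Kf D O r)
    (fun C => (dvA (dvr hT C.1)).mul) (fun C => (dvA (dvr hT C.1)).zpow)
    (fun f => ((fin f).preimage Subtype.val_injective.injOn).subset fun C h => ⟨C.2, h⟩) mul anti
    (fun f g a b h => dis hD hT a b fun C l => h ⟨C, l⟩) (fun C T h => ?_) f g hf hg
  obtain ⟨π, a, b, c⟩ := ap hT C.1 (h.image Subtype.val)
  exact ⟨π, a, b, fun C' m e => c _ ⟨C', m, rfl⟩ (Subtype.val_injective.ne e)⟩

theorem qKeyQ : OfKeyQ := by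
  intro hK K _ D hD f g hf hg
  have dv : ∀ C : {O // H1 D O}, Dvr C.1 ∧ D ≤ C.1 := by
    rintro ⟨_, q, _, a, b, rfl⟩
    exact ⟨⟨hD.dvr q a b, fun z => by
      obtain ⟨x, y, u, w⟩ := hD.frac z
      exact ⟨⟨x, le_lc D q x.2⟩, ⟨y, le_lc D q y.2⟩, u, w⟩⟩, le_lc D q⟩
  have loc : ∀ C : {O // H1 D O}, IsLocalRing C.1 := fun C => (dvA (dv C).1).loc
  have hT : Thr D (Subtype.val : {O // H1 D O} → Subring K) fun C => residue C.1 :=
    ⟨Subtype.val_injective, fun C => (dvA (dv C).1).dv, fun C _ => C.2, fun S h => ⟨⟨S, h⟩, rfl⟩⟩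
  refine ⟨(((kbS K D _ _ _ _ hD hT).1 f).image Subtype.val).subset fun S h =>
    ⟨⟨S, h.1⟩, ⟨(dv ⟨S, h.1⟩).2, h.2⟩, rfl⟩, ?_⟩
  rw [← finsum_subtype_eq_finsum_cond, ← hK K D _ _ _ _ hD hT f g hf hg]
  exact finsum_congr fun C => by rw [oK_eq]; rfl

end Pool.Agent.MP_f3836a_nt.GQ
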