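import Pool.Agent.MP_f3836a_nt.GQ.SpecM
import Pool.Agent.MP_f3836a_nt.GP.TNb

/-! Part GQ: the transported family kills all symbols. -/

set_option autoImplicit false

namespace Pool.Agent.MP_f3836a_nt.GQ

open Polynomial IsLocalRing PK VE.W VE.Z GP IntermediateField

namespace QKs

theorem int {L κ : Type} [Field L] [Field κ] {A O : Subring L} {r : A →+* κ} [IsLocalRing O]
    (hr : Rm A r) (h : Dom A O) {z : L} (hz : z ∈ O) (k : Itg O z) : IsIntegral ℤ (nmW r O z) := by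
  obtain ⟨ν, hν⟩ := hr.nv h
  rw [nmW_eq hr.surj hν, resR, dif_pos hz]
  let := ν.toAlgebra
  exact TNb.nint ((TNb.itg hz).1 k)

end QKs

theorem qKs : OfKs := by
  intro _ _ hH hT S M lam y kb sf
  have H := hH S
  have T := hT S y sf
  have := sf.2
  have cw : ∀ O, Pl O ∨ O ∈ S.VV M y → S.Cw y O := by
    rintro O (h | ⟨C, h, a, b⟩)
    · obtain ⟨C, h, a, b⟩ := (T.pl O).1 h
      exact ⟨C, h, a.1, b⟩
    · exact ⟨C, h, a.1, b⟩
  have dv : ∀ V ∈ S.VV M y, Dvr V ∧ Nu V M := fun V hV => ⟨T.dvr V (cw V (.inr hV)), by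
    obtain ⟨C, h, a, b⟩ := hV
    exact b.2.2 _ ((H.nu h M).2 a.2)⟩
  refine ⟨⟨kb.ne, (T.fin M).subset fun V k => ⟨cw V (.inr k),
    ((((dvA (dv V k).1).nu _).1 (dv V k).2).resolve_left (Nat.cast_ne_zero.2 kb.ne)).ne'⟩, dv,
    fun O o => ?_, fun f g f0 g0 => ?_⟩, fun ku O u o hu ⟨n, n0, nc, i1, i2⟩ => ?_⟩
  · obtain ⟨C, h, a, b⟩ := cw O o
    obtain ⟨k1, k2, k3, -⟩ := T.nm C h O a b
    refine ⟨fun u u' e e' => ?_, fun u u' e e' k => ?_⟩ <;> simp only [T.eq lam C h O _ a b]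
    · rw [k2 u u' e e', kb.add C _ _ (k1 u e) (k1 u' e')]
    · rw [k3 u u' e.2.1 e'.2.1 k]
  · rw [← kb.bd y f g sf f0 g0, T.sum lam f g kb.add f0 g0]
    refine finsum_mem_inter_support_eq' _ {O | Pl O ∨ O ∈ S.VV M y} {O | S.Cw y O}
      fun O k => ⟨cw O, fun ⟨C, h, a, b⟩ => by_contra fun e => k ?_⟩
    exact (T.eq lam C h O _ a b).trans (kb.off C _ (fun z => e (.inl ((T.pl O).2 ⟨C, h, z, b⟩)))
      fun z => e (.inr ⟨C, h, z, b⟩))
  · obtain ⟨C, h, a, b⟩ := (T.pl O).1 o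
    obtain ⟨k1, k2, -, d, -, k4⟩ := T.nm C h O a.1 b
    have := o.1.dvr
    have un := ho_ut o.2 n0
    have e : ∀ z, Ut O z → Itg O (n * z) → IsIntegral ℤ ((n ^ d : ℕ) * nmW (S.r h) O z) :=
      fun z hz k => by
        have := QKs.int (S.rm h) b.2 (un.mul hz).2.1 k
        rwa [k2 _ _ un hz, show nmW (S.r h) O n = (n ^ d : ℕ) by simpa using k4 n] at this
    have e1 : nmW (S.r h) O u⁻¹ = (nmW (S.r h) O u)⁻¹ := eq_inv_of_mul_eq_one_right (by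
      rw [← k2 _ _ hu hu.inv, mul_inv_cancel₀ hu.1]; simpa using k4 1)
    rw [T.eq lam C h O _ a.1 b]
    exact ku C _ a (k1 u hu) ⟨n ^ d, pow_ne_zero _ n0, nc.pow_left d, e u hu i1,
      e1 ▸ e _ hu.inv i2⟩

end Pool.Agent.MP_f3836a_nt.GQ
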