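import Pool.Agent.MP_f3836a_nt.GQ.SpecM
import Pool.Agent.MP_f3836a_nt.VE.ZSd

/-! Part GQ: the points of a model. -/

set_option autoImplicit false

namespace Pool.Agent.MP_f3836a_nt.GQ

open IsLocalRing PK VE.W VE.Z GP

namespace QMd

variable {L ι : Type} [Field L] {ξ : ι → L}

theorem le (i : ι) (S : Subring L) : Ch ξ i ≤ S ↔ ∀ j, ξ j / ξ i ∈ S :=
  Subring.closure_le.trans Set.range_subset_iff

theorem ft [Finite ι] (i : ι) : Algebra.FiniteType ℤ (Ch ξ i) := by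
  have e : (MvPolynomial.eval₂Hom (Int.castRingHom L) fun j => ξ j / ξ i).range = Ch ξ i :=
    le_antisymm ((zd_le _ _).2 fun j => by simpa using (le i _).1 le_rfl j)
      ((le i _).2 fun j => ⟨MvPolynomial.X j, by simp⟩)
  exact e ▸ zd_ft _

theorem mono {D D' S S' : Subring L} (hD : Pt ξ D) (hD' : Pt ξ D') (h : Dom D S) (h' : Dom D' S')
    (l : S ≤ S') : D ≤ D' := by
  obtain ⟨i, hi, q, _, e⟩ := hD
  obtain ⟨j, hj, q', _, e'⟩ := hD'
  have b1 : Ch ξ i ≤ S' := ((le_lc _ q).trans (e ▸ h.1)).trans l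
  have b2 := (le j _).1 ((le_lc _ q').trans e'.ge)
  have u : Ut D' (ξ i / ξ j) := h'.ut (b2 i)
    ⟨div_ne_zero hi hj, h'.1 (b2 i), by rw [inv_div]; exact (le i _).1 b1 j⟩
  have b3 : Ch ξ i ≤ D' := (le i _).2 fun k => by
    have := mul_mem (b2 k) u.2.2
    rwa [inv_div, div_mul_div_cancel₀ hj] at this
  intro w hw
  obtain ⟨a, b, hb, e1⟩ := mem_lc.1 (e.le hw)
  have ub : Ut D' (b : L) := h'.ut (b3 b.2) ((((zb_ut b).2 hb).mono (e ▸ h.1)).mono l)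
  rw [eq_div_of_mul_eq ub.1 e1, div_eq_mul_inv]
  exact mul_mem (b3 a.2) ub.2.2

theorem loc {S : Subring L} (h : Pt ξ S) : IsLocalRing S := by
  obtain ⟨i, hi, q, _, rfl⟩ := h
  infer_instance

theorem chart {i : ι} {S : Subring L} (hi : ξ i ≠ 0) (h : Pt ξ S) (e : Ch ξ i ≤ S) :
    ∃ (q : Ideal (Ch ξ i)) (_ : q.IsPrime), S = lc _ q := by
  have := loc h
  obtain ⟨q, hq, c⟩ := zb_cen e
  exact ⟨q, hq, le_antisymm (mono h ⟨i, hi, q, hq, rfl⟩ ⟨le_rfl, fun _ k => k⟩ c le_rfl) c.1⟩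

theorem cen {S : Subring L} (h : IsLocalRing S) (c : Cht ξ S) : ∃ D, Pt ξ D ∧ Dom D S := by
  obtain ⟨i, hi, c⟩ := c
  obtain ⟨q, hq, k⟩ := zb_cen ((le i S).2 c)
  exact ⟨_, ⟨i, hi, q, hq, rfl⟩, k⟩

theorem val [Fintype ι] (h : ∃ i, ξ i ≠ 0) {W : Subring L} (hW : Vr W) : Cht ξ W := by
  classical
  have k : ∀ s : Finset ι, ∃ i, ξ i ≠ 0 ∧ ∀ j ∈ s, ξ j / ξ i ∈ W := fun s => by
    induction s using Finset.induction_on with
    | empty => exact h.imp fun i hi => ⟨hi, by simp⟩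
    | insert a s _ ih =>
      obtain ⟨i, hi, e⟩ := ih
      by_cases c : ξ a / ξ i ∈ W
      · exact ⟨i, hi, Finset.forall_mem_insert _ _ _ |>.2 ⟨c, e⟩⟩
      · have a0 : ξ a ≠ 0 := fun z => c (by rw [z, zero_div]; exact W.zero_mem)
        refine ⟨a, a0, Finset.forall_mem_insert _ _ _ |>.2
          ⟨by rw [div_self a0]; exact W.one_mem, fun j hj => ?_⟩⟩
        have := mul_mem (e j hj) ((hW _).resolve_left c)
        rwa [inv_div, div_mul_div_cancel₀ hi] at this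
  exact (k Finset.univ).imp fun i e => ⟨e.1, fun j => e.2 j (Finset.mem_univ j)⟩

theorem nu {B : Subring L} {m : Ideal B} [m.IsPrime] {c : B} (h : c ∈ m) : Nu (lc B m) (c : L) :=
  (nu_iff_not (le_lc B m c.2)).2 fun k => (zb_ut c).1 k h

theorem res {B : Subring L} {m : Ideal B} [m.IsPrime] (h : m.IsMaximal) {z : L}
    (hz : z ∈ lc B m) : ∃ b ∈ B, Nu (lc B m) (z - b) := by
  obtain ⟨a, b, hb, e⟩ := mem_lc.1 hz
  obtain ⟨y, c, hc, e'⟩ := h.exists_inv hb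
  have e'' : (y : L) * b + c = 1 := congrArg Subtype.val e'
  refine ⟨y * a, mul_mem y.2 a.2, ?_⟩
  convert (nu hc).mul hz using 1
  rw [← e]
  linear_combination (-z) * e''

theorem fin {B : Subring L} {m : Ideal B} [m.IsPrime] (h : m.IsMaximal) [Finite (B ⧸ m)] :
    Finite (ResidueField (lc B m)) :=
  Finite.of_surjective (Ideal.Quotient.lift m ((residue _).comp (Subring.inclusion (le_lc B m)))
    fun c hc => (residue_eq_zero_iff _).2 ((nu_iff (Subring.inclusion (le_lc B m) c)).1 (nu hc)))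
    fun t => by
      obtain ⟨z, rfl⟩ := residue_surjective t
      obtain ⟨b, hb, e⟩ := res h z.2
      refine ⟨Ideal.Quotient.mk m ⟨b, hb⟩, (Ideal.Quotient.eq.2 ?_).symm⟩
      exact (nu_iff (z - Subring.inclusion (le_lc B m) ⟨b, hb⟩)).1 e

theorem cl [Finite ι] {i : ι} (hi : ξ i ≠ 0) {m q : Ideal (Ch ξ i)} [q.IsPrime]
    [hm : m.IsMaximal] (l : q ≤ m) : Pt ξ (lc _ m) ∧ Alg (lc _ m) ∧ lc _ m ≤ lc _ q :=
  have := ft (ξ := ξ) i
  have := za_fin m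
  ⟨⟨i, hi, m, inferInstance, rfl⟩, zb_alg m, ((wLc L _).le m q).2 l⟩

end QMd

open QMd in
theorem qMd : OfMd := by
  intro sec spc L ι _ _ ξ m
  have cht : ∀ S, Pt ξ S → Cht ξ S := fun S ⟨i, hi, q, _, e⟩ =>
    ⟨i, hi, (le i S).1 ((le_lc _ q).trans e.ge)⟩
  refine ⟨fun _ => loc, ?_, fun S ⟨i, hi, q, _, e⟩ => zb_fr (m.2 i hi) ((le_lc _ q).trans e.ge),
    cht, ?_, ft, le, fun _ _ => chart, fun _ => cen, fun _ => val m.1, fun _ _ _ _ => mono,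
    ?_, ?_, ?_, ?_, ?_, ?_, ?_, fun S p _ h ho hp => ?_⟩
  · rintro _ ⟨i, hi, q, _, rfl⟩
    have := ft (ξ := ξ) i
    exact (wLc L _).noeth q (Algebra.FiniteType.isNoetherianRing ℤ _)
  · obtain ⟨i, hi⟩ := m.1
    exact ⟨i, hi, ⊥, Ideal.isPrime_bot, (((wLc L _).top ⊥ (m.2 i hi)).2 rfl).symm⟩
  · rintro D q' _ ⟨i, hi, q, _, rfl⟩
    obtain ⟨q₀, h0, k⟩ := (wLc L _).dn q q'
    exact ⟨i, hi, q₀, h0, k.eq⟩
  · rintro D S ⟨i, hi, q, _, rfl⟩ h l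
    obtain ⟨q₀, _, rfl⟩ := chart hi h ((le_lc _ q).trans l)
    obtain ⟨q', h', k⟩ := (wLc L _).up q q₀ (((wLc L _).le _ _).1 l)
    exact ⟨q', h', k.eq.symm⟩
  · rintro _ ⟨i, hi, q, hq, rfl⟩
    obtain ⟨n, hn, l⟩ := q.exists_le_maximal hq.ne_top
    exact ⟨_, cl hi l⟩
  · rintro D _ h ⟨j, hj, q', hq', rfl⟩ a l
    obtain ⟨q, _, rfl⟩ := chart hj h ((le_lc _ q').trans l)
    obtain rfl : q = q' := (zb_max q a).eq_of_le hq'.ne_top (((wLc L _).le q' q).1 l)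
    rfl
  · rintro D _ ⟨i, hi, q, _, rfl⟩ a
    have := ft (ξ := ξ) i
    have := zb_max q a
    have := za_fin q
    exact fin ‹_›
  · intro i D hi h a l z hz
    obtain ⟨q, _, rfl⟩ := chart hi h l
    exact res (zb_max q a) hz
  · rintro _ D ⟨i, hi, q, hq, rfl⟩ a
    have := ft (ξ := ξ) i
    obtain ⟨n, n', hn, hn', l, l', e⟩ := sec _ q hq fun k => a (cl hi le_rfl).2.1
    by_cases c : lc _ n = D
    · refine ⟨_, (cl hi l').1, (cl hi l').2.1, (cl hi l').2.2, fun c' => e ?_⟩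
      exact le_antisymm (((wLc L _).le _ _).1 (c'.trans c.symm).le)
        (((wLc L _).le _ _).1 (c.trans c'.symm).le)
    · exact ⟨_, (cl hi l).1, (cl hi l).2.1, (cl hi l).2.2, c⟩
  · obtain ⟨S₀, a, b, c, d⟩ := spc L ι ξ S p (loc h) ho hp (cht S h)
    obtain ⟨D, e, f⟩ := cen a c
    exact ⟨D, e, f.1.trans b, nu_down f.1 (natCast_mem D p) d⟩

end Pool.Agent.MP_f3836a_nt.GQ
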