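import Pool.Agent.MP_f3836a_nt.GQ.SpecM
import Pool.Agent.MP_f3836a_nt.VE.ZSb

/-! Part GQ: the maximal ideals of a finite extension. -/

set_option autoImplicit false

namespace Pool.Agent.MP_f3836a_nt.GQ

open Polynomial IsLocalRing PK VE.W VE.Z GP

namespace QMx

variable {κ κ' : Type} [Field κ] [Field κ'] {ν : κ →+* κ'} {A : Subring κ} {A' : Subring κ'}

/-- the map of rings -/
def φ (h : Fnt (A.map ν) A') : A →+* A' :=
  (ν.comp A.subtype).codRestrict A' fun a => h.1 ⟨a, a.2, rfl⟩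

theorem inj (h : Fnt (A.map ν) A') : Function.Injective (φ h) := fun _ _ e =>
  Subtype.ext (ν.injective (congrArg Subtype.val e))

theorem fin (h : Fnt (A.map ν) A') : letI := (φ h).toAlgebra; Module.Finite A A' := by
  let := (φ h).toAlgebra
  obtain ⟨s, h1, h2⟩ := h.2
  refine ⟨Submodule.fg_def.2 ⟨Subtype.val ⁻¹' (s : Set κ'),
    s.finite_toSet.preimage Subtype.val_injective.injOn, eq_top_iff.2 fun z _ => ?_⟩⟩
  have k : ∀ x ∈ Submodule.span (A.map ν) (s : Set κ'), ∃ hx : x ∈ A',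
      (⟨x, hx⟩ : A') ∈ Submodule.span A (Subtype.val ⁻¹' (s : Set κ') : Set A') := by
    intro x hx
    induction hx using Submodule.span_induction with
    | mem x hx => exact ⟨h1 x hx, Submodule.subset_span hx⟩
    | zero => exact ⟨A'.zero_mem, Submodule.zero_mem _⟩
    | add x y _ _ a b => exact ⟨A'.add_mem a.1 b.1, Submodule.add_mem _ a.2 b.2⟩
    | smul c x _ a =>
      obtain ⟨c, b, hb, rfl⟩ := c
      exact ⟨A'.mul_mem (h.1 ⟨b, hb, rfl⟩) a.1, Submodule.smul_mem _ (⟨b, hb⟩ : A) a.2⟩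
  exact (k z (h2 z z.2)).2

theorem den (fr : Fr A') (h : Fnt (A.map ν) A') (t : κ') : ∃ a : A, a ≠ 0 ∧ ν a * t ∈ A' := by
  let := (φ h).toAlgebra
  have := fin h
  obtain ⟨x, y, y0, e⟩ := fr t
  obtain ⟨a, ha, a0⟩ := Submodule.exists_mem_ne_zero_of_ne_bot
    (Ideal.comap_ne_bot_of_integral_mem (R := A) (fun k => y0 (congrArg Subtype.val k))
      (Ideal.mem_span_singleton_self y) (Algebra.IsIntegral.isIntegral y))
  obtain ⟨c, hc⟩ := Ideal.mem_span_singleton'.1 ha
  refine ⟨a, a0, ?_⟩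
  have e' : (c : κ') * y = ν a := congrArg Subtype.val hc
  rw [← e', mul_assoc, mul_comm (y : κ'), e]
  exact A'.mul_mem c.2 x.2

theorem finK (fr : Fr A') (h : Fnt (A.map ν) A') :
    letI := ν.toAlgebra; Module.Finite κ κ' := by
  let := ν.toAlgebra
  obtain ⟨s, -, h2⟩ := h.2
  refine ⟨s, eq_top_iff.2 fun t _ => ?_⟩
  have k : ∀ x ∈ Submodule.span (A.map ν) (s : Set κ'), x ∈ Submodule.span κ (s : Set κ') := by
    intro x hx
    induction hx using Submodule.span_induction with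
    | mem x hx => exact Submodule.subset_span hx
    | zero => exact Submodule.zero_mem _
    | add x y _ _ a b => exact Submodule.add_mem _ a b
    | smul c x _ a =>
      obtain ⟨c, b, hb, rfl⟩ := c
      exact Submodule.smul_mem _ b a
  obtain ⟨a, a0, ha⟩ := den fr h t
  exact (Submodule.smul_mem_iff _ fun e => a0 (Subtype.ext e)).1 (k _ (h2 _ ha))

theorem com (fr : Fr A) (f : ℕ → κ) (N : ℕ) : ∃ c : A, c ≠ 0 ∧ ∀ n < N, f n * c ∈ A := by
  induction N with
  | zero => exact ⟨1, one_ne_zero, fun n hn => absurd hn (Nat.not_lt_zero n)⟩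
  | succ N ih =>
    obtain ⟨c, c0, hc⟩ := ih
    obtain ⟨a, b, b0, e⟩ := fr (f N)
    refine ⟨c * b, mul_ne_zero c0 fun k => b0 (congrArg Subtype.val k), fun n hn => ?_⟩
    rw [Subring.coe_mul]
    rcases Nat.lt_succ_iff_lt_or_eq.1 hn with k | rfl
    · rw [← mul_assoc]; exact A.mul_mem (hc n k) b.2
    · rw [mul_left_comm, e]; exact A.mul_mem c.2 a.2

theorem mp (fr : Fr A) (fr' : Fr A') (h : Fnt (A.map ν) A') (t : κ') :
    ∃ a : A, a ≠ 0 ∧ ν a * t ∈ A' ∧ ∀ n, (mpO ν (ν a * t)).coeff n ∈ A := by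
  let := ν.toAlgebra
  have := finK fr' h
  obtain ⟨a, a0, ha⟩ := den fr' h t
  obtain ⟨c, c0, hc⟩ := com fr (minpoly κ (ν a * t)).coeff (minpoly κ (ν a * t)).natDegree
  have i : IsIntegral κ (ν a * t) := Algebra.IsIntegral.isIntegral _
  have e : ν (c * a : A) * t = (c : κ) • (ν a * t) := by
    rw [Subring.coe_mul, map_mul, mul_assoc]; rfl
  refine ⟨c * a, mul_ne_zero c0 a0, e ▸ A'.mul_mem (h.1 ⟨c, c.2, rfl⟩) ha, fun n => ?_⟩
  change (minpoly κ (ν (c * a : A) * t)).coeff n ∈ A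
  rw [e, IsIntegrallyClosed.minpoly_smul (fun k => c0 (Subtype.ext k)) i, coeff_scaleRoots]
  rcases lt_trichotomy n (minpoly κ (ν a * t)).natDegree with k | k | k
  · obtain ⟨d, hd⟩ := Nat.exists_eq_add_of_lt k
    rw [show (minpoly κ (ν a * t)).natDegree - n = d + 1 by omega, pow_succ', ← mul_assoc]
    exact A.mul_mem (hc n k) (A.pow_mem c.2 d)
  · rw [k, Nat.sub_self, pow_zero, mul_one, (minpoly.monic i).coeff_natDegree]
    exact A.one_mem
  · rw [coeff_eq_zero_of_natDegree_lt k, zero_mul]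
    exact A.zero_mem

theorem nb [IsLocalRing A] (fr : Fr A) (ne : A ≠ ⊤) : maximalIdeal A ≠ ⊥ := fun e =>
  ne (eq_top_iff.2 fun z _ => by
    obtain ⟨a, b, b0, k⟩ := fr z
    have u : IsUnit b := by
      by_contra u
      exact b0 (congrArg Subtype.val ((Submodule.eq_bot_iff _).1 e b u))
    rw [eq_div_of_mul_eq b0 k, div_eq_mul_inv]
    exact A.mul_mem a.2 ((ut_iff b).2 u).2.2)

end QMx

open QMx in
theorem qMx : MxQ := by
  classical
  intro κ κ' _ _ ν A A' hA fr h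
  let := (φ h).toAlgebra
  have := fin h
  have := hA.loc
  have := hA.noeth
  have := hA.fin
  have cm : ∀ m : Ideal A', m.IsMaximal → m.comap (algebraMap A A') = maximalIdeal A :=
    fun m _ => eq_maximalIdeal (Ideal.isMaximal_comap_of_isIntegral_of_isMaximal m)
  refine ⟨?_, ?_, ?_, mp hA.fr fr h⟩
  · refine ((Algebra.QuasiFinite.finite_primesOver (S := A') (maximalIdeal A)).image
      fun m => if k : m.IsPrime then lc A' m else ⊤).subset ?_
    rintro S ⟨m, hp, hm, rfl⟩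
    exact ⟨m, ⟨hp, ⟨(cm m hm).symm⟩⟩, dif_pos hp⟩
  · rintro S ⟨m, hp, hm, rfl⟩
    have w := wLc κ' A'
    have : m.LiesOver (maximalIdeal A) := ⟨(cm m hm).symm⟩
    refine ⟨⟨inferInstance, w.noeth m (IsNoetherianRing.of_finite A A'), zb_fr fr (le_lc A' m),
      fun q' hq' q0 => ?_, fun e => nb hA.fr hA.ne ?_, ?_⟩, h.1.trans (le_lc A' m), ?_⟩
    · obtain ⟨q, hq, l⟩ := w.dn m q'
      exact l.max.2 ((Ideal.isMaximal_of_isIntegral_of_isMaximal_comap (R := A) q
        (hA.dim _ inferInstance fun e => q0 (l.bot.2 (Ideal.eq_bot_of_comap_eq_bot e)))).eq_of_le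
          hm.ne_top l.le)
    · rw [← cm m hm, (w.top m fr).1 e]
      exact Ideal.comap_bot_of_injective _ (inj h)
    · intro _
      have : Finite (A ⧸ maximalIdeal A) := hA.fin
      have : Finite (A' ⧸ m) := Module.finite_of_finite (A ⧸ maximalIdeal A)
      exact Finite.of_equiv _ (IsLocalization.AtPrime.equivQuotMaximalIdeal m (lc A' m)).toEquiv
    · intro z hz
      obtain ⟨a, ha, rfl⟩ := hz.1
      refine (nu_iff_not (le_lc A' m (φ h ⟨a, ha⟩).2)).2 fun u => (zb_ut (φ h ⟨a, ha⟩)).1 u ?_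
      refine (Ideal.mem_comap (f := algebraMap A A')).1 ((cm m hm).symm ▸ fun k => hz.not ?_)
      obtain ⟨k0, -, k2⟩ := (ut_iff _).2 k
      exact ⟨(map_ne_zero ν).2 k0, hz.1, _, k2, map_inv₀ ν a⟩
  · let := ν.toAlgebra
    have := finK fr h
    exact Module.finrank_pos

end Pool.Agent.MP_f3836a_nt.GQ
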