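import Pool.Agent.MP_f3836a_nt.GQ.SpecM
import Pool.Agent.MP_f3836a_nt.GP.TAp
import Pool.Agent.MP_f3836a_nt.GP.GPw
import Pool.Agent.MP_f3836a_nt.GP.GVal

/-! Part GQ: additive functions on a number field. -/

set_option autoImplicit false

namespace Pool.Agent.MP_f3836a_nt.GQ

open Polynomial IsLocalRing PK VE.W VE.Z GP NumberField

namespace QNf

section Adr

variable {k : Type} [Field k] {f : k → ℝ}

theorem adr_fn (h : Adr f) : Fn ⊤ f := ⟨fun u u' a b => h u u' a.1 b.1, fun u u' _ _ c => by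
  rw [sub_eq_zero.1 (c.2.resolve_right fun e => e (Subring.mem_top _))]⟩

theorem ut_top {u : k} (h : u ≠ 0) : Ut ⊤ u := ⟨h, Subring.mem_top _, Subring.mem_top _⟩

theorem adr_prod (h : Adr f) {J : Type} (T : Finset J) {g : J → k} (hg : ∀ j ∈ T, g j ≠ 0) :
    f (∏ j ∈ T, g j) = ∑ j ∈ T, f (g j) := by
  classical
  induction T using Finset.induction_on with
  | empty => simpa using (adr_fn h).one
  | insert j T hj ih =>
    rw [Finset.forall_mem_insert] at hg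
    rw [Finset.prod_insert hj, Finset.sum_insert hj, h _ _ hg.1 (Finset.prod_ne_zero_iff.2 hg.2),
      ih hg.2]

theorem adr_quo (h : Adr f) {J : Type} (T : Finset J) {g : J → k} (hg : ∀ j ∈ T, g j ≠ 0)
    (e : J → ℤ) {u : k} (hu : u ≠ 0) :
    f (u / ∏ j ∈ T, g j ^ e j) = f u - ∑ j ∈ T, f (g j) * e j := by
  have k : ∀ j ∈ T, g j ^ e j ≠ 0 := fun j hj => zpow_ne_zero _ (hg j hj)
  rw [(adr_fn h).div (ut_top hu) (ut_top (Finset.prod_ne_zero_iff.2 k)), adr_prod h T k]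
  exact congrArg _ (Finset.sum_congr rfl fun j hj => by
    rw [(adr_fn h).zpow (ut_top (hg j hj)), mul_comm])

theorem vr_int {w : Subring k} (h : Vr w) {z : k} (hz : IsIntegral ℤ z) : z ∈ w := by
  let W : ValuationSubring k := ⟨w, h⟩
  obtain ⟨y, e⟩ := (IsIntegrallyClosed.isIntegral_iff (R := W) (K := k)).1 hz.tower_top
  exact e ▸ y.2

theorem vr_loc {w : Subring k} (h : Vr w) : IsLocalRing w :=
  inferInstanceAs (IsLocalRing (⟨w, h⟩ : ValuationSubring k))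

end Adr

variable {k : Type} [Field k] [NumberField k] {M : ℕ}

/-- the ring of integers -/
def Bk (k : Type) [Field k] : Subring k := (integralClosure ℤ k).toSubring

instance : IsDedekindDomain (Bk k) := inferInstanceAs (IsDedekindDomain (𝓞 k))

theorem mult (z : k) : ∃ n : ℕ, n ≠ 0 ∧ IsIntegral ℤ (n * z) := by
  obtain ⟨n, n0, h⟩ := ((IsFractionRing.isAlgebraic_iff ℤ ℚ k).2
    (Algebra.IsAlgebraic.isAlgebraic z)).exists_integral_multiple
  refine ⟨n.natAbs, Int.natAbs_ne_zero.2 n0, ?_⟩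
  rw [zsmul_eq_mul] at h
  rcases Int.natAbs_eq n with e | e
  · rwa [e, Int.cast_natCast] at h
  · rw [e, Int.cast_neg, Int.cast_natCast, neg_mul] at h
    simpa using h.neg

theorem fr : Fr (Bk k) := fun z => by
  obtain ⟨n, n0, h⟩ := mult z
  exact ⟨⟨_, h⟩, n, by simpa using n0, by simp [mul_comm]⟩

theorem dvr (q : Ideal (Bk k)) [q.IsPrime] (h : q ≠ ⊥) : Dvr (lc (Bk k) q) ∧ Alg (lc (Bk k) q) :=
  have : Finite (Bk k ⧸ q) := Ideal.finiteQuotientOfFreeOfNeBot (S := 𝓞 k) q h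
  ⟨⟨IsLocalization.AtPrime.isDiscreteValuationRing_of_dedekind_domain (Bk k) h _,
    zb_fr fr (le_lc _ q)⟩, zb_alg q⟩

theorem cls (hM : M ≠ 0) {w : Subring k} (h : Vr w) (h' : Nu w M) :
    ∃ (q : Ideal (Bk k)) (_ : q.IsPrime), q ≠ ⊥ ∧ (M : Bk k) ∈ q ∧ w = lc (Bk k) q := by
  have := vr_loc h
  obtain ⟨q, hq, d⟩ := zb_cen (B := Bk k) (S := w) fun z hz => vr_int h hz
  have m : (M : Bk k) ∈ q := by_contra fun e => h'.not (((zb_ut (M : Bk k)).2 e).mono d.1)
  have q0 : q ≠ ⊥ := fun e => hM (by rw [e] at m; simpa using m)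
  refine ⟨q, hq, q0, m, ((dvA (dvr q q0).1).max w d.1).resolve_right fun e => ?_⟩
  exact h'.not (e ▸ ut_top (Nat.cast_ne_zero.2 hM))

theorem fin (hM : M ≠ 0) : {w : Subring k | Vr w ∧ Nu w M}.Finite := by
  have h0 : Ideal.span {(M : Bk k)} ≠ ⊥ := by simpa using hM
  refine ((Ideal.finite_factors h0).image fun v => @lc _ _ (Bk k) v.asIdeal v.isPrime).subset
    fun w hw => ?_
  obtain ⟨q, hq, q0, m, e⟩ := cls hM hw.1 hw.2
  exact ⟨⟨q, hq, q0⟩, Ideal.dvd_span_singleton.2 m, e.symm⟩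

theorem den {z : k} (h : ∀ w : Subring k, Vr w → Nu w M → z ∈ w) :
    ∃ n : ℕ, n ≠ 0 ∧ n.Coprime M ∧ IsIntegral ℤ (n * z) := by
  let T : Submonoid ℕ := ⟨⟨{n | n ≠ 0 ∧ n.Coprime M}, fun a b =>
    ⟨mul_ne_zero a.1 b.1, Nat.Coprime.mul_left a.2 b.2⟩⟩, one_ne_zero, Nat.coprime_one_left M⟩
  obtain ⟨⟨_, n, hn, rfl⟩, e⟩ := GVal.int_loc (T.map (Nat.castRingHom ℤ))
    (by rintro ⟨_, n, hn, rfl⟩; simpa using hn.1) z fun V hV => by
      have v : Vr V.toSubring := V.mem_or_inv_mem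
      by_cases c : Ho V.toSubring
      · obtain ⟨n, n0, e⟩ := mult z
        have := V.toSubring.mul_mem (c n n0) (vr_int v e)
        rwa [inv_mul_cancel_left₀ (Nat.cast_ne_zero.2 n0)] at this
      · obtain ⟨p, hp, e⟩ := ex_nu c
        refine h _ v (nu_dvd e (by_contra fun d => e.not
          ⟨Nat.cast_ne_zero.2 hp.ne_zero, e.1, ?_⟩))
        simpa using hV ⟨_, p, ⟨hp.ne_zero, hp.coprime_iff_not_dvd.2 d⟩, rfl⟩
  exact ⟨n, hn.1, hn.2, by simpa using e⟩

theorem um {u : k} (u0 : u ≠ 0) : Um M u ↔ ∀ w : Subring k, Vr w → Nu w M → Ut w u := by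
  refine ⟨fun ⟨n, _, c, a, b⟩ w v m => ?_, fun h => ?_⟩
  · have := vr_loc v
    have e : Ut w n := (nu_or (natCast_mem w n)).resolve_left fun e => not_cop e m c
    have r : ∀ z : k, IsIntegral ℤ (n * z) → z ∈ w := fun z hz => by
      have := w.mul_mem e.2.2 (vr_int v hz)
      rwa [inv_mul_cancel_left₀ e.1] at this
    exact ⟨u0, r _ a, r _ b⟩
  · obtain ⟨n, n0, c, a⟩ := den fun w v m => (h w v m).2.1
    obtain ⟨n', n0', c', a'⟩ := den fun w v m => (h w v m).2.2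
    have i : ∀ m : ℕ, IsIntegral ℤ (m : k) := fun m => by
      simpa using isIntegral_algebraMap (R := ℤ) (A := k) (x := m)
    refine ⟨n * n', mul_ne_zero n0 n0', c.mul_left c', ?_, ?_⟩
    · rw [Nat.cast_mul, mul_comm (n : k), mul_assoc]; exact (i n').mul a
    · rw [Nat.cast_mul, mul_assoc]; exact (i n).mul a'

end QNf

open QNf in
theorem qNf : NfQ := by
  intro k _ _ M hM
  classical
  have F := fin (k := k) hM
  have dv : ∀ w : Subring k, Vr w → Nu w M → Dvr w ∧ Alg w := fun w v m => by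
    obtain ⟨q, hq, q0, -, rfl⟩ := cls hM v m
    exact dvr q q0
  have ex : ∀ w : Subring k, Vr w → Nu w M → ∃ u, u ≠ 0 ∧ ordR w u = 1 ∧
      ∀ w' : Subring k, Vr w' → Nu w' M → w' ≠ w → Ut w' u := fun w v m => by
    obtain ⟨π, π0, hπ⟩ := (dvA (dv w v m).1).uni
    obtain ⟨u, hu⟩ := tAp k F.toFinset (fun S h => (dv S (F.mem_toFinset.1 h).1
      (F.mem_toFinset.1 h).2).1) (fun S => if S = w then π else 1) 2 fun S _ => by
        split_ifs with e
        · exact e ▸ ((dvA (dv w v m).1).mem π π0).2 (by rw [hπ]; exact zero_le_one)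
        · exact S.one_mem
    have a := (hu w (F.mem_toFinset.2 ⟨v, m⟩)).2
    rw [if_pos rfl] at a
    obtain ⟨u0, u1⟩ := (gPw k w).2.2.2.1 (dv w v m).1 π u π0 hπ a
    refine ⟨u, u0, u1, fun w' v' m' e => ?_⟩
    have b := (hu w' (F.mem_toFinset.2 ⟨v', m'⟩)).2
    rw [if_neg e] at b
    have := vr_loc v'
    exact ut_of_nu ut_one ((gPw k w').2.2.1 this 2 _ two_pos b)
  refine ⟨F, fun w v m => ⟨(dv w v m).1, (dv w v m).2, ex w v m⟩, fun u => um, fun l hl h0 => ?_⟩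
  choose! g g0 g1 g2 using ex
  have hg : ∀ w ∈ F.toFinset, g w ≠ 0 := fun w h =>
    g0 w (F.mem_toFinset.1 h).1 (F.mem_toFinset.1 h).2
  have key : ∀ u, u ≠ 0 → l u = ∑ w ∈ F.toFinset, l (g w) * ordR w u := fun u u0 => by
    have n0 : u / ∏ w ∈ F.toFinset, g w ^ ordR w u ≠ 0 :=
      div_ne_zero u0 (Finset.prod_ne_zero_iff.2 fun w h => zpow_ne_zero _ (hg w h))
    rw [← sub_eq_zero, ← adr_quo hl _ hg _ u0]
    refine h0 _ n0 ((um n0).2 fun w v m => ((dvA (dv w v m).1).ut _).2 ⟨n0, ?_⟩)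
    have A := dvA (dv w v m).1
    have := adr_quo (f := fun z => (ordR w z : ℝ)) (fun a b a0 b0 => by
      simp only [A.mul a b a0 b0, Int.cast_add]) _ hg (fun w => ordR w u) u0
    rw [Finset.sum_eq_single_of_mem w (F.mem_toFinset.2 ⟨v, m⟩) fun w' h e => by
      rw [((A.ut _).1 (g2 w' (F.mem_toFinset.1 h).1 (F.mem_toFinset.1 h).2 w v m e.symm)).2,
        Int.cast_zero, zero_mul], g1 w v m, Int.cast_one, one_mul, sub_self] at this
    exact_mod_cast this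
  refine ⟨fun w => l (g w), fun w v m u u0 h => ?_, fun u u0 => ?_⟩
  · rw [key u u0]
    refine Finset.sum_eq_single_of_mem w (F.mem_toFinset.2 ⟨v, m⟩) fun w' h' e => ?_
    obtain ⟨v', m'⟩ := F.mem_toFinset.1 h'
    rw [(((dvA (dv w' v' m').1).ut _).1 (h w' v' m' e)).2, Int.cast_zero, mul_zero]
  · rw [key u u0]
    exact (finsum_mem_eq_finite_toFinset_sum _ F).symm

end Pool.Agent.MP_f3836a_nt.GQ
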