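import Pool.Agent.MP_f3836a_nt.GQ.SpecM
import Pool.Agent.MP_f3836a_nt.GP.Base
import Pool.Agent.MP_f3836a_nt.VE.ZSb

/-! Part GQ: the normalisation of a point of a surface. -/

set_option autoImplicit false

namespace Pool.Agent.MP_f3836a_nt.GQ

open Polynomial IsLocalRing PK VE.W VE.Z GP

namespace QNr

variable {L : Type} [Field L] {D N W : Subring L}

/-- a finite normal extension -/
structure Ex (D N : Subring L) : Prop where
  le : D ≤ N
  int : (Subring.inclusion le).IsIntegral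
  noeth : IsNoetherianRing N
  icl : IsIntegrallyClosed N
  val : ∀ W, Vr W → D ≤ W → N ≤ W

theorem frac (h : Fr D) : IsFractionRing D L := IsFractionRing.of_field D L fun z => by
  obtain ⟨a, b, hb, e⟩ := h z
  exact ⟨a, b, eq_div_of_mul_eq hb e⟩

theorem vloc (h : Vr W) : IsLocalRing W := (⟨W, h⟩ : ValuationSubring L).isLocalRing

theorem ex (h : Lc2 D) : Ex D (nrm D) := by
  obtain ⟨le, s, -, hs⟩ := h.nrm
  have := h.noeth
  refine ⟨le, fun x => ?_, ?_, ?_, fun W hW e => ?_⟩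
  · obtain ⟨p, h1, h2⟩ := x.2
    refine ⟨p, h1, Subtype.ext ?_⟩
    change (nrm D).subtype _ = 0
    rw [hom_eval₂]
    exact h2
  · have h1 := isNoetherian_span_of_finite D s.finite_toSet
    have h2 : IsNoetherian D (Subalgebra.toSubmodule (integralClosure D L)) :=
      isNoetherian_of_le (t := Submodule.span D (s : Set L)) hs
    have h3 : Module.Finite D (integralClosure D L) :=
      inferInstanceAs (Module.Finite D (Subalgebra.toSubmodule (integralClosure D L)))
    exact IsNoetherianRing.of_finite D (integralClosure D L)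
  · have := frac (zb_fr h.fr le)
    exact Subring.isIntegrallyClosed_iff.2 (Subring.isIntegrallyClosedIn_iff.1
      (inferInstanceAs (IsIntegrallyClosedIn (integralClosure D L).toSubring L)))
  · have : IsIntegrallyClosedIn W L :=
      inferInstanceAs (IsIntegrallyClosedIn (⟨W, hW⟩ : ValuationSubring L) L)
    exact Subring.integralClosure_le_iff.2 fun r => e r.2

theorem cen {q : Ideal D} [q.IsPrime] (h : Dom (lc D q) W) (a : D) : a ∈ q ↔ Nu W (a : L) :=
  ⟨fun k => h.2 _ ((nu_iff_not (le_lc D q a.2)).2 fun u => (zb_ut a).1 u k),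
    fun k => by_contra fun u => k.not (((zb_ut a).2 u).mono h.1)⟩

theorem dom (le : D ≤ N) {q : Ideal D} [q.IsPrime] {q' : Ideal N} [q'.IsPrime]
    (e : q'.comap (Subring.inclusion le) = q) : Dom (lc D q) (lc N q') := by
  subst e
  have h1 : lc D (q'.comap (Subring.inclusion le)) ≤ lc N q' := fun z hz => by
    obtain ⟨a, b, hb, e⟩ := mem_lc.1 hz
    exact mem_lc.2 ⟨Subring.inclusion le a, Subring.inclusion le b, hb, e⟩
  refine ⟨h1, fun z hz => (nu_or (h1 hz.1)).resolve_right fun u => hz.not ?_⟩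
  obtain ⟨a, b, hb, e⟩ := mem_lc.1 hz.1
  have ub := (zb_ut b).2 hb
  have ua : Ut (lc N q') (a : L) := e ▸ u.mul (ub.mono h1)
  rw [eq_div_of_mul_eq ub.1 e]
  exact ((zb_ut a).2 ((zb_ut (Subring.inclusion le a)).1 ua)).div ub

namespace Ex

variable (x : Ex D N)

theorem lt {q q' : Ideal N} [q.IsPrime] (e : q < q') :
    q.comap (Subring.inclusion x.le) < q'.comap (Subring.inclusion x.le) :=
  let _ := (Subring.inclusion x.le).toAlgebra
  have : Algebra.IsIntegral D N := ⟨x.int⟩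
  Ideal.IsIntegral.comap_lt_comap (R := D) e

theorem bot (q : Ideal N) : q.comap (Subring.inclusion x.le) = ⊥ ↔ q = ⊥ :=
  let _ := (Subring.inclusion x.le).toAlgebra
  have : Algebra.IsIntegral D N := ⟨x.int⟩
  ⟨Ideal.eq_bot_of_comap_eq_bot (R := D), fun e => e ▸
    Ideal.comap_bot_of_injective _ (Subring.inclusion_injective x.le)⟩

theorem max (q : Ideal N) [q.IsPrime] : (q.comap (Subring.inclusion x.le)).IsMaximal ↔ q.IsMaximal :=
  ⟨Ideal.isMaximal_of_isIntegral_of_isMaximal_comap' _ x.int q,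
    fun _ => Ideal.isMaximal_comap_of_isIntegral_of_isMaximal' _ x.int q⟩

theorem ovr (q : Ideal D) [q.IsPrime] :
    ∃ q' : Ideal N, q'.IsPrime ∧ q'.comap (Subring.inclusion x.le) = q :=
  let _ := (Subring.inclusion x.le).toAlgebra
  have : Algebra.IsIntegral D N := ⟨x.int⟩
  Ideal.exists_ideal_over_prime_of_isIntegral_of_isDomain (R := D) q
    (((x.bot ⊥).2 rfl).le.trans bot_le)

theorem fin (q : Ideal D) {T : Set (Subring L)} (e : ∀ S ∈ T, ∃ (q' : Ideal N) (_ : q'.IsPrime),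
    q'.comap (Subring.inclusion x.le) = q ∧ S = lc N q') : T.Finite := by
  let _ := (Subring.inclusion x.le).toAlgebra
  have : Algebra.IsIntegral D N := ⟨x.int⟩
  have := x.noeth
  refine ((Ideal.finite_minimalPrimes_of_isNoetherianRing N
    (q.map (Subring.inclusion x.le))).dependent_image fun q hq => @lc L _ _ q hq.1.1).subset
      fun S hS => ?_
  obtain ⟨q', _, rfl, rfl⟩ := e S hS
  exact ⟨q', Ideal.IsIntegral.mem_minimalPrimes_map_under (R := D) q', rfl⟩

include x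

theorem dim (h : Lc2 D) : Dim2 N := by
  have d : ∀ q q' : Ideal N, q.IsPrime → q'.IsPrime → q ≠ ⊥ → q < q' → q'.IsMaximal :=
    fun q q' _ _ a b => (x.max q').1
      (h.dim _ _ inferInstance inferInstance (mt (x.bot q).1 a) (x.lt b))
  refine ⟨x.noeth, zb_fr h.fr x.le, d, fun q _ a b => ?_⟩
  have := (wLc L N).noeth q x.noeth
  have := x.icl
  have k : ∀ P : Ideal (lc N q), P ≠ ⊥ → P.IsPrime → P = maximalIdeal _ := fun P p0 _ => by
    obtain ⟨q₀, _, l⟩ := (wLc L N).dn q P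
    exact eq_maximalIdeal (l.max.2 (l.le.eq_or_lt.resolve_right fun e =>
      b (d _ _ inferInstance inferInstance (mt l.bot.2 p0) e)))
  have k1 : IsPrincipalIdealRing (lc N q) :=
    ((tfae_of_isNoetherianRing_of_isLocalRing_of_isDomain (lc N q)).out 3 0).1
      (And.intro (isIntegrallyClosed_of_isLocalization (lc N q) q.primeCompl
        q.primeCompl_le_nonZeroDivisors) k)
  obtain ⟨P, _, l⟩ := (wLc L N).up q q le_rfl
  exact { not_a_field' := k P (mt l.bot.1 a) inferInstance ▸ mt l.bot.1 a }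

theorem dvr (h : Lc2 D) (k : H1 N W) : Dvr W := by
  obtain ⟨q, _, a, b, rfl⟩ := k
  exact ⟨(x.dim h).dvr q a b, zb_fr (x.dim h).frac (le_lc N q)⟩

theorem brA (h : Lc2 D) {q : Ideal D} [q.IsPrime] (a : q ≠ ⊥) (b : ¬q.IsMaximal)
    (k : Br (lc D q) W) : ∃ (q' : Ideal N) (_ : q'.IsPrime),
      q'.comap (Subring.inclusion x.le) = q ∧ W = lc N q' := by
  have := vloc k.1
  obtain ⟨q', _, c⟩ := zb_cen (x.val W k.1 ((le_lc D q).trans k.2.1))
  have e : q'.comap (Subring.inclusion x.le) = q := Ideal.ext fun z =>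
    (cen c (Subring.inclusion x.le z)).trans (cen k.2 z).symm
  refine ⟨q', inferInstance, e, ((dvA (x.dvr h ⟨q', inferInstance, fun u => a (e ▸ (x.bot q').2 u),
    fun u => b (e ▸ (x.max q').2 u), rfl⟩)).max W c.1).resolve_right fun u => a ?_⟩
  refine eq_bot_iff.2 fun z hz => Subtype.ext ?_
  exact ((cen k.2 z).1 hz).2.resolve_right fun v => v (u ▸ Subring.mem_top _)

theorem brB (h : Lc2 D) {q : Ideal D} [q.IsPrime] (a : q ≠ ⊥) (b : ¬q.IsMaximal) {q' : Ideal N}
    [q'.IsPrime] (e : q'.comap (Subring.inclusion x.le) = q) :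
    H1 N (lc N q') ∧ Br (lc D q) (lc N q') :=
  have k : H1 N (lc N q') := ⟨q', inferInstance, fun u => a (e ▸ (x.bot q').2 u),
    fun u => b (e ▸ (x.max q').2 u), rfl⟩
  ⟨k, (dvA (x.dvr h k)).val, dom x.le e⟩

end Ex

end QNr

theorem qNr : NrS := by
  intro L _ D h
  have x := QNr.ex h
  have := h.loc
  have mx : ∀ (m : Ideal (nrm D)) [m.IsPrime], m.IsMaximal →
      m.comap (Subring.inclusion x.le) = maximalIdeal D := fun m _ k => eq_maximalIdeal ((x.max m).2 k)
  refine ⟨x.dim h, x.fin (maximalIdeal D) ?_, ?_, ?_, ?_, ?_, ?_⟩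
  · rintro _ ⟨m, _, k, rfl⟩
    exact ⟨m, inferInstance, mx m k, rfl⟩
  · rintro _ ⟨m, _, k, rfl⟩
    refine ⟨(wLc L _).loc (x.dim h) m k, x.le.trans (le_lc _ m), fun z hz => ?_⟩
    exact (QNr.cen (QNr.dom x.le (mx m k)) ⟨z, hz.1⟩).1 ((nu_iff ⟨z, hz.1⟩).1 hz)
  · rintro _ W ⟨q, _, a, b, rfl⟩
    refine ⟨fun k => ⟨?_, k.2.1⟩, ?_⟩
    · obtain ⟨q', _, e, rfl⟩ := x.brA h a b k
      exact (x.brB h a b e).1
    · rintro ⟨⟨q', _, a', -, rfl⟩, k⟩
      have l : q'.comap (Subring.inclusion x.le) ≤ q := fun z hz => by_contra fun u =>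
        (zb_ut (Subring.inclusion x.le z)).1 (((zb_ut z).2 u).mono k) hz
      exact (x.brB h a b (l.eq_or_lt.resolve_right fun e =>
        b (h.dim _ _ inferInstance inferInstance (mt (x.bot q').1 a') e))).2
  · intro W k
    refine ⟨x.dvr h k, ?_⟩
    obtain ⟨q', _, a, b, rfl⟩ := k
    have a' := mt (x.bot q').1 a
    have b' := mt (x.max q').1 b
    exact ⟨_, ⟨_, inferInstance, a', b', rfl⟩, (x.brB h a' b' rfl).2⟩
  · rintro _ W ⟨m, _, k, rfl⟩
    constructor
    · rintro ⟨P, _, a, b, rfl⟩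
      obtain ⟨q, _, l⟩ := (wLc L _).dn m P
      exact ⟨⟨q, inferInstance, mt l.bot.2 a, fun u => b (l.max.2 (u.eq_of_le k.ne_top l.le)), l.eq⟩,
        le_lc _ P⟩
    · rintro ⟨⟨q, _, a, b, rfl⟩, e⟩
      obtain ⟨P, _, l⟩ := (wLc L _).up m q (((wLc L _).le m q).1 e)
      exact ⟨P, inferInstance, mt l.bot.1 a, fun u => b (l.max.1 u ▸ k), l.eq.symm⟩
  · rintro _ ⟨q, _, a, b, rfl⟩
    obtain ⟨q', _, e⟩ := x.ovr q
    exact ⟨x.fin q fun W k => x.brA h a b k, _, (x.brB h a b e).2⟩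

end Pool.Agent.MP_f3836a_nt.GQ
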