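import Pool.Agent.MP_f3836a_nt.GQ.SpecM
import Pool.Agent.MP_f3836a_nt.VE.WOd
import Pool.Agent.MP_f3836a_nt.VE.WLc

/-! Part GQ: the curves on the normalisation of a point of a surface. -/

set_option autoImplicit false

namespace Pool.Agent.MP_f3836a_nt.GQ

open Polynomial IsLocalRing PK VE.W VE.Z GP VE.W.WOd

namespace QNrT

variable {K κ : Type} [Field K] [Field κ] {B O : Subring K} (h : B ≤ O) (r : O →+* κ)

include h in
theorem loc [IsLocalRing B] : IsLocalRing (im O r B) := IsLocalRing.of_surjective' _ (surj h r)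

include h in
/-- the residue field of the image -/
theorem res [IsLocalRing B] [IsLocalRing (im O r B)] :
    Nonempty (ResidueField B ≃ ResidueField (im O r B)) := by
  have := (surj h r).isLocalHom
  refine ⟨Equiv.ofBijective (ResidueField.map (rl h r)) ⟨RingHom.injective _, fun z => ?_⟩⟩
  obtain ⟨b, rfl⟩ := residue_surjective z
  obtain ⟨a, rfl⟩ := surj h r b
  exact ⟨residue _ a, rfl⟩

include h in
theorem lg_im [IsLocalRing B] : lg (im O r B) = lg B := by
  have := loc h r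
  rw [lg_eq, lg_eq, Nat.card_congr (res h r).some]

variable {r} {q : Ideal B} [q.IsPrime]

theorem ker (hO : O = lc B q) (hr : Rm O r) (a : B) : rl h r a = 0 ↔ a ∈ q := by
  subst hO
  rw [← ZeroMemClass.coe_eq_zero]
  exact (hr.ker _).trans (((wLc K B).unit q a).not.trans not_not)

include h in
theorem fr (hO : O = lc B q) (hr : Rm O r) : Fr (im O r B) := fun u => by
  obtain ⟨g, rfl⟩ := hr.surj u
  obtain ⟨a, b, hb, e⟩ := mem_lc.1 (hO.le g.2)
  refine ⟨rl h r a, rl h r b, fun d => hb ((ker h hO hr b).1 (Subtype.ext d)), ?_⟩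
  exact (map_mul r g (Subring.inclusion h b)).symm.trans (congrArg r (Subtype.ext e))

/-- the image of a localization -/
theorem im_lc {m : Ideal B} {n : Ideal (im O r B)} [m.IsPrime] [n.IsPrime] (hm : lc B m ≤ O)
    (e : ∀ a, a ∈ m ↔ rl h r a ∈ n) : im O r (lc B m) = lc _ n := by
  ext z
  constructor
  · rintro ⟨g, hg, rfl⟩
    obtain ⟨a, b, hb, d⟩ := mem_lc.1 hg
    exact mem_lc.2 ⟨rl h r a, rl h r b, (e b).not.1 hb,
      (map_mul r g (Subring.inclusion h b)).symm.trans (congrArg r (Subtype.ext d))⟩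
  · intro hz
    obtain ⟨a, b, hb, d⟩ := mem_lc.1 hz
    obtain ⟨a, rfl⟩ := surj h r a
    obtain ⟨b, rfl⟩ := surj h r b
    have b0 : (b : K) ≠ 0 := fun k => hb (by
      rw [show b = 0 from Subtype.ext k, map_zero]; exact n.zero_mem)
    have k : (a : K) / b * b = a := div_mul_cancel₀ _ b0
    have hg : (a : K) / b ∈ lc B m := mem_lc.2 ⟨a, b, (e b).not.2 hb, k⟩
    refine ⟨⟨_, hm hg⟩, hg, mul_right_cancel₀ (b := (rl h r b : κ))
      (fun k => hb (by rw [show rl h r b = 0 from Subtype.ext k]; exact n.zero_mem)) ?_⟩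
    rw [d]
    exact (map_mul r _ (Subring.inclusion h b)).symm.trans (congrArg r (Subtype.ext k))

theorem ex (hO : O = lc B q) (hr : Rm O r) {m : Ideal B} (hm : m.IsMaximal) (hq : q ≤ m) :
    ∃ n : Ideal (im O r B), n.IsMaximal ∧ ∀ a, a ∈ m ↔ rl h r a ∈ n := by
  have e : (m.map (rl h r)).comap (rl h r) = m := by
    rw [Ideal.comap_map_of_surjective _ (surj h r), sup_eq_left]
    exact fun a ha => hq ((ker h hO hr a).1 ha)
  refine ⟨m.map (rl h r), (Ideal.map_eq_top_or_isMaximal_of_surjective _ (surj h r) hm).resolve_left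
    fun d => hm.ne_top ?_, fun a => by rw [← Ideal.mem_comap, e]⟩
  rw [← e, d, Ideal.comap_top]

include h in
/-- the closed points of the curve -/
theorem bij (hO : O = lc B q) (hr : Rm O r) :
    Set.BijOn (im O r) {T | Mx B T ∧ T ≤ O} {T | Mx (im O r B) T} := by
  refine ⟨?_, ?_, ?_⟩
  · rintro _ ⟨⟨m, _, hm, rfl⟩, k⟩
    obtain ⟨n, hn, e⟩ := ex h hO hr hm (((wLc K B).le m q).1 (k.trans hO.le))
    exact ⟨n, hn.isPrime, hn, im_lc h k e⟩
  · rintro _ ⟨⟨m, _, hm, rfl⟩, k⟩ _ ⟨⟨m', _, hm', rfl⟩, k'⟩ d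
    obtain ⟨n, hn, e⟩ := ex h hO hr hm (((wLc K B).le m q).1 (k.trans hO.le))
    obtain ⟨n', hn', e'⟩ := ex h hO hr hm' (((wLc K B).le m' q).1 (k'.trans hO.le))
    rw [im_lc h k e, im_lc h k' e'] at d
    obtain rfl : n = n' := le_antisymm (((wLc κ _).le n' n).1 d.ge) (((wLc κ _).le n n').1 d.le)
    obtain rfl : m = m' := Ideal.ext fun a => (e a).trans (e' a).symm
    rfl
  · rintro _ ⟨n, _, hn, rfl⟩
    have hm := Ideal.comap_isMaximal_of_surjective _ (surj h r) (K := n)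
    have k : lc B (n.comap (rl h r)) ≤ O := (((wLc K B).le _ q).2 fun a ha => by
      rw [Ideal.mem_comap, (ker h hO hr a).2 ha]; exact n.zero_mem).trans hO.ge
    exact ⟨_, ⟨⟨_, _, hm, rfl⟩, k⟩, im_lc h k fun _ => Iff.rfl⟩

include h in
theorem lc1 (hB : Lc2 B) (hO : O = lc B q) (hr : Rm O r) (q0 : q ≠ ⊥) (q1 : ¬q.IsMaximal) :
    Lc1 (im O r B) := by
  have := hB.loc
  have := hB.noeth
  have hs := surj h r
  have := hs.isLocalHom
  have hk : RingHom.ker (rl h r) = q := Ideal.ext (ker h hO hr)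
  refine ⟨loc h r, isNoetherianRing_of_surjective _ _ _ hs, fr h hO hr, fun I I1 I0 => ?_,
    fun e => ?_, fun {_} => ?_⟩
  · have e := Ideal.map_comap_of_surjective _ hs I
    have := hB.dim q (I.comap (rl h r)) ‹_› inferInstance q0 (lt_of_le_of_ne
      (hk.ge.trans (Ideal.ker_le_comap (rl h r))) fun e' => I0 (by
        rw [← e, ← e', Ideal.map_eq_bot_iff_le_ker, hk]))
    exact e ▸ (Ideal.map_eq_top_or_isMaximal_of_surjective _ hs this).resolve_left
      (e.symm ▸ I1.ne_top)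
  · obtain ⟨a, a1, a0⟩ := SetLike.exists_of_lt (lt_of_le_of_ne
      (le_maximalIdeal (Ideal.IsPrime.ne_top ‹q.IsPrime›)) fun d => q1 (d ▸ inferInstance))
    exact a1 ((isUnit_map_iff (rl h r) a).1 ((ut_iff _).1
      ⟨fun d => a0 ((ker h hO hr a).1 (Subtype.ext d)), SetLike.coe_mem _, e.ge trivial⟩))
  · have := hB.fin
    exact Finite.of_equiv _ (res h r).some

end QNrT

open QNrT in
theorem qNrT : OfNrT := by
  intro ns mx L _ D hD S W _ κ _ r ν hS hr hW hν
  obtain ⟨⟨q', _, -, -, hO'⟩, -⟩ := ((ns L D hD).br S W hS).1 hW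
  obtain ⟨q, _, q0, q1, hO⟩ := hS
  have h : D ≤ S := (le_lc D q).trans hO.ge
  have h' : nrm D ≤ W := (le_lc _ q').trans hO'.ge
  have hr' : Rm W (residue W) := ⟨residue_surjective, fun a => residue_eq_zero_iff a⟩
  have := hD.loc
  have i1 := lc1 h hD hO hr q0 q1
  have i2 := fr h' hO' hr'
  have i3 : Fnt ((im S r D).map ν) (im W (residue W) (nrm D)) := by
    classical
    obtain ⟨hN, s, s1, s2⟩ := hD.nrm
    refine ⟨?_, s.image (resR W (residue W)), fun z hz => ?_, ?_⟩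
    · rintro _ ⟨_, ⟨a, ha, rfl⟩, rfl⟩
      obtain ⟨k, e⟩ := hν a
      exact ⟨⟨a, k⟩, hN ha, e.symm⟩
    · obtain ⟨y, hy, rfl⟩ := Finset.mem_image.1 hz
      exact ⟨⟨y, h' (s1 y hy)⟩, s1 y hy, (EDVA.res_mem _).symm⟩
    · rintro _ ⟨⟨z, hz⟩, k, rfl⟩
      suffices ∀ z ∈ Submodule.span D (s : Set L), ∃ hz : z ∈ W, residue W ⟨z, hz⟩ ∈
          Submodule.span ((im S r D).map ν) (s.image (resR W (residue W)) : Set (ResidueField W))
        from (this z (s2 z k)).2
      intro z hz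
      induction hz using Submodule.span_induction with
      | mem z hz => exact ⟨h' (s1 z hz), Submodule.subset_span (Finset.mem_coe.2
          (Finset.mem_image.2 ⟨z, hz, EDVA.res_mem _⟩))⟩
      | zero => exact ⟨W.zero_mem, Submodule.zero_mem _⟩
      | add x y _ _ hx hy =>
        exact ⟨W.add_mem hx.1 hy.1, (map_add (residue W) ⟨x, hx.1⟩ ⟨y, hy.1⟩).symm ▸
          Submodule.add_mem _ hx.2 hy.2⟩
      | smul a x _ hx =>
        obtain ⟨k, e⟩ := hν ⟨a, h a.2⟩
        refine ⟨W.mul_mem k hx.1, ?_⟩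
        have := Submodule.smul_mem _ (⟨ν (r ⟨a, h a.2⟩), _, ⟨_, a.2, rfl⟩, rfl⟩ :
          (im S r D).map ν) hx.2
        rwa [Subring.smul_def, smul_eq_mul, Subtype.coe_mk, e, ← map_mul] at this
  refine ⟨i1, lg_im h r, i2, i3, (mx _ _ ν _ _ i1 i2 i3).2.2.1, fun t => ?_⟩
  refine (finsum_mem_eq_of_bijOn (f := fun T => lg T * oK W T t) _ (bij h' hO' hr') ?_).symm.trans
    (finsum_mem_inter_support_eq' _ _ {T | Mx (nrm D) T} fun T hT => and_iff_left ?_)
  · rintro _ ⟨⟨m, _, -, rfl⟩, k⟩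
    simp only [oK_eq, od, if_pos k, lg_im k]
  · by_contra k
    exact hT (by simp only [oK_eq, od, if_neg k, Int.cast_zero, mul_zero])

end Pool.Agent.MP_f3836a_nt.GQ
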