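import Pool.Agent.MP_f3836a_nt.GQ.SpecM

/-! Part GQ: the normalisation of the integers and of a polynomial ring is finite. -/

set_option autoImplicit false

namespace Pool.Agent.MP_f3836a_nt.GQ

open Polynomial IntermediateField

namespace QNrZ

variable {L : Type} [Field L] [CharZero L]

theorem gen (s : Set L) [IsNoetherianRing (Subring.closure s)]
    [IsIntegrallyClosed (Subring.closure s)] [FiniteDimensional (adjoin ℚ s) L] :
    Fnt (Subring.closure s) (nrm (Subring.closure s)) := by
  classical
  have h : Subring.closure s ≤ (adjoin ℚ s).toSubring := Subring.closure_le.2 (subset_adjoin ℚ s)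
  let _ : Algebra (Subring.closure s) (adjoin ℚ s) := (Subring.inclusion h).toAlgebra
  have : IsScalarTower (Subring.closure s) (adjoin ℚ s) L := .of_algebraMap_eq fun _ => rfl
  have : FaithfulSMul (Subring.closure s) (adjoin ℚ s) :=
    (faithfulSMul_iff_algebraMap_injective _ _).2 (Subring.inclusion_injective h)
  have k : adjoin ℚ s ≤ (Subfield.closure s).toIntermediateField fun q =>
      SubfieldClass.ratCast_mem (Subfield.closure s) q := adjoin_le_iff.2 Subfield.subset_closure
  have : IsFractionRing (Subring.closure s) (adjoin ℚ s) := .of_field _ _ fun z => by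
    obtain ⟨a, ha, b, hb, e⟩ := Subfield.mem_closure_iff.1 (k z.2)
    exact ⟨⟨a, ha⟩, ⟨b, hb⟩, Subtype.ext e.symm⟩
  obtain ⟨T, hT⟩ := (IsIntegralClosure.finite (Subring.closure s) (adjoin ℚ s) L
    (integralClosure (Subring.closure s) L)).fg_top
  refine ⟨fun a ha => (integralClosure (Subring.closure s) L).algebraMap_mem ⟨a, ha⟩,
    T.image (↑), fun z hz => ?_, fun z hz => ?_⟩
  · obtain ⟨y, -, rfl⟩ := Finset.mem_image.1 hz
    exact y.2
  · have := Submodule.mem_map_of_mem (f := (integralClosure (Subring.closure s) L).val.toLinearMap)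
      (hT.ge (Submodule.mem_top (x := ⟨z, hz⟩)))
    rw [Submodule.map_span] at this
    rw [Finset.coe_image]
    exact this

end QNrZ

theorem qNrZ : NrZ := by
  refine fun L _ _ => ⟨fun h => ?_, fun t ht hf => ?_⟩
  · have : IsPrincipalIdealRing (Subring.closure (∅ : Set L)) :=
      .of_surjective (Int.castRingHom _) fun a => by
        obtain ⟨n, hn⟩ := Subring.mem_bot.1 (Subring.closure_empty.le a.2)
        exact ⟨n, Subtype.ext (by simpa using hn)⟩
    rw [← Subring.closure_empty]
    exact QNrZ.gen ∅
  · have e : ℤ[X] ≃+* Subring.closure {t} := (algEquivOfTranscendental ℤ t ht).toRingEquiv.trans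
      (RingEquiv.subringCongr (s := (Algebra.adjoin ℤ {t}).toSubring)
        (by rw [Algebra.adjoin_int]; rfl))
    have := isNoetherianRing_of_ringEquiv _ e
    have := IsIntegrallyClosed.of_equiv e
    exact QNrZ.gen {t}

end Pool.Agent.MP_f3836a_nt.GQ
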