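import Pool.Agent.MP_f3836a_nt.GQ.SpecM

/-! Part GQ: the order of a norm, and the branches at a point of a curve. -/

set_option autoImplicit false

namespace Pool.Agent.MP_f3836a_nt.GQ

open Polynomial IsLocalRing PK VE.W VE.Z GP

namespace QOrd

variable {L : Type} [Field L] {A W : Subring L}

theorem mul (h : Lc1 A) {f g : L} (hf : f ≠ 0) (hg : g ≠ 0) :
    ordR A (f * g) = ordR A f + ordR A g :=
  have := h.noeth
  have : Ring.KrullDimLE 1 A := .mk₁' fun I a b => h.dim I b a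
  Ord.mul h.fr f g hf hg

theorem idx (A : Subring L) (F : Subring L → ℝ) :
    ∑ᶠ (m : Ideal A) (h : m.IsMaximal), F (@lc L _ A m h.isPrime) = ∑ᶠ (S) (_ : Mx A S), F S := by
  classical
  let e : Ideal A → Subring L := fun m => if h : m.IsMaximal then @lc L _ A m h.isPrime else ⊤
  have k : ∀ (m : Ideal A) (h : m.IsMaximal), e m = @lc L _ A m h.isPrime := fun m h => dif_pos h
  refine Eq.trans ?_ (finsum_mem_eq_of_bijOn (s := {m : Ideal A | m.IsMaximal})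
    (t := {S | Mx A S}) (f := fun m => F (e m)) e
    ⟨fun m h => ⟨m, _, h, k m h⟩, fun m h m' h' x => ?_, ?_⟩ fun _ _ => rfl)
  · exact finsum_congr fun m => finsum_congr fun h => by rw [k m h]
  · rw [k m h, k m' h'] at x
    have := Ideal.IsMaximal.isPrime h
    have := Ideal.IsMaximal.isPrime h'
    exact le_antisymm (((wLc L A).le m' m).1 x.ge) (((wLc L A).le m m').1 x.le)
  · rintro _ ⟨m, _, h, rfl⟩
    exact ⟨m, h, k m h⟩

theorem one (h1 : CardL) (h2 : CardP) (h3 : CardN) (h4 : MxQ) {κ : Type} [Field κ] {ν : κ →+* L}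
    {B : Subring κ} (hB : Lc1 B) (hA : Fr A) (hf : Fnt (B.map ν) A) {s : L} (hs : s ∈ A)
    (s0 : s ≠ 0) (hm : ∀ n, (mpO ν s).coeff n ∈ B) :
    lg B * ordR B (nrmO ν s) = ∑ᶠ (S) (_ : Mx A S), lg S * ordR S s := by
  obtain ⟨m1, m2, -⟩ := h4 κ L ν B A hB hA hf
  obtain ⟨a, e, e'⟩ := h3 κ L ν B A ⟨s, hs⟩ hB.fr hA hf (fun a h => (h1 κ B a hB h).2.1)
    (fun x => s0 (congrArg Subtype.val x)) hm
  obtain ⟨-, c1, c2⟩ := h1 κ B a hB fun x => nrmO_ne ν s0 (by rw [← e, x]; rfl)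
  rw [← e, ← c2, ← e', h2 L A _ (e' ▸ c1) m1, ← idx]
  exact finsum_congr fun m => finsum_congr fun h =>
    (h1 L _ _ (m2 _ ⟨m, h.isPrime, h, rfl⟩).1 fun x => s0 (congrArg Subtype.val x)).2.2

theorem mem_nrm {z : L} : z ∈ nrm A ↔ ∀ W, Vr W → A ≤ W → z ∈ W := by
  have e := iInf_valuationSubring_superset (s := (A : Set L))
  rw [Subring.closure_eq] at e
  rw [nrm, ← e, Subring.mem_iInf]
  exact ⟨fun h W a b => h ⟨⟨W, a⟩, b⟩, fun h V => h _ V.1.2 V.2⟩

theorem loc (h : Vr W) : IsLocalRing W := inferInstanceAs (IsLocalRing (ValuationSubring.mk W h))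

theorem top (h : Fr A) (d : Dom A ⊤) : A = ⊤ := top_le_iff.1 fun z _ => by
  obtain ⟨a, b, hb, e⟩ := h z
  have u := d.ut b.2 ⟨hb, trivial, trivial⟩
  rw [eq_div_of_mul_eq hb e, div_eq_mul_inv]
  exact A.mul_mem a.2 u.2.2

theorem dvr (h : Lc1 W) (k : IsIntegrallyClosed W) : Dvr W := by
  have := h.loc
  have := h.noeth
  have : Ring.DimensionLEOne W := ⟨fun a b => h.dim _ b a⟩
  have : IsDedekindDomain W := {}
  refine ⟨((IsDiscreteValuationRing.TFAE W fun f => h.ne (top h.fr ⟨le_top, fun z n => ?_⟩)).out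
    0 2).2 this, h.fr⟩
  by_contra x
  obtain ⟨b, e⟩ := f.mul_inv_cancel (a := ⟨z, n.1⟩) fun y =>
    x (by rw [show z = 0 from congrArg Subtype.val y]; exact nu_zero)
  exact (nu_iff ⟨z, n.1⟩).1 n (.of_mul_eq_one b e)

theorem alg (h : Lc1 W) : Alg W := fun z u => by
  have := h.loc
  have := h.fin
  obtain ⟨j, hj, e⟩ := isOfFinOrder_iff_pow_eq_one.1
    (isOfFinOrder_of_finite (((ut_iff ⟨z, u.2.1⟩).1 u).map (residue W)).unit)
  refine ⟨j, hj, (nu_iff (⟨z, u.2.1⟩ ^ j - 1 : W)).2 ((residue_eq_zero_iff _).1 ?_)⟩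
  rw [map_sub, map_pow, map_one, sub_eq_zero]
  exact congrArg Units.val e

end QOrd

open QOrd

theorem qOrd : OfOrd := by
  intro h1 h2 h3 h4 κ κ' _ _ ν A A' hA hA' hf t t0
  obtain ⟨m1, m2, -, m4⟩ := h4 κ κ' ν A A' hA hA' hf
  obtain ⟨a, a0, ha, hm⟩ := m4 t
  have n0 : ν a ≠ 0 := (map_ne_zero ν).2 fun x => a0 (Subtype.ext x)
  have e1 := one h1 h2 h3 h4 hA hA' hf ha (mul_ne_zero n0 t0) hm
  have e2 := one h1 h2 h3 h4 hA hA' hf (hf.1 ⟨a, a.2, rfl⟩) n0 fun n => by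
    let := ν.toAlgebra
    rw [show mpO ν (ν a) = X - C (a : κ) from minpoly.eq_X_sub_C κ' _, coeff_sub, coeff_X, coeff_C]
    exact A.sub_mem (by split_ifs; exacts [A.one_mem, A.zero_mem])
      (by split_ifs; exacts [a.2, A.zero_mem])
  have e3 : ∑ᶠ (S) (_ : Mx A' S), lg S * ordR S (ν a * t) =
      ∑ᶠ (S) (_ : Mx A' S), lg S * ordR S (ν a) + ∑ᶠ (S) (_ : Mx A' S), lg S * ordR S t := by
    refine Eq.trans ?_ (finsum_mem_add_distrib m1)
    exact finsum_congr fun S => finsum_congr fun h => by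
      rw [mul (m2 S h).1 n0 t0, Int.cast_add, mul_add]
  rw [nrmO_mul, mul hA (nrmO_ne ν n0) (nrmO_ne ν t0), e3, ← e2, Int.cast_add, mul_add] at e1
  exact add_left_cancel e1

theorem qBr : OfBr := by
  intro h1 h2 h3 L _ A h
  have hA : Lc1 A := ⟨h.loc, h.noeth, h.fr, h.dim, h.ne, @h.fin⟩
  have hf : Fnt (A.map (RingHom.id L)) (nrm A) := by rw [Subring.map_id]; exact h.nrm
  have fr : Fr (nrm A) := zb_fr h.fr h.nrm.1
  obtain ⟨m1, m2, -⟩ := h2 L L _ A _ hA fr hf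
  rw [Subring.map_id] at m2
  have : IsFractionRing (nrm A) L := .of_field _ _ fun z =>
    let ⟨a, b, hb, e⟩ := fr z
    ⟨a, b, eq_div_of_mul_eq hb e⟩
  have : IsIntegrallyClosed (nrm A) := (isIntegrallyClosed_iff_isIntegrallyClosedIn L).2
    (inferInstanceAs (IsIntegrallyClosedIn (integralClosure A L) L))
  have dv : ∀ w, Mx (nrm A) w → Dvr w := fun w k => dvr (m2 w k).1 (by
    obtain ⟨m, _, -, rfl⟩ := k
    exact isIntegrallyClosed_of_isLocalization _ m.primeCompl m.primeCompl_le_nonZeroDivisors)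
  have br : ∀ w, Br A w ↔ Mx (nrm A) w := fun w =>
    ⟨fun k => by
      have := loc k.1
      obtain ⟨q, hq, d⟩ := zb_cen (B := nrm A) fun z hz => mem_nrm.1 hz w k.1 k.2.1
      obtain ⟨m, hm, l⟩ := q.exists_le_maximal hq.ne_top
      have := hm.isPrime
      refine ⟨m, this, hm, ((dvA (dv _ ⟨m, this, hm, rfl⟩)).max w
        ((((wLc L _).le m q).2 l).trans d.1)).resolve_right fun e => h.ne (top h.fr (e ▸ k.2))⟩,
    fun k => ⟨(dvA (dv w k)).val, (m2 w k).2⟩⟩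
  have tp : ∀ W, Vr W → A ≤ W → W = ⊤ ∨ Dom A W := fun W k l => by
    have := loc k
    have := h.loc
    obtain ⟨q, hq, d⟩ := zb_cen l
    by_cases q0 : q = ⊥
    · exact .inl (top_le_iff.1 ((((wLc L A).top q h.fr).2 q0).ge.trans d.1))
    · refine .inr ⟨l, fun z n => d.2 z ((nu_iff_not (le_lc A q n.1)).2 fun u => ?_)⟩
      exact (zb_ut ⟨z, n.1⟩).1 u ((eq_maximalIdeal (h.dim q hq q0)).ge ((nu_iff ⟨z, n.1⟩).1 n))
  simp only [br]
  refine ⟨m1, ?_, (h1 L A 1 hA one_ne_zero).1, fun w k => ⟨dv w k, alg (m2 w k).1,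
    (h1 L w 1 (m2 w k).1 one_ne_zero).1⟩, tp, fun z => ⟨fun hz w k => ?_, fun k => ?_⟩,
    fun u u0 => ?_⟩
  · obtain ⟨m, hm⟩ := Ideal.exists_maximal (nrm A)
    exact ⟨_, m, hm.isPrime, hm, rfl⟩
  · exact mem_nrm.1 hz w ((br w).2 k).1 (m2 w k).2.1
  · exact mem_nrm.2 fun W a b => (tp W a b).elim (fun e => e ▸ trivial) fun d =>
      k W ((br W).1 ⟨a, d⟩)
  · rw [← h3 L L _ A _ hA fr hf u u0, show nrmO (RingHom.id L) u = u from
      (nrmO_map _ u).trans (by rw [show frO (RingHom.id L) = 1 from Module.finrank_self L, pow_one])]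

end Pool.Agent.MP_f3836a_nt.GQ
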