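import Pool.Agent.MP_f3836a_nt.GQ.SpecM

/-! Forms that separate two finite sets of points. -/

set_option autoImplicit false

namespace Pool.Agent.MP_f3836a_nt.GQ

open Polynomial IsLocalRing PK VE.W VE.Z GP Filter

namespace QSep

variable {L ι : Type} [Field L] {ξ : ι → L}

/-- forms of all large degrees that do not vanish on `A` and vanish on `B` -/
def Sp (ξ : ι → L) (A B : Set (Subring L)) : Prop :=
  ∀ᶠ d in atTop, ∃ G, Fm ξ d G ∧ (∀ S ∈ A, Uf ξ d G S) ∧ ∀ S ∈ B, ¬Uf ξ d G S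

theorem base (k : Fm0 ξ) {i : ι} {S : Subring L} (h0 : ξ i ≠ 0) (h : ∀ j, ξ j / ξ i ∈ S) (d : ℕ) :
    Fm ξ d (ξ i ^ d) ∧ Uf ξ d (ξ i ^ d) S :=
  ⟨by simpa using k.pow 1 _ d (k.one i), i, h0, h, by
    rw [div_self (pow_ne_zero d h0)]; exact ut_one⟩

theorem mul (k : Fm0 ξ) {A B B' : Set (Subring L)} {d : ℕ} {G : L} (h1 : Fm ξ d G)
    (h2 : ∀ S ∈ A, Uf ξ d G S) (h3 : ∀ S ∈ B, ¬Uf ξ d G S) (h : Sp ξ A B') : Sp ξ A (B ∪ B') := by
  obtain ⟨d', h⟩ := eventually_atTop.1 h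
  filter_upwards [eventually_ge_atTop (d + d')] with e he
  obtain ⟨G', u1, u2, u3⟩ := h (e - d) (by omega)
  obtain ⟨c, rfl⟩ : ∃ c, e = d + c := ⟨e - d, by omega⟩
  rw [Nat.add_sub_cancel_left] at u1 u2 u3
  refine ⟨G * G', k.mul _ _ _ _ h1 u1, fun S hS => k.umul _ _ _ _ _ (h2 S hS) (u2 S hS),
    fun S hS => hS.elim (fun a => k.nmul _ _ _ _ _ h1 u1 (h3 S a)) fun a => ?_⟩
  rw [add_comm, mul_comm]
  exact k.nmul _ _ _ _ _ u1 h1 (u3 S a)

theorem pair (m : MdA ξ) (k : Fm0 ξ) {S S' : Subring L} (h : Pt ξ S) (e : ¬S ≤ S') :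
    ∃ d G, Fm ξ d G ∧ Uf ξ d G S ∧ ¬Uf ξ d G S' := by
  obtain ⟨i, h0, q, _, rfl⟩ := h
  have le := (m.le i _).1 (le_lc _ q)
  by_cases b : Ch ξ i ≤ S'
  · obtain ⟨z, hz, hz'⟩ := SetLike.not_le_iff_exists.1 e
    obtain ⟨x, y, hy, e'⟩ := mem_lc.1 hz
    obtain ⟨d, hd⟩ := (k.ev i y h0 y.2).exists
    have c : (y : L) * ξ i ^ d / ξ i ^ d = y := mul_div_cancel_right₀ _ (pow_ne_zero d h0)
    refine ⟨d, _, hd, ⟨i, h0, le, c.symm ▸ (zb_ut y).2 hy⟩, fun u => hz' ?_⟩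
    have v := (k.div d _ _ S' hd (base k h0 ((m.le i _).1 b) d).2).2.2 u
    rw [c] at v
    rw [eq_div_of_mul_eq v.1 e', div_eq_mul_inv]
    exact mul_mem (b x.2) v.2.2
  · refine ⟨1, ξ i, k.one i, by simpa using (base k h0 le 1).2, fun u => b ((m.le i _).2 fun j => ?_)⟩
    exact (k.div 1 _ _ S' (k.one j) u).1

theorem one (m : MdA ξ) (k : Fm0 ξ) {S : Subring L} (h : Pt ξ S) {B : Set (Subring L)}
    (hB : B.Finite) (e : ∀ S' ∈ B, ¬S ≤ S') : Sp ξ {S} B := by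
  induction B, hB using Set.Finite.induction_on with
  | empty =>
    obtain ⟨i, h0, hi⟩ := m.cht S h
    exact .of_forall fun d => ⟨_, (base k h0 hi d).1, fun _ a => a ▸ (base k h0 hi d).2,
      fun _ a => a.elim⟩
  | @insert S' B _ _ ih =>
    obtain ⟨d, G, h1, h2, h3⟩ := pair m k h (e S' (Set.mem_insert _ _))
    exact mul k (B := {S'}) h1 (fun _ a => a ▸ h2) (fun _ a => a ▸ h3)
      (ih fun T a => e T (Set.mem_insert_of_mem _ a))

theorem all (m : MdA ξ) (k : Fm0 ξ) (A : Finset (Subring L)) : ∀ B : Set (Subring L), B.Finite →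
    (∀ S ∈ A, Pt ξ S) → (∀ S ∈ B, Pt ξ S) → (∀ S ∈ A, ∀ S' ∈ B, ¬S ≤ S') → Sp ξ A B := by
  classical
  induction A using Finset.strongInduction with
  | H A ih =>
    intro B hB pA pB e
    rcases A.eq_empty_or_nonempty with rfl | hA
    · exact .of_forall fun d => ⟨0, zero_mem _, by simp, fun S _ u => k.ne _ _ _ u rfl⟩
    obtain ⟨S, hS, mn⟩ := A.exists_minimal hA
    have h1 := one m k (pA S hS) (B := B ∪ (A.filter fun T => ¬S ≤ T : Finset _))
      (hB.union (Finset.finite_toSet _)) fun T a => a.elim (e S hS T) fun a =>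
        (Finset.mem_filter.1 a).2
    have h2 := ih (A.filter fun T => ¬S ≤ T) (Finset.filter_ssubset.2 ⟨S, hS, by simp⟩)
      (insert S B) (hB.insert S) (fun T a => pA T (Finset.mem_filter.1 a).1)
      (fun T a => a.elim (fun a => a ▸ pA S hS) (pB T)) fun T a T' b => b.elim
        (fun b c => (Finset.mem_filter.1 a).2 (mn (Finset.mem_filter.1 a).1 (b ▸ c)))
        (e T (Finset.mem_filter.1 a).1 T')
    filter_upwards [h1, h2] with d ⟨G, u1, u2, u3⟩ ⟨G', v1, v2, v3⟩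
    refine ⟨G + G', k.add _ _ _ u1 v1, fun T a => ?_, fun T a => k.nadd _ _ _ _
      (m.loc T (pB T a)) (m.cht T (pB T a)) u1 v1 (u3 T (.inl a)) (v3 T (.inr a))⟩
    by_cases c : S ≤ T
    · exact k.mono _ _ _ _ (k.uadd _ _ _ _ (m.loc S (pA S hS)) v1 (u2 S rfl) (v3 S (.inl rfl))) c
    · have b : T ∈ A.filter fun T => ¬S ≤ T := Finset.mem_filter.2 ⟨a, c⟩
      rw [add_comm]
      exact k.uadd _ _ _ _ (m.loc T (pA T a)) u1 (v2 T b) (u3 T (.inr b))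

end QSep

theorem qSep : OfSep := fun hm hf L ι _ _ ξ md T T' hT hT' p p' e => by
  have := QSep.all (hm L ι ξ md) (hf L ι ξ) hT.toFinset T' hT' (fun S a => p S (by simpa using a)) p'
    fun S a => e S (by simpa using a)
  rwa [hT.coe_toFinset] at this

end Pool.Agent.MP_f3836a_nt.GQ
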