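import Pool.Agent.MP_f3836a_nt.GQ.SpecM
import Pool.Agent.MP_f3836a_nt.VE.ZSb

/-! Part GQ: finiteness on a model of a function field in one variable. -/

set_option autoImplicit false

namespace Pool.Agent.MP_f3836a_nt.GQ

open Polynomial IsLocalRing PK VE.W VE.Z GP

namespace QSf

variable {L : Type} [Field L] {B : Subring L}

theorem mm {m : Ideal B} [m.IsPrime] {a b : B} {u : L} (b0 : (b : L) ≠ 0) (e : u * b = a)
    (hn : ¬Ut (lc B m) u) : a * b ∈ m := by_contra fun z => hn (by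
  rw [eq_div_of_mul_eq b0 e]
  exact ((zb_ut a).2 fun w => z (m.mul_mem_right _ w)).div
    ((zb_ut b).2 fun w => z (m.mul_mem_left _ w)))

theorem c1 [IsNoetherianRing B] (fr : Fr B) {f : L} (f0 : f ≠ 0) :
    {S | (∃ (q : Ideal B) (_ : q.IsPrime), S = lc B q) ∧ Dm1 S ∧ ¬Ut S f}.Finite := by
  obtain ⟨a, b, b0, e⟩ := fr f
  have hab : a * b ≠ 0 := mul_ne_zero (fun z => mul_ne_zero f0 b0 (e.trans (congrArg _ z)))
    fun z => b0 (congrArg _ z)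
  refine ((Ideal.finite_minimalPrimes_of_isNoetherianRing _
    (Ideal.span {a * b})).dependent_image fun m hm => @lc L _ _ m hm.1.1).subset ?_
  rintro _ ⟨⟨m, hm, rfl⟩, l, hn⟩
  obtain ⟨n, n0, l0⟩ := Ideal.exists_minimalPrimes_le
    ((Ideal.span_singleton_le_iff_mem m).2 (mm b0 e hn))
  have := n0.1.1
  obtain ⟨n', hn', k⟩ := (wLc L B).up m n l0
  obtain rfl : n = m := k.max.1 (l n' hn' fun z =>
    hab (Ideal.mem_bot.1 (k.bot.1 z ▸ n0.1.2 (Ideal.mem_span_singleton_self _))))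
  exact ⟨n, n0, rfl⟩

theorem c2 [IsNoetherianRing B] (q : Ideal B) [hq : q.IsPrime] (q0 : q ≠ ⊥) {u : L}
    (hu : Ut (lc B q) u) : {D : Subring L | (∃ (m : Ideal B) (_ : m.IsPrime), D = lc B m) ∧
      (∀ q q' : Ideal D, q.IsPrime → q'.IsPrime → q ≠ ⊥ → q < q' → q'.IsMaximal) ∧
      D ≤ lc B q ∧ ¬Ut D u}.Finite := by
  obtain ⟨a, b, hb, e⟩ := mem_lc.1 hu.2.1
  have ub := (zb_ut b).2 hb
  have ha : a ∉ q := (zb_ut a).1 (e ▸ hu.mul ub)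
  have hab : a * b ∉ q := fun h => (hq.mem_or_mem h).elim ha hb
  refine ((Ideal.finite_minimalPrimes_of_isNoetherianRing _
    (q ⊔ Ideal.span {a * b})).dependent_image fun m hm => @lc L _ _ m hm.1.1).subset ?_
  rintro _ ⟨⟨m, hm, rfl⟩, d, l, hn⟩
  have l1 := ((wLc L B).le m q).1 l
  obtain ⟨n, n0, l0⟩ := Ideal.exists_minimalPrimes_le
    (sup_le l1 ((Ideal.span_singleton_le_iff_mem m).2 (mm ub.1 e hn)))
  have := n0.1.1
  obtain ⟨n', hn', k⟩ := (wLc L B).up m n l0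
  obtain ⟨q', hq', k'⟩ := (wLc L B).up m q l1
  have l2 : q' ≤ n' := ((wLc L _).le n' q').1 (by
    rw [k.eq, k'.eq]; exact ((wLc L B).le n q).2 (le_sup_left.trans n0.1.2))
  obtain rfl : n = m := k.max.1 (d q' n' hq' hn' (fun z => q0 (k'.bot.1 z)) (lt_of_le_of_ne l2
    fun z => hab ((k'.mem _).2 (z ▸ (k.mem _).1
      (n0.1.2 (Ideal.mem_sup_right (Ideal.mem_span_singleton_self _)))))))
  exact ⟨n, n0, rfl⟩

end QSf

theorem qSf : OfSf := by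
  intro hM _ hS L ι _ _ _ ξ ff md
  have A := hM L ι ξ md
  have s := hS L ι ξ ff md
  have no : ∀ i, IsNoetherianRing (Ch ξ i) := fun i =>
    have := A.ft i
    Algebra.FiniteType.isNoetherianRing ℤ _
  have zer : ∀ f, f ≠ 0 → {S | Pt ξ S ∧ ¬Alg S ∧ ¬Ut S f}.Finite := fun f f0 => by
    refine (Set.finite_iUnion fun i : {i // ξ i ≠ 0} => QSf.c1 (md.2 i i.2) f0).subset ?_
    rintro S ⟨p, a, h⟩
    obtain ⟨i, hi, k⟩ := id p
    exact Set.mem_iUnion.2 ⟨⟨i, hi⟩, k, (s.tri S p).resolve_left a, h⟩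
  have fin2 : ∀ V u, Pt ξ V → ¬Alg V → V ≠ ⊤ → Ut V u →
      {D | Pt ξ D ∧ D ≤ V ∧ ¬Ut D u}.Finite := fun V u p _ t hu => by
    have k : ∀ i : {i // ξ i ≠ 0 ∧ Ch ξ i ≤ V}, {D : Subring L |
        (∃ (m : Ideal (Ch ξ i)) (_ : m.IsPrime), D = lc _ m) ∧
        (∀ q q' : Ideal D, q.IsPrime → q'.IsPrime → q ≠ ⊥ → q < q' → q'.IsMaximal) ∧
        D ≤ V ∧ ¬Ut D u}.Finite := fun i => by
      obtain ⟨q, hq, e⟩ := A.chart i V i.2.1 p i.2.2
      have q0 : q ≠ ⊥ := fun z => t (e.trans (((wLc L _).top q (md.2 i i.2.1)).2 z))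
      exact (QSf.c2 q q0 (e ▸ hu)).subset fun D h => ⟨h.1, h.2.1, e ▸ h.2.2.1, h.2.2.2⟩
    refine (Set.finite_iUnion k).subset ?_
    rintro D ⟨pD, l, h⟩
    obtain ⟨i, hi, m, hm, e⟩ := id pD
    exact Set.mem_iUnion.2 ⟨⟨i, hi, ((le_lc _ m).trans e.ge).trans l⟩, ⟨m, hm, e⟩, s.no3 D pD, l, h⟩
  refine ⟨s.tri, s.na, s.no3, s.h1, zer, fin2, fun V d G p a t _ hG => ?_, s.vex,
    fun M f hM h => ?_⟩
  · obtain ⟨i, hi, b, u⟩ := hG
    have k : ∀ j : {j // ξ j ≠ 0 ∧ Ch ξ j ≤ V}, Ut V (G / ξ j ^ d) := fun j => by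
      have w : Ut V (ξ i / ξ j) :=
        ⟨div_ne_zero hi j.2.1, (A.le j V).1 j.2.2 i, by rw [inv_div]; exact b j⟩
      have := u.mul (w.pow d)
      rwa [div_pow, div_mul_div_cancel₀ (pow_ne_zero d hi)] at this
    refine (Set.finite_iUnion fun j => fin2 V _ p a t (k j)).subset ?_
    rintro D ⟨pD, l, h⟩
    obtain ⟨j, hj, m, hm, e⟩ := id pD
    have l' := (le_lc _ m).trans e.ge
    exact Set.mem_iUnion.2 ⟨⟨j, hj, l'.trans l⟩, pD, l, fun z => h ⟨j, hj, (A.le j D).1 l', z⟩⟩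
  · have M0 : (M : L) ≠ 0 := Nat.cast_ne_zero.2 hM
    have k : {V | Pv ξ M V}.Finite := (zer M M0).subset fun V v => ⟨v.1, v.2.1, v.2.2.not⟩
    refine (k.biUnion fun V v => fin2 V f v.1 v.2.1
      (fun z => v.2.2.not ⟨M0, v.2.2.1, z ▸ Subring.mem_top _⟩) (h V v)).subset ?_
    rintro D ⟨pD, n⟩
    obtain ⟨V, v, l⟩ := s.vex M D hM pD
    exact Set.mem_biUnion v ⟨pD.1, l, n⟩

end Pool.Agent.MP_f3836a_nt.GQ
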