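import Pool.Agent.MP_f3836a_nt.GQ.SpecM

/-! Part GQ: the dimension of a model of a function field in one variable. -/

set_option autoImplicit false

namespace Pool.Agent.MP_f3836a_nt.GQ

open Polynomial IsLocalRing PK VE.W VE.Z GP

namespace QSf1

variable {L ι : Type} [Field L]

theorem no3 [CharZero L] (td : Td L) (D : Subring L) (q q' : Ideal D) (h : q.IsPrime)
    (h' : q'.IsPrime) (q0 : q ≠ ⊥) (l : q < q') : q'.IsMaximal := by
  have := D.subtype.charZero
  obtain ⟨m, hm, e⟩ := q'.exists_le_maximal h'.ne_top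
  by_contra k
  exact za_no3 (zb_td td D) h h' hm.isPrime q0 l (e.lt_of_ne fun e' => k (e' ▸ hm))

theorem lc_max (D : Subring L) [IsLocalRing D] (q : Ideal D) [q.IsPrime] (h : q.IsMaximal) :
    lc D q = D := le_antisymm (fun z hz => by
  obtain ⟨a, b, hb, e⟩ := mem_lc.1 hz
  have u : Ut D (b : L) := (ut_iff b).2 (by_contra fun k => hb (by rw [eq_maximalIdeal h]; exact k))
  rw [eq_div_of_mul_eq u.1 e, div_eq_mul_inv]
  exact D.mul_mem a.2 u.2.2) (le_lc D q)

theorem max_of (D : Subring L) [IsLocalRing D] (q : Ideal D) [hq : q.IsPrime] (h : lc D q = D) :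
    q.IsMaximal := by
  have e : q = maximalIdeal D := le_antisymm (le_maximalIdeal hq.ne_top) fun a ha =>
    by_contra fun k => ha ((ut_iff a).1 (((zb_ut a).2 k).mono h.le))
  exact e ▸ maximalIdeal.isMaximal D

variable [CharZero L] {ξ : ι → L}

theorem tri (ff : FF L) (A : MdA ξ) (S : Subring L) (h : Pt ξ S) : Alg S ∨ Dm1 S := by
  obtain ⟨i, -, q, _, rfl⟩ := h
  by_cases hm : q.IsMaximal
  · have := A.ft i
    have := za_fin q
    exact .inl (zb_alg q)
  · refine .inr fun p hp p0 => ?_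
    obtain ⟨p', _, l⟩ := (wLc L _).dn q p
    exact l.max.2 (by_contra fun e => hm (no3 ff.2.1 _ p' q inferInstance inferInstance
      (fun k => p0 (l.bot.2 k)) (l.le.lt_of_ne e)))

theorem na (ff : FF L) (md : Md ξ) (A : MdA ξ) (S : Subring L) (h : Pt ξ S) (a : Alg S) :
    ¬Dm1 S := fun d => by
  obtain ⟨i, hi, m, _, rfl⟩ := h
  have := A.ft i
  have := zb_max m a
  have := (Ch ξ i).subtype.charZero
  have t := zb_tr ff.2.2 (md.2 i hi)
  obtain ⟨q, hq, q0, ql⟩ := za_two (B := Ch ξ i) (by obtain ⟨t, h⟩ := t; exact ⟨t, h⟩) m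
  obtain ⟨q', hq', l⟩ := (wLc L _).up m q ql.le
  exact ql.ne (l.max.1 (d q' hq' fun e => q0 (l.bot.1 e)))

omit [CharZero L] in
theorem nalg (A : MdA ξ) (D : Subring L) (h : Pt ξ D) (q : Ideal D) [q.IsPrime]
    (hq : ¬q.IsMaximal) : ¬Alg (lc D q) := fun a => by
  have := A.loc D h
  exact hq (max_of D q (A.min _ D (A.dn D q h) h a (le_lc D q)).symm)

omit [CharZero L] in
theorem h1 (A : MdA ξ) (D S : Subring L) (h : Pt ξ D) (a : Alg D) :
    H1 D S ↔ Pt ξ S ∧ D ≤ S ∧ ¬Alg S ∧ S ≠ ⊤ := by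
  have := A.loc D h
  constructor
  · rintro ⟨q, _, q0, q1, rfl⟩
    exact ⟨A.dn D q h, le_lc D q, nalg A D h q q1,
      fun e => q0 (((wLc L D).top q (A.fr D h)).1 e)⟩
  · rintro ⟨hS, l, n, t⟩
    obtain ⟨q, _, rfl⟩ := A.ov D S h hS l
    exact ⟨q, inferInstance, fun e => t (((wLc L D).top q (A.fr D h)).2 e),
      fun e => n ((lc_max D q e).symm ▸ a), rfl⟩

theorem vex (ff : FF L) (md : Md ξ) (A : MdA ξ) (M : ℕ) (D : Subring L) (h : Pc ξ M D) :
    ∃ V, Pv ξ M V ∧ D ≤ V := by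
  obtain ⟨h, a, n⟩ := h
  have := A.loc D h
  have := A.noeth D h
  obtain ⟨P, hP, hle⟩ := Ideal.exists_minimalPrimes_le (I := Ideal.span {(M : D)})
    (J := maximalIdeal D) ((Ideal.span_singleton_le_iff_mem _).2 ((nu_iff (M : D)).1 n))
  have hp : P.IsPrime := hP.1.1
  have pP : (M : D) ∈ P := hP.1.2 (Ideal.mem_span_singleton_self _)
  have nm : ¬P.IsMaximal := fun e => na ff md A D h a fun q _ q0 => by_contra fun q1 => by
    have a1 := Ideal.height_le_one_of_isPrincipal_of_mem_minimalPrimes _ P hP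
    have a2 := Ideal.height_add_one_le_of_lt_of_isPrime (bot_lt_iff_ne_bot.2 q0)
    have a3 := Ideal.height_add_one_le_of_lt_of_isPrime ((le_maximalIdeal_of_isPrime q).lt_of_ne
      fun e => q1 (e ▸ maximalIdeal.isMaximal D))
    rw [Ideal.height_bot, zero_add] at a2
    exact absurd ((add_le_add_left a2 1).trans (a3.trans (eq_maximalIdeal e ▸ a1))) (by decide)
  exact ⟨lc D P, ⟨A.dn D P h, nalg A D h P nm,
    (nu_iff_not (natCast_mem _ M)).2 fun u => (zb_ut (M : D)).1 u pP⟩, le_lc D P⟩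

end QSf1

theorem qSf1 : OfSf1 := fun h L ι _ _ _ ξ ff md =>
  have A := h L ι ξ md
  ⟨QSf1.tri ff A, QSf1.na ff md A, fun D _ => QSf1.no3 ff.2.1 D, QSf1.h1 A,
    fun M D _ => QSf1.vex ff md A M D⟩

end Pool.Agent.MP_f3836a_nt.GQ
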