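import Pool.Agent.MP_f3836a_nt.GQ.SpecM

/-! Part GQ: the valuation rings of a surface whose centre is a curve. -/

set_option autoImplicit false

namespace Pool.Agent.MP_f3836a_nt.GQ

open Polynomial IsLocalRing PK VE.W VE.Z GP

namespace QTr0

variable {L κ : Type} [Field L] [Field κ]

theorem res_mem (O : Subring L) (r : O →+* κ) {u : L} (h : u ∈ O) : resR O r u = r ⟨u, h⟩ :=
  dif_pos h

/-- the norm of the residue -/
theorem nm {A O : Subring L} {r : A →+* κ} (hr : Rm A r) (hd : Dvr O) (hO : Dom A O)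
    (hf : ∀ [IsLocalRing O] (ν : κ →+* ResidueField O), Nv r O ν → 0 < frO ν) :
    (∀ u, Ut O u → nmW r O u ≠ 0) ∧
    (∀ u u', Ut O u → Ut O u' → nmW r O (u * u') = nmW r O u * nmW r O u') ∧
    (∀ u u', u ∈ O → u' ∈ O → Nu O (u - u') → nmW r O u = nmW r O u') ∧
    ∃ n : ℕ, 0 < n ∧ ∀ a : A, nmW r O a = r a ^ n := by
  have k := dvA hd
  have := k.loc
  obtain ⟨ν, hν⟩ := hr.nv hO
  have e := nmW_eq hr.surj hν
  refine ⟨fun u hu => ?_, fun u u' hu hu' => ?_, fun u u' hu hu' h => ?_,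
    frO ν, hf ν hν, fun a => ?_⟩
  · rw [e, res_mem O _ hu.2.1]
    exact nrmO_ne ν fun h0 => (residue_eq_zero_iff _).1 h0 ((ut_iff ⟨u, hu.2.1⟩).1 hu)
  · rw [e, e, e, ← nrmO_mul, res_mem O _ hu.2.1, res_mem O _ hu'.2.1,
      res_mem O _ (hu.mul hu').2.1, ← map_mul]
    rfl
  · rw [e, e, (k.res _ _ k.dv u hu u' hu').2 h]
  · obtain ⟨h, e'⟩ := hν a
    rw [e, res_mem O _ h, ← e', nrmO_map]

end QTr0

open QTr0 in
theorem qTr0 : OfTr0 := fun hm hs ht hf hn hb S y hy => by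
  have := hy.2
  have H := ht S
  have ff := (H.sf y hy.2).1 hy.1
  have md := hm _ _ (S.η y) (S.md y)
  have sf := hs _ _ (S.η y) ff (S.md y)
  have pt : ∀ {C : S.P} (h : C ≤ y), Pt (S.η y) (S.R h) := fun h => (S.pt y _).2 ⟨_, h, rfl⟩
  have key : ∀ (C : S.P) (h : C ≤ y), S.Cv C → ∃ D, Lc2 D ∧ H1 D (S.R h) := fun C h hC => by
    obtain ⟨D, d1, d2, d3⟩ := md.up _ (pt h)
    have c := (H.cv h hy).1 hC
    exact ⟨D, hf _ _ (S.η y) ff (S.md y) D d1 d2, (sf.h1 D _ d1 d2).2 ⟨pt h, d3, c.1, c.2⟩⟩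
  have dvr : ∀ O, S.Cw y O → Dvr O := fun O ⟨C, h, hC, hO⟩ => by
    obtain ⟨D, d, e⟩ := key C h hC
    have N := hn _ D d
    exact (N.h1 O ((N.br _ O e).1 hO).1).1
  have ex : ∀ (C : S.P) (h : C ≤ y), S.Cv C →
      {O | Br (S.R h) O}.Finite ∧ ∃ O, Br (S.R h) O := fun C h hC => by
    obtain ⟨D, d, e⟩ := key C h hC
    exact (hn _ D d).fb _ e
  refine ⟨dvr, fun O => ⟨fun hO => ?_, fun ⟨C, h, hC, hO⟩ => ⟨dvr O ⟨C, h, hC.1, hO⟩,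
    fun n n0 => hO.2.1 ((H.ho h hy.2).2 hC.2 n n0)⟩⟩, ex, fun f => ?_, fun C h O hC hO => ?_⟩
  · have k := dvA hO.1
    obtain ⟨D, d1, d2⟩ := md.cen O k.loc (md.val O k.val)
    obtain ⟨C, h, rfl⟩ := (S.pt y D).1 d1
    exact ⟨C, h, ⟨(H.cv h hy).2 ⟨fun a => ZPsi.not_ho d2 a hO.2,
      fun e => k.ne (top_le_iff.1 (e ▸ d2.1))⟩, (H.ho h hy.2).1 fun n n0 =>
        (d2.ut (natCast_mem _ n) (ho_ut hO.2 n0)).2.2⟩, k.val, d2⟩
  · by_cases f0 : f = 0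
    · refine Set.finite_empty.subset fun O o => o.2 ?_
      rw [f0]
      exact dif_neg fun h => h.1 rfl
    have z : {V | ∃ (C : S.P) (h : C ≤ y), S.Cv C ∧ S.R h = V ∧ ¬Ut V f}.Finite :=
      (sf.zer f f0).subset fun V ⟨C, h, hC, e, u⟩ =>
        ⟨e ▸ pt h, e ▸ ((H.cv h hy).1 hC).1, u⟩
    refine (z.biUnion (t := fun V => {O | Br V O}) fun V ⟨C, h, hC, e, _⟩ =>
      e ▸ (ex C h hC).1).subset fun O ⟨⟨C, h, hC, hO⟩, o⟩ => ?_
    exact Set.mem_biUnion (x := S.R h) ⟨C, h, hC, rfl, fun u =>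
      o (((dvA (dvr O ⟨C, h, hC, hO⟩)).ut f).1 (u.mono hO.2.1)).2⟩ hO
  · obtain ⟨D, d, e⟩ := key C h hC
    exact nm (S.rm h) (dvr O ⟨C, h, hC, hO⟩) hO.2 fun ν hν =>
      (hb _ D d _ O _ _ ν e (S.rm h) hO hν).2.2.2.2.1

end Pool.Agent.MP_f3836a_nt.GQ
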