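import Pool.Agent.MP_f3836a_nt.GQ.QSec
import Pool.Agent.MP_f3836a_nt.GQ.QMd
import Pool.Agent.MP_f3836a_nt.GQ.QFm0
import Pool.Agent.MP_f3836a_nt.GQ.QCrt
import Pool.Agent.MP_f3836a_nt.GQ.QSep
import Pool.Agent.MP_f3836a_nt.GQ.QSf1
import Pool.Agent.MP_f3836a_nt.GQ.QSf
import Pool.Agent.MP_f3836a_nt.GQ.QAff
import Pool.Agent.MP_f3836a_nt.GQ.QFinC
import Pool.Agent.MP_f3836a_nt.GQ.QNrZ
import Pool.Agent.MP_f3836a_nt.GQ.QPen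
import Pool.Agent.MP_f3836a_nt.GQ.QFinN
import Pool.Agent.MP_f3836a_nt.GQ.QNr
import Pool.Agent.MP_f3836a_nt.GQ.QNrT
import Pool.Agent.MP_f3836a_nt.GQ.QKey
import Pool.Agent.MP_f3836a_nt.GQ.QCard
import Pool.Agent.MP_f3836a_nt.GQ.QCardN
import Pool.Agent.MP_f3836a_nt.GQ.QMx
import Pool.Agent.MP_f3836a_nt.GQ.QOrd
import Pool.Agent.MP_f3836a_nt.GQ.QDd1
import Pool.Agent.MP_f3836a_nt.GQ.QTr0
import Pool.Agent.MP_f3836a_nt.GQ.QTr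
import Pool.Agent.MP_f3836a_nt.GQ.QKs
import Pool.Agent.MP_f3836a_nt.GQ.QDd
import Pool.Agent.MP_f3836a_nt.GQ.QNf

/-! Part GQ: models, normalisation, transport, assembled. -/

set_option autoImplicit false

namespace Pool.Agent.MP_f3836a_nt.GQ

theorem mdS : MdS := qMd qSec qSpc
theorem fmS : FmS := fmS_of qFm0 (qCrt mdS) (qSep mdS qFm0)
theorem sfQ : SfQ := qSf mdS fmS (qSf1 mdS)
theorem finN2 : FinN2 := qFinN2 mdS fmS sfQ (qAff mdS fmS) qFinC qNrZ (qPen mdS fmS sfQ)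
theorem finN1 : FinN1 := qFinN1 mdS fmS (qAff mdS fmS) qFinC qNrZ qNf
theorem nrT : NrT := qNrT qNr qMx
theorem ordQ : OrdQ := qOrd qCardL qCardP qCardN qMx
theorem brQ : BrQ := qBr qCardL qMx ordQ
theorem cuQ_of (h : HtQ) : CuQ := qCu h finN1
theorem trQ_of (h : HtQ) : TrQ := qTr h (qTr0 mdS sfQ h finN2 qNr nrT)
theorem ksQ_of (h : HtQ) : KsQ := qKs mdS sfQ h (trQ_of h)
theorem ddQ_of (h : HtQ) : DdQ :=
  qDd mdS sfQ h finN2 qNr nrT (trQ_of h) (qDd1 nrT ordQ) (qDd2 qNr (qKeyQ qKeyL))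

end Pool.Agent.MP_f3836a_nt.GQ
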