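import Mathlib

/-! Points of an irreducible affine variety are joined by chains of curves: tools. -/

namespace Pool.Agent.MP_f3836a_nt.GQ.Conn

open Polynomial

/-- Homomorphisms to an algebraically closed field extend along integral maps. -/
theorem ext_hom {R S k : Type*} [CommRing R] [CommRing S] [Field k] [IsAlgClosed k]
    (f : R →+* S) (hf : f.IsIntegral) (φ : R →+* k) (hker : RingHom.ker f ≤ RingHom.ker φ) :
    ∃ ψ : S →+* k, ψ.comp f = φ := by
  let := f.toAlgebra
  have : Algebra.IsIntegral R S := ⟨hf⟩
  have : (RingHom.ker φ).IsPrime := RingHom.ker_isPrime φ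
  obtain ⟨Q, -, hQ, hQe⟩ := Ideal.exists_ideal_over_prime_of_isIntegral (S := S)
    (RingHom.ker φ) ⊥ (by
      intro x hx
      exact hker hx)
  have : Q.LiesOver (RingHom.ker φ) := ⟨hQe.symm⟩
  let : Algebra (R ⧸ RingHom.ker φ) k := (RingHom.kerLift φ).toAlgebra
  have : FaithfulSMul (R ⧸ RingHom.ker φ) k :=
    (faithfulSMul_iff_algebraMap_injective _ _).mpr (RingHom.kerLift_injective φ)
  have : Algebra.IsIntegral (R ⧸ RingHom.ker φ) (S ⧸ Q) := inferInstance
  have : Module.IsTorsionFree (R ⧸ RingHom.ker φ) (S ⧸ Q) :=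
    FaithfulSMul.to_isTorsionFree _ _
  let g : (S ⧸ Q) →ₐ[R ⧸ RingHom.ker φ] k := IsAlgClosed.lift
  refine ⟨g.toRingHom.comp (Ideal.Quotient.mk Q), RingHom.ext fun x => ?_⟩
  have := g.commutes (Ideal.Quotient.mk _ x)
  exact this

/-- A root of a monic polynomial over `k[t]` has bounded degree. -/
theorem deg_le {k : Type*} [Field k] (f : k[X][X]) (hf : f.Monic) (D : ℕ)
    (hD : ∀ i, (f.coeff i).natDegree ≤ D) (p : k[X]) (hp : f.eval p = 0) : p.natDegree ≤ D := by
  by_contra hlt
  push Not at hlt
  have hp0 : p ≠ 0 := by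
    rintro rfl
    simp at hlt
  rw [eval_eq_sum_range, Finset.sum_range_succ, hf.coeff_natDegree, one_mul] at hp
  have h1 : p ^ f.natDegree = -∑ i ∈ Finset.range f.natDegree, f.coeff i * p ^ i := by
    linear_combination hp
  have hn : f.natDegree ≠ 0 := by
    intro h0
    rw [h0] at h1
    simp at h1
  have h2 : (∑ i ∈ Finset.range f.natDegree, f.coeff i * p ^ i).natDegree ≤
      D + (f.natDegree - 1) * p.natDegree := by
    refine natDegree_sum_le_of_forall_le _ _ fun i hi => ?_
    refine natDegree_mul_le.trans (add_le_add (hD i) ?_)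
    rw [natDegree_pow]
    have := Finset.mem_range.mp hi
    exact Nat.mul_le_mul_right _ (by omega)
  have h3 := congrArg natDegree h1
  rw [natDegree_neg, natDegree_pow] at h3
  obtain ⟨n, hn'⟩ := Nat.exists_eq_succ_of_ne_zero hn
  rw [← h3, hn'] at h2
  simp only [Nat.succ_eq_add_one, add_tsub_cancel_right] at h2
  nlinarith

/-- A function that is a polynomial of bounded degree in each variable is a polynomial. -/
theorem sep_poly {k σ : Type*} [Field k] [Infinite k] [DecidableEq σ] (D : ℕ) (T : Finset σ) :
    ∀ F : (σ → k) → k,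
      (∀ b i, ∃ p : k[X], p.natDegree ≤ D ∧ ∀ t, F (Function.update b i t) = p.eval t) →
      (∀ b b', (∀ i ∈ T, b i = b' i) → F b = F b') →
      ∃ P : MvPolynomial σ k, ∀ b, F b = MvPolynomial.eval b P := by
  classical
  induction T using Finset.induction_on with
  | empty =>
    intro F _ h
    exact ⟨MvPolynomial.C (F 0), fun b => by simpa using h b 0 (by simp)⟩
  | insert i T hi ih =>
    intro F hF h
    obtain ⟨S, hS⟩ := Infinite.exists_subset_card_eq k (D + 1)
    have h1 : ∀ s : k, ∃ P : MvPolynomial σ k,
        ∀ b, F (Function.update b i s) = MvPolynomial.eval b P := by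
      intro s
      refine ih _ (fun b j => ?_) fun b b' hb => h _ _ fun j hj => ?_
      · by_cases hj : j = i
        · subst hj
          exact ⟨C (F (Function.update b j s)), by simp, fun t => by simp⟩
        · obtain ⟨p, hp, hp'⟩ := hF (Function.update b i s) j
          exact ⟨p, hp, fun t => by rw [← hp', Function.update_comm hj]⟩
      · by_cases hj' : j = i
        · subst hj'
          simp
        · simp only [Function.update_of_ne hj']
          exact hb j ((Finset.mem_insert.mp hj).resolve_left hj')
    choose P hP using h1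
    refine ⟨∑ s ∈ S, P s * Polynomial.aeval (MvPolynomial.X i) (Lagrange.basis S id s),
      fun b => ?_⟩
    obtain ⟨p, hp, hp'⟩ := hF b i
    have e : p = Lagrange.interpolate S id fun s => p.eval s :=
      Lagrange.eq_interpolate (Set.injOn_id _) (by
        rw [hS]
        exact (degree_le_of_natDegree_le hp).trans_lt (by exact_mod_cast Nat.lt_succ_self D))
    have e2 : F b = p.eval (b i) := by rw [← hp', Function.update_eq_self]
    rw [e2, e, Lagrange.interpolate_apply, eval_finsetSum, map_sum]
    refine Finset.sum_congr rfl fun s _ => ?_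
    rw [eval_mul, eval_C, map_mul, ← hP, hp']
    congr 1
    have : (MvPolynomial.eval b).comp (Polynomial.aeval (MvPolynomial.X i) :
        k[X] →ₐ[k] MvPolynomial σ k).toRingHom = evalRingHom (b i) := by
      ext <;> simp
    exact (RingHom.congr_fun this _).symm

/-- A function on a curve over the line that depends on the coordinate only is a polynomial. -/
theorem poly_of_curve {k D : Type*} [Field k] [IsAlgClosed k] [CharZero k] [CommRing D]
    [IsDomain D] (μ : k[X] →+* D) (hi : Function.Injective μ) (hμ : μ.IsIntegral) (c : D)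
    (r : k → k) (h : ∀ (t : k) (ψ : D →+* k), ψ.comp μ = evalRingHom t → ψ c = r t) :
    ∃ p : k[X], ∀ t, r t = p.eval t := by
  let := μ.toAlgebra
  have : FaithfulSMul k[X] D := (faithfulSMul_iff_algebraMap_injective _ _).mpr hi
  have hc : IsIntegral k[X] c := hμ c
  have hm := minpoly.monic hc
  have hn : (minpoly k[X] c).natDegree ≠ 0 := (minpoly.natDegree_pos hc).ne'
  refine ⟨C (-((minpoly k[X] c).natDegree : k)⁻¹) * (minpoly k[X] c).nextCoeff, fun t => ?_⟩
  have hroot : ∀ ρ ∈ ((minpoly k[X] c).map (evalRingHom t)).roots, ρ = r t := by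
    intro ρ hρ
    have hρ0 : eval₂ (evalRingHom t) ρ (minpoly k[X] c) = 0 := by
      rw [← eval_map]
      exact (mem_roots'.mp hρ).2
    obtain ⟨ψ, hψ⟩ := ext_hom (aeval c : k[X][X] →ₐ[k[X]] D).toRingHom
      (RingHom.IsIntegral.tower_top (C : k[X] →+* k[X][X]) _ (by
        convert hμ using 1
        exact RingHom.ext fun x => by simp [RingHom.algebraMap_toAlgebra]))
      (eval₂RingHom (evalRingHom t) ρ) (by
        rw [minpoly.ker_eval hc, Ideal.span_le, Set.singleton_subset_iff]
        exact hρ0)
    have h1 : ψ.comp μ = evalRingHom t := RingHom.ext fun x => by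
      have := RingHom.congr_fun hψ (C x)
      simpa [RingHom.algebraMap_toAlgebra] using this
    have h2 := RingHom.congr_fun hψ X
    rw [← h t ψ h1]
    simpa using h2.symm
  have hm' := hm.map (evalRingHom t)
  have hs : ((minpoly k[X] c).map (evalRingHom t)).Splits := IsAlgClosed.splits _
  have h1 := hs.nextCoeff_eq_neg_sum_roots_of_monic hm'
  have h2 : ((minpoly k[X] c).map (evalRingHom t)).roots =
      Multiset.replicate (minpoly k[X] c).natDegree (r t) := by
    rw [Multiset.eq_replicate]
    refine ⟨?_, hroot⟩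
    rw [← hs.natDegree_eq_card_roots, hm.natDegree_map]
  rw [h2, Multiset.sum_replicate, nsmul_eq_mul, 
    nextCoeff_map_of_leadingCoeff_ne_zero _ (by rw [hm.leadingCoeff]; simp)] at h1
  have hn' : ((minpoly k[X] c).natDegree : k) ≠ 0 := Nat.cast_ne_zero.mpr hn
  rw [eval_mul, eval_C]
  rw [coe_evalRingHom] at h1
  rw [h1]
  field_simp

end Pool.Agent.MP_f3836a_nt.GQ.Conn
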