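import Pool.Agent.MP_f3836a_nt.GQ.ConnA

/-! Points of a Galois cover of affine space are joined by chains of curves. -/

namespace Pool.Agent.MP_f3836a_nt.GQ.Conn

open Polynomial
open scoped Pointwise

variable {k σ : Type*} [Field k] [DecidableEq σ]

/-- Restriction to the line through `b` in the direction `i`. -/
noncomputable def lam (b : σ → k) (i : σ) : MvPolynomial σ k →+* k[X] :=
  (MvPolynomial.aeval (Function.update (fun j => C (b j)) i X) :
    MvPolynomial σ k →ₐ[k] k[X]).toRingHom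

/-- The coordinate `i`. -/
noncomputable def sec (i : σ) : k[X] →+* MvPolynomial σ k :=
  (Polynomial.aeval (MvPolynomial.X i) : k[X] →ₐ[k] MvPolynomial σ k).toRingHom

theorem lam_sec (b : σ → k) (i : σ) (y : k[X]) : lam b i (sec i y) = y := by
  have : (lam b i).comp (sec i) = RingHom.id _ := by
    ext <;> simp [lam, sec]
  exact RingHom.congr_fun this y

theorem ev_lam (b : σ → k) (i : σ) (t : k) (x : MvPolynomial σ k) :
    (lam b i x).eval t = MvPolynomial.eval (Function.update b i t) x := by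
  have : (evalRingHom t).comp (lam b i) = MvPolynomial.eval (Function.update b i t) := by
    ext j
    · simp [lam]
    · by_cases hj : j = i
      · subst hj
        simp [lam]
      · simp [lam, Function.update_of_ne hj]
  exact RingHom.congr_fun this x

theorem deg_lam (b : σ → k) (i : σ) (x : MvPolynomial σ k) :
    (lam b i x).natDegree ≤ x.totalDegree := by
  have := MvPolynomial.aeval_natDegree_le (n := 1) x le_rfl
    (Function.update (fun j => C (b j)) i X) (fun j => by
      by_cases hj : j = i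
      · subst hj
        simp
      · simp [Function.update_of_ne hj])
  simpa [lam] using this

variable {C : Type*} [CommRing C] [IsDomain C] [Algebra (MvPolynomial σ k) C]

/-- `φ` is a point over `b`. -/
def Ov (φ : C →+* k) (b : σ → k) : Prop :=
  ∀ x, φ (algebraMap (MvPolynomial σ k) C x) = MvPolynomial.eval b x

/-- `P` is a curve over the line through `b` in the direction `i`. -/
def Cu (P : Ideal C) (b : σ → k) (i : σ) : Prop :=
  P.IsPrime ∧ P.comap (algebraMap (MvPolynomial σ k) C) = RingHom.ker (lam b i)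

/-- The coordinate on a curve. -/
noncomputable def mu (P : Ideal C) (i : σ) : k[X] →+* C ⧸ P :=
  ((Ideal.Quotient.mk P).comp (algebraMap (MvPolynomial σ k) C)).comp (sec i)

omit [IsDomain C] in
theorem mu_lam {P : Ideal C} {b : σ → k} {i : σ} (h : Cu P b i) (x : MvPolynomial σ k) :
    mu P i (lam b i x) = Ideal.Quotient.mk P (algebraMap _ C x) := by
  simp only [mu, RingHom.comp_apply]
  rw [Ideal.Quotient.eq, ← map_sub, ← Ideal.mem_comap, h.2, RingHom.mem_ker, map_sub, lam_sec,
    sub_self]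

omit [IsDomain C] in
theorem mu_inj {P : Ideal C} {b : σ → k} {i : σ} (h : Cu P b i) :
    Function.Injective (mu (k := k) P i) := by
  rw [injective_iff_map_eq_zero]
  intro y hy
  simp only [mu, RingHom.comp_apply] at hy
  rw [Ideal.Quotient.eq_zero_iff_mem, ← Ideal.mem_comap, h.2, RingHom.mem_ker, lam_sec] at hy
  exact hy

omit [IsDomain C] in
theorem mu_int [Algebra.IsIntegral (MvPolynomial σ k) C] {P : Ideal C} {b : σ → k} {i : σ}
    (h : Cu P b i) : (mu (k := k) P i).IsIntegral := by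
  refine RingHom.IsIntegral.tower_top (lam b i) _ ?_
  have : (mu (k := k) P i).comp (lam b i) =
      (Ideal.Quotient.mk P).comp (algebraMap (MvPolynomial σ k) C) := RingHom.ext (mu_lam h)
  rw [this]
  exact RingHom.IsIntegral.trans _ _ (fun x => Algebra.IsIntegral.isIntegral x)
    (RingHom.isIntegral_of_surjective _ Ideal.Quotient.mk_surjective)

omit [IsDomain C] in
theorem ov_of_mu {P : Ideal C} {b : σ → k} {i : σ} (h : Cu P b i) {t : k} {ψ : C ⧸ P →+* k}
    (hψ : ψ.comp (mu P i) = evalRingHom t) :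
    Ov (ψ.comp (Ideal.Quotient.mk P)) (Function.update b i t) := fun x => by
  rw [RingHom.comp_apply, ← mu_lam h, ← ev_lam]
  exact RingHom.congr_fun hψ _

theorem ex_cu [Algebra.IsIntegral (MvPolynomial σ k) C] [FaithfulSMul (MvPolynomial σ k) C]
    {φ : C →+* k} {b : σ → k} (h : Ov φ b) (i : σ) : ∃ P, Cu P b i ∧ P ≤ RingHom.ker φ := by
  have := RingHom.ker_isPrime φ
  have := RingHom.ker_isPrime (lam b i)
  have : ((RingHom.ker φ).under (MvPolynomial σ k)).IsPrime := Ideal.IsPrime.under _ _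
  obtain ⟨P, h1, h2, h3⟩ := Ideal.exists_ideal_le_liesOver_of_le (p := RingHom.ker (lam b i))
    (q := (RingHom.ker φ).under (MvPolynomial σ k)) (RingHom.ker φ) (by
      intro x hx
      rw [Ideal.under_def, Ideal.mem_comap, RingHom.mem_ker, h x,
        ← Function.update_eq_self i b, ← ev_lam, (RingHom.mem_ker).mp hx, eval_zero])
  exact ⟨P, ⟨h2, h3.over.symm⟩, h1⟩

omit [IsDomain C] in
theorem ex_pt [IsAlgClosed k] [Algebra.IsIntegral (MvPolynomial σ k) C] {P : Ideal C}
    {b : σ → k} {i : σ} (h : Cu P b i) (t : k) :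
    ∃ ψ : C →+* k, Ov ψ (Function.update b i t) ∧ P ≤ RingHom.ker ψ := by
  obtain ⟨ψ, hψ⟩ := ext_hom _ (mu_int h) (evalRingHom t) (by
    rw [(RingHom.injective_iff_ker_eq_bot _).mp (mu_inj h)]
    exact bot_le)
  refine ⟨_, ov_of_mu h hψ, fun x hx => ?_⟩
  rw [RingHom.mem_ker, RingHom.comp_apply, Ideal.Quotient.eq_zero_iff_mem.mpr hx, map_zero]

omit [IsDomain C] [DecidableEq σ] in
theorem trans_pt (G : Type*) [Group G] [Finite G] [MulSemiringAction G C]
    [SMulCommClass G (MvPolynomial σ k) C] [Algebra.IsInvariant (MvPolynomial σ k) C G]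
    {φ ψ : C →+* k} {b : σ → k} (h : Ov φ b) (h' : Ov ψ b) : ∃ g : G, ∀ c, ψ c = φ (g • c) := by
  have := RingHom.ker_isPrime φ
  have := RingHom.ker_isPrime ψ
  obtain ⟨g, hg⟩ := Algebra.IsInvariant.exists_smul_of_under_eq (MvPolynomial σ k) C G
    (RingHom.ker φ) (RingHom.ker ψ) (by
      ext x
      simp only [Ideal.under_def, Ideal.mem_comap, RingHom.mem_ker, h x, h' x])
  refine ⟨g⁻¹, fun c => ?_⟩
  have h1 : c - algebraMap (MvPolynomial σ k) C (MvPolynomial.C (ψ c)) ∈ RingHom.ker ψ := by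
    rw [RingHom.mem_ker, map_sub, h', MvPolynomial.eval_C, sub_self]
  rw [hg, Ideal.mem_pointwise_smul_iff_inv_smul_mem, RingHom.mem_ker, smul_sub, map_sub,
    smul_algebraMap, h, MvPolynomial.eval_C, sub_eq_zero] at h1
  exact h1.symm

/-- A set of points that is closed along curves and meets each fibre. -/
theorem mem_base [Finite σ] [IsAlgClosed k] [CharZero k] [Algebra.IsIntegral (MvPolynomial σ k) C]
    [FaithfulSMul (MvPolynomial σ k) C] (U : (C →+* k) → Prop)
    (hU : ∀ P (b : σ → k) i t φ ψ, Cu P b i → Ov φ b → Ov ψ (Function.update b i t) →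
      P ≤ RingHom.ker φ → P ≤ RingHom.ker ψ → U φ → U ψ)
    (hex : ∀ b : σ → k, ∃ φ, Ov φ b ∧ U φ) (c : C)
    (hc : ∀ (b : σ → k) φ ψ, Ov φ b → Ov ψ b → U φ → U ψ → φ c = ψ c) :
    c ∈ (algebraMap (MvPolynomial σ k) C).range := by
  choose φ hφ hφU using hex
  obtain ⟨f, hfm, hf⟩ : IsIntegral (MvPolynomial σ k) c := Algebra.IsIntegral.isIntegral c
  have := Fintype.ofFinite σ
  obtain ⟨Q, hQ⟩ := sep_poly (f.support.sup fun n => (f.coeff n).totalDegree) Finset.univ
    (fun b => φ b c) (fun b i => by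
      obtain ⟨P, hP, hPb⟩ := ex_cu (hφ b) i
      have := hP.1
      obtain ⟨p, hp⟩ := poly_of_curve (mu P i) (mu_inj hP) (mu_int hP) (Ideal.Quotient.mk P c)
        (fun t => φ (Function.update b i t) c) (fun t ψ hψ => by
          have h1 := ov_of_mu hP hψ
          refine hc _ _ _ h1 (hφ _) (hU P b i t _ _ hP (hφ b) h1 hPb (fun x hx => ?_) (hφU b))
            (hφU _)
          rw [RingHom.mem_ker, RingHom.comp_apply, Ideal.Quotient.eq_zero_iff_mem.mpr hx,
            map_zero])
      refine ⟨p, deg_le (f.map (lam b i)) (hfm.map _) _ (fun n => ?_) p ?_, hp⟩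
      · rw [coeff_map]
        refine (deg_lam b i _).trans ?_
        by_cases hn : n ∈ f.support
        · exact Finset.le_sup (f := fun n => (f.coeff n).totalDegree) hn
        · rw [notMem_support_iff.mp hn]
          simp
      · refine Polynomial.funext fun t => ?_
        have h1 := congrArg (φ (Function.update b i t)) hf
        rw [hom_eval₂, map_zero, hp] at h1
        rw [eval_zero, eval_map, ← coe_evalRingHom, hom_eval₂, ← h1]
        congr 1
        exact RingHom.ext fun x => (ev_lam b i t x).trans (hφ _ x).symm)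
    (fun b b' h => by rw [show b = b' from funext fun i => h i (Finset.mem_univ i)])
  by_contra hn
  have h0 : c - algebraMap (MvPolynomial σ k) C Q ≠ 0 := fun h0 =>
    hn ⟨Q, (sub_eq_zero.mp h0).symm⟩
  refine Ideal.comap_ne_bot_of_integral_mem (R := MvPolynomial σ k)
    (I := ⨅ b, RingHom.ker (φ b)) h0 (Ideal.mem_iInf.mpr fun b => ?_)
    (Algebra.IsIntegral.isIntegral _) ?_
  · rw [RingHom.mem_ker, map_sub, hφ, hQ, sub_self]
  · rw [eq_bot_iff]
    intro x hx
    rw [Ideal.mem_comap, Ideal.mem_iInf] at hx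
    refine MvPolynomial.funext fun b => ?_
    rw [← hφ, map_zero]
    exact hx b

theorem reach [Finite σ] [IsAlgClosed k] [Algebra.IsIntegral (MvPolynomial σ k) C]
    [FaithfulSMul (MvPolynomial σ k) C] (U : (C →+* k) → Prop)
    (hU : ∀ P (b : σ → k) i t φ ψ, Cu P b i → Ov φ b → Ov ψ (Function.update b i t) →
      P ≤ RingHom.ker φ → P ≤ RingHom.ker ψ → U φ → U ψ)
    {φ₀ : C →+* k} {b₀ : σ → k} (h₀ : Ov φ₀ b₀) (hU₀ : U φ₀) (b : σ → k) :
    ∃ φ, Ov φ b ∧ U φ := by
  have := Fintype.ofFinite σ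
  have key : ∀ T : Finset σ, ∃ φ, Ov φ (fun j => if j ∈ T then b j else b₀ j) ∧ U φ := by
    intro T
    induction T using Finset.induction_on with
    | empty => exact ⟨φ₀, by simpa using h₀, hU₀⟩
    | insert i T hi ih =>
      obtain ⟨φ, hφ, hφU⟩ := ih
      obtain ⟨P, hP, hPφ⟩ := ex_cu hφ i
      obtain ⟨ψ, hψ, hPψ⟩ := ex_pt hP (b i)
      refine ⟨ψ, ?_, hU P _ i _ φ ψ hP hφ hψ hPφ hPψ hφU⟩
      convert hψ using 1
      funext j
      by_cases hj : j = i
      · subst hj
        simp
      · simp [hj]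
  simpa using key Finset.univ

/-- The Galois case. -/
theorem core [Finite σ] [IsAlgClosed k] [CharZero k] [FaithfulSMul (MvPolynomial σ k) C]
    (G : Type*) [Group G] [Finite G] [MulSemiringAction G C]
    [SMulCommClass G (MvPolynomial σ k) C] [Algebra.IsInvariant (MvPolynomial σ k) C G]
    {R : Type*} (h : (C →+* k) → R)
    (hh : ∀ P (b : σ → k) i (b' b'' : σ → k) φ ψ, Cu P b i → Ov φ b' → Ov ψ b'' →
      P ≤ RingHom.ker φ → P ≤ RingHom.ker ψ → h φ = h ψ)
    {φ ψ : C →+* k} {b b' : σ → k} (hφ : Ov φ b) (hψ : Ov ψ b') : h φ = h ψ := by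
  have := Algebra.IsInvariant.isIntegral (MvPolynomial σ k) C G
  let H : (C →+* k) → G → R := fun χ g => h (χ.comp (MulSemiringAction.toRingHom G C g))
  have hH : ∀ (χ χ' : C →+* k) (g : G), (∀ c, χ' c = χ (g • c)) → ∀ τ, H χ' τ = H χ (g * τ) := by
    intro χ χ' g hg τ
    exact congrArg h (RingHom.ext fun c => by simp [hg, mul_smul])
  let S : Subgroup G :=
    { carrier := {g | ∀ τ, H φ (g * τ) = H φ τ}
      mul_mem' := fun {a b} ha hb τ => by rw [mul_assoc, ha, hb]
      one_mem' := fun τ => by rw [one_mul]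
      inv_mem' := fun {a} ha τ => by rw [← ha, mul_inv_cancel_left] }
  have hov : ∀ (χ : C →+* k) (a : σ → k) (g : G), Ov χ a →
      Ov (χ.comp (MulSemiringAction.toRingHom G C g)) a := fun χ a g ha x => by
    rw [RingHom.comp_apply, MulSemiringAction.toRingHom_apply, smul_algebraMap, ha]
  have hU : ∀ P (b : σ → k) i t χ χ', Cu P b i → Ov χ b → Ov χ' (Function.update b i t) →
      P ≤ RingHom.ker χ → P ≤ RingHom.ker χ' → H χ = H φ → H χ' = H φ := by
    intro P a i t χ χ' hP ha ha' h1 h2 h3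
    rw [← h3]
    funext g
    have := hP.1
    refine (hh (P.comap (MulSemiringAction.toRingHom G C g)) a i _ _ _ _
      ⟨Ideal.comap_isPrime _ _, ?_⟩ (hov _ _ g ha) (hov _ _ g ha') (fun x hx => h1 hx)
      fun x hx => h2 hx).symm
    rw [← hP.2]
    ext x
    simp only [Ideal.mem_comap, MulSemiringAction.toRingHom_apply, smul_algebraMap]
  have hex := reach (fun χ => H χ = H φ) hU hφ rfl
  have : Algebra.IsInvariant (MvPolynomial σ k) C S := ⟨fun c hc =>
    mem_base (fun χ => H χ = H φ) hU hex c fun a χ χ' ha ha' h1 h2 => by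
      obtain ⟨g, hg⟩ := trans_pt G ha ha'
      have hgS : g ∈ S := fun τ => by rw [← h1, ← hH χ χ' g hg, h2, h1]
      rw [hg]
      exact congrArg χ (hc ⟨g, hgS⟩).symm⟩
  obtain ⟨χ, hχ, hχU⟩ := hex b'
  obtain ⟨g, hg⟩ := trans_pt S hχ hψ
  have h1 := hH χ ψ g hg 1
  rw [hχU, g.2 1] at h1
  have e : ∀ χ : C →+* k, H χ 1 = h χ := fun χ => congrArg h (RingHom.ext fun c => by simp)
  rw [← e, ← e, h1]

end Pool.Agent.MP_f3836a_nt.GQ.Conn
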