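import Pool.Agent.MP_f3836a_nt.GQ.ConnB

/-! Points of an irreducible affine variety are joined by chains of curves. -/

namespace Pool.Agent.MP_f3836a_nt.GQ.Conn

open Polynomial

universe u

/-- A finite extension of a normal domain lies in a Galois cover. -/
theorem ex_cover (B : Type*) (A : Type u) [CommRing B] [IsDomain B] [IsIntegrallyClosed B]
    [CharZero B] [CommRing A] [IsDomain A] [Algebra B A] [FaithfulSMul B A] [Module.Finite B A] :
    ∃ (C : Type u) (_ : CommRing C) (_ : IsDomain C) (_ : Algebra B C) (_ : FaithfulSMul B C)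
      (_ : Finite (C ≃ₐ[B] C)) (_ : Algebra.IsInvariant B C (C ≃ₐ[B] C)) (ι : A →ₐ[B] C),
      Function.Injective ι := by
  let K := FractionRing B
  let L := FractionRing A
  let : Algebra K L := FractionRing.liftAlgebra B L
  have : IsScalarTower B K L := FractionRing.isScalarTower_liftAlgebra B L
  have : FiniteDimensional K L := inferInstance
  let N := IntermediateField.normalClosure K L (AlgebraicClosure L)
  have : CharZero K := IsFractionRing.charZero_of_isFractionRing B
  have : Algebra.IsAlgebraic K (AlgebraicClosure L) := Algebra.IsAlgebraic.trans K L _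
  have : IsAlgClosure K (AlgebraicClosure L) := ⟨inferInstance, inferInstance⟩
  have : IsGalois K N := inferInstance
  have : FiniteDimensional K N := inferInstance
  let C := integralClosure B N
  have : IsFractionRing C N := integralClosure.isFractionRing_of_finite_extension K N
  have hB : Function.Injective (algebraMap B N) := by
    rw [IsScalarTower.algebraMap_eq B K N]
    exact (algebraMap K N).injective.comp (IsFractionRing.injective B K)
  have : FaithfulSMul B C := (faithfulSMul_iff_algebraMap_injective _ _).mpr fun x y h =>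
    hB (congrArg Subtype.val h)
  let j : A →ₐ[B] N := ((IsScalarTower.toAlgHom K L N).restrictScalars B).comp
    (IsScalarTower.toAlgHom B A L)
  have hj : Function.Injective j := (algebraMap L N).injective.comp (IsFractionRing.injective A L)
  refine ⟨C, inferInstance, inferInstance, inferInstance, inferInstance,
    Finite.of_equiv _ (galRestrict B K N C).toEquiv, Algebra.isInvariant_of_isGalois' B K N C,
    j.codRestrict C fun a => (Algebra.IsIntegral.isIntegral (R := B) a).map j, fun x y h =>
    hj (congrArg Subtype.val h)⟩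

/-- A domain that is integral over `k[t]` has dimension one. -/
theorem dim_one {k D : Type*} [Field k] [CommRing D] [IsDomain D] (μ : k[X] →+* D)
    (hi : Function.Injective μ) (hμ : μ.IsIntegral) : ringKrullDim D = 1 := by
  let := μ.toAlgebra
  have : Algebra.IsIntegral k[X] D := ⟨hμ⟩
  have h1 : Ring.KrullDimLE 1 D := Ring.KrullDimLE.mk₁' fun I hI hP => by
    have := (Ideal.IsPrime.isMaximal (Ideal.comap_isPrime (algebraMap k[X] D) I)
      fun h => hI (Ideal.eq_bot_of_comap_eq_bot h))
    exact Ideal.isMaximal_of_isIntegral_of_isMaximal_comap (R := k[X]) I this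
  refine le_antisymm (Ring.krullDimLE_iff.mp h1) ?_
  refine Order.one_le_krullDim_iff.mpr ?_
  obtain ⟨m, hm⟩ := Ideal.exists_maximal D
  refine ⟨⟨⊥, Ideal.isPrime_bot⟩, ⟨m, hm.isPrime⟩, bot_lt_iff_ne_bot.mpr fun h => ?_⟩
  exact Polynomial.not_isField k (isField_of_isIntegral_of_isField hi
    (Ring.isField_iff_maximal_bot.mpr
      ((show m = ⊥ from congrArg PrimeSpectrum.asIdeal h) ▸ hm)))

/-- A function on the points that is constant on curves is constant. -/
theorem conn' {k A : Type*} [Field k] [IsAlgClosed k] [CharZero k] [CommRing A] [IsDomain A]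
    [Algebra k A] [Algebra.FiniteType k A] {R : Type*} (h : (A →ₐ[k] k) → R)
    (hh : ∀ (p : Ideal A) (μ : k[X] →ₐ[k] A ⧸ p), p.IsPrime → Function.Injective μ →
      μ.toRingHom.IsIntegral → ∀ φ ψ : A →ₐ[k] k, p ≤ RingHom.ker φ → p ≤ RingHom.ker ψ →
      h φ = h ψ) (φ ψ : A →ₐ[k] k) : h φ = h ψ := by
  classical
  obtain ⟨s, g, hg, hf⟩ := exists_finite_inj_algHom_of_fg k A
  let := g.toRingHom.toAlgebra
  have : FaithfulSMul (MvPolynomial (Fin s) k) A :=
    (faithfulSMul_iff_algebraMap_injective _ _).mpr hg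
  have : Module.Finite (MvPolynomial (Fin s) k) A := hf
  obtain ⟨C, _, _, _, _, _, _, ι, hι⟩ := ex_cover (MvPolynomial (Fin s) k) A
  have := Algebra.IsInvariant.isIntegral (MvPolynomial (Fin s) k) C (C ≃ₐ[MvPolynomial (Fin s) k] C)
  have hk : ∀ x : k, algebraMap k A x = algebraMap (MvPolynomial (Fin s) k) A (MvPolynomial.C x) :=
    fun x => (g.commutes x).symm
  have hlin : ∀ (χ : C →+* k) (b : Fin s → k), Ov χ b → ∀ x : k, χ (ι (algebraMap k A x)) = x := by
    intro χ b hb x
    rw [hk, ι.commutes, hb, MvPolynomial.eval_C]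
  let h' : (C →+* k) → R := fun χ =>
    if H : ∀ x : k, χ (ι (algebraMap k A x)) = x then h ⟨χ.comp ι.toRingHom, H⟩ else h φ
  have hint : ι.toRingHom.IsIntegral := RingHom.IsIntegral.tower_top
    (algebraMap (MvPolynomial (Fin s) k) A) _ (by
      rw [show ι.toRingHom.comp (algebraMap (MvPolynomial (Fin s) k) A) =
        algebraMap (MvPolynomial (Fin s) k) C from ι.comp_algebraMap]
      exact fun x => Algebra.IsIntegral.isIntegral x)
  have lift : ∀ φ : A →ₐ[k] k, ∃ (χ : C →+* k) (b : Fin s → k), Ov χ b ∧ h' χ = h φ := by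
    intro φ
    obtain ⟨χ, hχ⟩ := ext_hom ι.toRingHom hint φ.toRingHom (by
      rw [(RingHom.injective_iff_ker_eq_bot ι.toRingHom).mp hι]
      exact bot_le)
    have hb : Ov χ fun i => φ (g (MvPolynomial.X i)) := fun x => by
      rw [← ι.commutes]
      refine (RingHom.congr_fun hχ _).trans ?_
      have : φ.comp g = MvPolynomial.aeval fun i => φ (g (MvPolynomial.X i)) := by
        ext i
        simp
      exact (AlgHom.congr_fun this x).trans (by rw [MvPolynomial.aeval_eq_eval])
    refine ⟨χ, _, hb, ?_⟩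
    simp only [h', dif_pos (hlin χ _ hb)]
    exact congrArg h (AlgHom.ext fun x => RingHom.congr_fun hχ x)
  obtain ⟨χ, b, hb, e⟩ := lift φ
  obtain ⟨χ', b', hb', e'⟩ := lift ψ
  rw [← e, ← e']
  refine core (C ≃ₐ[MvPolynomial (Fin s) k] C) h' (fun P b i b' b'' χ χ' hP h1 h2 h3 h4 => ?_)
    hb hb'
  simp only [h', dif_pos (hlin χ _ h1), dif_pos (hlin χ' _ h2)]
  have := hP.1
  have hp : Cu (P.comap ι.toRingHom) b i := ⟨Ideal.comap_isPrime _ _, by
    rw [← hP.2, Ideal.comap_comap]
    exact congrArg (fun f => P.comap f) ι.comp_algebraMap⟩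
  refine hh (P.comap ι.toRingHom) ⟨mu _ i, fun x => ?_⟩ hp.1 (mu_inj hp) (mu_int hp) _ _
    (fun x hx => h3 hx) fun x hx => h4 hx
  have := mu_lam hp (MvPolynomial.C x)
  rw [← hk] at this
  refine Eq.trans (congrArg (mu _ i) ?_) this
  simp [lam]

/-- A function on the points that is constant on curves is constant. -/
theorem conn {k A : Type*} [Field k] [IsAlgClosed k] [CharZero k] [CommRing A] [IsDomain A]
    [Algebra k A] [Algebra.FiniteType k A] {R : Type*} (h : (A →ₐ[k] k) → R)
    (hh : ∀ p : Ideal A, p.IsPrime → ringKrullDim (A ⧸ p) = 1 → ∀ φ ψ : A →ₐ[k] k,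
      p ≤ RingHom.ker φ → p ≤ RingHom.ker ψ → h φ = h ψ) (φ ψ : A →ₐ[k] k) : h φ = h ψ :=
  conn' h (fun p μ hp hi hμ => hh p hp (dim_one μ.toRingHom hi hμ)) φ ψ

end Pool.Agent.MP_f3836a_nt.GQ.Conn
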