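import Pool.Agent.MP_f3836a_nt.GP.SpecT
import Pool.Agent.MP_f3836a_nt.PK.BasicG

/-! Part GQ: arithmetic schemes of any dimension. Definitions and interfaces of the blocks. -/

set_option autoImplicit false

namespace Pool.Agent.MP_f3836a_nt.GQ

open Polynomial IsLocalRing PK VE.W VE.Z GP

section
variable {L ι : Type} [Field L]

/-- a chart -/
def Ch (ξ : ι → L) (i : ι) : Subring L := Subring.closure (Set.range fun j => ξ j / ξ i)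

/-- a point of the model -/
def Pt (ξ : ι → L) (S : Subring L) : Prop :=
  ∃ i, ξ i ≠ 0 ∧ ∃ (q : Ideal (Ch ξ i)) (_ : q.IsPrime), S = lc _ q

/-- a model of the field -/
def Md (ξ : ι → L) : Prop := (∃ i, ξ i ≠ 0) ∧ ∀ i, ξ i ≠ 0 → Fr (Ch ξ i)

/-- a form of degree `d` -/
def Fm (ξ : ι → L) (d : ℕ) (G : L) : Prop := G ∈ Submodule.span ℤ (Set.range ξ) ^ d

/-- the form `G` of degree `d` does not vanish at `S` -/
def Uf (ξ : ι → L) (d : ℕ) (G : L) (S : Subring L) : Prop :=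
  ∃ i, ξ i ≠ 0 ∧ (∀ j, ξ j / ξ i ∈ S) ∧ Ut S (G / ξ i ^ d)

/-- a closed point over `M` -/
def Pc (ξ : ι → L) (M : ℕ) (D : Subring L) : Prop := Pt ξ D ∧ Alg D ∧ Nu D M

/-- a point over `M` which is not closed -/
def Pv (ξ : ι → L) (M : ℕ) (V : Subring L) : Prop := Pt ξ V ∧ ¬Alg V ∧ Nu V M

/-- `N` is a finite module over `A` -/
def Fnt (A N : Subring L) : Prop :=
  A ≤ N ∧ ∃ s : Finset L, (∀ z ∈ s, z ∈ N) ∧ ∀ z ∈ N, z ∈ Submodule.span A (s : Set L)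

/-- the normalisation -/
def nrm (A : Subring L) : Subring L := (integralClosure A L).toSubring

open Classical in
/-- the logarithm of the number of elements of the residue field -/
noncomputable def lg (S : Subring L) : ℝ :=
  if h : IsLocalRing S then Real.log (Nat.card (@ResidueField S _ h)) else 0

theorem lg_eq (S : Subring L) [h : IsLocalRing S] : lg S = Real.log (Nat.card (ResidueField S)) :=
  dif_pos h

/-- a valuation ring which dominates `A` -/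
def Br (A W : Subring L) : Prop := Vr W ∧ Dom A W

/-- dimension at most one -/
def Dm1 (A : Subring L) : Prop := ∀ q : Ideal A, q.IsPrime → q ≠ ⊥ → q.IsMaximal

/-- a closed point of a curve -/
structure Cu1 (A : Subring L) : Prop where
  loc : IsLocalRing A
  noeth : IsNoetherianRing A
  fr : Fr A
  dim : Dm1 A
  ne : A ≠ ⊤
  fin : ∀ [IsLocalRing A], Finite (ResidueField A)
  nrm : Fnt A (nrm A)

/-- a residue map -/
structure Rm {κ : Type} [Field κ] (A : Subring L) (r : A →+* κ) : Prop where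
  surj : Function.Surjective r
  ker : ∀ a, r a = 0 ↔ ¬IsUnit a

/-- `ν` is the map on residue fields -/
def Nv {κ : Type} [Field κ] {A : Subring L} (r : A →+* κ) (W : Subring L) [IsLocalRing W]
    (ν : κ →+* ResidueField W) : Prop :=
  ∀ a : A, ∃ h : (a : L) ∈ W, ν (r a) = residue W ⟨a, h⟩

open Classical in
/-- the norm of the residue of `u` -/
noncomputable def nmW {κ : Type} [Field κ] {A : Subring L} (r : A →+* κ) (W : Subring L) (u : L) :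
    κ :=
  if h : ∃ (k : IsLocalRing W) (ν : κ →+* @ResidueField W _ k), @Nv L _ κ _ A r W k ν then
    nrmO h.choose_spec.choose (resR W (@residue W _ h.choose) u)
  else 1

theorem nmW_eq {κ : Type} [Field κ] {A : Subring L} {r : A →+* κ} (hr : Function.Surjective r)
    {W : Subring L} [k : IsLocalRing W] {ν : κ →+* ResidueField W} (h : Nv r W ν) (u : L) :
    nmW r W u = nrmO ν (resR W (residue W) u) := by
  have e : ∃ (k : IsLocalRing W) (ν : κ →+* @ResidueField W _ k), @Nv L _ κ _ A r W k ν :=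
    ⟨k, ν, h⟩
  have e' : e.choose_spec.choose = ν := RingHom.ext fun t => by
    obtain ⟨a, rfl⟩ := hr t
    exact (e.choose_spec.choose_spec a).choose_spec.trans (h a).choose_spec.symm
  rw [nmW, dif_pos e, e']

theorem Rm.nv {κ : Type} [Field κ] {A : Subring L} {r : A →+* κ} (hr : Rm A r) {W : Subring L}
    [IsLocalRing W] (h : Dom A W) : ∃ ν : κ →+* ResidueField W, Nv r W ν := by
  have hk : RingHom.ker r ≤ RingHom.ker ((residue W).comp (Subring.inclusion h.1)) := fun a ha =>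
    (residue_eq_zero_iff _).2 ((nu_iff (Subring.inclusion h.1 a)).1
      (h.2 a ((nu_iff a).2 ((hr.ker a).1 ha))))
  exact ⟨r.liftOfSurjective hr.surj ⟨_, hk⟩, fun a =>
    ⟨h.1 a.2, RingHom.liftOfRightInverse_comp_apply _ _ _ ⟨_, hk⟩ a⟩⟩

/-- a flag on the place `O` -/
def Fl (M : ℕ) (O U : Subring L) : Prop := Vr U ∧ U ≤ O ∧ Nu U M

/-- kills the units over `M` -/
def Kp (M : ℕ) (lam : Subring L → L → ℝ) : Prop :=
  ∀ O u, Pl O → Ut O u → SU O M u → lam O u = 0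

/-- the local law at the point `D` -/
def Lv (M : ℕ) (lam : Subring L → L → ℝ) (D : Subring L) (α : ℝ) : Prop :=
  ∀ O u, H1 D O → Ho O → Ut O u → (∀ U, Fl M O U → ¬Dom D U → Ut U u) → lam O u = α * oK O D u

/-- the law on the branch `w` of a number field -/
def Bv (M : ℕ) (l : L → ℝ) (w : Subring L) (a : ℝ) : Prop :=
  ∀ u, u ≠ 0 → (∀ w' : Subring L, Vr w' → Nu w' M → w' ≠ w → Ut w' u) → l u = a * ordR w u

/-- facts about a model -/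
structure MdA (ξ : ι → L) : Prop where
  loc : ∀ S : Subring L, Pt ξ S → IsLocalRing S
  noeth : ∀ S : Subring L, Pt ξ S → IsNoetherianRing S
  fr : ∀ S, Pt ξ S → Fr S
  cht : ∀ S, Pt ξ S → Cht ξ S
  top : Pt ξ ⊤
  ft : ∀ i, Algebra.FiniteType ℤ (Ch ξ i)
  le : ∀ i S, Ch ξ i ≤ S ↔ ∀ j, ξ j / ξ i ∈ S
  chart : ∀ i S, ξ i ≠ 0 → Pt ξ S → Ch ξ i ≤ S → ∃ (q : Ideal (Ch ξ i)) (_ : q.IsPrime), S = lc _ q
  cen : ∀ S : Subring L, IsLocalRing S → Cht ξ S → ∃ D, Pt ξ D ∧ Dom D S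
  val : ∀ W, Vr W → Cht ξ W
  mono : ∀ D D' S S', Pt ξ D → Pt ξ D' → Dom D S → Dom D' S' → S ≤ S' → D ≤ D'
  dn : ∀ (D : Subring L) (q : Ideal D) [q.IsPrime], Pt ξ D → Pt ξ (lc D q)
  ov : ∀ D S, Pt ξ D → Pt ξ S → D ≤ S → ∃ (q : Ideal D) (_ : q.IsPrime), S = lc D q
  up : ∀ S, Pt ξ S → ∃ D, Pt ξ D ∧ Alg D ∧ D ≤ S
  min : ∀ D D', Pt ξ D → Pt ξ D' → Alg D → D' ≤ D → D' = D
  fin : ∀ (D : Subring L) [IsLocalRing D], Pt ξ D → Alg D → Finite (ResidueField D)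
  res : ∀ i D, ξ i ≠ 0 → Pt ξ D → Alg D → Ch ξ i ≤ D → ∀ z ∈ D, ∃ b ∈ Ch ξ i, Nu D (z - b)
  sec : ∀ V D, Pt ξ V → ¬Alg V → ∃ D', Pt ξ D' ∧ Alg D' ∧ D' ≤ V ∧ D' ≠ D
  spc : ∀ S (p : ℕ), CharZero L → Pt ξ S → Ho S → p.Prime → ∃ D, Pt ξ D ∧ D ≤ S ∧ Nu D p

/-- facts about forms -/
structure FmA (ξ : ι → L) : Prop where
  one : ∀ i, Fm ξ 1 (ξ i)
  add : ∀ d G G', Fm ξ d G → Fm ξ d G' → Fm ξ d (G + G')
  mul : ∀ d d' G G', Fm ξ d G → Fm ξ d' G' → Fm ξ (d + d') (G * G')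
  pow : ∀ d G n, Fm ξ d G → Fm ξ (d * n) (G ^ n)
  ev : ∀ i b, ξ i ≠ 0 → b ∈ Ch ξ i → ∀ᶠ d in Filter.atTop, Fm ξ d (b * ξ i ^ d)
  mono : ∀ d G S S', Uf ξ d G S → S ≤ S' → Uf ξ d G S'
  down : ∀ d G (S S' : Subring L), Fm ξ d G → Cht ξ S → Dom S S' → Uf ξ d G S' → Uf ξ d G S
  ne : ∀ d G S, Uf ξ d G S → G ≠ 0
  div : ∀ d G G' S, Fm ξ d G' → Uf ξ d G S → G' / G ∈ S ∧ (Ut S (G' / G) ↔ Uf ξ d G' S)
  umul : ∀ d d' G G' S, Uf ξ d G S → Uf ξ d' G' S → Uf ξ (d + d') (G * G') S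
  upow : ∀ d G n S, Uf ξ d G S → Uf ξ (d * n) (G ^ n) S
  uadd : ∀ d G G' (S : Subring L), IsLocalRing S → Fm ξ d G' → Uf ξ d G S → ¬Uf ξ d G' S → Uf ξ d (G + G') S
  crt : ∀ T : Finset (Subring L), (∀ S ∈ T, Pt ξ S) → Anti T → Crt T
  sep : ∀ T T' : Set (Subring L), T.Finite → T'.Finite → (∀ S ∈ T, Pt ξ S) → (∀ S ∈ T', Pt ξ S) →
    (∀ S ∈ T, ∀ S' ∈ T', ¬S ≤ S') →
    ∀ᶠ d in Filter.atTop, ∃ G, Fm ξ d G ∧ (∀ S ∈ T, Uf ξ d G S) ∧ ∀ S ∈ T', ¬Uf ξ d G S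

/-- facts about a model of a function field in one variable -/
structure SfA (ξ : ι → L) : Prop where
  tri : ∀ S, Pt ξ S → Alg S ∨ Dm1 S
  na : ∀ S, Pt ξ S → Alg S → ¬Dm1 S
  no3 : ∀ D : Subring L, Pt ξ D → ∀ q q' : Ideal D, q.IsPrime → q'.IsPrime → q ≠ ⊥ → q < q' → q'.IsMaximal
  h1 : ∀ D S, Pt ξ D → Alg D → (H1 D S ↔ Pt ξ S ∧ D ≤ S ∧ ¬Alg S ∧ S ≠ ⊤)
  zer : ∀ f, f ≠ 0 → {S | Pt ξ S ∧ ¬Alg S ∧ ¬Ut S f}.Finite
  fin2 : ∀ V u, Pt ξ V → ¬Alg V → V ≠ ⊤ → Ut V u → {D | Pt ξ D ∧ D ≤ V ∧ ¬Ut D u}.Finite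
  finf : ∀ V d G, Pt ξ V → ¬Alg V → V ≠ ⊤ → Fm ξ d G → Uf ξ d G V →
    {D | Pt ξ D ∧ D ≤ V ∧ ¬Uf ξ d G D}.Finite
  vex : ∀ (M : ℕ) D, M ≠ 0 → Pc ξ M D → ∃ V, Pv ξ M V ∧ D ≤ V
  bad : ∀ (M : ℕ) f, M ≠ 0 → (∀ V, Pv ξ M V → Ut V f) → {D | Pc ξ M D ∧ ¬Ut D f}.Finite

end

/-- the shape of the rows about a model -/
def AllM (Φ : ∀ (L ι : Type) [Field L] (_ : ι → L), Prop) : Prop :=
  ∀ (L ι : Type) [Field L] [Fintype ι] (ξ : ι → L), Md ξ → Φ L ι ξ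

/-- the shape of the rows about a model of a function field in one variable -/
def AllF (Φ : ∀ (L ι : Type) [Field L] (_ : ι → L), Prop) : Prop :=
  ∀ (L ι : Type) [Field L] [CharZero L] [Fintype ι] (ξ : ι → L), FF L → Md ξ → Φ L ι ξ

def MdS : Prop := AllM fun _ _ _ ξ => MdA ξ
def FmS : Prop := AllM fun _ _ _ ξ => FmA ξ
def SfQ : Prop := AllF fun _ _ _ ξ => SfA ξ

/-- the points of an integral regular projective scheme -/
structure Sy where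
  P : Type
  [po : Preorder P]
  κ : P → Type
  [fd : ∀ z, Field (κ z)]
  N : ℕ
  η : ∀ y, Fin N → κ y
  R : ∀ {y z : P}, z ≤ y → Subring (κ y)
  r : ∀ {y z : P} (h : z ≤ y), R h →+* κ z
  g : P
  top : ∀ z, z ≤ g
  anti : ∀ y z : P, z ≤ y → y ≤ z → y = z
  md : ∀ y, Md (η y)
  pt : ∀ y S, Pt (η y) S ↔ ∃ (z : P) (h : z ≤ y), R h = S
  le : ∀ {y z z' : P} (h : z ≤ y) (h' : z' ≤ y), R h ≤ R h' ↔ z ≤ z'
  rm : ∀ {y z : P} (h : z ≤ y), Rm (R h) (r h)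
  self : ∀ {y : P} (h : y ≤ y), R h = ⊤ ∧ ∀ a, r h a = a
  im : ∀ {y z w : P} (h : z ≤ y) (h' : w ≤ z), im (R h) (r h) (R (h'.trans h)) = R h'
  cmp : ∀ {y z w : P} (h : z ≤ y) (h' : w ≤ z) (a : R h) (ha : (a : κ y) ∈ R (h'.trans h))
    (hb : r h a ∈ R h'), r h' ⟨r h a, hb⟩ = r (h'.trans h) ⟨a, ha⟩
  reg : ∀ z, IsRegularLocalRing (R (top z))
  cz : CharZero (κ g)

attribute [instance] Sy.po Sy.fd

namespace Sy

variable (S : Sy)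

/-- a closed point -/
def Cl (x : S.P) : Prop := Order.height x = 0

/-- a curve -/
def Cv (C : S.P) : Prop := Order.height C = 1

/-- a horizontal curve -/
def Hz (C : S.P) : Prop := S.Cv C ∧ CharZero (S.κ C)

/-- a vertical curve over `M` -/
def Vm (M : ℕ) (C : S.P) : Prop := S.Cv C ∧ (M : S.κ C) = 0

/-- a horizontal surface -/
def Sf (y : S.P) : Prop := Order.height y = 2 ∧ CharZero (S.κ y)

open Classical in
/-- the order at `x` -/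
noncomputable def ord (C x : S.P) (u : S.κ C) : ℤ := if h : x ≤ C then ordR (S.R h) u else 0

open Classical in
/-- the boundary -/
noncomputable def bd (y C : S.P) (f g : S.κ y) : S.κ C :=
  if h : C ≤ y then ∏ᶠ (W) (_ : Br (S.R h) W), nmW (S.r h) W (tameE W f g) else 1

/-- a cycle -/
structure Cy (φ : ∀ C, S.κ C) : Prop where
  ne : ∀ C, φ C ≠ 0
  fin : {C | φ C ≠ 1}.Finite
  cv : ∀ C, φ C ≠ 1 → S.Cv C
  div : ∀ x, S.Cl x → ∑ᶠ C, S.ord C x (φ C) = 0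

open Classical in
/-- the boundary on the curves -/
noncomputable def bc (y : S.P) (f g : S.κ y) (C : S.P) : S.κ C := if S.Cv C then S.bd y C f g else 1

/-- kills all boundaries -/
structure Kb (M : ℕ) (lam : ∀ C, S.κ C → ℝ) : Prop where
  ne : M ≠ 0
  add : ∀ C, Adr (lam C)
  off : ∀ C u, ¬S.Hz C → ¬S.Vm M C → lam C u = 0
  bd : ∀ y f g, S.Sf y → f ≠ 0 → g ≠ 0 → ∑ᶠ C, lam C (S.bc y f g C) = 0

/-- kills the units over `M` -/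
def Ku (M : ℕ) (lam : ∀ C, S.κ C → ℝ) : Prop :=
  ∀ C u, S.Hz C → u ≠ 0 → Um M u → lam C u = 0

/-- a valuation ring of the field of `y` whose centre is a curve -/
def Cw (y : S.P) (O : Subring (S.κ y)) : Prop := ∃ (C : S.P) (h : C ≤ y), S.Cv C ∧ Br (S.R h) O

/-- those with centre over `M` -/
def VV (M : ℕ) (y : S.P) : Set (Subring (S.κ y)) :=
  {O | ∃ (C : S.P) (h : C ≤ y), S.Vm M C ∧ Br (S.R h) O}

/-- the transported family -/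
noncomputable def lamY (lam : ∀ C, S.κ C → ℝ) (y : S.P) (O : Subring (S.κ y)) (u : S.κ y) : ℝ :=
  ∑ᶠ (C : S.P) (h : C ≤ y) (_ : S.Cv C ∧ Br (S.R h) O), lam C (nmW (S.r h) O u)

/-- the constants -/
structure Cs (k : Type) [Field k] (c : ∀ z, CharZero (S.κ z) → (k →+* S.κ z)) : Prop where
  cmp : ∀ {y z : S.P} (h : z ≤ y) hy hz (a : k), ∃ ha : c y hy a ∈ S.R h, S.r h ⟨_, ha⟩ = c z hz a
  cl : ∀ t : S.κ S.g, IsAlgebraic ℤ t → ∃ a, c S.g S.cz a = t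

open Classical in
/-- the norm to the constants -/
noncomputable def nm {k : Type} [Field k] (c : ∀ z, CharZero (S.κ z) → (k →+* S.κ z)) (C : S.P)
    (u : S.κ C) : k := if h : S.Hz C then nrmO (c C h.2) u else 1

/-- heights -/
structure HtA : Prop where
  cz : ∀ {y z : S.P}, z ≤ y → CharZero (S.κ z) → CharZero (S.κ y)
  nu : ∀ {y z : S.P} (h : z ≤ y) (n : ℕ), Nu (S.R h) n ↔ (n : S.κ z) = 0
  ho : ∀ {y z : S.P} (h : z ≤ y), CharZero (S.κ y) → (Ho (S.R h) ↔ CharZero (S.κ z))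
  cl : ∀ {y z : S.P} (h : z ≤ y), S.Cl z ↔ Alg (S.R h)
  fin : ∀ x, S.Cl x ↔ Finite (S.κ x)
  lg : ∀ {y x : S.P} (h : x ≤ y), lg (S.R h) = Real.log (Nat.card (S.κ x))
  hz : ∀ C, CharZero (S.κ C) → (S.Cv C ↔ Al (S.κ C))
  nf : ∀ C, S.Hz C → NumberField (S.κ C)
  sf : ∀ y, CharZero (S.κ y) → (Order.height y = 2 ↔ FF (S.κ y))
  cv : ∀ {y z : S.P} (h : z ≤ y), S.Sf y → (S.Cv z ↔ ¬Alg (S.R h) ∧ S.R h ≠ ⊤)
  dm : ∀ {C x : S.P} (h : x ≤ C), S.Cv C → Dm1 (S.R h) ∧ (x = C ∨ S.Cl x)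
  pr : ∀ {y z : S.P} (h : z ≤ y) (q : Ideal (S.R h)) [q.IsPrime],
    ∃ (w : S.P) (_ : z ≤ w) (h₂ : w ≤ y), S.R h₂ = lc _ q
  uniq : ∀ {y z z' : S.P} (h : z ≤ y) (h' : z' ≤ y) (W : Subring (S.κ y)), Dom (S.R h) W →
    Dom (S.R h') W → z = z'

/-- transport to a surface -/
structure TrA (y : S.P) : Prop where
  dvr : ∀ O, S.Cw y O → Dvr O
  pl : ∀ O, Pl O ↔ ∃ (C : S.P) (h : C ≤ y), S.Hz C ∧ Br (S.R h) O
  ex : ∀ (C : S.P) (h : C ≤ y), S.Cv C → {O | Br (S.R h) O}.Finite ∧ ∃ O, Br (S.R h) O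
  fin : ∀ f, {O | S.Cw y O ∧ ordR O f ≠ 0}.Finite
  eq : ∀ (lam : ∀ C, S.κ C → ℝ) (C : S.P) (h : C ≤ y) O u, S.Cv C → Br (S.R h) O →
    S.lamY lam y O u = lam C (nmW (S.r h) O u)
  nm : ∀ (C : S.P) (h : C ≤ y) O, S.Cv C → Br (S.R h) O →
    (∀ u, Ut O u → nmW (S.r h) O u ≠ 0) ∧
    (∀ u u', Ut O u → Ut O u' → nmW (S.r h) O (u * u') = nmW (S.r h) O u * nmW (S.r h) O u') ∧
    (∀ u u', u ∈ O → u' ∈ O → Nu O (u - u') → nmW (S.r h) O u = nmW (S.r h) O u') ∧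
    ∃ n : ℕ, 0 < n ∧ ∀ a : S.R h, nmW (S.r h) O a = S.r h a ^ n
  ne : ∀ f g C, f ≠ 0 → g ≠ 0 → S.bc y f g C ≠ 0
  sup : ∀ f g, f ≠ 0 → g ≠ 0 → {C | S.bc y f g C ≠ 1}.Finite
  swap : ∀ f g C, f ≠ 0 → g ≠ 0 → S.bc y f g C * S.bc y g f C = 1
  sum : ∀ (lam : ∀ C, S.κ C → ℝ) f g, (∀ C, Adr (lam C)) → f ≠ 0 → g ≠ 0 →
    ∑ᶠ C, lam C (S.bc y f g C) = ∑ᶠ (O) (_ : S.Cw y O), S.lamY lam y O (tameE O f g)

end Sy

/-! ### interfaces of the blocks -/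

def HtQ : Prop := ∀ S : Sy, S.HtA

def TrQ : Prop := ∀ (S : Sy) (y : S.P), S.Sf y → S.TrA y

/-- the transported family kills all symbols -/
def KsQ : Prop := ∀ (S : Sy) (M : ℕ) lam y, S.Kb M lam → S.Sf y →
  Ks M (S.VV M y) (S.lamY lam y) ∧ (S.Ku M lam → Kp M (S.lamY lam y))

/-- closed points of horizontal curves -/
def CuQ : Prop := ∀ (S : Sy) (C x : S.P) (h : x ≤ C), S.Hz C → S.Cl x → Cu1 (S.R h)

/-- orders and branches -/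
def BrQ : Prop := ∀ (L : Type) [Field L] (A : Subring L), Cu1 A →
  {w | Br A w}.Finite ∧ (∃ w, Br A w) ∧ 0 < lg A ∧ (∀ w, Br A w → Dvr w ∧ Alg w ∧ 0 < lg w) ∧
  (∀ W, Vr W → A ≤ W → W = ⊤ ∨ Dom A W) ∧ (∀ z, z ∈ nrm A ↔ ∀ w, Br A w → z ∈ w) ∧
  ∀ u, u ≠ 0 → lg A * ordR A u = ∑ᶠ (w) (_ : Br A w), lg w * ordR w u

/-- boundaries are cycles -/
def DdQ : Prop := ∀ (S : Sy) y f g, S.Sf y → f ≠ 0 → g ≠ 0 → S.Cy (S.bc y f g)

/-- the shape of the rows with constants -/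
def AllC (Φ : ∀ (S : Sy) (k : Type) [Field k] (_ : ∀ z, CharZero (S.κ z) → (k →+* S.κ z)), Prop) :
    Prop := ∀ (S : Sy) (k : Type) [Field k] [NumberField k]
  (c : ∀ z, CharZero (S.κ z) → (k →+* S.κ z)), S.Cs k c → Φ S k c

/-- the constants exist -/
def CsQ : Prop := ∀ (S : Sy) (C₀ : S.P), S.Hz C₀ → ∃ (k : Type) (_ : Field k) (_ : NumberField k)
  (c : ∀ z, CharZero (S.κ z) → (k →+* S.κ z)), S.Cs k c

/-- reciprocity -/
def WeQ : Prop := AllC fun S _ _ c => ∀ μ y f g, Adr μ → S.Sf y → f ≠ 0 → g ≠ 0 →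
  ∑ᶠ C, μ (S.nm c C (S.bc y f g C)) = 0

/-- one function on the constants -/
def MuQ : Prop := AllC fun S _ _ c => ∀ M lam, S.Kb M lam →
  ∃ μ, Adr μ ∧ ∀ C u, S.Hz C → u ≠ 0 → Um M u → lam C u = μ (S.nm c C u)

/-- the local law -/
def LocQ : Prop := ∀ (S : Sy) (M : ℕ) lam x, S.Kb M lam → S.Ku M lam → S.Cl x → (M : S.κ x) = 0 →
  ∃ α : ℝ, ∀ (C : S.P) (h : x ≤ C) w, S.Hz C → Br (S.R h) w → Bv M (lam C) w (α * lg w)

/-- additive functions on a number field -/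
def NfQ : Prop := ∀ (k : Type) [Field k] [NumberField k] (M : ℕ), M ≠ 0 →
  {w : Subring k | Vr w ∧ Nu w M}.Finite ∧ (∀ w : Subring k, Vr w → Nu w M → Dvr w ∧ Alg w ∧
    ∃ u, u ≠ 0 ∧ ordR w u = 1 ∧ ∀ w' : Subring k, Vr w' → Nu w' M → w' ≠ w → Ut w' u) ∧
  (∀ u : k, u ≠ 0 → (Um M u ↔ ∀ w : Subring k, Vr w → Nu w M → Ut w u)) ∧
  ∀ l : k → ℝ, Adr l → (∀ u, u ≠ 0 → Um M u → l u = 0) → ∃ a : Subring k → ℝ,
    (∀ w : Subring k, Vr w → Nu w M → Bv M l w (a w)) ∧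
    ∀ u, u ≠ 0 → l u = ∑ᶠ (w : Subring k) (_ : Vr w ∧ Nu w M), a w * ordR w u

/-- a functional which kills boundaries and units kills cycles -/
def MidQ : Prop := ∀ (S : Sy) (M : ℕ) lam φ, S.Kb M lam → S.Ku M lam → S.Cy φ →
  ∑ᶠ C, lam C (φ C) = 0

end Pool.Agent.MP_f3836a_nt.GQ
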