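import Pool.Agent.MP_f3836a_nt.GP.Spec

/-! The normalised extension of an additive function to an algebraic extension. -/

set_option autoImplicit false

namespace Pool.Agent.MP_f3836a_nt.GQ.Mu

open Polynomial IntermediateField GP

variable {κ κ' Ω : Type} [Field κ] [Field κ'] [Field Ω]

/-- The normalised extension of `l` along `σ`. -/
noncomputable def Lam [CharZero κ] (σ : κ →+* Ω) (l : κ → ℝ) (c : Ω) : ℝ :=
  letI := σ.toAlgebra
  l ((minpoly κ c).coeff 0) / ((minpoly κ c).natDegree * Module.finrank ℚ κ)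

theorem adr_one {l : κ → ℝ} (h : Adr l) : l 1 = 0 := by
  simpa using h 1 1 one_ne_zero one_ne_zero

theorem adr_pow {l : κ → ℝ} (h : Adr l) {a : κ} (ha : a ≠ 0) (n : ℕ) : l (a ^ n) = n * l a := by
  induction n with
  | zero => simpa using adr_one h
  | succ n ih =>
    rw [pow_succ, h _ _ (pow_ne_zero _ ha) ha, ih]
    push_cast
    ring

theorem adr_neg_one {l : κ → ℝ} (h : Adr l) : l (-1) = 0 := by
  have := adr_pow h (neg_ne_zero.mpr (one_ne_zero (α := κ))) 2
  rw [neg_one_sq, adr_one h] at this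
  simpa using this.symm

theorem adr_prod {ι : Type} {μ : κ → ℝ} (h : Adr μ) (s : Finset ι) {c : ι → κ}
    (hc : ∀ i ∈ s, c i ≠ 0) : μ (∏ i ∈ s, c i) = ∑ i ∈ s, μ (c i) := by
  classical
  induction s using Finset.induction_on with
  | empty => simpa using adr_one h
  | insert a s ha ih =>
    rw [Finset.forall_mem_insert] at hc
    rw [Finset.prod_insert ha, Finset.sum_insert ha, h _ _ hc.1 (Finset.prod_ne_zero_iff.2 hc.2),
      ih hc.2]

theorem norm_eq {L : Type} [Field L] [Algebra κ L] [FiniteDimensional κ L] (x : L) :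
    Algebra.norm κ x = ((-1) ^ (minpoly κ x).natDegree * (minpoly κ x).coeff 0) ^
      Module.finrank κ⟮x⟯ L := by
  have hx : IsIntegral κ x := .of_finite κ x
  rw [Algebra.norm_eq_norm_adjoin, ← adjoin.powerBasis_gen hx,
    Algebra.PowerBasis.norm_gen_eq_coeff_zero_minpoly, adjoin.powerBasis_gen, minpoly_gen,
    adjoin.powerBasis_dim]

theorem lam_norm [NumberField κ] {L : Type} [Field L] [Algebra κ L]
    [FiniteDimensional κ L] (j : L →+* Ω) {l : κ → ℝ} (h : Adr l) {x : L} (hx : x ≠ 0) :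
    l (Algebra.norm κ x) = Module.finrank κ L * Module.finrank ℚ κ *
      Lam (j.comp (algebraMap κ L)) l (j x) := by
  let := (j.comp (algebraMap κ L)).toAlgebra
  have hi : IsIntegral κ x := .of_finite κ x
  have e : minpoly κ (j x) = minpoly κ x :=
    minpoly.algHom_eq (⟨j, fun _ => rfl⟩ : L →ₐ[κ] Ω) j.injective x
  have h0 : (minpoly κ x).coeff 0 ≠ 0 := minpoly.coeff_zero_ne_zero hi hx
  have hs : (-1 : κ) ≠ 0 := neg_ne_zero.mpr one_ne_zero
  have hn : ((minpoly κ x).natDegree : ℝ) ≠ 0 := Nat.cast_ne_zero.mpr (minpoly.natDegree_pos hi).ne'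
  have hq : (Module.finrank ℚ κ : ℝ) ≠ 0 := Nat.cast_ne_zero.mpr Module.finrank_pos.ne'
  rw [norm_eq, adr_pow h (mul_ne_zero (pow_ne_zero _ hs) h0), h _ _ (pow_ne_zero _ hs) h0,
    adr_pow h hs, adr_neg_one h, ← Module.finrank_mul_finrank κ κ⟮x⟯ L, adjoin.finrank hi]
  unfold Lam
  simp only [e]
  push_cast
  field_simp
  ring

variable [NumberField κ]

theorem lam_base (σ : κ →+* Ω) {l : κ → ℝ} (h : Adr l) {x : κ} (hx : x ≠ 0) :
    l x = Module.finrank ℚ κ * Lam σ l (σ x) := by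
  simpa using lam_norm (κ := κ) (L := κ) σ h hx

theorem lam_adr (hΩ : ∀ c : Ω, IsAlgebraic ℤ c) (σ : κ →+* Ω) {l : κ → ℝ} (h : Adr l) :
    Adr (Lam σ l) := by
  intro a b ha hb
  let := σ.toAlgebra
  have hi : ∀ c : Ω, IsIntegral κ c := fun c =>
    ((hΩ c).extendScalars (algebraMap ℤ κ).injective_int).isIntegral
  have : FiniteDimensional κ κ⟮a, b⟯ := finiteDimensional_adjoin fun x _ => hi x
  let a' : κ⟮a, b⟯ := ⟨a, subset_adjoin _ _ (by simp)⟩
  let b' : κ⟮a, b⟯ := ⟨b, subset_adjoin _ _ (by simp)⟩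
  have ha' : a' ≠ 0 := fun e => ha (congrArg Subtype.val e)
  have hb' : b' ≠ 0 := fun e => hb (congrArg Subtype.val e)
  have e1 := lam_norm (κ := κ) κ⟮a, b⟯.val.toRingHom h ha'
  have e2 := lam_norm (κ := κ) κ⟮a, b⟯.val.toRingHom h hb'
  have e3 := lam_norm (κ := κ) κ⟮a, b⟯.val.toRingHom h (mul_ne_zero ha' hb')
  rw [map_mul, h _ _ (Algebra.norm_ne_zero_iff.mpr ha') (Algebra.norm_ne_zero_iff.mpr hb'),
    e1, e2, ← mul_add] at e3
  have hn : (Module.finrank κ κ⟮a, b⟯ : ℝ) * Module.finrank ℚ κ ≠ 0 :=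
    mul_ne_zero (Nat.cast_ne_zero.mpr Module.finrank_pos.ne')
      (Nat.cast_ne_zero.mpr Module.finrank_pos.ne')
  exact (mul_left_cancel₀ hn e3).symm

omit [NumberField κ] in
theorem adr_norm [Algebra κ κ'] [FiniteDimensional κ κ'] {l : κ → ℝ} (h : Adr l) :
    Adr fun x : κ' => l (Algebra.norm κ x) := fun a b ha hb => by
  simp only [map_mul]
  exact h _ _ (Algebra.norm_ne_zero_iff.mpr ha) (Algebra.norm_ne_zero_iff.mpr hb)

theorem lam_tower (hΩ : ∀ c : Ω, IsAlgebraic ℤ c) [NumberField κ']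
    [Algebra κ κ'] (σ : κ' →+* Ω) {l : κ → ℝ} (h : Adr l) {c : Ω} (hc : c ≠ 0) :
    Lam σ (fun x => l (Algebra.norm κ x)) c = Lam (σ.comp (algebraMap κ κ')) l c := by
  let := σ.toAlgebra
  have : IsScalarTower ℚ κ κ' := IsScalarTower.of_algebraMap_eq' (RingHom.ext_rat _ _)
  have : FiniteDimensional κ κ' := Module.Finite.of_restrictScalars_finite ℚ κ κ'
  have hi : IsIntegral κ' c := ((hΩ c).extendScalars (algebraMap ℤ κ').injective_int).isIntegral
  have : FiniteDimensional κ' κ'⟮c⟯ := adjoin.finiteDimensional hi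
  let : Algebra κ κ'⟮c⟯ := ((algebraMap κ' κ'⟮c⟯).comp (algebraMap κ κ')).toAlgebra
  have : IsScalarTower κ κ' κ'⟮c⟯ := IsScalarTower.of_algebraMap_eq' rfl
  have : FiniteDimensional κ κ'⟮c⟯ := Module.Finite.trans κ' _
  have hc' : AdjoinSimple.gen κ' c ≠ 0 := fun e => hc (congrArg Subtype.val e)
  have e1 := lam_norm (κ := κ') κ'⟮c⟯.val.toRingHom (adr_norm h) hc'
  have e2 := lam_norm (κ := κ) κ'⟮c⟯.val.toRingHom h hc'
  rw [Algebra.norm_norm, e2, ← Module.finrank_mul_finrank ℚ κ κ',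
    ← Module.finrank_mul_finrank κ κ' κ'⟮c⟯] at e1
  have hn : (Module.finrank κ κ' : ℝ) * Module.finrank κ' κ'⟮c⟯ * Module.finrank ℚ κ ≠ 0 :=
    mul_ne_zero (mul_ne_zero (Nat.cast_ne_zero.mpr Module.finrank_pos.ne')
      (Nat.cast_ne_zero.mpr Module.finrank_pos.ne')) (Nat.cast_ne_zero.mpr Module.finrank_pos.ne')
  refine mul_left_cancel₀ hn ?_
  push_cast at e1
  refine Eq.trans ?_ e1.symm
  ring_nf
  rfl

omit [NumberField κ] in
theorem um_norm {L : Type} [Field L] [Algebra κ L] [FiniteDimensional κ L] {M : ℕ} {x : L}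
    (h : Um M x) : Um M (Algebra.norm κ x) := by
  obtain ⟨n, h0, h1, h2, h3⟩ := h
  have key : ∀ y : L, IsIntegral ℤ ((n : L) * y) →
      IsIntegral ℤ (((n ^ Module.finrank κ L : ℕ) : κ) * Algebra.norm κ y) := by
    intro y hy
    have := Algebra.isIntegral_norm κ hy
    rwa [map_mul, ← map_natCast (algebraMap κ L), Algebra.norm_algebraMap, ← Nat.cast_pow] at this
  refine ⟨n ^ Module.finrank κ L, pow_ne_zero _ h0, Nat.Coprime.pow_left _ h1, key _ h2, ?_⟩
  rw [← Algebra.norm_inv]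
  exact key _ h3

omit [NumberField κ] in
theorem um_map (σ : κ →+* Ω) {M : ℕ} {x : κ} : Um M (σ x) ↔ Um M x := by
  have key : ∀ (n : ℕ) (y : κ), IsIntegral ℤ ((n : Ω) * σ y) ↔ IsIntegral ℤ ((n : κ) * y) := by
    intro n y
    rw [← map_natCast σ, ← map_mul]
    exact isIntegral_algHom_iff σ.toIntAlgHom σ.injective
  simp only [Um, ← map_inv₀, key]

theorem lam_congr (hΩ : ∀ c : Ω, IsAlgebraic ℤ c) (σ : κ →+* Ω) {l l' : κ → ℝ} (h : Adr l)
    (h' : Adr l') {M : ℕ} (e : ∀ x, x ≠ 0 → Um M x → l x = l' x) {c : Ω} (hc : c ≠ 0)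
    (hM : Um M c) : Lam σ l c = Lam σ l' c := by
  let := σ.toAlgebra
  have hi : IsIntegral κ c := ((hΩ c).extendScalars (algebraMap ℤ κ).injective_int).isIntegral
  have : FiniteDimensional κ κ⟮c⟯ := adjoin.finiteDimensional hi
  have hc' : AdjoinSimple.gen κ c ≠ 0 := fun e => hc (congrArg Subtype.val e)
  have e1 := lam_norm (κ := κ) κ⟮c⟯.val.toRingHom h hc'
  have e2 := lam_norm (κ := κ) κ⟮c⟯.val.toRingHom h' hc'
  rw [e _ (Algebra.norm_ne_zero_iff.mpr hc')
    (um_norm ((um_map κ⟮c⟯.val.toRingHom).mp hM)), e2] at e1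
  have hn : (Module.finrank κ κ⟮c⟯ : ℝ) * Module.finrank ℚ κ ≠ 0 :=
    mul_ne_zero (Nat.cast_ne_zero.mpr Module.finrank_pos.ne')
      (Nat.cast_ne_zero.mpr Module.finrank_pos.ne')
  exact (mul_left_cancel₀ hn e1).symm

/-- If all embeddings over `K` give the same function then `l` factors through the norm. -/
theorem lam_avg [IsAlgClosed Ω] {K : Type} [Field K] [Algebra K κ] [Algebra K Ω]
    [FiniteDimensional K κ] {l : κ → ℝ} (h : Adr l) {Λ : Ω → ℝ} (hΛ : Adr Λ) {u : κ} (hu : u ≠ 0)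
    (e : ∀ σ : κ →ₐ[K] Ω, Lam σ.toRingHom l (σ u) = Λ (σ u)) :
    Module.finrank K κ * l u = Module.finrank ℚ κ * Λ (algebraMap K Ω (Algebra.norm K u)) := by
  have : CharZero K := (algebraMap K κ).charZero
  rw [Algebra.norm_eq_prod_embeddings K Ω u, adr_prod hΛ _ fun σ _ => (map_ne_zero σ).mpr hu,
    Finset.mul_sum, Finset.sum_congr rfl (g := fun _ => l u) fun σ _ => by
      rw [← e σ]
      exact (lam_base σ.toRingHom h hu).symm]
  rw [Finset.sum_const, Finset.card_univ, AlgHom.card, nsmul_eq_mul]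

end Pool.Agent.MP_f3836a_nt.GQ.Mu
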