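import Pool.Agent.MP_f3836a_nt.GQ.ConnC
import Pool.Agent.MP_f3836a_nt.GP.TBc

/-! Geometric points of a variety whose field of constants is `K`. -/

set_option autoImplicit false

namespace Pool.Agent.MP_f3836a_nt.GQ.Mu

open Polynomial IntermediateField GP VE.Z IsLocalRing
open scoped TensorProduct

/-- Extension of the constants gives a domain. -/
theorem dom {K F A Ω : Type} [Field K] [CharZero K] [Field F] [Algebra K F] [CommRing A]
    [Algebra K A] [Field Ω] [Algebra K Ω] [Algebra.IsAlgebraic K Ω] (h : Cl K F)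
    (f : A →ₐ[K] F) (hf : Function.Injective f) : IsDomain (Ω ⊗[K] A) := by
  let E := AlgebraicClosure F
  let j : Ω →ₐ[K] E := IsAlgClosed.lift
  let g : F →ₐ[K] E := IsScalarTower.toAlgHom K F E
  have hj : ∀ x ∈ j.range, IsIntegral K x := by
    rintro _ ⟨x, rfl⟩
    exact (Algebra.IsIntegral.isIntegral x).map j
  have : Algebra.IsIntegral K j.range :=
    ⟨fun x => (isIntegral_algHom_iff j.range.val Subtype.val_injective).mp (hj x.1 x.2)⟩
  have H : j.range.LinearDisjoint g.range := by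
    refine Subalgebra.LinearDisjoint.of_linearDisjoint_finite_left _ _ fun A' hA' _ => ?_
    let A'' : IntermediateField K E := A'.toIntermediateField' (isField_of_isIntegral_of_isField'
      (R := K) (S := A') (Field.toIsField K))
    have : FiniteDimensional K A'' := ‹Module.Finite K A'›
    let pb := Field.powerBasisOfFiniteOfSeparable K A''
    have m := minpoly.monic pb.isIntegral_gen
    have e : (minpoly F (pb.gen : E)).natDegree = pb.dim := by
      rw [← minpoly.eq_of_irreducible_of_monic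
        (TBc.irr h m (minpoly.irreducible pb.isIntegral_gen))
        (by rw [aeval_map_algebraMap, A''.minpoly_eq, minpoly.aeval]) (m.map _), natDegree_map,
        pb.natDegree_minpoly]
    have li := linearIndependent_pow (K := F) (pb.gen : E)
    rw [e] at li
    exact IntermediateField.LinearDisjoint.of_basis_left (A := A'') (L := F) pb.basis (by
      convert li using 1
      funext i
      simp)
  refine Subalgebra.LinearDisjoint.isDomain_of_injective (fa := j) (fb := g.comp f) j.injective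
    (g.injective.comp hf) (H.of_le_right_of_flat ?_)
  rintro _ ⟨x, rfl⟩
  exact ⟨f x, rfl⟩

theorem td_of_trdeg {L : Type} [Field L] [CharZero L] (h : Algebra.trdeg ℤ L ≤ 1) : Td L := by
  intro a b
  by_cases hb : IsAlgebraic ℤ b
  · obtain ⟨p, hp, hp'⟩ := hb
    exact ⟨C p, by simpa using hp, by simpa using hp'⟩
  have hx : AlgebraicIndependent ℤ fun _ : Unit => b := algebraicIndependent_unique_type_iff.2 hb
  have ha := (hx.isTranscendenceBasis_of_lift_trdeg_le_of_finite
    (by simpa using h)).isAlgebraic.isAlgebraic a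
  rw [Set.range_const, Algebra.adjoin_singleton_eq_range_aeval] at ha
  obtain ⟨p, hp, hp'⟩ := ha
  obtain ⟨P, rfl⟩ := Polynomial.map_surjective
    (aeval b : ℤ[X] →ₐ[ℤ] L).rangeRestrict.toRingHom (AlgHom.rangeRestrict_surjective _) p
  refine ⟨P, fun e => hp (by rw [e, Polynomial.map_zero]), ?_⟩
  rw [aeval_def, eval₂_map] at hp'
  exact hp'

theorem trdeg_le {Ω D : Type} (E : Type) [Field Ω] [CharZero Ω] [CommRing D] [IsDomain D]
    [Algebra Ω D] [Field E] [Algebra D E] [IsFractionRing D E] [Algebra Ω E] [IsScalarTower Ω D E]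
    (hΩ : ∀ c : Ω, IsAlgebraic ℤ c) (μ : Polynomial Ω →ₐ[Ω] D) (hμ : μ.toRingHom.IsIntegral) :
    Algebra.trdeg ℤ E ≤ 1 := by
  have : Algebra.IsAlgebraic ℤ Ω := ⟨hΩ⟩
  have : Algebra.IsAlgebraic (Algebra.adjoin Ω {μ X}) D := ⟨fun z => by
    have e : μ = aeval (μ X) := by ext; simp
    exact IsIntegral.isAlgebraic (RingHom.IsIntegral.tower_top
      (μ.codRestrict (Algebra.adjoin Ω {μ X}) fun x => by
        rw [Algebra.adjoin_singleton_eq_range_aeval, ← e]
        exact ⟨x, rfl⟩).toRingHom (Algebra.adjoin Ω {μ X}).val.toRingHom hμ z)⟩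
  have h1 : Algebra.trdeg Ω D ≤ 1 := by
    simpa using Algebra.IsAlgebraic.trdeg_le_cardinalMk Ω ({μ X} : Set D)
  have : Algebra.IsAlgebraic D E := IsLocalization.isAlgebraic _ (nonZeroDivisors D)
  rw [← trdeg_add_eq ℤ Ω, trdeg_eq_zero (R := ℤ), zero_add, ← trdeg_add_eq Ω D,
    trdeg_eq_zero (R := D), add_zero]
  exact h1

theorem fg_of {K A L : Type} [Field K] [NumberField K] [CommRing A] [Algebra K A]
    [Algebra.FiniteType K A] [Field L] (ρ : A →+* L)
    (hρ : ∀ z : L, ∃ a b, ρ b ≠ 0 ∧ z * ρ b = ρ a) :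
    ∃ s : Finset L, Subfield.closure (s : Set L) = ⊤ := by
  classical
  let : Algebra ℚ A := ((algebraMap K A).comp (algebraMap ℚ K)).toAlgebra
  have : IsScalarTower ℚ K A := IsScalarTower.of_algebraMap_eq' rfl
  obtain ⟨s, hs⟩ : Algebra.FiniteType ℚ A := .trans (S := K) inferInstance inferInstance
  refine ⟨s.image ρ, top_le_iff.1 fun z _ => ?_⟩
  have key : ∀ a : A, ρ a ∈ Subfield.closure (s.image ρ : Set L) := by
    intro a
    have ha : a ∈ Algebra.adjoin ℚ (s : Set A) := hs ▸ trivial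
    induction ha using Algebra.adjoin_induction with
    | mem x hx => exact Subfield.subset_closure (by simpa using ⟨x, hx, rfl⟩)
    | algebraMap c =>
      rw [show ρ (algebraMap ℚ A c) = (c : L) from eq_ratCast (ρ.comp (algebraMap ℚ A)) c]
      exact SubfieldClass.ratCast_mem _ c
    | add x y _ _ hx hy => rw [map_add]; exact add_mem hx hy
    | mul x y _ _ hx hy => rw [map_mul]; exact mul_mem hx hy
  obtain ⟨a, b, hb, e⟩ := hρ z
  rw [eq_div_of_mul_eq hb e]
  exact div_mem (key a) (key b)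

/-- Two points on one geometric curve. -/
def Jn {A Ω : Type} [CommRing A] [Field Ω] (p : Ideal A) (φ ψ : A →+* Ω) : Prop :=
  ∀ (L : Type) [Field L] (ρ : A →+* L), RingHom.ker ρ = p →
    (∀ z : L, ∃ a b, ρ b ≠ 0 ∧ z * ρ b = ρ a) → FF L ∧ (∃ a, Transcendental ℤ (ρ a)) ∧
    ∃ (A₁ : Subring L) (hA : ∀ a, ρ a ∈ A₁) (φ₁ ψ₁ : A₁ →+* Ω), (∀ a, φ₁ ⟨ρ a, hA a⟩ = φ a) ∧
      (∀ a, ψ₁ ⟨ρ a, hA a⟩ = ψ a) ∧
      ∀ c : L, IsAlgebraic ℤ c → ∃ hc : c ∈ A₁, φ₁ ⟨c, hc⟩ = ψ₁ ⟨c, hc⟩

theorem jn_of {K A Ω D : Type} [Field K] [NumberField K] [CommRing A] [Algebra K A]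
    [Algebra.FiniteType K A] [Field Ω] [IsAlgClosed Ω] [CharZero Ω] [CommRing D] [IsDomain D]
    [Algebra Ω D] (hΩ : ∀ c : Ω, IsAlgebraic ℤ c) (μ : Polynomial Ω →ₐ[Ω] D) (hi : Function.Injective μ)
    (hμ : μ.toRingHom.IsIntegral) (j : A →+* D)
    (hj : Algebra.adjoin Ω (Set.range j) = ⊤) (φ ψ : D →ₐ[Ω] Ω) :
    Jn (RingHom.ker j) (φ.toRingHom.comp j) (ψ.toRingHom.comp j) := by
  intro L _ ρ hk hρ
  obtain ⟨E, _, _, _, _, _⟩ : ∃ (E : Type) (_ : Field E) (_ : Algebra D E)
      (_ : IsFractionRing D E) (_ : Algebra Ω E), IsScalarTower Ω D E :=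
    ⟨FractionRing D, inferInstance, inferInstance, inferInstance, inferInstance, inferInstance⟩
  have hD : Function.Injective (algebraMap D E) := IsFractionRing.injective D E
  obtain ⟨e, he⟩ : ∃ e : L →+* E, ∀ a, e (ρ a) = algebraMap D E (j a) := by
    let : Algebra (A ⧸ RingHom.ker ρ) L := (RingHom.kerLift ρ).toAlgebra
    have : (RingHom.ker ρ).IsPrime := RingHom.ker_isPrime ρ
    have : FaithfulSMul (A ⧸ RingHom.ker ρ) L :=
      (faithfulSMul_iff_algebraMap_injective _ _).mpr (RingHom.kerLift_injective ρ)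
    have : IsFractionRing (A ⧸ RingHom.ker ρ) L := IsFractionRing.of_field _ _ fun z => by
      obtain ⟨a, b, hb, e⟩ := hρ z
      exact ⟨Ideal.Quotient.mk _ a, Ideal.Quotient.mk _ b, eq_div_of_mul_eq hb e⟩
    let g : A ⧸ RingHom.ker ρ →+* E := Ideal.Quotient.lift _ ((algebraMap D E).comp j)
      fun a ha => by rw [RingHom.comp_apply, show j a = 0 from hk.le ha, map_zero]
    have hg : Function.Injective g := by
      rw [injective_iff_map_eq_zero]
      intro x hx
      obtain ⟨x, rfl⟩ := Ideal.Quotient.mk_surjective x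
      rw [Ideal.Quotient.eq_zero_iff_mem, hk]
      exact hD (hx.trans (map_zero _).symm)
    exact ⟨IsFractionRing.lift hg, fun a =>
      IsFractionRing.lift_algebraMap hg (Ideal.Quotient.mk _ a)⟩
  have : CharZero E := charZero_of_injective_algebraMap (algebraMap Ω E).injective
  have : CharZero L := e.charZero
  have : Algebra.IsAlgebraic ℤ Ω := ⟨hΩ⟩
  have ht : ∃ a, Transcendental ℤ (ρ a) := by
    by_contra hn
    have h1 : ∀ a, IsIntegral Ω (j a) := fun a => by
      have h2 : IsAlgebraic ℤ (ρ a) := of_not_not fun k => hn ⟨a, k⟩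
      have h3 := h2.algHom e.toIntAlgHom
      rw [show e.toIntAlgHom (ρ a) = algebraMap D E (j a) from he a] at h3
      exact ((isAlgebraic_algebraMap_iff hD).mp
        (h3.extendScalars (algebraMap ℤ Ω).injective_int)).isIntegral
    have h2 : IsIntegral Ω (μ X) :=
      (Algebra.adjoin_le (s := Set.range j) (S := integralClosure Ω D)
        (by rintro _ ⟨a, rfl⟩; exact h1 a)) (hj.ge trivial)
    exact transcendental_X Ω ((isIntegral_algHom_iff μ hi).mp h2).isAlgebraic
  let r : D ≃+* (algebraMap D E).range := RingEquiv.ofBijective (algebraMap D E).rangeRestrict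
    ⟨fun a b k => hD (congrArg Subtype.val k), RingHom.rangeRestrict_surjective _⟩
  let n : (algebraMap D E).range.comap e →+* D :=
    r.symm.toRingHom.comp (e.restrict _ _ fun _ h => h)
  have hn : ∀ (x : (algebraMap D E).range.comap e) (d : D), e x = algebraMap D E d → n x = d :=
    fun x d h => r.symm_apply_eq.mpr (Subtype.ext h)
  refine ⟨⟨fg_of (K := K) ρ hρ, td_of_trdeg
    ((trdeg_le_of_injective e.toIntAlgHom e.injective).trans (trdeg_le E hΩ μ hμ)),
    ht.elim fun a h => ⟨_, h⟩⟩, ht, (algebraMap D E).range.comap e, fun a => ⟨j a, (he a).symm⟩,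
    φ.toRingHom.comp n, ψ.toRingHom.comp n, fun a => congrArg φ (hn _ _ (he a)),
    fun a => congrArg ψ (hn _ _ (he a)), fun c hc => ?_⟩
  obtain ⟨w, hw⟩ : e c ∈ (algebraMap Ω E).range := by
    have h1 : IsIntegral Ω (e c) :=
      ((hc.algHom e.toIntAlgHom).extendScalars (algebraMap ℤ Ω).injective_int).isIntegral
    exact minpoly.mem_range_of_degree_eq_one Ω _
      (IsAlgClosed.degree_eq_one_of_irreducible Ω (minpoly.irreducible h1))
  have h2 : e c = algebraMap D E (algebraMap Ω D w) := by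
    rw [← IsScalarTower.algebraMap_apply, hw]
  refine ⟨⟨_, h2.symm⟩, ?_⟩
  simp only [RingHom.comp_apply]
  rw [hn ⟨c, _, h2.symm⟩ _ h2]
  exact (φ.commutes w).trans (ψ.commutes w).symm

/-- A function on the geometric points that is constant on geometric curves is constant. -/
theorem conn1 {K F A Ω : Type} [Field K] [NumberField K] [Field F] [Algebra K F] [CommRing A]
    [Algebra K A] [Algebra.FiniteType K A] [Field Ω] [IsAlgClosed Ω] [Algebra K Ω]
    [Algebra.IsAlgebraic K Ω] (hK : Cl K F) (f : A →ₐ[K] F) (hf : Function.Injective f)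
    {R : Type} (h : (A →ₐ[K] Ω) → R)
    (hh : ∀ (p : Ideal A) (φ ψ : A →ₐ[K] Ω), p.IsPrime → Jn p φ.toRingHom ψ.toRingHom →
      h φ = h ψ) (φ ψ : A →ₐ[K] Ω) : h φ = h ψ := by
  have := dom (Ω := Ω) hK f hf
  have : CharZero Ω := charZero_of_injective_algebraMap (algebraMap K Ω).injective
  have : Algebra.IsAlgebraic ℤ K := ⟨hK.al⟩
  have hΩ : ∀ c : Ω, IsAlgebraic ℤ c := fun c =>
    (Algebra.IsAlgebraic.isAlgebraic (R := K) c).restrictScalars ℤ
  let i : A →ₐ[K] Ω ⊗[K] A := Algebra.TensorProduct.includeRight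
  have e : ∀ φ : A →ₐ[K] Ω, ∃ χ : Ω ⊗[K] A →ₐ[Ω] Ω, (χ.restrictScalars K).comp i = φ := fun φ =>
    ⟨Algebra.TensorProduct.lift (AlgHom.id Ω Ω) φ fun _ _ => Commute.all _ _, by
      ext a
      simp [i]⟩
  obtain ⟨χ, rfl⟩ := e φ
  obtain ⟨χ', rfl⟩ := e ψ
  refine Conn.conn' (fun χ : Ω ⊗[K] A →ₐ[Ω] Ω => h ((χ.restrictScalars K).comp i))
    (fun p μ hp hi hμ χ χ' h1 h2 => ?_) χ χ'
  refine hh (RingHom.ker ((Ideal.Quotient.mk p).comp i.toRingHom)) _ _ (RingHom.ker_isPrime _) ?_
  refine jn_of (K := K) hΩ μ hi hμ ((Ideal.Quotient.mk p).comp i.toRingHom) ?_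
    (Ideal.Quotient.liftₐ p χ h1) (Ideal.Quotient.liftₐ p χ' h2)
  refine top_le_iff.1 fun x _ => ?_
  obtain ⟨x, rfl⟩ := Ideal.Quotient.mk_surjective x
  induction x using TensorProduct.induction_on with
  | zero => rw [map_zero]; exact zero_mem _
  | tmul a b =>
    rw [show a ⊗ₜ[K] b = a • i b by simp [i, TensorProduct.smul_tmul']]
    exact Subalgebra.smul_mem _ (Algebra.subset_adjoin (Set.mem_range_self b)) a
  | add x y hx hy => rw [map_add]; exact add_mem (hx trivial) (hy trivial)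

/-- A point that does not kill a given element. -/
theorem ex_pt {K A Ω : Type} [Field K] [CommRing A] [IsDomain A] [Algebra K A]
    [Algebra.FiniteType K A] [Field Ω] [IsAlgClosed Ω] [Algebra K Ω] {s : A} (hs : s ≠ 0) :
    ∃ φ : A →ₐ[K] Ω, φ s ≠ 0 := by
  have : IsJacobsonRing A := isJacobsonRing_of_finiteType (A := K)
  have h1 : s ∉ Ideal.jacobson (⊥ : Ideal A) := by
    rw [isJacobsonRing_iff_prime_eq.mp ‹_› ⊥ Ideal.isPrime_bot]
    exact hs
  rw [Ideal.jacobson, Ideal.mem_sInf] at h1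
  push Not at h1
  obtain ⟨m, ⟨-, hm⟩, hs⟩ := h1
  let := Ideal.Quotient.field m
  have : Module.Finite K (A ⧸ m) := finite_of_finite_type_of_isJacobsonRing K _
  let g : (A ⧸ m) →ₐ[K] Ω := IsAlgClosed.lift
  exact ⟨g.comp (Ideal.Quotient.mkₐ K m), fun e =>
    hs (Ideal.Quotient.eq_zero_iff_mem.mp (g.injective (e.trans (map_zero g).symm)))⟩

end Pool.Agent.MP_f3836a_nt.GQ.Mu
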