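import Pool.Agent.MP_f3836a_nt.GQ.MuA
import Pool.Agent.MP_f3836a_nt.GQ.MuB
import Pool.Agent.MP_f3836a_nt.GQ.Defs
import Pool.Agent.MP_f3836a_nt.GP.TNm

/-! Geometric places of a function field. -/

set_option autoImplicit false

namespace Pool.Agent.MP_f3836a_nt.GQ.Mu

open Polynomial IntermediateField GP PK VE.W VE.Z IsLocalRing

variable {L Ω : Type} [Field L] [CharZero L] [Field Ω]

/-- A point of a subring extends to a place. -/
theorem place [IsAlgClosed Ω] (hΩ : ∀ c : Ω, IsAlgebraic ℤ c) (I : Fi L) (A : Subring L)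
    (hq : Ho A) (t : A) (ht : Transcendental ℤ (t : L)) (φ : A →+* Ω) :
    ∃ (O : Subring L) (_ : Pl O) (h : A ≤ O) (_ : IsLocalRing O) (τ : ResidueField O →+* Ω),
      ∀ a : A, τ (residue O ⟨a, h a.2⟩) = φ a := by
  have := RingHom.ker_isPrime φ
  obtain ⟨V, h1, h2⟩ := (LocalSubring.ofPrime A (RingHom.ker φ)).exists_le_valuationSubring
  have hA : A ≤ V.toSubring := (le_lc A _).trans h1
  have ho : Ho V.toSubring := fun n hn => hA (hq n hn)
  have hV : V.toSubring ≠ ⊤ := by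
    intro e
    obtain ⟨p, p0, hp⟩ := hΩ (φ t)
    have a0 : ((aeval t p : A) : L) ≠ 0 := fun k => ht ⟨p, p0, by
      rw [← k]
      exact aeval_algHom_apply A.subtype.toIntAlgHom t p⟩
    have a1 : aeval t p ∈ RingHom.ker φ :=
      (aeval_algHom_apply φ.toIntAlgHom t p).symm.trans hp
    have a2 : IsUnit (Subring.inclusion h1 (Subring.inclusion (le_lc A _) (aeval t p))) :=
      (ut_iff _).1 ⟨a0, e.ge trivial, e.ge trivial⟩
    obtain ⟨a, b, hb, k⟩ := mem_lc.1 ((ut_iff _).2 (h2.map_nonunit _ a2)).2.2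
    refine hb ?_
    rw [show b = aeval t p * a from Subtype.ext (by
      push_cast
      rw [← k]
      exact (mul_inv_cancel_left₀ a0 _).symm)]
    exact Ideal.mul_mem_right _ _ a1
  have pl : Pl V.toSubring := ⟨I.dvr _ V.mem_or_inv_mem' hV ho, ho⟩
  have lo := (dvA pl.1).loc
  let f : A →+* ResidueField V.toSubring := (residue _).comp (Subring.inclusion hA)
  let g : ℚ →+* A := (algebraMap ℚ L).codRestrict A fun q => by
    rw [eq_ratCast, Rat.cast_def, div_eq_mul_inv]
    exact A.mul_mem (intCast_mem A _) (hq _ q.den_ne_zero)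
  let := (f.comp g).toAlgebra
  have := I.fd _ pl
  obtain ⟨τ, hτ⟩ := Conn.ext_hom f (RingHom.IsIntegral.tower_top g f fun x =>
    IsIntegral.of_finite ℚ x) φ fun a ha => by
      by_contra hn
      have a0 : (a : L) ≠ 0 := fun k => hn (by rw [show a = 0 from Subtype.ext k]; exact zero_mem _)
      exact (residue_eq_zero_iff _).1 ha ((ut_iff (Subring.inclusion hA a)).1
        ⟨a0, hA a.2, h1 (mem_lc.2 ⟨1, a, hn, inv_mul_cancel₀ a0⟩)⟩)
  exact ⟨_, pl, hA, lo, τ, fun a => RingHom.congr_fun hτ a⟩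

omit [CharZero L] in
theorem su_of {O : Subring L} [IsLocalRing O] {M : ℕ} (u : O) (hu : Ut O u)
    (h : Um M (residue O u)) : SU O M u := by
  obtain ⟨n, h0, h1, h2, h3⟩ := h
  have key : ∀ v : O, IsIntegral ℤ ((n : ResidueField O) * residue O v) → Itg O (n * (v : L)) := by
    rintro v ⟨q, hq, e⟩
    refine ⟨q, hq, ?_⟩
    have e1 := aeval_algHom_apply O.subtype.toIntAlgHom (n * v) q
    have e2 := aeval_algHom_apply (residue O).toIntAlgHom (n * v) q
    simp only [map_mul, map_natCast] at e1 e2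
    exact e1 ▸ (nu_iff _).2 ((residue_eq_zero_iff _).1 (e2.symm.trans e))
  refine ⟨n, h0, h1, key u h2, key ⟨_, hu.2.2⟩ ?_⟩
  rwa [show residue O ⟨_, hu.2.2⟩ = (residue O u)⁻¹ from eq_inv_of_mul_eq_one_left (by
    rw [← map_mul, ← map_one (residue O)]
    exact congrArg _ (Subtype.ext (inv_mul_cancel₀ hu.1)))]

omit [CharZero L] in
/-- The value at a geometric place depends only on the embedding of the constants. -/
theorem side (hΩ : ∀ c : Ω, IsAlgebraic ℤ c) [CharZero Ω] (I : Fi L) {k κ : Type} [Field k]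
    [NumberField k] [Algebra k L] [Field κ] [NumberField κ] {O A : Subring L} (pl : Pl O)
    [IsLocalRing O] (hk : ∀ c : k, algebraMap k L c ∈ O) {r : A →+* κ} (hr : Rm A r)
    (hA : A ≤ O) (τ : ResidueField O →+* Ω) (σ : κ →+* Ω)
    (e : ∀ a : A, τ (residue O ⟨a, hA a.2⟩) = σ (r a)) :
    Br A O ∧ ∀ {l : κ → ℝ} {μ : k → ℝ} {M : ℕ}, Adr l → Adr μ →
      (∀ u, Ut O u → SU O M u → l (nmW r O u) = μ (nmK k O u)) → ∀ c, c ≠ 0 → Um M c →
      Lam σ l c = Lam (τ.comp (emb k O hk)) μ c := by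
  have dm : Dom A O := ⟨hA, fun z hz => by
    have h1 := e ⟨z, hz.1⟩
    rw [(hr.ker _).2 ((nu_iff ⟨z, hz.1⟩).1 hz), map_zero, map_eq_zero] at h1
    exact (nu_iff ⟨z, hA hz.1⟩).2 ((residue_eq_zero_iff _).1 h1)⟩
  refine ⟨⟨(dvA pl.1).val, dm⟩, fun {l μ M} hl hμ h c hc hM => ?_⟩
  obtain ⟨ν, hν⟩ := hr.nv dm
  have hσ : τ.comp ν = σ := RingHom.ext fun t => by
    obtain ⟨a, rfl⟩ := hr.surj t
    rw [RingHom.comp_apply, (hν a).choose_spec, e]
  have : CharZero (ResidueField O) := τ.charZero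
  have : NumberField (ResidueField O) := { to_finiteDimensional := I.fd O pl }
  let := ν.toAlgebra
  let := (emb k O hk).toAlgebra
  have fd : ∀ (k' : Type) [Field k'] [CharZero k'] [Algebra k' (ResidueField O)],
      FiniteDimensional k' (ResidueField O) := fun k' _ _ _ =>
    have : IsScalarTower ℚ k' (ResidueField O) :=
      IsScalarTower.of_algebraMap_eq' (RingHom.ext_rat _ _)
    Module.Finite.of_restrictScalars_finite ℚ k' _
  have := fd k
  have := fd κ
  rw [← hσ]
  refine (lam_tower hΩ τ hl hc).symm.trans (Eq.trans ?_ (lam_tower hΩ τ hμ hc))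
  refine lam_congr hΩ τ (adr_norm hl) (adr_norm hμ) (fun x x0 hx => ?_) hc hM
  obtain ⟨u, rfl⟩ := residue_surjective x
  have hu : Ut O u := (ut_iff u).2 (of_not_not fun k => x0 ((residue_eq_zero_iff _).2 k))
  have := h u hu (su_of u hu hx)
  rwa [nmW_eq hr.surj hν, nmK_eq k O hk, EDVA.res_mem u.2] at this

/-- The field of constants. -/
theorem ex_const (G : FG L) (I : Fi L) :
    ∃ (k : Type) (_ : Field k) (_ : NumberField k) (_ : Algebra k L), Cl k L := by
  obtain ⟨t, ht, -⟩ := G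
  obtain ⟨O, o, -⟩ := I.ex t ht
  let k := algebraicClosure ℚ L
  have al : ∀ z : L, IsAlgebraic ℤ z ↔ z ∈ k := fun z =>
    (IsFractionRing.isAlgebraic_iff ℤ ℚ L).trans mem_algebraicClosure_iff.symm
  have := (dvA o.1).loc
  let e := emb k O fun c => TNm.cmem o ((al _).2 c.2)
  let := (e.comp (algebraMap ℚ k)).toAlgebra
  have := I.fd O o
  have : NumberField k :=
    { to_finiteDimensional := FiniteDimensional.of_injective e.toRatAlgHom.toLinearMap e.injective }
  exact ⟨k, inferInstance, inferInstance, inferInstance,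
    ⟨fun c => (IsFractionRing.isAlgebraic_iff ℤ ℚ k).2 (Algebra.IsAlgebraic.isAlgebraic c),
      fun z hz => ⟨⟨z, (al z).1 hz⟩, rfl⟩⟩⟩

end Pool.Agent.MP_f3836a_nt.GQ.Mu
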