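import Pool.Agent.MP_f3836a_nt.GQ.SpecM

/-! Part GQ: a pencil through a point. -/

set_option autoImplicit false

namespace Pool.Agent.MP_f3836a_nt.GQ

open Polynomial IsLocalRing PK VE.W VE.Z GP

theorem qPen : OfPen := by
  intro hm hf hs L ι _ _ _ ξ ff md D p hD hp nD
  have m := hm L ι ξ md
  have f := hf L ι ξ md
  have s := hs L ι ξ ff md
  have p0 : (p : L) ≠ 0 := Nat.cast_ne_zero.2 hp.ne_zero
  have fV : {V | Pv ξ p V}.Finite := (s.zer p p0).subset fun V h => ⟨h.1, h.2.1, h.2.2.not⟩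
  obtain ⟨d₀, ⟨G₀, g1, g2, -⟩, d0⟩ := ((f.sep (insert D {V | Pv ξ p V}) ∅ (fV.insert D)
    Set.finite_empty (fun S h => h.elim (fun e => e ▸ hD) fun e => e.1) (by simp) (by simp)).and
    (Filter.eventually_gt_atTop 0)).exists
  have fZ : {D' | Pc ξ p D' ∧ ¬Uf ξ d₀ G₀ D'}.Finite := by
    refine (fV.biUnion fun V h => s.finf V d₀ G₀ h.1 h.2.1 ?_ g1 (g2 V (.inr h))).subset
      fun D' h => ?_
    · rintro rfl
      exact h.2.2.not ⟨p0, trivial, trivial⟩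
    · obtain ⟨V, a, b⟩ := s.vex p D' hp.ne_zero h.1
      exact Set.mem_biUnion a ⟨h.1.1, b, h.2⟩
  obtain ⟨N, hN⟩ := Filter.eventually_atTop.1 (f.sep _ ∅ fZ Set.finite_empty
    (fun S h => h.1.1) (by simp) (by simp))
  obtain ⟨G', k1, k2, -⟩ := hN (d₀ * (N + 1)) (by nlinarith)
  have uD := f.upow _ _ (N + 1) _ (g2 D (.inl rfl))
  have gF := f.pow _ _ (N + 1) g1
  refine ⟨_, _, G', by positivity, gF, k1, uD, fun W hW e zp => ?_⟩
  obtain ⟨z, hz, dz⟩ := m.cen W (inferInstanceAs (IsLocalRing (⟨W, hW⟩ : ValuationSubring L)))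
    (m.val W hW)
  refine f.mono _ _ z W (by_contra fun c => ?_) dz.1
  have key : ∀ D', Pt ξ D' → Nu D' p → D' ≤ z → Uf ξ (d₀ * (N + 1)) G' z := fun D' a b l => by
    have n0 : ¬Uf ξ d₀ G₀ D' := fun u => c (f.mono _ _ _ _ (f.upow _ _ _ _ u) l)
    exact f.mono _ _ _ _ (k2 D' ⟨⟨a, by_contra fun n => n0 (g2 D' (.inr ⟨a, n, b⟩)), b⟩, n0⟩) l
  have u : Uf ξ (d₀ * (N + 1)) G' z := by
    by_cases h : Ho z
    · obtain ⟨D', a, l, b⟩ := m.spc z p inferInstance hz h hp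
      exact key D' a b l
    · obtain ⟨l, hl, b⟩ := ex_nu h
      obtain rfl : l = p := by_contra fun n => (dz.2 _ b).not ⟨Nat.cast_ne_zero.2 hl.ne_zero,
        natCast_mem W l, zp l ((Nat.coprime_primes hl hp).2 n)⟩
      exact key z hz b le_rfl
  obtain ⟨a, b⟩ := f.div _ G' _ z gF u
  exact c (b.1 (dz.ut a ⟨div_ne_zero (f.ne _ _ _ uD) (f.ne _ _ _ u), dz.1 a, by rwa [inv_div]⟩))

end Pool.Agent.MP_f3836a_nt.GQ
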