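import Pool.Agent.MP_f3836a_nt.GQ.SpecM

/-! Two closed points below a point that is not closed; specialisation to a prime. -/

set_option autoImplicit false

namespace Pool.Agent.MP_f3836a_nt.GQ

open Polynomial IsLocalRing PK VE.W VE.Z GP

namespace QSec

theorem jac : IsJacobsonRing ℤ := isJacobsonRing_iff_prime_eq.2 fun P hP => by
  by_cases h : P = ⊥
  · rw [h, eq_bot_iff]
    intro x hx
    have h1 := Int.isUnit_iff.1 (Ideal.mem_jacobson_bot.1 hx x)
    have h2 := mul_self_nonneg x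
    exact mul_self_eq_zero.1 (by omega)
  · have := hP.isMaximal h
    exact Ideal.jacobson_eq_self_of_isMaximal

variable {L : Type} [Field L]

/-- integers modulo the maximal ideal -/
def zs (S : Subring L) [IsLocalRing S] : Subring L where
  carrier := {x | ∃ n : ℤ, Nu S (x - n)}
  zero_mem' := ⟨0, by simpa using nu_zero⟩
  one_mem' := ⟨1, by simpa using nu_zero⟩
  add_mem' := fun ⟨n, h⟩ ⟨m, k⟩ => ⟨n + m, by
    have := h.add k
    rwa [sub_add_sub_comm, ← Int.cast_add] at this⟩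
  neg_mem' := fun ⟨n, h⟩ => ⟨-n, by
    have := h.neg
    rwa [neg_sub', ← Int.cast_neg] at this⟩
  mul_mem' := fun {a b} ⟨n, h⟩ ⟨m, k⟩ => ⟨n * m, by
    have hb : b ∈ S := by simpa using S.add_mem k.1 (intCast_mem S m)
    have := (h.mul hb).add (k.mul (intCast_mem S n))
    rwa [show b * (a - n) + n * (b - m) = a * b - (n * m : ℤ) by push_cast; ring] at this⟩

/-- multiples of `p` modulo the maximal ideal -/
def zi (S : Subring L) [IsLocalRing S] (p : ℕ) : Ideal (zs S) where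
  carrier := {x | ∃ n : ℤ, Nu S (x - p * n)}
  zero_mem' := ⟨0, by simpa using nu_zero⟩
  add_mem' := fun ⟨n, h⟩ ⟨m, k⟩ => ⟨n + m, by
    have := h.add k
    rwa [sub_add_sub_comm, ← mul_add, ← Int.cast_add] at this⟩
  smul_mem' := fun ⟨a, n, h⟩ ⟨b, _⟩ ⟨m, k⟩ => ⟨n * m, by
    have ha : a ∈ S := by simpa using S.add_mem h.1 (intCast_mem S n)
    have := (k.mul ha).add (h.mul (S.mul_mem (natCast_mem S p) (intCast_mem S m)))
    rwa [show a * (b - p * m) + p * m * (a - n) = a * b - p * (n * m : ℤ) by push_cast; ring]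
      at this⟩

theorem val [CharZero L] (S : Subring L) [IsLocalRing S] {p : ℕ} (ho : Ho S) (hp : p.Prime) :
    ∃ V : ValuationSubring L, (∀ x, Nu S x → x ∈ V.nonunits) ∧ (p : L) ∈ V.nonunits := by
  obtain ⟨V, -, h⟩ := (zi S p).image_subset_nonunits_valuationSubring fun e => by
    obtain ⟨n, h⟩ : (1 : zs S) ∈ zi S p := e ▸ Submodule.mem_top
    have h1 : (1 - p * n : ℤ) ≠ 0 := fun e => hp.ne_one (by
      have : (p : ℤ) ∣ 1 := ⟨n, by omega⟩
      exact Nat.dvd_one.1 (by exact_mod_cast this))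
    have h2 := ho _ (Int.natAbs_ne_zero.2 h1)
    have h3 : Nu S ((1 - p * n : ℤ) : L) := by simpa using h
    refine h3.not ⟨Int.cast_ne_zero.2 h1, h3.1, ?_⟩
    rw [Nat.cast_natAbs] at h2
    rcases abs_choice (1 - p * n : ℤ) with e | e <;> rw [e] at h2
    · exact h2
    · rw [Int.cast_neg, inv_neg] at h2
      simpa using S.neg_mem h2
  exact ⟨V, fun x hx => h ⟨⟨x, 0, by simpa using hx⟩, ⟨0, by simpa using hx⟩, rfl⟩,
    h ⟨⟨p, p, by simpa using nu_zero⟩, ⟨1, by simpa using nu_zero⟩, rfl⟩⟩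

end QSec

theorem qSec : SecR := fun B _ _ q hq hm => by
  have := QSec.jac
  have : IsJacobsonRing B := isJacobsonRing_of_finiteType (A := ℤ)
  obtain ⟨m, h1, h2⟩ := q.exists_le_maximal hq.ne_top
  by_contra k
  refine hm ((le_antisymm h2 ?_ : q = m) ▸ h1)
  rw [← isJacobsonRing_iff_prime_eq.1 this q hq]
  refine le_sInf fun J hJ => ?_
  by_contra e
  exact k ⟨m, J, h1, hJ.2, h2, hJ.1, fun u => e u.le⟩

theorem qSpc : SpcR := fun L ι _ _ _ ξ S p _ ho hp ⟨i, hi, hS⟩ => by
  obtain ⟨V, h1, h2⟩ := QSec.val S ho hp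
  simp only [ValuationSubring.mem_nonunits_iff] at h1 h2
  have ut : ∀ x, x ∈ S → V.valuation x = 1 → Ut (S ⊓ V.toSubring) x := fun x hx e => by
    have u := (nu_or hx).resolve_left fun k => (h1 x k).ne e
    exact ⟨u.1, ⟨hx, (V.valuation_le_one_iff x).1 e.le⟩, u.2.2,
      (V.valuation_le_one_iff _).1 (by rw [map_inv₀, e, inv_one])⟩
  refine ⟨S ⊓ V.toSubring, IsLocalRing.of_isUnit_or_isUnit_one_sub_self fun x => ?_, inf_le_left,
    ?_, natCast_mem _ p, .inr fun e => ?_⟩
  · rcases ((V.valuation_le_one_iff x).2 x.2.2).eq_or_lt with e | e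
    · exact .inl ((ut_iff x).1 (ut _ x.2.1 e))
    · exact .inr ((ut_iff (1 - x)).1 (ut _ (1 - x).2.1 (V.valuation.map_one_sub_of_lt e)))
  · obtain ⟨k, -, hk⟩ := Finset.exists_max_image Finset.univ (fun j => V.valuation (ξ j))
      ⟨i, Finset.mem_univ _⟩
    have i0 : 0 < V.valuation (ξ i) := (Valuation.pos_iff _).2 hi
    have k0 := i0.trans_le (hk i (Finset.mem_univ _))
    have u := (nu_or (hS k)).resolve_left fun e => by
      have := h1 _ e
      rw [map_div₀, div_lt_one₀ i0] at this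
      exact this.not_ge (hk i (Finset.mem_univ _))
    refine ⟨k, (Valuation.pos_iff _).1 k0, fun j => ⟨?_, (V.valuation_le_one_iff _).1 ?_⟩⟩
    · have := S.mul_mem (hS j) u.2.2
      rwa [← div_eq_mul_inv, div_div_div_cancel_right₀ hi] at this
    · rw [map_div₀, div_le_one₀ k0]
      exact hk j (Finset.mem_univ _)
  · have := (V.valuation_le_one_iff _).2 e.2
    rw [map_inv₀, inv_le_one₀ ((Valuation.pos_iff _).2 (Nat.cast_ne_zero.2 hp.ne_zero))] at this
    exact this.not_gt h2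

end Pool.Agent.MP_f3836a_nt.GQ
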