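import Pool.Agent.MP_f3836a_nt.GQ.SpecM

/-! Part GQ: transport to a surface. -/

set_option autoImplicit false

namespace Pool.Agent.MP_f3836a_nt.GQ

open Polynomial IsLocalRing PK VE.W VE.Z GP

namespace QTr

theorem adr_one {K : Type} [Field K] {l : K → ℝ} (h : Adr l) : l 1 = 0 := by
  have := h 1 1 one_ne_zero one_ne_zero
  rw [mul_one] at this
  linarith

theorem adr_prod {K ι : Type} [Field K] {l : K → ℝ} (h : Adr l) (s : Finset ι) {a : ι → K}
    (h0 : ∀ i ∈ s, a i ≠ 0) : l (∏ i ∈ s, a i) = ∑ i ∈ s, l (a i) := by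
  induction s using Finset.cons_induction with
  | empty => simpa using adr_one h
  | cons i s hi ih =>
    rw [Finset.forall_mem_cons] at h0
    rw [Finset.prod_cons, Finset.sum_cons, h _ _ h0.1 (Finset.prod_ne_zero_iff.2 h0.2), ih h0.2]

variable {S : Sy} {y C : S.P} {f g : S.κ y} {O : Subring (S.κ y)}

theorem eq (H : S.HtA) (lam : ∀ C, S.κ C → ℝ) (h : C ≤ y) (u : S.κ y) (hc : S.Cv C)
    (hb : Br (S.R h) O) : S.lamY lam y O u = lam C (nmW (S.r h) O u) := by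
  classical
  rw [Sy.lamY, finsum_eq_single _ C fun C' e => ?_, finsum_eq_dif, dif_pos h, finsum_eq_if,
    if_pos ⟨hc, hb⟩]
  rw [finsum_eq_dif]
  split_ifs with h'
  exacts [finsum_eq_if.trans (if_neg fun k => e (H.uniq h' h O k.2.2 hb.2)), rfl]

theorem nm_one (B : TrB S y) (h : C ≤ y) (hc : S.Cv C) (hb : Br (S.R h) O) :
    nmW (S.r h) O 1 = 1 := by
  obtain ⟨n, -, e⟩ := (B.nm C h O hc hb).2.2.2
  simpa using e 1

theorem bc_eq (B : TrB S y) (h : C ≤ y) (hc : S.Cv C) : S.bc y f g C =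
    ∏ O ∈ (B.ex C h hc).1.toFinset, nmW (S.r h) O (tameE O f g) := by
  rw [Sy.bc, if_pos hc, Sy.bd, dif_pos h]
  exact finprod_mem_eq_finite_toFinset_prod _ (B.ex C h hc).1

theorem bc_one (h : ¬(C ≤ y ∧ S.Cv C)) : S.bc y f g C = 1 := by
  rw [Sy.bc, Sy.bd]
  split_ifs with a b
  exacts [absurd ⟨b, a⟩ h, rfl, rfl]

theorem tame_one (h : ¬(ordR O f ≠ 0 ∨ ordR O g ≠ 0)) : tameE O f g = 1 := by
  push Not at h
  rw [tame_l h.1, h.2, zpow_zero]

end QTr

open QTr in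
theorem qTr : OfTr := by
  classical
  intro hH hB S y hy
  have H := hH S
  have B := hB S y hy
  obtain ⟨c, c1, c2⟩ : ∃ c : Subring (S.κ y) → S.P,
      (∀ O, S.Cw y O → ∃ h : c O ≤ y, S.Cv (c O) ∧ Br (S.R h) O) ∧
      ∀ (C : S.P) (h : C ≤ y) O, S.Cv C → Br (S.R h) O → c O = C := by
    have e : ∀ O, ∃ C : S.P, S.Cw y O → ∃ h : C ≤ y, S.Cv C ∧ Br (S.R h) O := fun O => by
      by_cases k : S.Cw y O
      exacts [k.imp fun _ a _ => a, ⟨y, fun a => absurd a k⟩]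
    choose c hc using e
    exact ⟨c, hc, fun C h O a b => (hc O ⟨C, h, a, b⟩).elim fun h' k => H.uniq h' h O k.2.2 b.2⟩
  have ut : ∀ {f g : S.κ y} {C : S.P} (h : C ≤ y) (a : S.Cv C), f ≠ 0 → g ≠ 0 →
      ∀ O, Br (S.R h) O → Ut O (tameE O f g) := fun h a f0 g0 O b =>
    tame_ut (B.dvr O ⟨_, h, a, b⟩) f0 g0
  have fT : ∀ f g : S.κ y, {O | S.Cw y O ∧ (ordR O f ≠ 0 ∨ ordR O g ≠ 0)}.Finite := fun f g =>
    ((B.fin f).union (B.fin g)).subset fun O k => k.2.imp (And.intro k.1) (And.intro k.1)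
  refine ⟨B.dvr, B.pl, B.ex, B.fin, fun lam C h O u => eq H lam h u, B.nm,
    fun f g C f0 g0 => ?_, fun f g _ _ => ((fT f g).image c).subset fun C k => ?_,
    fun f g C f0 g0 => ?_, fun lam f g hl f0 g0 => ?_⟩
  · by_cases k : C ≤ y ∧ S.Cv C
    · rw [bc_eq B k.1 k.2]
      exact Finset.prod_ne_zero_iff.2 fun O o => (B.nm C k.1 O k.2 (by simpa using o)).1 _
        (ut k.1 k.2 f0 g0 O (by simpa using o))
    · rw [bc_one k]; exact one_ne_zero
  · obtain ⟨h, a⟩ : C ≤ y ∧ S.Cv C := by_contra fun e => k (bc_one e)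
    rw [Set.mem_ofPred_eq, bc_eq B h a] at k
    obtain ⟨O, o, e⟩ := Finset.exists_ne_one_of_prod_ne_one k
    have b : Br (S.R h) O := by simpa using o
    exact ⟨O, ⟨⟨C, h, a, b⟩, by_contra fun z => e (by rw [tame_one z, nm_one B h a b])⟩,
      c2 C h O a b⟩
  · by_cases k : C ≤ y ∧ S.Cv C
    · rw [bc_eq B k.1 k.2, bc_eq B k.1 k.2, ← Finset.prod_mul_distrib]
      refine Finset.prod_eq_one fun O o => ?_
      have b : Br (S.R k.1) O := by simpa using o
      have u := ut k.1 k.2 f0 g0 O b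
      have u' := ut k.1 k.2 g0 f0 O b
      have N := B.nm C k.1 O k.2 b
      rw [← N.2.1 _ _ u u', N.2.2.1 _ 1 (u.mul u').2.1 O.one_mem ?_, nm_one B k.1 k.2 b]
      simpa [bdE] using ((dvA (B.dvr O ⟨_, k.1, k.2, b⟩)).bd [(f, g)] (by simp [NZ, f0, g0])).2.1
    · rw [bc_one k, bc_one k, mul_one]
  have z : ∀ O, S.Cw y O → ¬(ordR O f ≠ 0 ∨ ordR O g ≠ 0) → S.lamY lam y O (tameE O f g) = 0 :=
    fun O ⟨C, h, a, b⟩ e => by rw [eq H lam h _ a b, tame_one e, nm_one B h a b, adr_one (hl C)]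
  have e1 : ∀ C, lam C (S.bc y f g C) =
      ∑ O ∈ (fT f g).toFinset with c O = C, S.lamY lam y O (tameE O f g) := fun C => by
    by_cases k : C ≤ y ∧ S.Cv C
    · obtain ⟨h, a⟩ := k
      rw [bc_eq B h a, adr_prod (hl C) _ fun O o => (B.nm C h O a (by simpa using o)).1 _
        (ut h a f0 g0 O (by simpa using o)),
        Finset.sum_congr rfl fun O o => (eq H lam h _ a (by simpa using o)).symm]
      refine (Finset.sum_subset (fun O o => ?_) fun O o o' => ?_).symm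
      · simp only [Finset.mem_filter, Set.Finite.mem_toFinset, Set.mem_ofPred_eq] at o ⊢
        obtain ⟨o, rfl⟩ := o
        exact (c1 O o.1).2.2
      · simp only [Finset.mem_filter, Set.Finite.mem_toFinset, Set.mem_ofPred_eq] at o o'
        exact z O ⟨C, h, a, o⟩ fun e => o' ⟨⟨⟨C, h, a, o⟩, e⟩, c2 C h O a o⟩
    · rw [bc_one k, adr_one (hl C), Finset.sum_eq_zero fun O o => absurd ?_ k]
      simp only [Finset.mem_filter, Set.Finite.mem_toFinset, Set.mem_ofPred_eq] at o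
      obtain ⟨o, rfl⟩ := o
      exact ⟨(c1 O o.1).1, (c1 O o.1).2.1⟩
  rw [finsum_congr e1, finsum_eq_sum_of_support_subset (s := (fT f g).toFinset.image c) _
    fun C k => ?_, Finset.sum_fiberwise_of_maps_to fun O o => Finset.mem_image_of_mem c o]
  · refine (finsum_mem_eq_sum_of_inter_support_eq _ (s := {O | S.Cw y O}) ?_).symm
    ext O
    simp only [Set.mem_inter_iff, Set.Finite.coe_toFinset, Set.mem_ofPred_eq, Function.mem_support]
    exact ⟨fun k => ⟨⟨k.1, by_contra fun e => k.2 (z O k.1 e)⟩, k.2⟩, fun k => ⟨k.1.1, k.2⟩⟩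
  · obtain ⟨O, o, -⟩ := Finset.exists_ne_zero_of_sum_ne_zero k
    rw [Finset.mem_filter] at o
    exact Finset.mem_coe.2 (Finset.mem_image.2 ⟨O, o⟩)

end Pool.Agent.MP_f3836a_nt.GQ
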