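import Pool.Agent.MP_f3836a_nt.GQ.SpecR
import Pool.Agent.MP_f3836a_nt.GP.GdA
import Pool.Agent.MP_f3836a_nt.GP.GDim

/-! Part GQ: the differentials have few generators away from finitely many primes. -/

set_option autoImplicit false

namespace Pool.Agent.MP_f3836a_nt.GQ.R

open Polynomial IsLocalRing PK VE.W VE.Z

namespace RGdA

variable {B : Type} [CommRing B]

theorem key [Algebra.FiniteType ℤ B] {q : Ideal B} (hq : q.IsPrime)
    (W : Submodule B (KaehlerDifferential ℤ B)) (hf : ∀ a, algebraMap ℤ B a ∈ q → a = 0)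
    (h1 : ∀ a ∈ q, ∃ s, s ∉ q ∧ s • KaehlerDifferential.D ℤ B a ∈ q • ⊤ ⊔ W)
    (h2 : ∀ b, ∃ P : ℤ[X], P ≠ 0 ∧ aeval b P ∈ q) : ∃ s, s ∉ q ∧ ∀ m, s • m ∈ W := by
  refine GP.GdA.nak hq W fun m => ?_
  have hm : m ∈ Submodule.span B (Set.range (KaehlerDifferential.D ℤ B)) :=
    (KaehlerDifferential.span_range_derivation ℤ B).symm ▸ Submodule.mem_top
  induction hm using Submodule.span_induction with
  | mem m hm =>
    obtain ⟨b, rfl⟩ := hm
    obtain ⟨P, p0, p1⟩ := h2 b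
    obtain ⟨P, p2, p3⟩ := GP.GdA.least (algebraMap ℤ B) hf b P p0 p1
    obtain ⟨s, s1, s2⟩ := h1 _ p2
    refine ⟨s * eval₂ (algebraMap ℤ B) b (derivative P), fun e => (hq.mem_or_mem e).elim s1 p3, ?_⟩
    have := sub_mem s2 (Submodule.mem_sup_right (Submodule.smul_mem _ s
      (GP.GdA.chain (KaehlerDifferential.D ℤ B) (algebraMap ℤ B) (W := W) (fun a => by simp) b P)))
    rwa [smul_sub, sub_sub_cancel, smul_smul] at this
  | zero => exact ⟨1, (Ideal.ne_top_iff_one q).1 hq.ne_top, by simp⟩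
  | add m m' _ _ h h' =>
    obtain ⟨s, s1, s2⟩ := h
    obtain ⟨s', s1', s2'⟩ := h'
    refine ⟨s * s', fun e => (hq.mem_or_mem e).elim s1 s1', ?_⟩
    rw [smul_add]
    refine add_mem ?_ (mul_smul s s' m' ▸ Submodule.smul_mem _ s s2')
    rw [mul_comm, mul_smul]
    exact Submodule.smul_mem _ s' s2
  | smul c m _ h =>
    obtain ⟨s, s1, s2⟩ := h
    exact ⟨s, s1, smul_comm c s m ▸ Submodule.smul_mem _ c s2⟩

theorem der {e : ℕ} {q : Ideal B} {π : Fin e → B} (h : ∀ i, π i ∈ q) {x : B}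
    (hx : x ∈ Ideal.span (Set.range π)) : KaehlerDifferential.D ℤ B x ∈
      q • ⊤ ⊔ Submodule.span B (Set.range fun i => KaehlerDifferential.D ℤ B (π i)) := by
  obtain ⟨c, rfl⟩ := Ideal.mem_span_range_iff_exists_fun.1 hx
  rw [map_sum]
  refine Submodule.sum_mem _ fun i _ => ?_
  rw [Derivation.leibniz, add_comm]
  exact Submodule.add_mem_sup (Submodule.smul_mem_smul (h i) Submodule.mem_top)
    (Submodule.smul_mem _ _ (Submodule.subset_span ⟨i, rfl⟩))

end RGdA

theorem gdA : GdA := by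
  intro B _ _ e hπ
  by_contra hn
  obtain ⟨q, hq, h1, h2⟩ := (Ideal.span {s : B | ∃ t : Fin e → B, CyE s t}).exists_le_prime_disjoint
    ((nonZeroDivisors ℤ).map (Int.castRingHom B)) (Set.disjoint_left.2 (by
      rintro _ h ⟨n, h0, rfl⟩
      refine hn ⟨n.natAbs, Int.natAbs_ne_zero.2 (nonZeroDivisors.ne_zero h0), ?_⟩
      rw [Nat.cast_natAbs]
      rcases abs_choice n with e | e <;> rw [e]
      · exact h
      · rw [Int.cast_neg]
        exact neg_mem h))
  have h3 : ∀ n : ℤ, (n : B) ∈ q → n = 0 := fun n h => by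
    by_contra h0
    exact Set.disjoint_left.1 h2 h ⟨n, mem_nonZeroDivisors_of_ne_zero h0, rfl⟩
  obtain ⟨J, j1, j2, j3, j4⟩ := GP.GDim.gen (A := ℤ) q h3
  obtain ⟨π, p1, p2⟩ := hπ J j1 j3
  obtain ⟨s, s1, s2⟩ := RGdA.key j1
    (Submodule.span B (Set.range fun i => KaehlerDifferential.D ℤ B (π i))) j3 (fun a h => by
      obtain ⟨s, s1, k⟩ := p2 a h
      refine ⟨s, s1, ?_⟩
      have k' := RGdA.der p1 k
      rw [Derivation.leibniz] at k'
      have := sub_mem k' (Submodule.mem_sup_left (Submodule.smul_mem_smul h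
        (Submodule.mem_top (x := KaehlerDifferential.D ℤ B s))))
      rwa [add_sub_cancel_right] at this) j4
  exact s1 (j2 (h1 (Ideal.subset_span ⟨π, fun b => s2 _⟩)))

end Pool.Agent.MP_f3836a_nt.GQ.R
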