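import Pool.Agent.MP_f3836a_nt.GQ.SpecR
import Pool.Agent.MP_f3836a_nt.GP.SpecE
import Pool.Agent.MP_f3836a_nt.PK.SpecT

/-! Part GQ: charts, heights, good fibres and constants of a projective scheme. -/

set_option autoImplicit false

namespace Pool.Agent.MP_f3836a_nt.GQ.E

open IsLocalRing AlgebraicGeometry CategoryTheory PK VE.W VE.Z GP R Order

/-- charts -/
structure Chx (X : Scheme.{0}) : Prop where
  sch : SchA X
  cl : ∀ z : X, ∃ x : X, z ⤳ x ∧ IsClosed ({x} : Set X)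
  le : ∀ (y z z' : X) (h : y ⤳ z) (h' : y ⤳ z'), z' ⤳ z ↔ (PT.ev h).range ≤ (PT.ev h').range
  ex : ∀ y : X, ∃ s : Set (Subring (X.residueField y)), s.Finite ∧
    (∀ B ∈ s, Algebra.FiniteType ℤ B ∧ Fr B ∧
      ∀ (q : Ideal B) [q.IsPrime], ∃ (z : X) (h : y ⤳ z), (PT.ev h).range = lc B q) ∧
    ∀ (z : X) (h : y ⤳ z), ∃ B ∈ s, ∃ (q : Ideal B) (_ : q.IsPrime), (PT.ev h).range = lc B q
  cen : ∀ (y : X) (W : Subring (X.residueField y)), Vr W →
    ∃ (z : X) (h : y ⤳ z), Dom (PT.ev h).range W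

def ChS : Prop := ∀ (X : Scheme.{0}) (N : ℕ) P fr, PrA X N P fr → Chx X

/-- heights and dimensions of local rings -/
structure Hdx (X : Scheme.{0}) : Prop where
  zero : ∀ x : X, height x = 0 ↔ IsClosed ({x} : Set X)
  ge : ∀ (y z : X) (h : y ⤳ z) (n : ℕ), height y ≤ n → ringKrullDim (PT.ev h).range ≤ n
  le : ∀ (y : X) (n : ℕ), (∀ (x : X) (h : y ⤳ x), height x = 0 →
    ringKrullDim (PT.ev h).range ≤ n) → height y ≤ n
  dp : ∀ (y z : X) (h : y ⤳ z) (B : Subring (X.residueField y)) (q : Ideal B) [q.IsPrime],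
    (PT.ev h).range = lc B q → ringKrullDim (PT.ev h).range = q.height ∧
      (∀ n : ℕ, (n : B) ∈ q ↔ (n : X.residueField z) = 0) ∧
      ∀ k, Dp (B ⧸ q) k ↔ Dp (X.residueField z) k
  fin : ∀ x : X, height x = 0 → Finite (X.residueField x)
  dn : ∀ (y z : X) (n : ℕ), y ⤳ z → (n : X.residueField y) = 0 → (n : X.residueField z) = 0

/-- heights and transcendence degrees -/
structure Htx (X : Scheme.{0}) : Prop where
  up : ∀ (y : X) (k : ℕ), Dp (X.residueField y) k → height y ≤ (k + 1 : ℕ)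
  up' : ∀ (y : X) (k : ℕ), ¬CharZero (X.residueField y) → Dp (X.residueField y) k → height y ≤ k
  low : ∀ (y : X) (k : ℕ), height y ≤ k → Dp (X.residueField y) k
  low' : ∀ (y : X) (k : ℕ), CharZero (X.residueField y) → height y ≤ (k + 1 : ℕ) →
    Dp (X.residueField y) k
  rel : ∀ (y z : X) (h : y ⤳ z) (a j : ℕ), CharZero (X.residueField y) →
    ¬CharZero (X.residueField z) → ringKrullDim (PT.ev h).range ≤ (a + 1 : ℕ) →
    Dp (X.residueField z) j → Dp (X.residueField y) (a + j)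
  nf : ∀ C : X, CharZero (X.residueField C) → (height C = 1 ↔ NumberField (X.residueField C))
  ff : ∀ y : X, CharZero (X.residueField y) → (height y = 2 ↔ FF (X.residueField y))

/-- an integral regular scheme whose generic point `η` has characteristic zero -/
structure Gnx (X : Scheme.{0}) (η : X) : Prop where
  gen : ∀ z, η ⤳ z
  reg : ∀ z : X, IsRegularLocalRing (X.presheaf.stalk z)
  inj : ∀ (z : X) (h : η ⤳ z), Function.Injective (PT.ev h)
  zero : CharZero (X.residueField η)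

/-- the point lies over a prime which does not divide `M` -/
def Gd {X : Scheme.{0}} (M : ℕ) (z : X) : Prop :=
  ∃ p : ℕ, p.Prime ∧ ¬p ∣ M ∧ (p : X.residueField z) = 0

/-- the fibres over the primes not dividing `M` are regular of dimension `e` -/
def GdX (X : Scheme.{0}) (M e : ℕ) : Prop :=
  ∀ (x : X) (p : ℕ), IsClosed ({x} : Set X) → p.Prime → ¬p ∣ M → (p : X.residueField x) = 0 →
    IsRegularLocalRing (X.presheaf.stalk x ⧸ Ideal.span {(p : X.presheaf.stalk x)}) ∧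
    ringKrullDim (X.presheaf.stalk x ⧸ Ideal.span {(p : X.presheaf.stalk x)}) = e

/-- the components of the good fibres -/
structure CmpX {X : Scheme.{0}} (M : ℕ) (Y : Set X) : Prop where
  reg : ∀ y ∈ Y, PT.Reg y
  ex : ∀ z : X, Gd M z → ∃ y ∈ Y, y ⤳ z
  uniq : ∀ y ∈ Y, ∀ y' ∈ Y, ∀ z : X, y ⤳ z → y' ⤳ z → y = y'

/-- a cycle -/
structure CyX {X : Scheme.{0}} (φ : ∀ C : X, X.residueField C) : Prop where
  ne : ∀ C, φ C ≠ 0
  fin : {C | φ C ≠ 1}.Finite
  cv : ∀ C, φ C ≠ 1 → height C = 1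
  div : ∀ x : X, height x = 0 → ∑ᶠ C, PT.ordZ C x (φ C) = 0

/-- vertical cycles over the good primes -/
def FibX (X : Scheme.{0}) (M : ℕ) : Prop := ∀ φ : ∀ C : X, X.residueField C, CyX φ →
  (∀ C, φ C ≠ 1 → Gd M C) →
  ∃ n : ℕ, 0 < n ∧ ∃ l : List (Σ y : X, X.residueField y × X.residueField y),
    (∀ a ∈ l, height a.1 = 2 ∧ a.2.1 ≠ 0 ∧ a.2.2 ≠ 0) ∧
    ∀ C : X, height C = 1 → φ C ^ n = (l.map fun a => PT.bd a.1 C a.2.1 a.2.2).prod

/-- the field of constants -/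
structure Cst {X : Scheme.{0}} (η : X) (K : Type) [Field K]
    (e : ∀ z : X, CharZero (X.residueField z) → (K →+* X.residueField z)) : Prop where
  nf : NumberField K
  cmp : ∀ (y z : X) (h : y ⤳ z) hy hz (c : K),
    ∃ a, PT.ev h a = e y hy c ∧ X.residue z a = e z hz c
  cl : ∀ hη (c : X.residueField η), IsAlgebraic ℤ c → ∃ k, e η hη k = c
  int : ∀ hη (c : K), IsIntegral ℤ c → ∀ (z : X) (h : η ⤳ z), e η hη c ∈ (PT.ev h).range
  glob : ∀ c : X.residueField η, (∀ (z : X) (h : η ⤳ z), c ∈ (PT.ev h).range) → IsIntegral ℤ c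

def HdS : Prop := ∀ X : Scheme.{0}, Chx X → Hdx X
def HtS : Prop := ∀ X : Scheme.{0}, Chx X → Hdx X → Htx X
def GxS : Prop := ∀ (X : Scheme.{0}) (η : X), Chx X → Hdx X → Gnx X η →
  ∃ M e : ℕ, M ≠ 0 ∧ GdX X M e
def CxS : Prop := ∀ (X : Scheme.{0}) (M e : ℕ), Chx X → Hdx X → GdX X M e →
  ∃ Y : Set X, CmpX M Y
def FxS : Prop := ∀ (N : ℕ) (X : Scheme.{0}) (ι : X ⟶ PT.PN N) [IsClosedImmersion ι] (M : ℕ)
  (Y : Set X), CmpX M Y → FibX X M
def CstS : Prop := ∀ (X : Scheme.{0}) (η C₀ : X), Chx X → Gnx X η →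
  NumberField (X.residueField C₀) → ∃ (K : Type) (_ : Field K) (e : _), Cst η K e

def OfHd : Prop := DpS → HdS
def OfHt : Prop := DpS → R.UpS → LowS → HtS
def OfGx : Prop := DpS → GoodR → GxS

end Pool.Agent.MP_f3836a_nt.GQ.E
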