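import Pool.Agent.MP_f3836a_nt.GP.Base
import Pool.Agent.MP_f3836a_nt.PK.FReg

/-! Part GQ: dimension theory of rings of finite type over the integers. -/

set_option autoImplicit false

namespace Pool.Agent.MP_f3836a_nt.GQ.R

open Polynomial IsLocalRing PK VE.W VE.Z

/-- transcendence degree at most `k` over the prime ring -/
def Dp (R : Type) [CommRing R] (k : ℕ) : Prop :=
  ∃ t : Fin k → R, ∀ b : R, IsAlgebraic (Subring.closure (Set.range t)) b

/-- comparison with the transcendence degree -/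
def DtS : Prop := ∀ (R : Type) [CommRing R] [IsDomain R] (k : ℕ),
  Dp R k ↔ Algebra.trdeg (⊥ : Subring R) R ≤ k

/-- elementary properties -/
structure DpA (R : Type) [CommRing R] : Prop where
  mono : ∀ k k', k ≤ k' → Dp R k → Dp R k'
  ext : ∀ (L : Type) [CommRing L] [IsDomain L] (f : R →+* L), Function.Injective f →
    (∀ c : L, IsAlgebraic f.range c) → ∀ k, Dp R k ↔ Dp L k
  frac : ∀ (L : Type) [Field L] (f : R →+* L), Function.Injective f →
    (∀ c : L, ∃ a b : R, f b ≠ 0 ∧ c * f b = f a) → ∀ k, Dp R k ↔ Dp L k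
  ft : Algebra.FiniteType ℤ R → ∃ k, Dp R k
  zero : CharZero R → (Dp R 0 ↔ ∀ c : R, IsAlgebraic ℤ c)
  one : CharZero R → (Dp R 1 ↔ Td R)
  fin : Finite R → Dp R 0
  fin' : Algebra.FiniteType ℤ R → ringChar R ≠ 0 → Dp R 0 → Finite R

def DpS : Prop := ∀ (R : Type) [CommRing R] [IsDomain R], DpA R

/-- one step of a chain -/
def StepS : Prop := ∀ (B : Type) [CommRing B] (q q' : Ideal B) [q.IsPrime] [q'.IsPrime] (k : ℕ),
  q ≤ q' → Dp (B ⧸ q) k → Dp (B ⧸ q') k ∧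
    (q ≠ q' → (∀ n : ℕ, (n : B) ∈ q' → (n : B) ∈ q) → ∃ j, k = j + 1 ∧ Dp (B ⧸ q') j)

/-- chains are short -/
def UpS : Prop := ∀ (B : Type) [CommRing B] (p : LTSeries (PrimeSpectrum B)) (k : ℕ),
  Dp (B ⧸ p.head.asIdeal) k → p.length ≤ k + 1 ∧
    ((∀ n : ℕ, (n : B) ∈ p.last.asIdeal → (n : B) ∈ p.head.asIdeal) → p.length ≤ k)

/-- the main theorem of Zariski -/
def ZmS : Prop := ∀ (B : Type) [CommRing B] [IsDomain B] [Algebra.FiniteType ℤ B] (A : Subring B)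
  (Q : Ideal B) [Q.IsPrime],
  (∀ Q' : Ideal B, Q'.IsPrime → Q' ≤ Q → (∀ a ∈ A, a ∈ Q → a ∈ Q') → Q' = Q) →
  (∀ b : B, ∃ P : A[X], (∃ n, (P.coeff n : B) ∉ Q) ∧ aeval b P ∈ Q) → ∀ b : B, IsAlgebraic A b

/-- the dimension inequality -/
def LowS : Prop := ∀ (B : Type) [CommRing B] [IsDomain B] [Algebra.FiniteType ℤ B] (Q : Ideal B)
  [Q.IsPrime] (h j : ℕ), Dp (B ⧸ Q) j → (Q.height ≤ h → Dp B (h + j)) ∧
    ∀ n : ℕ, (n : B) ≠ 0 → (n : B) ∈ Q → Q.height ≤ (h + 1 : ℕ) → Dp B (h + j)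

/-- a regular curve not contained in `c = 0` -/
def RefS : Prop := ∀ (A : Type) [CommRing A] [IsRegularLocalRing A] (c : A), c ∈ maximalIdeal A →
  c ≠ 0 → ∃ (d : ℕ) (a₀ : A) (a : Fin d → A), ringKrullDim A = (d + 1 : ℕ) ∧
    Ideal.span (insert a₀ (Set.range a)) = maximalIdeal A ∧ c ∉ Ideal.span (Set.range a) ∧
    ∃ _ : IsDomain (A ⧸ Ideal.span (Set.range a)),
      IsDiscreteValuationRing (A ⧸ Ideal.span (Set.range a))

/-- after inverting `s` the differentials are generated by those of the `t i` -/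
def CyE {B : Type} [CommRing B] {e : ℕ} (s : B) (t : Fin e → B) : Prop :=
  ∀ b : B, s • KaehlerDifferential.D ℤ B b ∈
    Submodule.span B (Set.range fun i => KaehlerDifferential.D ℤ B (t i))

def GdA : Prop := ∀ (B : Type) [CommRing B] [Algebra.FiniteType ℤ B] (e : ℕ),
  (∀ q : Ideal B, q.IsPrime → (∀ n : ℤ, (n : B) ∈ q → n = 0) →
    ∃ π : Fin e → B, (∀ i, π i ∈ q) ∧ ∀ a ∈ q, ∃ s, s ∉ q ∧ s * a ∈ Ideal.span (Set.range π)) →
  ∃ M : ℕ, M ≠ 0 ∧ (M : B) ∈ Ideal.span {s : B | ∃ t : Fin e → B, CyE s t}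

def GdB : Prop := ∀ (B : Type) [CommRing B] (m : Ideal B) (p e : ℕ) (s : B) (t : Fin e → B),
  m.IsMaximal → Finite (B ⧸ m) → p.Prime → (p : B) ∈ m → s ∉ m → CyE s t →
  ∃ w : Fin e → B, (∀ i, w i ∈ m) ∧ m ≤ Ideal.span (insert (p : B) (Set.range w)) ⊔ m ^ 2

/-- almost all primes are parameters -/
def GoodR : Prop := ∀ (B : Type) [CommRing B] [IsDomain B] [CharZero B] [Algebra.FiniteType ℤ B]
  (e : ℕ), Dp B e → (∀ k, Dp B k → e ≤ k) →
  (∀ (q : Ideal B) [q.IsPrime], IsRegularLocalRing (Localization.AtPrime q)) →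
  ∃ M : ℕ, M ≠ 0 ∧ ∀ (m : Ideal B) [m.IsMaximal] (p : ℕ), p.Prime → ¬p ∣ M → (p : B) ∈ m →
    ringKrullDim (Localization.AtPrime m) = (e + 1 : ℕ) ∧
    (p : Localization.AtPrime m) ∉ maximalIdeal (Localization.AtPrime m) ^ 2

def OfDp : Prop := DtS → DpS
def OfStep : Prop := DtS → StepS
def OfUp : Prop := StepS → UpS
def OfLow : Prop := DpS → ZmS → LowS
def OfGood : Prop := DpS → UpS → LowS → GdA → GdB → GoodR

end Pool.Agent.MP_f3836a_nt.GQ.R
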