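import Pool.Agent.MP_f3836a_nt.GQ.SpecM
import Pool.Agent.MP_f3836a_nt.GQ.SpecR

/-! Part GQ: local laws. -/

set_option autoImplicit false

namespace Pool.Agent.MP_f3836a_nt.GQ

open Polynomial IsLocalRing PK VE.W VE.Z GP

section
variable {L ι : Type} [Field L]

/-- the context -/
structure Cx (ξ : ι → L) (M : ℕ) (VV : Set (Subring L)) (lam : Subring L → L → ℝ) : Prop where
  ks : Ks M VV lam
  kp : Kp M lam
  nc : ∀ W ∈ VV, ∀ D, Pt ξ D → Dom D W → ¬Alg D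

/-- flags on a place -/
structure FlA (M : ℕ) (O : Subring L) : Prop where
  fin : {U | Fl M O U}.Finite
  fn : ∀ U, Fl M O U → Fn O fun u => (oK O U u : ℝ)
  un : ∀ U u, Fl M O U → Ut U u → oK O U u = 0
  alg : ∀ U : Subring L, Fl M O U → Alg U ∧ IsLocalRing U
  dec : ∀ l, Fn O l → (∀ u, Ut O u → SU O M u → l u = 0) → ∃ a : Subring L → ℝ,
    ∀ u, Ut O u → l u = ∑ᶠ (U) (_ : Fl M O U), a U * oK O U u

/-- decomposition along the flags -/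
def Dq (M : ℕ) (lam : Subring L → L → ℝ) (a : Subring L → Subring L → ℝ) : Prop :=
  ∀ O u, Pl O → Ut O u → lam O u = ∑ᶠ (U) (_ : Fl M O U), a O U * oK O U u

/-- the part over the point `D` -/
noncomputable def Bd (M : ℕ) (a : Subring L → Subring L → ℝ) (D O : Subring L) (u : L) : ℝ :=
  ∑ᶠ (U) (_ : Fl M O U ∧ Dom D U), a O U * oK O U u

def Lb (M : ℕ) (a : Subring L → Subring L → ℝ) (D : Subring L) (α : ℝ) : Prop :=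
  ∀ O u, H1 D O → Ho O → Ut O u → Bd M a D O u = α * oK O D u

/-- two regular points on a vertical curve -/
structure Tw (ξ : ι → L) (M : ℕ) (D D' E : Subring L) (d : ℕ) (U U' : L) : Prop where
  pc : Pc ξ M D
  pc' : Pc ξ M D'
  rg : Rg D
  rg' : Rg D'
  ne : D ≠ D'
  h1 : H1 D E
  h1' : H1 D' E
  nu : Nu E M
  pos : 0 < d
  fm : Fm ξ d U
  fm' : Fm ξ d U'
  uf : ∀ S, Pt ξ S → S ≤ E → S ≠ D → S ≠ D' → Uf ξ d U S ∧ Uf ξ d U' S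

/-- a line over the point `A` with two regular points -/
structure Gr (A : Subring L) (τ μ : L) (e : ℕ) (D D' E : Subring L) : Prop where
  ne : τ ≠ 0
  poly : ∃ c : ℕ → L, (∀ j, c j ∈ A) ∧ μ = τ ^ e + ∑ j ∈ Finset.range e, c j * τ ^ j
  pt : ∃ (q : Ideal (Bl A τ)) (_ : q.IsPrime), D = lc _ q
  pt' : ∃ (q : Ideal (Bl A τ)) (_ : q.IsPrime), D' = lc _ q
  rg : Rg D
  rg' : Rg D'
  dom : Dom A D
  dom' : Dom A D'
  h1 : H1 D E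
  h1' : H1 D' E
  de : Dom A E
  ut : Ut D τ
  ut' : Ut D' μ
  one : oK E D μ = 1
  one' : oK E D' τ = 1
  cen : ∀ S : Subring L, IsLocalRing S → Bl A τ ≤ S → Dom A S →
    (Nu S μ → Dom D S) ∧ (Nu S τ → Dom D' S)

/-- the larger model -/
def bl (ξ : ι → L) (τ : L) : ι ⊕ ι → L := Sum.elim (fun i => ξ i * τ) ξ

end

/-- the shape of the rows about a family on a model -/
def AllX (Φ : ∀ (L ι : Type) [Field L] (_ : ι → L) (_ : ℕ) (_ : Set (Subring L))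
    (_ : Subring L → L → ℝ), Prop) : Prop :=
  ∀ (L ι : Type) [Field L] [CharZero L] [Fintype ι] (ξ : ι → L) (M : ℕ) (VV : Set (Subring L))
    (lam : Subring L → L → ℝ), FF L → Md ξ → Cx ξ M VV lam → Φ L ι ξ M VV lam

def FlQ : Prop := ∀ (L : Type) [Field L] [CharZero L] (M : ℕ) (O : Subring L), FF L → M ≠ 0 →
  Pl O → FlA M O

def BdQ : Prop := ∀ (L : Type) [Field L] (M : ℕ) (a : Subring L → Subring L → ℝ)
  (D O : Subring L), Pl O → FlA M O → Fn O (Bd M a D O) ∧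
    (∀ u, Ut O u → Uc O D u → Bd M a D O u = 0) ∧ ∀ (lam : Subring L → L → ℝ) u, Dq M lam a →
      Ut O u → (∀ U, Fl M O U → ¬Dom D U → Ut U u) → lam O u = Bd M a D O u

/-- reciprocity at finitely many points -/
def Sr2 : Prop := AllX fun L _ _ ξ M VV lam => ∀ a (P : Finset (Subring L)) (f w : L), Dq M lam a →
  (∀ D ∈ P, Pt ξ D ∧ Rg D) → f ≠ 0 → w ≠ 0 → (∀ D, Pc ξ M D → D ∉ P → Ut D f ∨ Ut D w) →
  (∀ W ∈ VV, Ut W f ∧ Ut W w) →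
  ∑ D ∈ P, ∑ᶠ (O) (_ : H1 D O ∧ Ho O), Bd M a D O (tameE O f w) = 0

def FexV : Prop := AllF fun _ _ _ ξ => ∀ (M : ℕ) D O g, M ≠ 0 → Pc ξ M D → Rg D → H1 D O → Ho O →
  Eqn D O g → ∃ t, Ut D t ∧ ∀ V, Pv ξ M V → Ut V (g * t)

def SrQ : Prop := AllX fun L _ _ ξ M _ lam => ∀ a D O g, Dq M lam a → Pc ξ M D → Rg D → H1 D O →
  Ho O → Eqn D O g → ∃ T : Finset (Subring L), (∀ D' ∈ T, Pt ξ D' ∧ Alg D' ∧ D' ≠ D) ∧
    ∀ w ∈ D, (∀ D' ∈ T, Ut D' w) → Uv D w ∧ Rc D (Bd M a D) O g w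

def LbQ : Prop := AllX fun _ _ _ ξ M _ lam => ∀ a D, Dq M lam a → Pc ξ M D → Rg D → ∃ α, Lb M a D α

def Tw1 : Prop := AllF fun _ _ _ ξ => ∀ (M : ℕ) D D' E d U U', M ≠ 0 → Tw ξ M D D' E d U U' →
  ∃ (k : ℕ) (u : _), 0 < k ∧ Nu E (u - (U / U') ^ k) ∧ (∀ V, Pv ξ M V → Ut V u) ∧
    ∀ S, Pt ξ S → S ≤ E → S ≠ D → S ≠ D' → Ut S u

def Tw2 : Prop := AllF fun _ _ _ ξ => ∀ (M : ℕ) E (T : Set _), M ≠ 0 → Pv ξ M E → Dvr E →
  T.Finite → (∀ S ∈ T, Pt ξ S ∧ Alg S ∧ ¬S ≤ E) →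
  ∃ t, t ≠ 0 ∧ ordR E t = 1 ∧ (∀ V, Pv ξ M V → V ≠ E → Ut V t) ∧ ∀ S ∈ T, Ut S t

def TwQ : Prop := AllX fun _ _ _ ξ M VV lam => ∀ a D D' E d U U' α α', Dq M lam a →
  Tw ξ M D D' E d U U' → E ∉ VV → Lb M a D α → Lb M a D' α' →
  α * oK E D (U / U') + α' * oK E D' (U / U') = 0

/-- the law at one point -/
def Sl1 : Prop := AllX fun _ _ _ ξ M _ lam => ∀ D, Pc ξ M D → Rg D → ∃ α, Lv M lam D α

/-- the laws at two points -/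
def Sl2 : Prop := AllX fun _ _ _ ξ M VV lam => ∀ D D' E d U U', Tw ξ M D D' E d U U' → E ∉ VV →
  ∃ α α', Lv M lam D α ∧ Lv M lam D' α' ∧ α * oK E D (U / U') + α' * oK E D' (U / U') = 0

def BlQ : Prop := AllM fun L _ _ ξ => ∀ τ : L, τ ≠ 0 → Md (bl ξ τ) ∧
  (∀ S, Cht (bl ξ τ) S → Cht ξ S ∧ (τ ∈ S ∨ τ⁻¹ ∈ S)) ∧
  (∀ (A : Subring L) (q : Ideal (Bl A τ)) [q.IsPrime], Pt ξ A → Pt (bl ξ τ) (lc _ q)) ∧
  ∀ d F, Fm ξ d F → Fm (bl ξ τ) d F ∧ Fm (bl ξ τ) d (F * τ ^ d)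

/-- the forms on the line -/
def GrF : Prop := AllM fun _ _ _ ξ => ∀ (M : ℕ) A τ μ e D D' E, Pc ξ M A → Gr A τ μ e D D' E →
  ∃ d U U', Tw (bl ξ τ) M D D' E d U U' ∧ oK E D (U / U') = 1 ∧ oK E D' (U / U') = -e

def GrQ : Prop := AllX fun _ _ _ ξ M _ lam => ∀ A τ μ e D D' E, Pc ξ M A → Gr A τ μ e D D' E →
  ∃ α : ℝ, Lv M lam D (e * α) ∧ Lv M lam D' α

/-- the dimension of a closed point determines the field -/
def FfQ : Prop := ∀ (L ι : Type) [Field L] [CharZero L] [Fintype ι] (ξ : ι → L) (D : Subring L),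
  Md ξ → Pt ξ D → (Rg D → FF L) ∧ (Alg D → Dm1 D → Al L)

/-! ### the graph construction -/

section
variable {A κ : Type} [CommRing A] [IsLocalRing A] [Field κ]

/-- the point of the line given by `m` -/
noncomputable def xI (m : A[X]) : Ideal A[X] := (maximalIdeal A).map C ⊔ Ideal.span {m}

/-- a generator for the branch `w` -/
structure Bg (e : A →+* κ) (w : Subring κ) (g : κ) (m : A[X]) : Prop where
  vr : Vr w
  ut : Ut w g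
  mon : m.Monic
  c0 : IsUnit (m.coeff 0)
  mem : ∀ P : A[X], eval₂ e g P ∈ w
  frac : ∀ z ∈ w, ∃ P Q : A[X], Ut w (eval₂ e g Q) ∧ z * eval₂ e g Q = eval₂ e g P
  nu : ∀ P : A[X], Nu w (eval₂ e g P) ↔ P ∈ xI m
  eq : ∃ h : A[X], eval₂ e g h = 0 ∧ IsUnit (h.coeff 0)
  deg : lg w = m.natDegree * lg e.range

variable {k : ℕ}

/-- equations of the surface -/
structure Zs (a₀ : A) (a : Fin k → A) (e : A →+* κ) (g : κ) (m : A[X]) (b : A) (z : Fin k → A[X]) :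
    Prop where
  mem : b ∈ maximalIdeal A
  gr : ∀ i, eval₂ e g (z i) = 0
  rf : ∀ i, (z i).coeff 0 ∈ Ideal.span (Set.range a)
  ln : ∀ i, z i ∈ (maximalIdeal A).map C
  g1 : ∀ c ∈ xI m, ∃ u, u ∉ xI m ∧
    u * c ∈ Ideal.span (Set.range z) ⊔ Ideal.span {C b, m} ⊔ xI m ^ 2
  g0 : ∀ c ∈ xI (X : A[X]), ∃ u, u ∉ xI (X : A[X]) ∧
    u * c ∈ Ideal.span (Set.range z) ⊔ Ideal.span {C a₀, X} ⊔ xI (X : A[X]) ^ 2

/-- the surface -/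
structure Gs (a₀ : A) (a : Fin k → A) (e : A →+* κ) (g : κ) (m : A[X]) (S : Ideal A[X]) :
    Prop where
  pr : S.IsPrime
  gr : ∀ c ∈ S, eval₂ e g c = 0
  rf : ∀ c ∈ S, c.coeff 0 ∈ Ideal.span (Set.range a)
  ln : S ≤ (maximalIdeal A).map C
  g1 : ∃ b ∈ maximalIdeal A, ∀ c ∈ xI m, ∃ u, u ∉ xI m ∧ u * c ∈ S ⊔ Ideal.span {C b, m}
  g0 : ∀ c ∈ xI (X : A[X]), ∃ u, u ∉ xI (X : A[X]) ∧ u * c ∈ S ⊔ Ideal.span {C a₀, X}
  bir : ∃ s t : A, C s ∉ S ∧ C s * X - C t ∈ S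

end

/-- the curve `O` through `D` with residue map `r` is the one given by `φ`, with branch `w` -/
def Cb {R L κ : Type} [CommRing R] [Field L] [Field κ] (ψ : R →+* L) (φ : R →+* κ) (D : Subring L)
    (w : Subring κ) : Prop := ∃ (O : Subring L) (r : O →+* κ), H1 D O ∧ DV O r ∧
  (∀ c, ∃ h : ψ c ∈ O, r ⟨_, h⟩ = φ c) ∧ im O r D = w

def G1Q : Prop := ∀ (A κ : Type) [CommRing A] [IsLocalRing A] [Field κ] (e : A →+* κ)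
  (w : Subring κ), Cu1 e.range → Br e.range w → ∃ g m, Bg e w g m

/-- the element -/
def G1a : Prop := ∀ (κ : Type) [Field κ] (A w : Subring κ) [IsLocalRing A], Cu1 A → Br A w →
  ∃ (g : κ) (m : A[X]), Ut w g ∧ g⁻¹ ∈ nrm A ∧ (∀ w', Br A w' → w' ≠ w → Nu w' g⁻¹) ∧ m.Monic ∧
    IsUnit (m.coeff 0) ∧ aeval g m ≠ 0 ∧ ordR w (aeval g m) = 1 ∧
    (∀ z ∈ w, ∃ P : A[X], Nu w (z - aeval g P)) ∧ (∀ P : A[X], Nu w (aeval g P) ↔ P ∈ xI m) ∧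
    lg w = m.natDegree * lg A

def PrQ : Prop := ∀ (R : Type) [CommRing R] [IsNoetherianRing R] (x : Ideal R) [x.IsPrime] (k : ℕ)
  (z : Fin k → R) (a b : R), ((k + 2 : ℕ) : ℕ∞) ≤ x.height → (∀ i, z i ∈ x) → a ∈ x → b ∈ x →
  (∀ c ∈ x, ∃ u, u ∉ x ∧ u * c ∈ Ideal.span (Set.range z) ⊔ Ideal.span {a, b} ⊔ x ^ 2) →
  ∃ S : Ideal R, S.IsPrime ∧ (∀ c, c ∈ S ↔ ∃ u, u ∉ x ∧ u * c ∈ Ideal.span (Set.range z)) ∧
    ∀ c ∈ x, ∃ u, u ∉ x ∧ u * c ∈ S ⊔ Ideal.span {a, b}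

def HtP : Prop := ∀ (A : Type) [CommRing A] [IsLocalRing A] (k : ℕ) (x : Ideal A[X]), x.IsPrime →
  (k : WithBot ℕ∞) ≤ ringKrullDim A → (maximalIdeal A).map C < x → ((k + 1 : ℕ) : ℕ∞) ≤ x.height

def GcdQ : Prop := ∀ (κ : Type) [Field κ] [CharZero κ] (q q' : κ[X]) (β : κ), q ≠ 0 → β ≠ 0 →
  ∃ c : ℕ, IsCoprime q (q' + C (c * β))

def NakQ : Prop := ∀ (A κ : Type) [CommRing A] [Field κ] (e : A →+* κ) (J : Ideal A[X]) (g : κ),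
  Fr e.range → (∃ z ∈ J, e z.leadingCoeff ≠ 0) → X - C g ∈ J.map (mapRingHom e) →
  ∃ s t : A, e s ≠ 0 ∧ C s * X - C t ∈ J

def ZsQ : Prop := ∀ (A κ : Type) [CommRing A] [IsLocalRing A] [Field κ] (k : ℕ) (a₀ : A)
  (a : Fin k → A) (e : A →+* κ) w g m, Ideal.span (insert a₀ (Set.range a)) = maximalIdeal A →
  Bg e w g m → (∃ i, e (a i) ≠ 0) → ∃ b z, Zs a₀ a e g m b z

def PeQ : Prop := ∀ (A κ : Type) [CommRing A] [IsLocalRing A] [Field κ] [CharZero κ] (n : ℕ)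
  (a₀ : A) (a : Fin (n + 2) → A) (e : A →+* κ) g m b z (p : A), Fr e.range →
  (∃ i, e (a i) ≠ 0) → p ∈ maximalIdeal A → e p ≠ 0 → Zs a₀ a e g m b z →
  ∃ z', Zs a₀ a e g m b z' ∧ (∃ i, e (z' i).leadingCoeff ≠ 0) ∧
    X - C g ∈ (Ideal.span (Set.range z')).map (mapRingHom e)

def G2Q : Prop := ∀ (A κ : Type) [CommRing A] [IsLocalRing A] [IsNoetherianRing A] [Field κ]
  [CharZero κ] (n : ℕ) (a₀ : A) (a : Fin (n + 2) → A) (e : A →+* κ) w g m (p : A),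
  ((n + 3 : ℕ) : WithBot ℕ∞) ≤ ringKrullDim A →
  Ideal.span (insert a₀ (Set.range a)) = maximalIdeal A → (Ideal.span (Set.range a)).IsPrime →
  Fr e.range → Bg e w g m → (∃ i, e (a i) ≠ 0) → p ∈ maximalIdeal A → e p ≠ 0 →
  ∃ S, Gs a₀ a e g m S

/-- a point and a curve through it -/
def PtQ : Prop := ∀ (R L : Type) [CommRing R] [IsNoetherianRing R] [Field L] (ψ : R →+* L)
  (x l : Ideal R) (q q' : Ideal ψ.range) [q.IsPrime] [q'.IsPrime] (b m : R), Fr ψ.range →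
  (∀ c, ψ.rangeRestrict c ∈ q ↔ c ∈ x) → (∀ c, ψ.rangeRestrict c ∈ q' ↔ c ∈ l) → Finite (R ⧸ x) →
  l ≤ x → (∃ c ∈ l, ψ c ≠ 0) → b ∈ l → m ∈ x → m ∉ l →
  (∀ c ∈ x, ∃ u, u ∉ x ∧ u * c ∈ RingHom.ker ψ ⊔ Ideal.span {b, m}) →
  Rg (lc _ q) ∧ H1 (lc _ q) (lc _ q') ∧ oK (lc _ q') (lc _ q) (ψ m) = 1

def CvQ : Prop := ∀ (R L κ : Type) [CommRing R] [Field L] [Field κ] (ψ : R →+* L) (φ : R →+* κ)
  (x : Ideal R) (q : Ideal ψ.range) [q.IsPrime] (w : Subring κ),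
  (∀ c, ψ.rangeRestrict c ∈ q ↔ c ∈ x) → Rg (lc _ q) → (∀ c, ψ c = 0 → φ c = 0) →
  (∀ c, φ c = 0 → c ∈ x) → (∃ c, φ c = 0 ∧ ψ c ≠ 0) → (∃ c ∈ x, φ c ≠ 0) → Fr φ.range →
  (∀ z, z ∈ w ↔ ∃ P Q, Q ∉ x ∧ z * φ Q = φ P) → Cb ψ φ (lc _ q) w

def G3Q : Prop := ∀ (A κ κ₀ L : Type) [CommRing A] [IsLocalRing A] [IsNoetherianRing A]
  [Finite (ResidueField A)] [Field κ] [Field κ₀] [Field L] (k : ℕ) (a₀ : A) (a : Fin k → A)
  (e : A →+* κ) (e₀ : A →+* κ₀) (e' : A →+* L) w g m S (p : A), a₀ ∈ maximalIdeal A →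
  Bg e w g m → Gs a₀ a e g m S → Fr e.range → Fr e₀.range → Fr e'.range →
  (∀ b, e₀ b = 0 ↔ b ∈ Ideal.span (Set.range a)) → (∀ b, e' b = 0 ↔ C b ∈ S) →
  p ∈ maximalIdeal A → e p ≠ 0 → e₀ p ≠ 0 →
  ∃ τ D D' E, Gr e'.range τ (eval₂ e' τ m) m.natDegree D D' E ∧ Cb e' e D w ∧ Cb e' e₀ D' e₀.range

/-! ### rows about the scheme -/

namespace Sy

variable (S : Sy) {y z w : S.P}

/-- restriction to the closure of `z` -/
def ev (h : z ≤ y) (h' : w ≤ z) : S.R (h'.trans h) →+* S.κ z :=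
  (S.r h).comp (Subring.inclusion ((S.le _ h).2 h'))

theorem ev_range (h : z ≤ y) (h' : w ≤ z) : (S.ev h h').range = S.R h' := by
  rw [← S.im h h']
  ext t
  exact ⟨fun ⟨a, e⟩ => ⟨_, a.2, e⟩, fun ⟨a, ha, e⟩ => ⟨⟨a, ha⟩, e⟩⟩

theorem ev_mem (h : z ≤ y) (h' : w ≤ z) (a : S.R (h'.trans h)) : S.ev h h' a ∈ S.R h' :=
  S.ev_range h h' ▸ ⟨a, rfl⟩

theorem ev_ev {x : S.P} (h : z ≤ y) (h' : w ≤ z) (h'' : x ≤ w) (a : S.R ((h''.trans h').trans h)) :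
    S.ev h' h'' ⟨S.ev h (h''.trans h') a, S.ev_mem _ _ a⟩ = S.ev (h'.trans h) h'' a :=
  S.cmp h h' _ ((S.le _ (h'.trans h)).2 h'' a.2) _

theorem ev_eq_zero (h : z ≤ y) (h' : w ≤ z) (a : S.R (h'.trans h)) :
    S.ev h h' a = 0 ↔ Nu (S.R h) a :=
  ((S.rm h).ker _).trans (nu_iff (Subring.inclusion ((S.le _ h).2 h') a)).symm

instance (z : S.P) : IsRegularLocalRing (S.R (S.top z)) := S.reg z

open Classical in
/-- the functional attached to a function on the closed points -/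
noncomputable def dl (M : ℕ) (α : S.P → ℝ) (C : S.P) (u : S.κ C) : ℝ :=
  if S.Cv C then ∑ᶠ (x) (_ : S.Cl x ∧ (M : S.κ x) = 0), α x * S.ord C x u else 0

/-- a regular horizontal curve through `x` -/
structure Rf (x C : S.P) (h : x ≤ C) {n : ℕ} (a₀ : S.R (S.top x)) (a : Fin n → S.R (S.top x)) :
    Prop where
  dim : ringKrullDim (S.R (S.top x)) = (n + 1 : ℕ)
  gen : Ideal.span (insert a₀ (Set.range a)) = maximalIdeal _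
  hz : S.Hz C
  dvr : Dvr (S.R h)
  ker : ∀ b, S.ev (S.top C) h b = 0 ↔ b ∈ Ideal.span (Set.range a)

/-- the conclusion of the local law -/
def Lw (M : ℕ) (lam : ∀ C, S.κ C → ℝ) (x : S.P) : Prop :=
  ∃ α : ℝ, ∀ (C : S.P) (h : x ≤ C) w, S.Hz C → Br (S.R h) w → Bv M (lam C) w (α * lg w)

end Sy

/-- the shape of the rows about a closed point -/
def AllP (Φ : ∀ (S : Sy) (_ : ℕ) (_ : ∀ C, S.κ C → ℝ) (_ : S.P), Prop) : Prop :=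
  ∀ (S : Sy) (M : ℕ) lam x, S.Kb M lam → S.Ku M lam → S.Cl x → (M : S.κ x) = 0 → Φ S M lam x

def CxQ : Prop := ∀ (S : Sy) (M : ℕ) lam y, S.Kb M lam → S.Ku M lam → S.Sf y →
  Cx (S.η y) M (S.VV M y) (S.lamY lam y)

/-- from the surface to the curve -/
def LtQ : Prop := ∀ (S : Sy) (M : ℕ) (lam : ∀ C, S.κ C → ℝ) (y C x : S.P) (h : C ≤ y) (h' : x ≤ C)
  (D : Subring (S.κ y)) (w : Subring (S.κ C)) (α : ℝ), S.Sf y → S.Hz C → Rg D →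
  Cb (S.R (h'.trans h)).subtype (S.ev h h') D w → Lv M (S.lamY lam y) D α →
  ∀ u, u ≠ 0 → (∀ w' : Subring (S.κ C), Vr w' → Nu w' M → ¬Dom w w' → Ut w' u) →
    lam C u = α * ordR w u

def RfQ : Prop := ∀ (S : Sy) (x : S.P), S.Cl x → ∃ (C : S.P) (h : x ≤ C) (n : ℕ) (a₀ : _)
  (a : Fin n → _), S.Rf x C h a₀ a

def Lo1 : Prop := AllP fun S M lam x => ∀ (C : S.P) (h : x ≤ C) a₀ (a : Fin 0 → _),
  S.Rf x C h a₀ a → S.Lw M lam x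

def Lo2 : Prop := AllP fun S M lam x => ∀ (C : S.P) (h : x ≤ C) a₀ (a : Fin 1 → _),
  S.Rf x C h a₀ a → S.Lw M lam x

/-- a branch and the reference branch -/
def PairQ : Prop := AllP fun S M lam x => ∀ (C₀ : S.P) (h₀ : x ≤ C₀) (n : ℕ) a₀
  (a : Fin (n + 2) → _) (C : S.P) (h : x ≤ C) w, S.Rf x C₀ h₀ a₀ a → S.Hz C → C ≠ C₀ →
  Br (S.R h) w → ∃ (e : ℕ) (α : ℝ), Bv M (lam C) w (e * α) ∧ Bv M (lam C₀) (S.R h₀) α ∧
    lg w = e * lg (S.R h₀)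

/-- orders on a curve -/
def OrQ : Prop := ∀ (S : Sy) (C : S.P), S.Cv C →
  (∀ x u u', u ≠ 0 → u' ≠ 0 → S.ord C x (u * u') = S.ord C x u + S.ord C x u') ∧
  ∀ u, {x | S.Cl x ∧ S.ord C x u ≠ 0}.Finite

def SwQ : Prop := ∀ (S : Sy) (M : ℕ) (α : S.P → ℝ), (∀ C, Adr (S.dl M α C)) ∧
  (∀ C u, ¬S.Hz C → ¬S.Vm M C → S.dl M α C u = 0) ∧
  ∀ φ, S.Cy φ → ∑ᶠ C, S.dl M α C (φ C) = 0

def HzQ : Prop := ∀ (S : Sy) (M : ℕ) lam, S.Kb M lam → S.Ku M lam →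
  ∃ α, ∀ C u, S.Hz C → u ≠ 0 → lam C u = S.dl M α C u

/-- a surface through a vertical curve -/
def SurQ : Prop := ∀ (S : Sy) (M : ℕ) (V : S.P), M ≠ 0 → S.Vm M V → ∃ y, S.Sf y ∧ V ≤ y

def VtQ : Prop := ∀ (S : Sy) (M : ℕ) lam, S.Kb M lam → (∀ C u, S.Hz C → u ≠ 0 → lam C u = 0) →
  ∀ C u, u ≠ 0 → lam C u = 0

def OfFl : Prop := NfQ → FlQ
def OfSr2 : Prop := MdS → FlQ → BdQ → Sr2
def OfFex : Prop := MdS → FmS → SfQ → FexV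
def OfSr : Prop := MdS → SfQ → FlQ → BdQ → Sr2 → FexV → SrQ
def OfLb : Prop := MdS → FmS → FlQ → BdQ → SrQ → LbQ
def OfTw1 : Prop := MdS → FmS → Fm0S → SfQ → Tw1
def OfTw2 : Prop := MdS → FmS → SfQ → Tw2
def OfTw : Prop := MdS → FmS → SfQ → FlQ → Sr2 → Tw1 → Tw2 → TwQ
def OfSl : Prop := FlQ → BdQ → LbQ → TwQ → Sl1 ∧ Sl2
def OfBl : Prop := MdS → BlQ
def OfGrF : Prop := MdS → FmS → BlQ → GrF
def OfGr : Prop := MdS → BlQ → GrF → Sl2 → GrQ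
def OfFf : Prop := MdS → R.DpS → R.UpS → R.LowS → FfQ
def OfG1a : Prop := BrQ → G1a
def OfG1 : Prop := BrQ → G1a → G1Q
def OfPe : Prop := GcdQ → PeQ
def OfG2 : Prop := PrQ → HtP → NakQ → ZsQ → PeQ → G2Q
def OfG3 : Prop := PtQ → CvQ → G3Q
def OfCx : Prop := HtQ → KsQ → CxQ
def OfLt : Prop := MdS → HtQ → TrQ → LtQ
def OfRf : Prop := R.RefS → MdS → HtQ → FfQ → RfQ
def OfLo1 : Prop := MdS → HtQ → NfQ → CuQ → BrQ → Lo1
def OfLo2 : Prop := MdS → SfQ → HtQ → FfQ → CuQ → BrQ → CxQ → Sl1 → LtQ → Lo2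
def OfPair : Prop := MdS → HtQ → FfQ → CuQ → BrQ → BlQ → CxQ → GrQ → LtQ → G1Q → G2Q → G3Q → PairQ
def OfLoc : Prop := HtQ → NfQ → CuQ → BrQ → RfQ → Lo1 → Lo2 → PairQ → LocQ
def OfOr : Prop := MdS → HtQ → OrQ
def OfSw : Prop := HtQ → OrQ → SwQ
def OfHz : Prop := MdS → HtQ → NfQ → CuQ → BrQ → LocQ → HzQ
def OfVt : Prop := TrQ → KsQ → SurQ → VtQ
def OfMid : Prop := TrQ → DdQ → SwQ → HzQ → VtQ → MidQ

end Pool.Agent.MP_f3836a_nt.GQ
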