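import Pool.Agent.MP_f3836a_nt.GQ.Defs

/-! Part GQ: models, normalisation, orders of norms, transport. -/

set_option autoImplicit false

namespace Pool.Agent.MP_f3836a_nt.GQ

open Polynomial IsLocalRing PK VE.W VE.Z GP IntermediateField

section
variable {L ι : Type} [Field L]

/-- elementary facts about forms -/
structure Fm0 (ξ : ι → L) : Prop where
  one : ∀ i, Fm ξ 1 (ξ i)
  add : ∀ d G G', Fm ξ d G → Fm ξ d G' → Fm ξ d (G + G')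
  mul : ∀ d d' G G', Fm ξ d G → Fm ξ d' G' → Fm ξ (d + d') (G * G')
  pow : ∀ d G n, Fm ξ d G → Fm ξ (d * n) (G ^ n)
  ev : ∀ i b, ξ i ≠ 0 → b ∈ Ch ξ i → ∀ᶠ d in Filter.atTop, Fm ξ d (b * ξ i ^ d)
  mono : ∀ d G S S', Uf ξ d G S → S ≤ S' → Uf ξ d G S'
  down : ∀ d G (S S' : Subring L), Fm ξ d G → Cht ξ S → Dom S S' → Uf ξ d G S' → Uf ξ d G S
  ne : ∀ d G S, Uf ξ d G S → G ≠ 0
  div : ∀ d G G' S, Fm ξ d G' → Uf ξ d G S → G' / G ∈ S ∧ (Ut S (G' / G) ↔ Uf ξ d G' S)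
  umul : ∀ d d' G G' S, Uf ξ d G S → Uf ξ d' G' S → Uf ξ (d + d') (G * G') S
  upow : ∀ d G n S, Uf ξ d G S → Uf ξ (d * n) (G ^ n) S
  uadd : ∀ d G G' (S : Subring L), IsLocalRing S → Fm ξ d G' → Uf ξ d G S → ¬Uf ξ d G' S →
    Uf ξ d (G + G') S
  nadd : ∀ d G G' (S : Subring L), IsLocalRing S → Cht ξ S → Fm ξ d G → Fm ξ d G' →
    ¬Uf ξ d G S → ¬Uf ξ d G' S → ¬Uf ξ d (G + G') S
  nmul : ∀ d d' G G' (S : Subring L), Fm ξ d G → Fm ξ d' G' → ¬Uf ξ d G S →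
    ¬Uf ξ (d + d') (G * G') S

/-- dimension -/
structure Sf1 (ξ : ι → L) : Prop where
  tri : ∀ S, Pt ξ S → Alg S ∨ Dm1 S
  na : ∀ S, Pt ξ S → Alg S → ¬Dm1 S
  no3 : ∀ D : Subring L, Pt ξ D →
    ∀ q q' : Ideal D, q.IsPrime → q'.IsPrime → q ≠ ⊥ → q < q' → q'.IsMaximal
  h1 : ∀ D S, Pt ξ D → Alg D → (H1 D S ↔ Pt ξ S ∧ D ≤ S ∧ ¬Alg S ∧ S ≠ ⊤)
  vex : ∀ (M : ℕ) D, M ≠ 0 → Pc ξ M D → ∃ V, Pv ξ M V ∧ D ≤ V

/-- the complement of the zeros of `G` -/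
def Af (ξ : ι → L) (d : ℕ) (G : L) : Subring L :=
  Subring.closure {z | ∃ F, Fm ξ d F ∧ z = F / G}

/-- contains the inverses of the numbers prime to `p` -/
def Zp (p : ℕ) (W : Subring L) : Prop := ∀ n : ℕ, n.Coprime p → (n : L)⁻¹ ∈ W

/-- a closed point of a surface -/
structure Lc2 (D : Subring L) : Prop where
  loc : IsLocalRing D
  noeth : IsNoetherianRing D
  fr : Fr D
  dim : ∀ q q' : Ideal D, q.IsPrime → q'.IsPrime → q ≠ ⊥ → q < q' → q'.IsMaximal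
  fin : ∀ [IsLocalRing D], Finite (ResidueField D)
  nrm : Fnt D (nrm D)

/-- a closed point of a curve -/
structure Lc1 (A : Subring L) : Prop where
  loc : IsLocalRing A
  noeth : IsNoetherianRing A
  fr : Fr A
  dim : Dm1 A
  ne : A ≠ ⊤
  fin : ∀ [IsLocalRing A], Finite (ResidueField A)

/-- the normalisation of a point of a surface -/
structure NrA (D : Subring L) : Prop where
  dim : Dim2 (nrm D)
  fin : {S | Mx (nrm D) S}.Finite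
  mx : ∀ S, Mx (nrm D) S → Loc2 S ∧ Dom D S
  br : ∀ S W, H1 D S → (Br S W ↔ H1 (nrm D) W ∧ S ≤ W)
  h1 : ∀ W, H1 (nrm D) W → Dvr W ∧ ∃ S, H1 D S ∧ Br S W
  pt : ∀ S W, Mx (nrm D) S → (H1 S W ↔ H1 (nrm D) W ∧ S ≤ W)
  fb : ∀ S, H1 D S → {W | Br S W}.Finite ∧ ∃ W, Br S W

/-- the curves on the normalisation -/
def NrB (D : Subring L) : Prop := ∀ (S W : Subring L) [IsLocalRing W] (κ : Type) [Field κ]
  (r : S →+* κ) (ν : κ →+* ResidueField W), H1 D S → Rm S r → Br S W → Nv r W ν →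
  Lc1 (im S r D) ∧ lg (im S r D) = lg D ∧ Fr (im W (residue W) (nrm D)) ∧
  Fnt ((im S r D).map ν) (im W (residue W) (nrm D)) ∧ 0 < frO ν ∧
  ∀ t, ∑ᶠ (T) (_ : Mx (im W (residue W) (nrm D)) T), lg T * ordR T (resR W (residue W) t) =
    ∑ᶠ (T) (_ : Mx (nrm D) T), lg T * oK W T t

/-- the number of residue classes modulo `a` -/
noncomputable def cd (A : Subring L) (a : A) : ℕ := Nat.card (A ⧸ Ideal.span {a})

end

def SecR : Prop := ∀ (B : Type) [CommRing B] [Algebra.FiniteType ℤ B] (q : Ideal B), q.IsPrime →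
  ¬q.IsMaximal → ∃ m m' : Ideal B, m.IsMaximal ∧ m'.IsMaximal ∧ q ≤ m ∧ q ≤ m' ∧ m ≠ m'

def SpcR : Prop := ∀ (L ι : Type) [Field L] [CharZero L] [Fintype ι] (ξ : ι → L) (S : Subring L)
  (p : ℕ), IsLocalRing S → Ho S → p.Prime → Cht ξ S →
  ∃ S₀ : Subring L, IsLocalRing S₀ ∧ S₀ ≤ S ∧ Cht ξ S₀ ∧ Nu S₀ p

def Fm0S : Prop := ∀ (L ι : Type) [Field L] (ξ : ι → L), Fm0 ξ

def CrtQ : Prop := AllM fun L _ _ ξ =>
  ∀ T : Finset (Subring L), (∀ S ∈ T, Pt ξ S) → Anti T → Crt T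

def SepQ : Prop := AllM fun L _ _ ξ => ∀ T T' : Set (Subring L), T.Finite → T'.Finite →
  (∀ S ∈ T, Pt ξ S) → (∀ S ∈ T', Pt ξ S) → (∀ S ∈ T, ∀ S' ∈ T', ¬S ≤ S') →
  ∀ᶠ d in Filter.atTop, ∃ G, Fm ξ d G ∧ (∀ S ∈ T, Uf ξ d G S) ∧ ∀ S ∈ T', ¬Uf ξ d G S

def Sf1S : Prop := AllF fun _ _ _ ξ => Sf1 ξ

theorem fmS_of (h : Fm0S) (hc : CrtQ) (hs : SepQ) : FmS := fun L ι _ _ ξ m =>
  have k := h L ι ξ
  ⟨k.one, k.add, k.mul, k.pow, k.ev, k.mono, k.down, k.ne, k.div, k.umul, k.upow, k.uadd,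
    hc L ι ξ m, hs L ι ξ m⟩

/-- a point where `G` does not vanish -/
def AffQ : Prop := AllM fun _ _ _ ξ => ∀ d G S, 0 < d → Fm ξ d G → Pt ξ S → Uf ξ d G S →
  ∃ (q : Ideal (Af ξ d G)) (_ : q.IsPrime), S = lc _ q

/-- finite normalisation from a finite normal base -/
def FinC : Prop := ∀ (L : Type) [Field L] (A B D : Subring L) (q : Ideal B) [q.IsPrime] (p : ℕ),
  D = lc B q → Fnt A (nrm A) → A ≤ D → p.Prime → Nu D p →
  (∀ W, Vr W → A ≤ W → Zp p W → B ≤ W) → Fnt D (nrm D)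

def NrZ : Prop := ∀ (L : Type) [Field L] [CharZero L],
  (NumberField L → Fnt (⊥ : Subring L) (nrm ⊥)) ∧
  ∀ t : L, Transcendental ℤ t → FiniteDimensional ℚ⟮t⟯ L →
    Fnt (Subring.closure {t}) (nrm (Subring.closure {t}))

/-- a pencil -/
def PenQ : Prop := AllF fun _ _ _ ξ => ∀ D (p : ℕ), Pt ξ D → p.Prime → Nu D p →
  ∃ d G G', 0 < d ∧ Fm ξ d G ∧ Fm ξ d G' ∧ Uf ξ d G D ∧
    ∀ W, Vr W → G' / G ∈ W → Zp p W → Uf ξ d G W

def FinN2 : Prop := AllF fun _ _ _ ξ => ∀ D, Pt ξ D → Alg D → Lc2 D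

def FinN1 : Prop := ∀ (L ι : Type) [Field L] [NumberField L] [Fintype ι] (ξ : ι → L), Md ξ →
  ∀ D, Pt ξ D → Alg D → Cu1 D

def NrS : Prop := ∀ (L : Type) [Field L] (D : Subring L), Lc2 D → NrA D

def NrT : Prop := ∀ (L : Type) [Field L] (D : Subring L), Lc2 D → NrB D

/-- the key lemma at a point which is regular in codimension one -/
def KeyL : Prop := AllK fun _ _ D _ O _ _ r => ∀ f g, f ≠ 0 → g ≠ 0 → Kf D O r f g = 0

def KeyQ : Prop := ∀ (L : Type) [Field L] (D : Subring L), Loc2 D → ∀ f g, f ≠ 0 → g ≠ 0 →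
  {O | H1 D O ∧ ordR O f ≠ 0}.Finite ∧ ∑ᶠ (O) (_ : H1 D O), oK O D (tameE O f g) = 0

/-- orders and cardinalities -/
def CardL : Prop := ∀ (L : Type) [Field L] (A : Subring L) (a : A), Lc1 A → a ≠ 0 →
  0 < lg A ∧ cd A a ≠ 0 ∧ Real.log (cd A a) = lg A * ordR A (a : L)

def CardP : Prop := ∀ (L : Type) [Field L] (A : Subring L) (a : A), cd A a ≠ 0 →
  {S | Mx A S}.Finite →
  Real.log (cd A a) = ∑ᶠ (m : Ideal A) (h : m.IsMaximal), Real.log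
    (cd (@lc L _ A m h.isPrime) (Subring.inclusion (@le_lc L _ A m h.isPrime) a))

def CardN : Prop := ∀ (κ κ' : Type) [Field κ] [Field κ'] (ν : κ →+* κ') (A : Subring κ)
  (A' : Subring κ') (s : A'), Fr A → Fr A' → Fnt (A.map ν) A' → (∀ a : A, a ≠ 0 → cd A a ≠ 0) →
  s ≠ 0 → (∀ n, (mpO ν (s : κ')).coeff n ∈ A) →
  ∃ a : A, (a : κ) = nrmO ν (s : κ') ∧ cd A' s = cd A a

/-- the maximal ideals of a finite extension -/
def MxQ : Prop := ∀ (κ κ' : Type) [Field κ] [Field κ'] (ν : κ →+* κ') (A : Subring κ)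
  (A' : Subring κ'), Lc1 A → Fr A' → Fnt (A.map ν) A' →
  {S | Mx A' S}.Finite ∧ (∀ S, Mx A' S → Lc1 S ∧ Dom (A.map ν) S) ∧ 0 < frO ν ∧
  ∀ t : κ', ∃ a : A, a ≠ 0 ∧ ν a * t ∈ A' ∧ ∀ n, (mpO ν (ν a * t)).coeff n ∈ A

/-- the order of a norm -/
def OrdQ : Prop := ∀ (κ κ' : Type) [Field κ] [Field κ'] (ν : κ →+* κ') (A : Subring κ)
  (A' : Subring κ'), Lc1 A → Fr A' → Fnt (A.map ν) A' → ∀ t, t ≠ 0 →
  lg A * ordR A (nrmO ν t) = ∑ᶠ (S) (_ : Mx A' S), lg S * ordR S t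

/-- one curve through a point -/
def Dd1 : Prop := ∀ (L : Type) [Field L] (D S W : Subring L) (κ : Type) [Field κ] (r : S →+* κ)
  (t : L), Lc2 D → H1 D S → Rm S r → Br S W → Ut W t →
  lg D * ordR (im S r D) (nmW r W t) = ∑ᶠ (T) (_ : Mx (nrm D) T), lg T * oK W T t

/-- all curves through a point -/
def Dd2 : Prop := ∀ (L : Type) [Field L] (D : Subring L) (f g : L), Lc2 D → f ≠ 0 → g ≠ 0 →
  ∑ᶠ (W) (_ : H1 (nrm D) W), ∑ᶠ (T) (_ : Mx (nrm D) T), lg T * oK W T (tameE W f g) = 0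

/-- the valuation rings with centre a curve -/
structure TrB (S : Sy) (y : S.P) : Prop where
  dvr : ∀ O, S.Cw y O → Dvr O
  pl : ∀ O, Pl O ↔ ∃ (C : S.P) (h : C ≤ y), S.Hz C ∧ Br (S.R h) O
  ex : ∀ (C : S.P) (h : C ≤ y), S.Cv C → {O | Br (S.R h) O}.Finite ∧ ∃ O, Br (S.R h) O
  fin : ∀ f, {O | S.Cw y O ∧ ordR O f ≠ 0}.Finite
  nm : ∀ (C : S.P) (h : C ≤ y) O, S.Cv C → Br (S.R h) O →
    (∀ u, Ut O u → nmW (S.r h) O u ≠ 0) ∧
    (∀ u u', Ut O u → Ut O u' → nmW (S.r h) O (u * u') = nmW (S.r h) O u * nmW (S.r h) O u') ∧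
    (∀ u u', u ∈ O → u' ∈ O → Nu O (u - u') → nmW (S.r h) O u = nmW (S.r h) O u') ∧
    ∃ n : ℕ, 0 < n ∧ ∀ a : S.R h, nmW (S.r h) O a = S.r h a ^ n

def TrQ0 : Prop := ∀ (S : Sy) (y : S.P), S.Sf y → TrB S y

def OfMd : Prop := SecR → SpcR → MdS
def OfCrt : Prop := MdS → CrtQ
def OfSep : Prop := MdS → Fm0S → SepQ
def OfSf1 : Prop := MdS → Sf1S
def OfSf : Prop := MdS → FmS → Sf1S → SfQ
def OfAff : Prop := MdS → FmS → AffQ
def OfPen : Prop := MdS → FmS → SfQ → PenQ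
def OfFinN2 : Prop := MdS → FmS → SfQ → AffQ → FinC → NrZ → PenQ → FinN2
def OfFinN1 : Prop := MdS → FmS → AffQ → FinC → NrZ → NfQ → FinN1
def OfNrT : Prop := NrS → MxQ → NrT
def OfKeyQ : Prop := KeyL → KeyQ
def OfOrd : Prop := CardL → CardP → CardN → MxQ → OrdQ
def OfBr : Prop := CardL → MxQ → OrdQ → BrQ
def OfCu : Prop := HtQ → FinN1 → CuQ
def OfDd1 : Prop := NrT → OrdQ → Dd1
def OfDd2 : Prop := NrS → KeyQ → Dd2
def OfTr0 : Prop := MdS → SfQ → HtQ → FinN2 → NrS → NrT → TrQ0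
def OfTr : Prop := HtQ → TrQ0 → TrQ
def OfKs : Prop := MdS → SfQ → HtQ → TrQ → KsQ
def OfDd : Prop := MdS → SfQ → HtQ → FinN2 → NrS → NrT → TrQ → Dd1 → Dd2 → DdQ

end Pool.Agent.MP_f3836a_nt.GQ
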