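import Pool.Agent.MP_f3836a_nt.GQ.Defs
import Pool.Agent.MP_f3836a_nt.GQ.SpecH

/-! Part GQ: heights, constants and the end of the proof for a system of points. -/

set_option autoImplicit false

namespace Pool.Agent.MP_f3836a_nt.GQ

open Polynomial IsLocalRing PK VE.W VE.Z GP R Order

namespace Sy

variable (S : Sy)

/-- elementary facts -/
structure H1A : Prop where
  cz : ∀ {y z : S.P}, z ≤ y → CharZero (S.κ z) → CharZero (S.κ y)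
  nu : ∀ {y z : S.P} (h : z ≤ y) (n : ℕ), Nu (S.R h) n ↔ (n : S.κ z) = 0
  ho : ∀ {y z : S.P} (h : z ≤ y), CharZero (S.κ y) → (Ho (S.R h) ↔ CharZero (S.κ z))
  cl : ∀ {y z : S.P} (h : z ≤ y), S.Cl z ↔ Alg (S.R h)
  fin : ∀ x, S.Cl x ↔ Finite (S.κ x)
  lg : ∀ {y x : S.P} (h : x ≤ y), lg (S.R h) = Real.log (Nat.card (S.κ x))
  cv : ∀ {y z : S.P} (h : z ≤ y), S.Sf y → (S.Cv z ↔ ¬Alg (S.R h) ∧ S.R h ≠ ⊤)
  dm : ∀ {C x : S.P} (h : x ≤ C), S.Cv C → Dm1 (S.R h) ∧ (x = C ∨ S.Cl x)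
  pr : ∀ {y z : S.P} (h : z ≤ y) (q : Ideal (S.R h)) [q.IsPrime],
    ∃ (w : S.P) (_ : z ≤ w) (h₂ : w ≤ y), S.R h₂ = lc _ q
  uniq : ∀ {y z z' : S.P} (h : z ≤ y) (h' : z' ≤ y) (W : Subring (S.κ y)), Dom (S.R h) W →
    Dom (S.R h') W → z = z'
  ex : ∀ z, ∃ x, x ≤ z ∧ S.Cl x

/-- heights and dimensions -/
structure HdA : Prop where
  ge : ∀ {y z : S.P} (h : z ≤ y) (n : ℕ), height y ≤ n → ringKrullDim (S.R h) ≤ n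
  le : ∀ (y : S.P) (n : ℕ), (∀ (z : S.P) (h : z ≤ y), ringKrullDim (S.R h) ≤ n) → height y ≤ n
  dp : ∀ {y z : S.P} (h : z ≤ y), ∃ (B : Subring (S.κ y)) (q : Ideal B) (_ : q.IsPrime),
    Algebra.FiniteType ℤ B ∧ Fr B ∧ ringKrullDim (S.R h) = q.height ∧
      (∀ n : ℕ, (n : B) ∈ q ↔ (n : S.κ z) = 0) ∧ ∀ k, Dp (B ⧸ q) k ↔ Dp (S.κ z) k

/-- heights and transcendence degrees -/
structure HuA : Prop where
  up : ∀ (y : S.P) (k : ℕ), Dp (S.κ y) k → height y ≤ (k + 1 : ℕ)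
  up' : ∀ (y : S.P) (k : ℕ), ¬CharZero (S.κ y) → Dp (S.κ y) k → height y ≤ k
  low : ∀ (y : S.P) (k : ℕ), height y ≤ k → Dp (S.κ y) k
  low' : ∀ (y : S.P) (k : ℕ), CharZero (S.κ y) → height y ≤ (k + 1 : ℕ) → Dp (S.κ y) k
  rel : ∀ {y z : S.P} (h : z ≤ y) (a j : ℕ), CharZero (S.κ y) → ¬CharZero (S.κ z) →
    ringKrullDim (S.R h) ≤ (a + 1 : ℕ) → Dp (S.κ z) j → Dp (S.κ y) (a + j)
  hz : ∀ C, CharZero (S.κ C) → (S.Cv C ↔ Al (S.κ C))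
  nf : ∀ C, S.Hz C → NumberField (S.κ C)
  sf : ∀ y, CharZero (S.κ y) → (height y = 2 ↔ FF (S.κ y))

/-- a global unit -/
def Gu (t : S.κ S.g) : Prop := ∀ z, Ut (S.R (S.top z)) t

/-- its value at a point -/
noncomputable def vl (z : S.P) (t : S.κ S.g) : S.κ z := resR (S.R (S.top z)) (S.r (S.top z)) t

open Classical in
/-- the family which is `u` at `C₀` and one elsewhere -/
noncomputable def sg (C₀ : S.P) (u : S.κ C₀) : ∀ C, S.κ C := Pi.mulSingle C₀ u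

/-- symbols -/
abbrev Sb : Type := Σ y : S.P, S.κ y × S.κ y

/-- the boundary of a product of symbols -/
noncomputable def bl (l : List S.Sb) (C : S.P) : S.κ C :=
  (l.map fun a => S.bc a.1 a.2.1 a.2.2 C).prod

/-- cycles form a group -/
structure CyA : Prop where
  one : S.Cy fun _ => 1
  mul : ∀ φ ψ, S.Cy φ → S.Cy ψ → S.Cy fun C => φ C * ψ C
  inv : ∀ φ, S.Cy φ → S.Cy fun C => (φ C)⁻¹
  pow : ∀ φ (n : ℕ), S.Cy φ → S.Cy fun C => φ C ^ n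
  sg : ∀ C₀ t, S.Cv C₀ → S.Gu t → S.Cy (S.sg C₀ (S.vl C₀ t))

/-- norms to the constants -/
structure NmA {k : Type} [Field k] (c : ∀ z, CharZero (S.κ z) → (k →+* S.κ z)) : Prop where
  one : ∀ C, S.nm c C 1 = 1
  mul : ∀ C u u', S.nm c C (u * u') = S.nm c C u * S.nm c C u'
  ne : ∀ C u, u ≠ 0 → S.nm c C u ≠ 0
  off : ∀ C u, ¬S.Hz C → S.nm c C u = 1
  con : ∀ C (h : S.Hz C), ∃ d : ℕ, 0 < d ∧ ∀ a, S.nm c C (c C h.2 a) = a ^ d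
  um : ∀ M C u, S.Hz C → u ≠ 0 → Um M u → Um M (S.nm c C u)
  vl : ∀ C (h : CharZero (S.κ C)) a, S.vl C (c S.g S.cz a) = c C h a

end Sy

def H1Q : Prop := ∀ S : Sy, S.H1A
def HdQ : Prop := ∀ S : Sy, S.HdA
def HuQ : Prop := ∀ S : Sy, S.HuA
def CyQ : Prop := ∀ S : Sy, S.CyA
def NmQ : Prop := AllC fun S _ _ c => S.NmA c

/-- global functions -/
def GlQ : Prop := ∀ (S : Sy) (t : S.κ S.g), IsIntegral ℤ t ↔ ∀ z, t ∈ S.R (S.top z)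

/-- a horizontal surface through a vertical curve -/
def SurY : Prop := ∀ (S : Sy) (M : ℕ) (V : S.P), M ≠ 0 → S.Vm M V → ∃ y, S.Sf y ∧ V ≤ y

/-- functionals kill cycles -/
def TopQ : Prop := AllC fun S k _ c => ∀ (C₀ : S.P) (h₀ : S.Hz C₀) φ (M₀ : ℕ), S.Cy φ → M₀ ≠ 0 →
  ∃ M : ℕ, M ≠ 0 ∧ M₀ ∣ M ∧ ∀ lam, S.Kb M lam →
    (∀ a : k, a ≠ 0 → IsIntegral ℤ a → IsIntegral ℤ a⁻¹ → lam C₀ (c C₀ h₀.2 a) = 0) →
    ∑ᶠ C, lam C (φ C) = 0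

/-- reduction to vertical cycles over good primes -/
def MainQ : Prop := ∀ (S : Sy) (C₀ : S.P) φ (M₀ : ℕ), S.Hz C₀ → S.Cy φ → M₀ ≠ 0 →
  ∃ n : ℕ, 0 < n ∧ ∃ t, S.Gu t ∧ ∃ l : List S.Sb, (∀ a ∈ l, S.Sf a.1 ∧ a.2.1 ≠ 0 ∧ a.2.2 ≠ 0) ∧
    ∃ ψ, S.Cy ψ ∧ (∀ C, ψ C ≠ 1 → ∃ p : ℕ, p.Prime ∧ ¬p ∣ M₀ ∧ (p : S.κ C) = 0) ∧
      ∀ C, φ C ^ n = S.sg C₀ (S.vl C₀ t) C * S.bl l C * ψ C

/-- injectivity -/
def InjQ : Prop := ∀ (S : Sy) (C₀ : S.P) t (l : List S.Sb), S.Hz C₀ → S.Gu t →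
  (∀ a ∈ l, height a.1 = 2 ∧ a.2.1 ≠ 0 ∧ a.2.2 ≠ 0) →
  (∀ C, S.Cv C → S.sg C₀ (S.vl C₀ t) C = S.bl l C) → ∃ n : ℕ, 0 < n ∧ t ^ n = 1

/-- coordinates at all points of a projective scheme -/
def DicS : Prop := ∀ (X : AlgebraicGeometry.Scheme.{0}) (N : ℕ) P fr, PrA X N P fr →
  ∀ y : X, ∃ η : Fin (N + 1) → X.residueField y, Md η ∧
    ∀ S, Pt η S ↔ ∃ (z : X) (h : y ⤳ z), (PT.ev h).range = S

/-- the two forms of the boundary -/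
def BdS : Prop := ∀ (A L : Type) [CommRing A] [IsLocalRing A] [Field L] (e : A →+* L)
  (r : e.range →+* ResidueField A), (∀ a, r ⟨e a, a, rfl⟩ = residue A a) → ∀ f g : L,
  PT.bdry e f g = ∏ᶠ (W) (_ : Br e.range W), nmW r W (tameE W f g)

def OfH1 : Prop := MdS → H1Q
def OfHdQ : Prop := MdS → DpS → H1Q → HdQ
def OfHu : Prop := DpS → R.UpS → LowS → H1Q → HdQ → HuQ
def OfGl : Prop := MdS → GlQ
def OfCs : Prop := H1Q → HuQ → GlQ → CsQ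
def OfSur : Prop := RefS → H1Q → HuQ → SurY
def OfCy : Prop := MdS → H1Q → CyQ
def OfNmQ : Prop := HuQ → NmQ
def OfWe : Prop := HtQ → TrQ → NmQ → WeQ
def OfTopQ : Prop := TrQ → NmQ → WeQ → MuQ → MidQ → TopQ
def OfMainQ : Prop := TrQ → DdQ → CsQ → GlQ → NmQ → CyQ → TopQ → MainQ
def OfInjQ : Prop := HtQ → TrQ → CsQ → GlQ → NmQ → WeQ → InjQ

theorem htQ_of (a : H1Q) (b : HuQ) : HtQ := fun S =>
  ⟨(a S).cz, (a S).nu, (a S).ho, (a S).cl, (a S).fin, (a S).lg, (b S).hz, (b S).nf, (b S).sf,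
    (a S).cv, (a S).dm, (a S).pr, (a S).uniq⟩

end Pool.Agent.MP_f3836a_nt.GQ
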