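import Pool.Agent.MP_f3836a_nt.GQ.SpecY

/-! Elementary facts about a system of points. -/

set_option autoImplicit false

namespace Pool.Agent.MP_f3836a_nt.GQ

open Polynomial IsLocalRing PK VE.W VE.Z GP R Order

namespace YH1

variable {S : Sy} {y z : S.P}

theorem pt (h : z ≤ y) : Pt (S.η y) (S.R h) := (S.pt y _).2 ⟨z, h, rfl⟩

theorem nu (h : z ≤ y) (n : ℕ) : Nu (S.R h) n ↔ (n : S.κ z) = 0 := by
  have e := (nu_iff (n : S.R h)).trans ((S.rm h).ker n).symm
  rwa [map_natCast] at e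

theorem tp (h : z ≤ y) : S.R h = ⊤ ↔ y ≤ z := by
  rw [← S.le (le_refl y) h, (S.self (le_refl y)).1, top_le_iff]

theorem card (h : z ≤ y) [IsLocalRing (S.R h)] : Nonempty (ResidueField (S.R h) ≃ S.κ z) := by
  have e : maximalIdeal (S.R h) = RingHom.ker (S.r h) :=
    Ideal.ext fun a => ((S.rm h).ker a).symm
  exact ⟨((Ideal.quotEquivOfEq e).trans
    (RingHom.quotientKerEquivOfSurjective (S.rm h).surj)).toEquiv⟩

theorem cl (A : MdA (S.η y)) (h : z ≤ y) : S.Cl z ↔ Alg (S.R h) := by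
  refine height_eq_zero.trans ⟨fun m => ?_, fun a w hw => ?_⟩
  · obtain ⟨D, hD, a, e⟩ := A.up _ (pt h)
    obtain ⟨w, h', rfl⟩ := (S.pt y D).1 hD
    rwa [le_antisymm ((S.le h h').2 (m ((S.le h' h).1 e))) e]
  · exact (S.le h (hw.trans h)).1
      (A.min _ _ (pt h) (pt (hw.trans h)) a ((S.le (hw.trans h) h).2 hw)).ge

theorem pr (A : MdA (S.η y)) (h : z ≤ y) (q : Ideal (S.R h)) [q.IsPrime] :
    ∃ (w : S.P) (_ : z ≤ w) (h₂ : w ≤ y), S.R h₂ = lc _ q := by
  obtain ⟨w, h₂, e⟩ := (S.pt y _).1 (A.dn _ q (pt h))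
  exact ⟨w, (S.le h h₂).1 (e ▸ le_lc _ q), h₂, e⟩

theorem z0 (hy : S.Cv y) (h : z ≤ y) (n : ¬y ≤ z) : S.Cl z := by
  have e := height_add_one_le (lt_of_le_not_ge h n)
  rw [show height y = 1 from hy] at e
  exact Order.lt_one_iff.1 ((ENat.add_one_le_iff fun t => by simp [t] at e).1 e)

end YH1

open YH1 in
theorem yH1 : OfH1 := by
  intro md S
  have A : ∀ y, MdA (S.η y) := fun y => md (S.κ y) (Fin S.N) (S.η y) (S.md y)
  refine ⟨fun h _ => charZero_of_inj_zero fun n e => ?_, nu, fun h _ => ⟨fun o => ?_, fun _ n e => ?_⟩,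
    fun h => cl (A _) h, fun x => ⟨fun c => ?_, fun f => ?_⟩, fun h => ?_, fun {y z} h s => ?_,
    fun {C x} h c => ⟨fun q _ q0 => ?_, ?_⟩, fun h q _ => pr (A _) h q, fun h h' W d d' => ?_,
    fun z => ?_⟩
  · exact Nat.cast_eq_zero.1 ((nu h n).1 (e ▸ nu_zero))
  · refine charZero_of_inj_zero fun n e => by_contra fun n0 => ?_
    exact ((nu h n).2 e).2.elim (Nat.cast_ne_zero.2 n0) fun t => t (o n n0)
  · by_contra t
    exact Nat.cast_ne_zero.2 e ((nu h n).1 ⟨natCast_mem _ n, .inr t⟩)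
  · have := (A x).loc _ (pt (le_refl x))
    have := (A x).fin _ (pt (le_refl x)) ((cl (A x) _).1 c)
    exact Finite.of_equiv _ (card (le_refl x)).some
  · refine (cl (A x) (le_refl x)).2 fun t u => ?_
    obtain ⟨j, j0, e⟩ := isOfFinOrder_iff_pow_eq_one.1 (isOfFinOrder_of_finite (Units.mk0 t u.1))
    refine ⟨j, j0, ?_⟩
    rw [show t ^ j = 1 from congrArg Units.val e, sub_self]
    exact nu_zero
  · have := (A _).loc _ (pt h)
    rw [lg_eq, Nat.card_congr (card h).some]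
  · rw [← cl (A y) h, Ne, tp]
    have s2 : height y = 2 := s.1
    refine ⟨fun c => ⟨fun c' => ?_, fun t => ?_⟩, fun c => ?_⟩
    · exact one_ne_zero ((show height z = 1 from c).symm.trans c')
    · have e := height_mono t
      rw [s2, show height z = 1 from c] at e
      exact absurd e (by decide)
    · have e := height_add_one_le (lt_of_le_not_ge h c.2)
      rw [s2, ← one_add_one_eq_two, ENat.add_le_add_iff_right ENat.one_ne_top] at e
      exact le_antisymm e (Order.one_le_iff_ne_zero.2 c.1)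
  · obtain ⟨w, xw, h₂, e⟩ := pr (A C) h q
    have := (A C).loc _ (pt h)
    have m : IsMin w := height_eq_zero.1 (z0 c h₂ fun t =>
      q0 (((wLc _ _).top q ((A C).fr _ (pt h))).1 (e ▸ (tp h₂).2 t)))
    have l : lc _ q ≤ S.R h := e ▸ (S.le h₂ h).2 (m xw)
    have k : maximalIdeal (S.R h) ≤ q := fun a ha => by_contra fun n =>
      have u := (zb_ut a).2 n
      ha ((ut_iff a).1 ⟨u.1, a.2, l u.2.2⟩)
    rw [← (maximalIdeal.isMaximal _).eq_of_le (Ideal.IsPrime.ne_top ‹_›) k]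
    infer_instance
  · exact (em (C ≤ x)).imp (S.anti _ _ · h) (z0 c h)
  · exact S.anti _ _ ((S.le h' h).1 ((A _).mono _ _ _ _ (pt h') (pt h) d' d le_rfl))
      ((S.le h h').1 ((A _).mono _ _ _ _ (pt h) (pt h') d d' le_rfl))
  · obtain ⟨D, hD, a, -⟩ := (A z).up _ (A z).top
    obtain ⟨x, h, rfl⟩ := (S.pt z D).1 hD
    exact ⟨x, h, (cl (A z) h).2 a⟩

end Pool.Agent.MP_f3836a_nt.GQ
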